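import Pool.Agent.MP_1048c2_an.WDefs

section
/-!
Classification of the solutions of the capacitary problem: algebra of groups of Heisenberg type,
gradients in the two layers and the overdetermined system.
-/

set_option linter.unusedSectionVars false

namespace Pool.Agent.MP_1048c2_an.Cl

open Filter Topology Set Module
open scoped InnerProductSpace

variable {m k : ℕ} {H V : Type} [NormedAddCommGroup H] [InnerProductSpace ℝ H]
  [NormedAddCommGroup V] [InnerProductSpace ℝ V] [FiniteDimensional ℝ H] [FiniteDimensional ℝ V]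
  (G : HeisenbergType m k H V)

/-- the bracket as a continuous bilinear map -/
noncomputable def BL : H →L[ℝ] H →L[ℝ] V :=
  LinearMap.toContinuousLinearMap
    ((LinearMap.toContinuousLinearMap : (H →ₗ[ℝ] V) ≃ₗ[ℝ] H →L[ℝ] V).toLinearMap ∘ₗ
      LinearMap.mk₂ ℝ G.bracket (fun a b c => (G.bracket_linear_left c).map_add a b)
        (fun t a c => (G.bracket_linear_left c).map_smul t a)
        (fun a b c => (G.bracket_linear_right a).map_add b c)
        fun t a c => (G.bracket_linear_right a).map_smul t c)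

theorem BL_apply (z z' : H) : BL G z z' = G.bracket z z' := rfl

/-- the map `J` as a continuous bilinear map -/
noncomputable def JL : V →L[ℝ] H →L[ℝ] H :=
  LinearMap.toContinuousLinearMap
    ((LinearMap.toContinuousLinearMap : (H →ₗ[ℝ] H) ≃ₗ[ℝ] H →L[ℝ] H).toLinearMap ∘ₗ
      LinearMap.mk₂ ℝ G.J
        (fun a b c => ext_inner_right ℝ fun v => by simp only [G.inner_J, inner_add_left])
        (fun t a c => ext_inner_right ℝ fun v => by simp only [G.inner_J, real_inner_smul_left])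
        (fun a b c => ext_inner_right ℝ fun v => by
          simp only [G.inner_J, inner_add_left, ← BL_apply, map_add, inner_add_right,
            _root_.add_apply])
        fun t a c => ext_inner_right ℝ fun v => by
          simp only [G.inner_J, real_inner_smul_left, ← BL_apply, map_smul, real_inner_smul_right,
            _root_.smul_apply])

theorem JL_apply (μ : V) (z : H) : JL G μ z = G.J μ z := rfl

theorem inner_JL (μ : V) (z z' : H) : ⟪JL G μ z, z'⟫_ℝ = ⟪μ, BL G z z'⟫_ℝ := G.inner_J μ z z'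

theorem BL_self (z : H) : BL G z z = 0 := G.bracket_self z

theorem BL_swap (z z' : H) : BL G z z' = -BL G z' z := by
  have h := BL_self G (z + z')
  simp only [map_add, _root_.add_apply, BL_self, zero_add, add_zero] at h
  exact eq_neg_of_add_eq_zero_right h

theorem J_skew (μ : V) (z z' : H) : ⟪JL G μ z, z'⟫_ℝ = -⟪z, JL G μ z'⟫_ℝ := by
  rw [real_inner_comm (JL G μ z') z, inner_JL, inner_JL, BL_swap, inner_neg_right]

theorem inner_J_self (μ : V) (z : H) : ⟪JL G μ z, z⟫_ℝ = 0 := by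
  rw [inner_JL, BL_self, inner_zero_right]

theorem JJ (μ : V) (z : H) : JL G μ (JL G μ z) = -(‖μ‖ ^ 2) • z := G.J_J μ z

theorem cliff (μ ν : V) (z : H) :
    JL G μ (JL G ν z) + JL G ν (JL G μ z) = (-2 * ⟪μ, ν⟫_ℝ) • z := by
  have h := JJ G (μ + ν) z
  simp only [map_add, _root_.add_apply, JJ, norm_add_sq_real] at h
  linear_combination (norm := module) h

theorem inner_JJ (μ : V) (z z' : H) : ⟪JL G μ z, JL G μ z'⟫_ℝ = ‖μ‖ ^ 2 * ⟪z, z'⟫_ℝ := by
  rw [J_skew, JJ, real_inner_smul_right]; ring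

theorem norm_J_sq (μ : V) (z : H) : ‖JL G μ z‖ ^ 2 = ‖μ‖ ^ 2 * ‖z‖ ^ 2 := by
  rw [← real_inner_self_eq_norm_sq (JL G μ z), inner_JJ, real_inner_self_eq_norm_sq]

theorem BL_J (μ : V) (z : H) : BL G z (JL G μ z) = ‖z‖ ^ 2 • μ := by
  refine ext_inner_left ℝ fun ν => ?_
  have h := congrArg (fun y => ⟪z, y⟫_ℝ) (cliff G ν μ z)
  simp only [inner_add_right, real_inner_smul_right, real_inner_self_eq_norm_sq] at h
  have h1 := J_skew G ν z (JL G μ z)
  have h2 := J_skew G μ z (JL G ν z)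
  rw [real_inner_comm] at h2
  rw [← inner_JL, real_inner_smul_right]
  linarith

include G in
theorem finrank_H : finrank ℝ H = m := by
  simpa using finrank_eq_card_basis G.e.toBasis

include G in
theorem finrank_V : finrank ℝ V = k := by
  simpa using finrank_eq_card_basis G.ε.toBasis

include G in
theorem m_pos (hk : 0 < k) : 0 < m := by
  by_contra h
  have h0 : m = 0 := by omega
  have : Subsingleton H := finrank_zero_iff.1 ((finrank_H G).trans h0)
  have h1 : (⊤ : Submodule ℝ V) = ⊥ := by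
    rw [← G.bracket_span, Submodule.span_eq_bot]
    rintro σ ⟨z, z', rfl⟩
    rw [Subsingleton.elim z' z, G.bracket_self]
  have h2 : finrank ℝ V = 0 := by rw [← finrank_top, h1, finrank_bot]
  rw [finrank_V G] at h2
  omega

include G in
theorem m_even (hk : 0 < k) : Even m := by
  let T : H →ₗ[ℝ] H := JL G (G.ε ⟨0, hk⟩)
  have h1 : T * T = (-1 : ℝ) • (1 : H →ₗ[ℝ] H) := by
    ext z
    have := JJ G (G.ε ⟨0, hk⟩) z
    rw [G.ε.orthonormal.1] at this
    simpa [T] using this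
  have h2 := congrArg LinearMap.det h1
  rw [map_mul, LinearMap.det_smul, map_one, mul_one, finrank_H G] at h2
  by_contra h
  rw [(Nat.not_even_iff_odd.1 h).neg_one_pow] at h2
  nlinarith [mul_self_nonneg (LinearMap.det T)]

theorem hasFDerivAt_J {F : Type} [NormedAddCommGroup F] [NormedSpace ℝ F] {f : F → V} {g : F → H}
    {f' : F →L[ℝ] V} {g' : F →L[ℝ] H} {x : F} (hf : HasFDerivAt f f' x) (hg : HasFDerivAt g g' x) :
    HasFDerivAt (fun y => JL G (f y) (g y))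
      ((JL G (f x)).comp g' + ((JL G).flip (g x)).comp f') x :=
  ((JL G).hasFDerivAt_of_bilinear hf hg).congr_fderiv (by ext v; simp)

theorem hasFDerivAt_B {F : Type} [NormedAddCommGroup F] [NormedSpace ℝ F] {f g : F → H}
    {f' g' : F →L[ℝ] H} {x : F} (hf : HasFDerivAt f f' x) (hg : HasFDerivAt g g' x) :
    HasFDerivAt (fun y => BL G (f y) (g y))
      ((BL G (f x)).comp g' + ((BL G).flip (g x)).comp f') x :=
  ((BL G).hasFDerivAt_of_bilinear hf hg).congr_fderiv (by ext v; simp)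

theorem contDiffOn_J {F : Type} [NormedAddCommGroup F] [NormedSpace ℝ F] {f : F → V} {g : F → H}
    {n : WithTop ℕ∞} {s : Set F} (hf : ContDiffOn ℝ n f s) (hg : ContDiffOn ℝ n g s) :
    ContDiffOn ℝ n (fun y => JL G (f y) (g y)) s :=
  ((JL G).contDiff.comp_contDiffOn hf).clm_apply hg

theorem contDiffOn_B {F : Type} [NormedAddCommGroup F] [NormedSpace ℝ F] {f g : F → H}
    {n : WithTop ℕ∞} {s : Set F} (hf : ContDiffOn ℝ n f s) (hg : ContDiffOn ℝ n g s) :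
    ContDiffOn ℝ n (fun y => BL G (f y) (g y)) s :=
  ((BL G).contDiff.comp_contDiffOn hf).clm_apply hg

/-- the gradient in `z` -/
noncomputable def xi (u : H × V → ℝ) (x : H × V) : H := ∑ i, fderiv ℝ u x (G.e i, 0) • G.e i

/-- the gradient in `σ` -/
noncomputable def la (u : H × V → ℝ) (x : H × V) : V := ∑ l, fderiv ℝ u x (0, G.ε l) • G.ε l

/-- the horizontal gradient as a vector field -/
noncomputable def vf (u : H × V → ℝ) (x : H × V) : H × V :=
  (xi G u x + (1 / 2 : ℝ) • JL G (la G u x) x.1,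
    (1 / 2 : ℝ) • BL G x.1 (xi G u x) + (‖x.1‖ ^ 2 / 4) • la G u x)

theorem clm_eq (L : H × V →L[ℝ] ℝ) (v : H × V) :
    L v = ⟪∑ i, L (G.e i, 0) • G.e i, v.1⟫_ℝ + ⟪∑ l, L (0, G.ε l) • G.ε l, v.2⟫_ℝ := by
  have h : v = ∑ i, ⟪G.e i, v.1⟫_ℝ • ((G.e i, 0) : H × V) +
      ∑ l, ⟪G.ε l, v.2⟫_ℝ • ((0, G.ε l) : H × V) := by
    ext
    · simp [Prod.fst_sum, G.e.sum_repr']
    · simp [Prod.snd_sum, G.ε.sum_repr']
  conv_lhs => rw [h]
  simp only [map_add, map_sum, map_smul, sum_inner, real_inner_smul_left, smul_eq_mul, mul_comm]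

theorem fderiv_eq (u : H × V → ℝ) (x v : H × V) :
    fderiv ℝ u x v = ⟪xi G u x, v.1⟫_ℝ + ⟪la G u x, v.2⟫_ℝ := clm_eq G _ v

theorem xi_la_of {u : H × V → ℝ} {x : H × V} {ξ : H} {μ : V}
    (h : ∀ v : H × V, fderiv ℝ u x v = ⟪ξ, v.1⟫_ℝ + ⟪μ, v.2⟫_ℝ) :
    xi G u x = ξ ∧ la G u x = μ := by
  refine ⟨ext_inner_right ℝ fun a => ?_, ext_inner_right ℝ fun a => ?_⟩
  · simpa [fderiv_eq G] using h (a, 0)
  · simpa [fderiv_eq G] using h (0, a)

theorem xi_congr {u u' : H × V → ℝ} {x : H × V} (h : u =ᶠ[𝓝 x] u') : xi G u =ᶠ[𝓝 x] xi G u' :=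
  (h.fderiv (𝕜 := ℝ)).mono fun y hy => by simp only [xi, hy]

theorem la_congr {u u' : H × V → ℝ} {x : H × V} (h : u =ᶠ[𝓝 x] u') : la G u =ᶠ[𝓝 x] la G u' :=
  (h.fderiv (𝕜 := ℝ)).mono fun y hy => by simp only [la, hy]

theorem contDiffOn_xi {u : H × V → ℝ} {W : Set (H × V)} {n n' : WithTop ℕ∞} (hW : IsOpen W)
    (hu : ContDiffOn ℝ n' u W) (hn : n + 1 ≤ n') : ContDiffOn ℝ n (xi G u) W :=
  ContDiffOn.sum fun _ _ =>
    ((hu.fderiv_of_isOpen hW hn).clm_apply contDiffOn_const).smul contDiffOn_const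

theorem contDiffOn_la {u : H × V → ℝ} {W : Set (H × V)} {n n' : WithTop ℕ∞} (hW : IsOpen W)
    (hu : ContDiffOn ℝ n' u W) (hn : n + 1 ≤ n') : ContDiffOn ℝ n (la G u) W :=
  ContDiffOn.sum fun _ _ =>
    ((hu.fderiv_of_isOpen hW hn).clm_apply contDiffOn_const).smul contDiffOn_const

theorem contDiffOn_vf {u : H × V → ℝ} {W : Set (H × V)} {n n' : WithTop ℕ∞} (hW : IsOpen W)
    (hu : ContDiffOn ℝ n' u W) (hn : n + 1 ≤ n') : ContDiffOn ℝ n (vf G u) W := by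
  have h1 := contDiffOn_xi G hW hu hn
  have h2 := contDiffOn_la G hW hu hn
  have h3 : ContDiffOn ℝ n (fun x : H × V => ‖x.1‖ ^ 2 / 4) W :=
    (contDiffOn_fst.norm_sq ℝ).div_const _
  exact (h1.add ((contDiffOn_J G h2 contDiffOn_fst).const_smul _)).prodMk
    (((contDiffOn_B G contDiffOn_fst h1).const_smul _).add (h3.smul h2))

/-- symmetry of the second derivative -/
theorem symm2 {u : H × V → ℝ} {x : H × V} (hu : ContDiffAt ℝ 2 u x) (v v' : H × V) :
    ⟪fderiv ℝ (xi G u) x v, v'.1⟫_ℝ + ⟪fderiv ℝ (la G u) x v, v'.2⟫_ℝ =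
      ⟪fderiv ℝ (xi G u) x v', v.1⟫_ℝ + ⟪fderiv ℝ (la G u) x v', v.2⟫_ℝ := by
  have h1 : HasFDerivAt (fderiv ℝ u) (fderiv ℝ (fderiv ℝ u) x) x :=
    ((hu.fderiv_right (m := 1) (by norm_num)).differentiableAt (by norm_num)).hasFDerivAt
  have h2 : ∀ w, fderiv ℝ (xi G u) x w = ∑ i, fderiv ℝ (fderiv ℝ u) x w (G.e i, 0) • G.e i := by
    intro w
    have := (HasFDerivAt.fun_sum (u := Finset.univ) fun i _ =>
      (h1.clm_apply (hasFDerivAt_const ((G.e i, 0) : H × V) x)).smul_const (G.e i)).fderiv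
    rw [show xi G u = fun y => ∑ i, fderiv ℝ u y (G.e i, 0) • G.e i from rfl, this]
    simp
  have h3 : ∀ w, fderiv ℝ (la G u) x w = ∑ l, fderiv ℝ (fderiv ℝ u) x w (0, G.ε l) • G.ε l := by
    intro w
    have := (HasFDerivAt.fun_sum (u := Finset.univ) fun i _ =>
      (h1.clm_apply (hasFDerivAt_const ((0, G.ε i) : H × V) x)).smul_const (G.ε i)).fderiv
    rw [show la G u = fun y => ∑ i, fderiv ℝ u y (0, G.ε i) • G.ε i from rfl, this]
    simp
  rw [h2, h2, h3, h3, ← clm_eq G, ← clm_eq G]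
  exact hu.isSymmSndFDerivAt (by simp) v v'

theorem trace_eq (L : H × V →L[ℝ] H × V) :
    LinearMap.trace ℝ (H × V) L =
      ∑ i, ⟪G.e i, (L (G.e i, 0)).1⟫_ℝ + ∑ l, ⟪G.ε l, (L (0, G.ε l)).2⟫_ℝ := by
  rw [LinearMap.trace_eq_matrix_trace ℝ (G.e.toBasis.prod G.ε.toBasis), Matrix.trace,
    Fintype.sum_sum_type]
  simp [LinearMap.toMatrix_apply, OrthonormalBasis.repr_apply_apply, Basis.prod_apply]

include G in
/-- determinant of a block triangular map with scalar blocks -/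
theorem det_shear (a b : ℝ) (T : H →L[ℝ] V) (L : H × V →L[ℝ] H × V)
    (hL : ∀ v, L v = (a • v.1, b • v.2 + T v.1)) : L.det = a ^ m * b ^ k := by
  rw [ContinuousLinearMap.det, ← LinearMap.det_toMatrix (G.e.toBasis.prod G.ε.toBasis)]
  have : LinearMap.toMatrix (G.e.toBasis.prod G.ε.toBasis) (G.e.toBasis.prod G.ε.toBasis)
      (L : H × V →ₗ[ℝ] H × V) = Matrix.fromBlocks (a • 1) 0
        (LinearMap.toMatrix G.e.toBasis G.ε.toBasis T) (b • 1) := by
    ext (i | i) (j | j) <;>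
      simp [LinearMap.toMatrix_apply, hL, Basis.prod_apply, Matrix.one_apply]
  rw [this, Matrix.det_fromBlocks_zero₁₂]
  simp

/-- the overdetermined system for `u` on an open set that avoids the centre -/
structure Sys (p : ℝ) (W : Set (H × V)) (u : H × V → ℝ) : Prop where
  op : IsOpen W
  nz : ∀ x ∈ W, x.1 ≠ 0
  sm : ContDiffOn ℝ 3 u W
  pos : ∀ x ∈ W, 0 < u x
  eik : ∀ x ∈ W, ‖(vf G u x).1‖ ^ 2 = 4 * ‖x.1‖ ^ 2
  dv : ∀ x ∈ W, LinearMap.trace ℝ (H × V) (fderiv ℝ (vf G u) x) =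
    2 * (homDim m k + p - 2) * ‖x.1‖ ^ 2 / u x - (p - 2) * ⟪x.1, xi G u x⟫_ℝ / ‖x.1‖ ^ 2

variable {G} {p : ℝ} {W : Set (H × V)} {u : H × V → ℝ} {x : H × V}

theorem Sys.mono (h : Sys G p W u) {W' : Set (H × V)} (h1 : IsOpen W') (h2 : W' ⊆ W) :
    Sys G p W' u :=
  ⟨h1, fun x hx => h.nz x (h2 hx), h.sm.mono h2, fun x hx => h.pos x (h2 hx),
    fun x hx => h.eik x (h2 hx), fun x hx => h.dv x (h2 hx)⟩

theorem Sys.sm_xi (h : Sys G p W u) : ContDiffOn ℝ 2 (xi G u) W :=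
  contDiffOn_xi G h.op h.sm (by norm_num)

theorem Sys.sm_la (h : Sys G p W u) : ContDiffOn ℝ 2 (la G u) W :=
  contDiffOn_la G h.op h.sm (by norm_num)

theorem Sys.sm_vf (h : Sys G p W u) : ContDiffOn ℝ 2 (vf G u) W :=
  contDiffOn_vf G h.op h.sm (by norm_num)

theorem Sys.d_u (h : Sys G p W u) (hx : x ∈ W) : HasFDerivAt u (fderiv ℝ u x) x :=
  ((h.sm.contDiffAt (h.op.mem_nhds hx)).differentiableAt (by norm_num)).hasFDerivAt

theorem Sys.d_xi (h : Sys G p W u) (hx : x ∈ W) : HasFDerivAt (xi G u) (fderiv ℝ (xi G u) x) x :=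
  ((h.sm_xi.contDiffAt (h.op.mem_nhds hx)).differentiableAt (by norm_num)).hasFDerivAt

theorem Sys.d_la (h : Sys G p W u) (hx : x ∈ W) : HasFDerivAt (la G u) (fderiv ℝ (la G u) x) x :=
  ((h.sm_la.contDiffAt (h.op.mem_nhds hx)).differentiableAt (by norm_num)).hasFDerivAt

theorem Sys.symm (h : Sys G p W u) (hx : x ∈ W) (v v' : H × V) :
    ⟪fderiv ℝ (xi G u) x v, v'.1⟫_ℝ + ⟪fderiv ℝ (la G u) x v, v'.2⟫_ℝ =
      ⟪fderiv ℝ (xi G u) x v', v.1⟫_ℝ + ⟪fderiv ℝ (la G u) x v', v.2⟫_ℝ :=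
  symm2 G ((h.sm.contDiffAt (h.op.mem_nhds hx)).of_le (by norm_num)) v v'

theorem vf_snd (u : H × V → ℝ) (x : H × V) :
    (vf G u x).2 = (1 / 2 : ℝ) • BL G x.1 (vf G u x).1 := by
  simp only [vf, map_add, map_smul, BL_J]
  module

theorem fderiv_vf (u φ : H × V → ℝ) (x : H × V) :
    fderiv ℝ φ x (vf G u x) = ⟪(vf G φ x).1, (vf G u x).1⟫_ℝ := by
  rw [fderiv_eq G, vf_snd, real_inner_smul_right, ← inner_JL]
  simp only [vf, inner_add_left, real_inner_smul_left]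

/-- the eikonal equation, expanded -/
theorem Sys.eik' (h : Sys G p W u) (hx : x ∈ W) :
    ‖xi G u x‖ ^ 2 + ⟪JL G (la G u x) x.1, xi G u x⟫_ℝ = (4 - ‖la G u x‖ ^ 2 / 4) * ‖x.1‖ ^ 2 := by
  have h1 := h.eik x hx
  simp only [vf, norm_add_sq_real, norm_smul, mul_pow, norm_J_sq, real_inner_smul_right,
    Real.norm_eq_abs, sq_abs] at h1
  rw [real_inner_comm] at h1
  linarith

theorem Sys.du_vf (h : Sys G p W u) (hx : x ∈ W) : fderiv ℝ u x (vf G u x) = 4 * ‖x.1‖ ^ 2 := by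
  rw [fderiv_vf, real_inner_self_eq_norm_sq, h.eik x hx]

/-- the Hamilton equations for the momenta -/
theorem Sys.ham (h : Sys G p W u) (hx : x ∈ W) :
    fderiv ℝ (la G u) x (vf G u x) = 0 ∧ fderiv ℝ (xi G u) x (vf G u x) =
      (1 / 2 : ℝ) • JL G (la G u x) (xi G u x) + (4 - ‖la G u x‖ ^ 2 / 4) • x.1 := by
  have h1 := (((h.d_xi hx).add ((hasFDerivAt_J G (h.d_la hx)
    (hasFDerivAt_fst (p := x))).const_smul (1 / 2 : ℝ))).norm_sq).sub
      ((hasFDerivAt_fst (𝕜 := ℝ) (p := x)).norm_sq.const_mul 4)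
  have h2 : (fun y => ‖(vf G u y).1‖ ^ 2 - 4 * ‖y.1‖ ^ 2) =ᶠ[𝓝 x] fun _ => 0 :=
    mem_of_superset (h.op.mem_nhds hx) fun y hy => sub_eq_zero.2 (h.eik y hy)
  have h3 := h1.unique ((hasFDerivAt_const (0 : ℝ) x).congr_of_eventuallyEq h2)
  have h4 : ∀ v : H × V, ⟪fderiv ℝ (xi G u) x (vf G u x), v.1⟫_ℝ +
      ⟪fderiv ℝ (la G u) x (vf G u x), v.2⟫_ℝ =
      ⟪(1 / 2 : ℝ) • JL G (la G u x) (vf G u x).1 + (4 : ℝ) • x.1, v.1⟫_ℝ := by
    intro v
    have h5 := congrArg (fun L : H × V →L[ℝ] ℝ => L v) h3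
    simp only [_root_.sub_apply, _root_.smul_apply,
      ContinuousLinearMap.comp_apply, _root_.add_apply, innerSL_apply_apply,
      ContinuousLinearMap.flip_apply, ContinuousLinearMap.coe_fst', _root_.zero_apply,
      Pi.add_apply, Pi.smul_apply, smul_eq_mul, nsmul_eq_mul, Nat.cast_ofNat] at h5
    change 2 * ⟪(vf G u x).1, _⟫_ℝ - _ = 0 at h5
    rw [h.symm hx, vf_snd, real_inner_smul_right, ← inner_JL, inner_add_left, real_inner_smul_left,
      real_inner_smul_left, J_skew G _ (vf G u x).1, real_inner_comm (vf G u x).1,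
      real_inner_comm (vf G u x).1]
    simp only [inner_add_right, real_inner_smul_right] at h5
    linarith
  refine ⟨ext_inner_right ℝ fun a => by simpa using h4 (0, a), ext_inner_right ℝ fun a => ?_⟩
  have h6 := h4 (a, 0)
  simp only [inner_zero_right, add_zero] at h6
  rw [h6]
  congr 1
  simp only [vf, map_add, map_smul, JJ]
  module

end Pool.Agent.MP_1048c2_an.Cl

end

section
/-!
The explicit characteristics and the statements of the steps of the classification.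
-/

set_option linter.unusedSectionVars false

namespace Pool.Agent.MP_1048c2_an.Cl

open Filter Topology Set Module
open scoped InnerProductSpace

/-- real functions with an entire extension -/
def Ent : Subalgebra ℝ (ℝ → ℝ) where
  carrier := {g | ∃ F : ℂ → ℂ, Differentiable ℂ F ∧ ∀ t : ℝ, F t = g t}
  mul_mem' := by
    rintro f g ⟨F, h1, h2⟩ ⟨F', h3, h4⟩
    exact ⟨F * F', h1.mul h3, fun t => by simp [h2, h4]⟩
  add_mem' := by
    rintro f g ⟨F, h1, h2⟩ ⟨F', h3, h4⟩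
    exact ⟨F + F', h1.add h3, fun t => by simp [h2, h4]⟩
  algebraMap_mem' c := ⟨fun _ => c, differentiable_const _, fun t => by simp⟩

/-- functions of `(t, w)` that are polynomial in `t`, `w` and `w⁻¹` -/
def LP : Subalgebra ℝ (ℝ × ℝ → ℝ) :=
  Algebra.adjoin ℝ {fun y => y.1, fun y => y.2, fun y => y.2⁻¹}

section mem

variable {X F F' : Type} [NormedAddCommGroup F] [NormedSpace ℝ F] [NormedAddCommGroup F']
  [NormedSpace ℝ F'] {S : Subalgebra ℝ (X → ℝ)}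

/-- vector valued functions all of whose coordinates lie in `S` -/
def Vm (S : Subalgebra ℝ (X → ℝ)) (g : X → F) : Prop :=
  ∀ φ : F →L[ℝ] ℝ, (fun x => φ (g x)) ∈ S

theorem Vm.const (v : F) : Vm S fun _ => v := fun φ => S.algebraMap_mem (φ v)

theorem Vm.add {f g : X → F} (hf : Vm S f) (hg : Vm S g) : Vm S fun x => f x + g x := fun φ => by
  simp only [map_add]; exact S.add_mem (hf φ) (hg φ)

theorem Vm.sub {f g : X → F} (hf : Vm S f) (hg : Vm S g) : Vm S fun x => f x - g x := fun φ => by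
  simp only [map_sub]; exact S.sub_mem (hf φ) (hg φ)

theorem Vm.smul {f : X → ℝ} {g : X → F} (hf : f ∈ S) (hg : Vm S g) :
    Vm S fun x => f x • g x := fun φ => by
  simp only [map_smul, smul_eq_mul]; exact S.mul_mem hf (hg φ)

theorem Vm.prod {f : X → F} {g : X → F'} (hf : Vm S f) (hg : Vm S g) :
    Vm S fun x => (f x, g x) := fun φ => by
  have : (fun x => φ (f x, g x)) = (fun x => (φ.comp (.inl ℝ F F')) (f x)) +
      fun x => (φ.comp (.inr ℝ F F')) (g x) := by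
    funext x; simp [← map_add]
  rw [this]; exact S.add_mem (hf _) (hg _)

theorem det_mem [FiniteDimensional ℝ F] {Y : X → F →L[ℝ] F} (h : ∀ v, Vm S fun x => Y x v) :
    (fun x => (Y x).det) ∈ S := by
  classical
  let b := Module.finBasis ℝ F
  have : (fun x => (Y x).det) = ∑ σ : Equiv.Perm (Fin (finrank ℝ F)), ((Equiv.Perm.sign σ : ℤ) : ℝ) •
      ∏ i, fun x => LinearMap.toContinuousLinearMap (b.coord (σ i)) (Y x (b i)) := by
    funext x
    simp [ContinuousLinearMap.det, ← LinearMap.det_toMatrix b, Matrix.det_apply',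
      LinearMap.toMatrix_apply]
  rw [this]
  exact S.sum_mem fun σ _ => S.smul_mem (S.prod_mem fun i _ => h _ _) _

end mem

/-- the squared length of `z` along a characteristic -/
noncomputable def rr (A B c κ τ : ℝ) : ℝ :=
  A * Real.exp (2 * κ * τ) + 2 * c + B * Real.exp (-(2 * κ * τ))

/-- the difference of the two exponential terms -/
noncomputable def dd (A B κ τ : ℝ) : ℝ := A * Real.exp (2 * κ * τ) - B * Real.exp (-(2 * κ * τ))

/-- the value of `u` along a characteristic -/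
noncomputable def uu (U A B c κ τ : ℝ) : ℝ := U + 8 * c * τ + 2 / κ * (dd A B κ τ - (A - B))

/-- the equation of the Jacobian along a characteristic -/
def JI (Q p U A B c κ : ℝ) (j : ℝ → ℝ) : Prop :=
  j ∈ Ent ∧ j 0 = 1 ∧ ∃ ε > 0, ∀ τ ∈ Ioo (-ε) ε, 0 < uu U A B c κ τ ∧ rr A B c κ τ ≠ 0 ∧
    HasDerivAt j (j τ * (2 * (Q + p - 2) * rr A B c κ τ / uu U A B c κ τ -
      (p - 2) * (κ * dd A B κ τ) / rr A B c κ τ)) τ

/-- data of a family of curves in separated form -/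
structure Sd (H V : Type) : Type where
  κ : H × V → ℝ
  ℓ : H × V → ℝ
  a : H × V → H
  a' : H × V → H
  b : H × V → H
  b' : H × V → H
  s : H × V → V
  g1 : H × V → V
  g2 : H × V → V
  g3 : H × V → V
  g4 : H × V → V
  g5 : H × V → V

variable {m k : ℕ} {H V : Type} [NormedAddCommGroup H] [InnerProductSpace ℝ H]
  [NormedAddCommGroup V] [InnerProductSpace ℝ V] [FiniteDimensional ℝ H] [FiniteDimensional ℝ V]

namespace Sd

variable (d : Sd H V)

/-- the growing part -/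
noncomputable def za (τ : ℝ) (x : H × V) : H := Real.exp (d.κ x * τ) •
  (Real.cos (d.ℓ x * τ / 2) • d.a x + Real.sin (d.ℓ x * τ / 2) • d.a' x)

/-- the decaying part -/
noncomputable def zb (τ : ℝ) (x : H × V) : H := Real.exp (-(d.κ x * τ)) •
  (Real.cos (d.ℓ x * τ / 2) • d.b x + Real.sin (d.ℓ x * τ / 2) • d.b' x)

/-- the first coordinate -/
noncomputable def Z (τ : ℝ) (x : H × V) : H := d.za τ x + d.zb τ x

/-- the momentum -/
noncomputable def Xi (τ : ℝ) (x : H × V) : H := d.κ x • (d.za τ x - d.zb τ x)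

/-- the second coordinate -/
noncomputable def S (τ : ℝ) (x : H × V) : V :=
  d.s x + (Real.cos (d.ℓ x * τ / 2) * Real.sin (d.ℓ x * τ / 2)) • d.g1 x +
    Real.sin (d.ℓ x * τ / 2) ^ 2 • d.g2 x + τ • d.g3 x + Real.exp (d.κ x * τ) ^ 2 • d.g4 x -
    Real.exp (-(d.κ x * τ)) ^ 2 • d.g5 x

/-- the Jacobian -/
noncomputable def jac (x : H × V) (τ : ℝ) : ℝ := (fderiv ℝ (fun y => (d.Z τ y, d.S τ y)) x).det

/-- the differential at the times when the rotation is trivial -/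
noncomputable def Pm (x : H × V) (t w : ℝ) : H × V →L[ℝ] H × V :=
  (w • fderiv ℝ d.a x + w⁻¹ • fderiv ℝ d.b x +
    t • ((fderiv ℝ d.κ x).smulRight (w • d.a x - w⁻¹ • d.b x) +
      (1 / 2 : ℝ) • (fderiv ℝ d.ℓ x).smulRight (w • d.a' x + w⁻¹ • d.b' x))).prod
  (fderiv ℝ d.s x + t • ((1 / 2 : ℝ) • (fderiv ℝ d.ℓ x).smulRight (d.g1 x) + fderiv ℝ d.g3 x) +
    w ^ 2 • (fderiv ℝ d.g4 x + (2 * t) • (fderiv ℝ d.κ x).smulRight (d.g4 x)) -
    w⁻¹ ^ 2 • (fderiv ℝ d.g5 x - (2 * t) • (fderiv ℝ d.κ x).smulRight (d.g5 x)))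

/-- all data are of class two -/
structure Sm (W : Set (H × V)) : Prop where
  κ : ContDiffOn ℝ 2 d.κ W
  ℓ : ContDiffOn ℝ 2 d.ℓ W
  a : ContDiffOn ℝ 2 d.a W
  a' : ContDiffOn ℝ 2 d.a' W
  b : ContDiffOn ℝ 2 d.b W
  b' : ContDiffOn ℝ 2 d.b' W
  s : ContDiffOn ℝ 2 d.s W
  g1 : ContDiffOn ℝ 2 d.g1 W
  g2 : ContDiffOn ℝ 2 d.g2 W
  g3 : ContDiffOn ℝ 2 d.g3 W
  g4 : ContDiffOn ℝ 2 d.g4 W
  g5 : ContDiffOn ℝ 2 d.g5 W

end Sd

variable (G : HeisenbergType m k H V)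

/-- the Hamilton equations with vertical momentum `μ` -/
def Ham (μ : V) (Z Ξ : ℝ → H) (S : ℝ → V) : Prop :=
  ∀ τ, HasDerivAt Z (Ξ τ + (1 / 2 : ℝ) • JL G μ (Z τ)) τ ∧
    HasDerivAt S ((1 / 2 : ℝ) • BL G (Z τ) (Ξ τ) + (‖Z τ‖ ^ 2 / 4) • μ) τ ∧
    HasDerivAt Ξ ((1 / 2 : ℝ) • JL G μ (Ξ τ) + (4 - ‖μ‖ ^ 2 / 4) • Z τ) τ

/-- the curves of `d` are the characteristics of `u` -/
def Flow (u : H × V → ℝ) (W : Set (H × V)) (d : Sd H V) : Prop :=
  ∀ x ∈ W, 0 < d.κ x ∧ d.Z 0 x = x.1 ∧ d.S 0 x = x.2 ∧ d.Xi 0 x = xi G u x ∧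
    Ham G (la G u x) (fun τ => d.Z τ x) (fun τ => d.Xi τ x) (fun τ => d.S τ x) ∧
    ∀ τ, ‖d.Z τ x‖ ^ 2 = rr (‖d.a x‖ ^ 2) (‖d.b x‖ ^ 2) ⟪d.a x, d.b x⟫_ℝ (d.κ x) τ ∧
      ⟪d.Z τ x, d.Xi τ x⟫_ℝ = d.κ x * dd (‖d.a x‖ ^ 2) (‖d.b x‖ ^ 2) (d.κ x) τ

section concrete

variable (u : H × V → ℝ) (x : H × V)

/-- the rate of growth -/
noncomputable def kap : ℝ := √(4 - ‖la G u x‖ ^ 2 / 4)

/-- the growing component of `z` -/
noncomputable def fa : H := (1 / 2 : ℝ) • (x.1 + (kap G u x)⁻¹ • xi G u x)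

/-- the decaying component of `z` -/
noncomputable def fb : H := (1 / 2 : ℝ) • (x.1 - (kap G u x)⁻¹ • xi G u x)

/-- the growing component of `σ` -/
noncomputable def g4 : V := (‖fa G u x‖ ^ 2 / (8 * kap G u x)) • la G u x

/-- the decaying component of `σ` -/
noncomputable def g5 : V := (‖fb G u x‖ ^ 2 / (8 * kap G u x)) • la G u x

/-- the bounded component of `σ` -/
noncomputable def fs : V := x.2 - g4 G u x + g5 G u x

/-- the constant term of `u` along the characteristic -/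
noncomputable def u0 : ℝ := u x - 2 / kap G u x * (‖fa G u x‖ ^ 2 - ‖fb G u x‖ ^ 2)

/-- the derivative of `μ ↦ μ / (4 κ)` -/
noncomputable def Mq : V →L[ℝ] V := (1 / (4 * kap G u x)) • ContinuousLinearMap.id ℝ V +
  (1 / (16 * kap G u x ^ 3)) • (innerSL ℝ (la G u x)).smulRight (la G u x)

/-- the reduced differential of the bounded component -/
noncomputable def sg : H × V →L[ℝ] V := fderiv ℝ (fs G u) x + (1 / (4 * kap G u x)) •
  ((innerSL ℝ (fb G u x)).comp (fderiv ℝ (fa G u) x) -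
    (innerSL ℝ (fa G u x)).comp (fderiv ℝ (fb G u) x)).smulRight (la G u x)

/-- the `z` gradient of `N - |z|^4` -/
noncomputable def Fz (N : H × V → ℝ) (x : H × V) : H := xi G N x - (4 * ‖x.1‖ ^ 2) • x.1

/-- the square of the eigenvalues of the Hessian of `N - |z|^4` -/
noncomputable def psi (N : H × V → ℝ) (x : H × V) : ℝ :=
  16 * (N x - ‖la G N x‖ ^ 2 / 64 - ‖x.1‖ ^ 4 - ⟪x.1, Fz G N x⟫_ℝ / 2)

end concrete

/-- the characteristics where the vertical momentum is not zero -/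
noncomputable def d1 (u : H × V → ℝ) : Sd H V where
  κ := kap G u
  ℓ x := ‖la G u x‖
  a := fa G u
  a' x := ‖la G u x‖⁻¹ • JL G (la G u x) (fa G u x)
  b := fb G u
  b' x := ‖la G u x‖⁻¹ • JL G (la G u x) (fb G u x)
  s := fs G u
  g1 x := (-(2 * kap G u x / ‖la G u x‖)) • BL G (fa G u x) (fb G u x) -
    (4 * kap G u x ^ 2 * ⟪fa G u x, fb G u x⟫_ℝ / ‖la G u x‖ ^ 3) • la G u x
  g2 x := (-(2 * kap G u x / ‖la G u x‖ ^ 2)) •
    (BL G (JL G (la G u x) (fa G u x)) (fb G u x) + ⟪fa G u x, fb G u x⟫_ℝ • la G u x)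
  g3 x := (8 * ⟪fa G u x, fb G u x⟫_ℝ / ‖la G u x‖ ^ 2) • la G u x
  g4 := g4 G u
  g5 := g5 G u

/-- the characteristics where the vertical momentum vanishes identically -/
noncomputable def d0 (u : H × V → ℝ) : Sd H V where
  κ _ := 2
  ℓ _ := 0
  a := fa G u
  a' _ := 0
  b := fb G u
  b' _ := 0
  s x := x.2
  g1 _ := 0
  g2 _ := 0
  g3 x := (-2 : ℝ) • BL G (fa G u x) (fb G u x)
  g4 _ := 0
  g5 _ := 0

/-- the points with small vertical momentum -/
def Ws (u : H × V → ℝ) (W : Set (H × V)) : Set (H × V) := {x ∈ W | ‖la G u x‖ < 4}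

/-- the points with small nonzero vertical momentum -/
def W1 (u : H × V → ℝ) (W : Set (H × V)) : Set (H × V) :=
  {x ∈ W | ‖la G u x‖ < 4 ∧ la G u x ≠ 0}

/-- the determinant identity for `p = 2` -/
def DetId (u : H × V → ℝ) (d : Sd H V) (x : H × V) (n : ℕ) (t w : ℝ) : Prop :=
  (d.Pm x t w).det * u x ^ n = (u x + 8 * ⟪d.a x, d.b x⟫_ℝ * t + 2 / d.κ x *
    (‖d.a x‖ ^ 2 * w ^ 2 - ‖d.b x‖ ^ 2 * w⁻¹ ^ 2 - (‖d.a x‖ ^ 2 - ‖d.b x‖ ^ 2))) ^ n

/-- the relations between the differentials for `p = 2` -/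
def Rel (u : H × V → ℝ) (x : H × V) : Prop :=
  (∀ h, ∃ v, fderiv ℝ (fa G u) x v = h) ∧
  (∀ v, sg G u x v = (kap G u x * u0 G u x / 4) • Mq G u x (fderiv ℝ (la G u) x v)) ∧
  ∃ β : H →L[ℝ] H, (∀ h h', ⟪β h, h'⟫_ℝ = ⟪h, β h'⟫_ℝ) ∧
    (∀ v, fderiv ℝ (fb G u) x v = β (fderiv ℝ (fa G u) x v)) ∧
    ∀ h, β (β h) = (kap G u x * u0 G u x / (2 * ‖fa G u x‖ ^ 2)) • β h +
      (‖fb G u x‖ ^ 2 / ‖fa G u x‖ ^ 2) • h

/-- the equations for `N = u ^ 2` in the case that is not radial -/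
structure Phys (W : Set (H × V)) (N : H × V → ℝ) : Prop where
  op : IsOpen W
  sm : ContDiffOn ℝ 3 N W
  p1 : ∀ x ∈ W, ∀ v, fderiv ℝ (la G N) x v = (32 : ℝ) • v.2
  p2 : ∀ x ∈ W, fderiv ℝ (Fz G N) x (x.1, 0) = Fz G N x
  p3 : ∀ x ∈ W, ∀ h, fderiv ℝ (Fz G N) x (fderiv ℝ (Fz G N) x (h, 0), 0) = psi G N x • h
  pos : ∀ x ∈ W, 0 < psi G N x
  e2 : ∀ x ∈ W, ⟪JL G (la G N x) x.1, xi G N x⟫_ℝ = 0
  tr : ∀ x ∈ W, ∑ i, ⟪G.e i, fderiv ℝ (Fz G N) x (G.e i, 0)⟫_ℝ = 0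

/-- a symmetric involution of trace zero that commutes with `J` -/
def Inv (A : H →L[ℝ] H) : Prop :=
  (∀ z z', ⟪A z, z'⟫_ℝ = ⟪z, A z'⟫_ℝ) ∧ (∀ z, A (A z) = z) ∧ ∑ i, ⟪G.e i, A (G.e i)⟫_ℝ = 0 ∧
    ∀ μ z, A (JL G μ z) = JL G μ (A z)

/-- `u` is locally the square of a gauge centred on the centre -/
def Gau (u : H × V → ℝ) (x : H × V) : Prop :=
  ∃ σ₀ : V, ∀ᶠ y in 𝓝 x, u y ^ 2 = ‖y.1‖ ^ 4 + 16 * ‖y.2 - σ₀‖ ^ 2

/-- the power of the potential that solves the eikonal equation -/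
noncomputable def uf (m k : ℕ) (p R : ℝ) (f : H × V → ℝ) (x : H × V) : ℝ :=
  R ^ 2 * f x ^ (-(2 * (p - 1) / (homDim m k - p)))

/-- the exterior of `Ω` without the centre -/
def U0 (Ω : Set (H × V)) : Set (H × V) := (closure Ω)ᶜ ∩ {x | x.1 ≠ 0}

/-- the quartic of the counterexample -/
noncomputable def NA (A : H →L[ℝ] H) (x : H × V) : ℝ :=
  ‖x.1‖ ^ 4 - 2 * ⟪A x.1, x.1⟫_ℝ + 1 + 16 * ‖x.2‖ ^ 2

/-- solutions of the Hamilton equations stay on the graph of the gradient -/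
def Ch1St : Prop :=
  ∀ (p : ℝ) (W : Set (H × V)) (u : H × V → ℝ) (x : H × V) (Z Ξ : ℝ → H) (S : ℝ → V) (ε : ℝ),
    Sys G p W u → Z 0 = x.1 → S 0 = x.2 → Ξ 0 = xi G u x → Ham G (la G u x) Z Ξ S →
    (∀ τ ∈ Ioo (-ε) ε, (Z τ, S τ) ∈ W) →
    ∀ τ ∈ Ioo (-ε) ε, xi G u (Z τ, S τ) = Ξ τ ∧ la G u (Z τ, S τ) = la G u x

/-- the formula of Liouville -/
def Ch2St : Prop :=
  ∀ (F : Type) [NormedAddCommGroup F] [NormedSpace ℝ F] [FiniteDimensional ℝ F] (Φ : ℝ × F → F)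
    (v : F → F) (W : Set F) (x : F) (ε : ℝ), IsOpen W → x ∈ W → ContDiffOn ℝ 2 Φ (univ ×ˢ W) →
    (∀ y ∈ W, ∀ τ ∈ Ioo (-ε) ε, HasDerivAt (fun t => Φ (t, y)) (v (Φ (τ, y))) τ) →
    (∀ τ ∈ Ioo (-ε) ε, DifferentiableAt ℝ v (Φ (τ, x))) →
    ∀ τ ∈ Ioo (-ε) ε, HasDerivAt (fun t => (fderiv ℝ (fun y => Φ (t, y)) x).det)
      ((fderiv ℝ (fun y => Φ (τ, y)) x).det * LinearMap.trace ℝ F (fderiv ℝ v (Φ (τ, x)))) τ

variable (H V) in
/-- the differential of a family in separated form -/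
def SepSt : Prop :=
  ∀ (d : Sd H V) (W : Set (H × V)), IsOpen W → d.Sm W →
    ContDiffOn ℝ 2 (fun y : ℝ × H × V => (d.Z y.1 y.2, d.S y.1 y.2)) (univ ×ˢ W) ∧
    ∀ x ∈ W, d.jac x ∈ Ent ∧ ∀ τ, Real.cos (d.ℓ x * τ / 2) = 1 → Real.sin (d.ℓ x * τ / 2) = 0 →
      fderiv ℝ (fun y => (d.Z τ y, d.S τ y)) x = d.Pm x τ (Real.exp (d.κ x * τ))

/-- the equation of the Jacobian -/
def ChSt : Prop :=
  ∀ (p : ℝ) (W : Set (H × V)) (u : H × V → ℝ) (d : Sd H V), Sys G p W u → d.Sm W →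
    Flow G u W d → ∀ x ∈ W,
      JI (homDim m k) p (u x) (‖d.a x‖ ^ 2) (‖d.b x‖ ^ 2) ⟪d.a x, d.b x⟫_ℝ (d.κ x) (d.jac x)

/-- the explicit characteristics -/
def Ode1St : Prop :=
  ∀ (p : ℝ) (W : Set (H × V)) (u : H × V → ℝ), Sys G p W u →
    (d1 G u).Sm (W1 G u W) ∧ Flow G u (W1 G u W) (d1 G u)

/-- the explicit characteristics in the degenerate case -/
def Ode0St : Prop :=
  ∀ (p : ℝ) (W : Set (H × V)) (u : H × V → ℝ), Sys G p W u → (∀ x ∈ W, la G u x = 0) →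
    (d0 G u).Sm W ∧ Flow G u W (d0 G u)

/-- complex zeros of `|z|^2` exclude `p ≠ 2` -/
def ZeroSt : Prop :=
  ∀ (Q p U A B c κ : ℝ) (j : ℝ → ℝ), 1 < p → p ≠ 2 → 0 < κ → 0 < A → 0 < B →
    ¬JI Q p U A B c κ j

/-- integration of the equation of the Jacobian for `p = 2` -/
def ContSt : Prop :=
  ∀ (U A B c κ : ℝ) (n : ℕ) (j : ℝ → ℝ), 0 < κ → JI (2 * n) 2 U A B c κ j →
    ∀ τ, j τ * U ^ n = uu U A B c κ τ ^ n

/-- independence of time and exponential -/
def PolySt : Prop :=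
  ∀ (F : ℝ × ℝ → ℝ) (h q : ℝ), F ∈ LP → 0 < h → 1 < q → (∀ n : ℕ, F (n * h, q ^ n) = 0) →
    ∀ t w, w ≠ 0 → F (t, w) = 0

/-- the determinant identity -/
def P2aSt : Prop :=
  ∀ (W : Set (H × V)) (u : H × V → ℝ) (d : Sd H V) (n : ℕ), Sys G 2 W u → d.Sm W →
    Flow G u W d → 2 * n = m + 2 * k → ∀ x ∈ W, ∀ t w, 0 < w → DetId u d x n t w

/-- the two components are orthogonal -/
def P2bSt : Prop :=
  ∀ (W : Set (H × V)) (u : H × V → ℝ) (n : ℕ), 0 < k → Sys G 2 W u → 2 * n = m + 2 * k →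
    ∀ x ∈ W1 G u W, fa G u x ≠ 0 → fb G u x ≠ 0 → (∀ t w, 0 < w → DetId u (d1 G u) x n t w) →
      ⟪fa G u x, fb G u x⟫_ℝ = 0

/-- the degenerate case for `p = 2` -/
def P2zSt : Prop :=
  ∀ (W : Set (H × V)) (u : H × V → ℝ) (n : ℕ), 0 < k → 2 * n = m + 2 * k → ∀ x ∈ W, 0 < u x →
    (∀ w, 0 < w → DetId u (d0 G u) x n 0 w) → fa G u x = 0

variable (m k H V) in
/-- a symmetric pencil whose determinant is a power of a quadratic polynomial -/
def SpecSt : Prop :=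
  ∀ (Da Db : H × V →L[ℝ] H) (Dl Sg : H × V →L[ℝ] V) (M : V →L[ℝ] V) (γ s C : ℝ) (n : ℕ),
    finrank ℝ H = m → finrank ℝ V = k → 2 * n = m + 2 * k → 0 < γ → C ≠ 0 →
    (∀ x y, ⟪M x, y⟫_ℝ = ⟪x, M y⟫_ℝ) → (∀ x, x ≠ 0 → 0 < ⟪M x, x⟫_ℝ) →
    (∀ v v', ⟪Db v, Da v'⟫_ℝ + ⟪Sg v, Dl v'⟫_ℝ = ⟪Db v', Da v⟫_ℝ + ⟪Sg v', Dl v⟫_ℝ) →
    (∀ ε : ℝ, 0 < ε → ((Da + ε • Db).prod ((1 - ε ^ 2 * γ) • M.comp Dl + ε • Sg)).det =
      C * (1 + s * ε - γ * ε ^ 2) ^ n) →
    (∀ h, ∃ v, Da v = h) ∧ (∀ v, Sg v = s • M (Dl v)) ∧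
      ∃ β : H →L[ℝ] H, (∀ h h', ⟪β h, h'⟫_ℝ = ⟪h, β h'⟫_ℝ) ∧ (∀ v, Db v = β (Da v)) ∧
        ∀ h, β (β h) = s • β h + γ • h

/-- from the determinant identity to the relations -/
def P2cSt : Prop :=
  ∀ (W : Set (H × V)) (u : H × V → ℝ) (n : ℕ), Sys G 2 W u → 2 * n = m + 2 * k →
    ∀ x ∈ W1 G u W, fa G u x ≠ 0 → fb G u x ≠ 0 → (∀ w, 0 < w → DetId u (d1 G u) x n 0 w) →
      Rel G u x

/-- the system for `N = u ^ 2` -/
def NSysSt : Prop :=
  ∀ (p : ℝ) (W : Set (H × V)) (u : H × V → ℝ), Sys G p W u →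
    ContDiffOn ℝ 3 (fun y => u y ^ 2) W ∧ ∀ x ∈ W,
    xi G (fun y => u y ^ 2) x = (2 * u x) • xi G u x ∧
    la G (fun y => u y ^ 2) x = (2 * u x) • la G u x ∧
    ‖(vf G (fun y => u y ^ 2) x).1‖ ^ 2 = 16 * ‖x.1‖ ^ 2 * u x ^ 2 ∧
    ∑ i, ⟪G.e i, fderiv ℝ (xi G fun y => u y ^ 2) x (G.e i, 0)⟫_ℝ +
      ∑ l, ⟪JL G (G.ε l) x.1, fderiv ℝ (xi G fun y => u y ^ 2) x (0, G.ε l)⟫_ℝ +
      ‖x.1‖ ^ 2 / 4 * ∑ l, ⟪G.ε l, fderiv ℝ (la G fun y => u y ^ 2) x (0, G.ε l)⟫_ℝ +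
      (p - 2) * ⟪x.1, xi G (fun y => u y ^ 2) x⟫_ℝ / ‖x.1‖ ^ 2 = 4 * (homDim m k + p) * ‖x.1‖ ^ 2

/-- from the relations to the equations for `N` -/
def TransSt : Prop :=
  ∀ (W : Set (H × V)) (u : H × V → ℝ), Sys G 2 W u →
    (∀ x ∈ W, ‖la G u x‖ < 4 ∧ fa G u x ≠ 0 ∧ fb G u x ≠ 0 ∧ ⟪fa G u x, fb G u x⟫_ℝ = 0 ∧
      Rel G u x) → Phys G W fun y => u y ^ 2

/-- the third derivative vanishes -/
def ThirdSt : Prop :=
  ∀ (W : Set (H × V)) (N : H × V → ℝ), Phys G W N → W.Nonempty → ∃ A, Inv G A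

/-- a Bochner identity -/
def BochSt : Prop :=
  ∀ (F ι : Type) [NormedAddCommGroup F] [NormedSpace ℝ F] [Fintype ι] [DecidableEq ι] (g : F → ℝ)
    (y₀ v₀ : F) (v : ι → F) (r : F →L[ℝ] ℝ) (μ : ℝ), ContDiffAt ℝ 3 g y₀ → r v₀ = 1 →
    (∀ l, r (v l) = 0) → r y₀ ≠ 0 → 0 < μ →
    (∀ᶠ y in 𝓝 y₀, fderiv ℝ g y v₀ ^ 2 + ∑ l, fderiv ℝ g y (v l) ^ 2 = 4 * g y ∧
      fderiv ℝ (fderiv ℝ g) y v₀ v₀ + ∑ l, fderiv ℝ (fderiv ℝ g) y (v l) (v l) +
        μ * fderiv ℝ g y v₀ / r y = 2 * (Fintype.card ι + 1 + μ)) →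
    fderiv ℝ g y₀ v₀ = 2 * r y₀ ∧
      ∀ l l', fderiv ℝ (fderiv ℝ g) y₀ (v l) (v l') = if l = l' then 2 else 0

/-- the radial case -/
def RadSt : Prop :=
  ∀ (p : ℝ) (W : Set (H × V)) (u : H × V → ℝ), 1 < p → Sys G p W u →
    (∀ y ∈ W, ∃ φ : ℝ, xi G u y = φ • y.1) → ∀ x ∈ W, Gau u x

/-- the local classification -/
def LocSt : Prop :=
  ∀ (p : ℝ) (W : Set (H × V)) (u : H × V → ℝ), 0 < k → 1 < p → ¬(p = 2 ∧ ∃ A, Inv G A) →
    Sys G p W u → ∀ x ∈ Ws G u W, Gau u x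

/-- the topology of the counterexample -/
def CouBSt : Prop :=
  ∀ A : H →L[ℝ] H, 0 < k → Inv G A → IsSmoothBoundedDomain {x : H × V | NA A x < 16} ∧
    ∀ (R' : ℝ) (σ₀ : V), closure {x : H × V | NA A x < 16} ≠ closure (gaugeBall R' σ₀)

/-- involutions and invariant subspaces -/
def SplitSt : Prop :=
  (∃ K : Submodule ℝ H, (∀ σ, ∀ z ∈ K, G.J σ z ∈ K) ∧ 2 * finrank ℝ K = m) ↔ ∃ A, Inv G A

section meas

variable [MeasurableSpace H] [BorelSpace H] [MeasurableSpace V] [BorelSpace V]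

/-- from the weak equation to the system -/
def WeakSt : Prop :=
  ∀ (p R : ℝ) (Ω : Set (H × V)) (f : H × V → ℝ), 1 < p → p < homDim m k → 0 < R →
    IsCapacitaryPotential G p Ω f → PIdentity G p R Ω f → ContDiffOn ℝ 3 f (U0 Ω) →
    Sys G p (U0 Ω) (uf m k p R f)

/-- from the local classification to the domain -/
def GlobSt : Prop :=
  ∀ (p R : ℝ) (Ω : Set (H × V)) (f : H × V → ℝ), 0 < k → 1 < p → p < homDim m k → 0 < R →
    IsOpen Ω → Ω.Nonempty → Bornology.IsBounded Ω → IsCapacitaryPotential G p Ω f →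
    (∀ x ∈ U0 Ω, fderiv ℝ (uf m k p R f) x ≠ 0) →
    (∀ x ∈ Ws G (uf m k p R f) (U0 Ω), Gau (uf m k p R f) x) →
    ∃ σ₀ : V, interior (closure Ω) = gaugeBall R σ₀

/-- the potential of the counterexample -/
def CouASt : Prop :=
  ∀ A : H →L[ℝ] H, 0 < k → Inv G A →
    IsCapacitaryPotential G 2 {x | NA A x < 16} (fun x => (NA A x / 16) ^ (-(homDim m k - 2) / 4)) ∧
    PIdentity G 2 2 {x | NA A x < 16} (fun x => (NA A x / 16) ^ (-(homDim m k - 2) / 4)) ∧
    ∀ n : ℕ, ContDiffOn ℝ n (fun x : H × V => (NA A x / 16) ^ (-(homDim m k - 2) / 4))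
      (closure {x | NA A x < 16})ᶜ

end meas

section lemmas

variable {G} {p : ℝ} {W : Set (H × V)} {u : H × V → ℝ} {x : H × V}

theorem Sys.op_Ws (h : Sys G p W u) : IsOpen (Ws G u W) :=
  h.sm_la.continuousOn.norm.isOpen_inter_preimage h.op isOpen_Iio

theorem Sys.op_W1 (h : Sys G p W u) : IsOpen (W1 G u W) :=
  h.sm_la.continuousOn.isOpen_inter_preimage h.op
    ((isOpen_lt continuous_norm continuous_const).inter isOpen_ne)

theorem W1_subset : W1 G u W ⊆ Ws G u W := fun _ hx => ⟨hx.1, hx.2.1⟩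

theorem kap_rad (h : ‖la G u x‖ < 4) : 0 < 4 - ‖la G u x‖ ^ 2 / 4 := by
  nlinarith [norm_nonneg (la G u x)]

theorem kap_pos (h : ‖la G u x‖ < 4) : 0 < kap G u x := Real.sqrt_pos.2 (kap_rad h)

theorem kap_sq (h : ‖la G u x‖ < 4) : kap G u x ^ 2 = 4 - ‖la G u x‖ ^ 2 / 4 :=
  Real.sq_sqrt (kap_rad h).le

theorem fa_add_fb (u : H × V → ℝ) (x : H × V) : fa G u x + fb G u x = x.1 := by
  simp only [fa, fb]; module

theorem fa_sub_fb (h : ‖la G u x‖ < 4) : kap G u x • (fa G u x - fb G u x) = xi G u x := by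
  have := (kap_pos h).ne'
  simp only [fa, fb]
  match_scalars <;> field_simp <;> ring

theorem Sys.constraint (h : Sys G p W u) (hx : x ∈ Ws G u W) :
    ⟪JL G (la G u x) (fa G u x), fb G u x⟫_ℝ = -2 * kap G u x * ⟪fa G u x, fb G u x⟫_ℝ := by
  have h1 := h.eik' hx.1
  have h2 := J_skew G (la G u x) (fb G u x) (fa G u x)
  rw [← kap_sq hx.2, ← fa_sub_fb hx.2, ← fa_add_fb (G := G) u x] at h1
  simp only [norm_smul, mul_pow, Real.norm_eq_abs, sq_abs, norm_sub_sq_real, norm_add_sq_real,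
    map_add, real_inner_smul_right, inner_add_left, inner_sub_right, inner_J_self] at h1
  rw [real_inner_comm] at h2
  refine mul_left_cancel₀ (kap_pos hx.2).ne' ?_
  rw [real_inner_comm (JL G (la G u x) (fa G u x))] at h2
  rw [real_inner_comm (JL G (la G u x) (fb G u x))] at h2
  linear_combination (-1 / 2) * h1 + (kap G u x / 2) * h2

theorem Sys.sm_kap (h : Sys G p W u) : ContDiffOn ℝ 2 (kap G u) (Ws G u W) :=
  (contDiffOn_const.sub (((h.sm_la.mono (sep_subset _ _)).norm_sq ℝ).div_const 4)).sqrt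
    fun _ hx => (kap_rad hx.2).ne'

theorem Sys.sm_fa (h : Sys G p W u) : ContDiffOn ℝ 2 (fa G u) (Ws G u W) :=
  (contDiffOn_fst.add ((h.sm_kap.inv fun _ hx => (kap_pos hx.2).ne').smul
    (h.sm_xi.mono (sep_subset _ _)))).const_smul _

theorem Sys.sm_fb (h : Sys G p W u) : ContDiffOn ℝ 2 (fb G u) (Ws G u W) :=
  (contDiffOn_fst.sub ((h.sm_kap.inv fun _ hx => (kap_pos hx.2).ne').smul
    (h.sm_xi.mono (sep_subset _ _)))).const_smul _

theorem Sys.sm_g4 (h : Sys G p W u) : ContDiffOn ℝ 2 (g4 G u) (Ws G u W) :=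
  ((h.sm_fa.norm_sq ℝ).div (contDiffOn_const.mul h.sm_kap)
    fun _ hx => mul_ne_zero (by norm_num) (kap_pos hx.2).ne').smul (h.sm_la.mono (sep_subset _ _))

theorem Sys.sm_g5 (h : Sys G p W u) : ContDiffOn ℝ 2 (g5 G u) (Ws G u W) :=
  ((h.sm_fb.norm_sq ℝ).div (contDiffOn_const.mul h.sm_kap)
    fun _ hx => mul_ne_zero (by norm_num) (kap_pos hx.2).ne').smul (h.sm_la.mono (sep_subset _ _))

theorem Sys.sm_fs (h : Sys G p W u) : ContDiffOn ℝ 2 (fs G u) (Ws G u W) :=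
  (contDiffOn_snd.sub h.sm_g4).add h.sm_g5

theorem Sys.dif {F : Type} [NormedAddCommGroup F] [NormedSpace ℝ F] {g : H × V → F}
    (h : Sys G p W u) (hx : x ∈ Ws G u W) (hg : ContDiffOn ℝ 2 g (Ws G u W)) :
    HasFDerivAt g (fderiv ℝ g x) x :=
  ((hg.contDiffAt (h.op_Ws.mem_nhds hx)).differentiableAt (by norm_num)).hasFDerivAt

theorem Sys.d_kap (h : Sys G p W u) (hx : x ∈ Ws G u W) (v : H × V) :
    fderiv ℝ (kap G u) x v = -⟪la G u x, fderiv ℝ (la G u) x v⟫_ℝ / (4 * kap G u x) := by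
  have h1 := (h.dif hx h.sm_kap).pow 2
  have h2 := (((h.d_la hx.1).norm_sq.mul_const (1 / 4 : ℝ)).const_sub 4).congr_of_eventuallyEq
    (f₁ := fun y => kap G u y ^ 2) (mem_of_superset (h.op_Ws.mem_nhds hx) fun y hy => by
      have := kap_sq hy.2
      simp only [mem_ofPred_eq]
      linarith)
  have h3 := congrArg (fun L : H × V →L[ℝ] ℝ => L v) (h1.unique h2)
  have := (kap_pos hx.2).ne'
  simp at h3
  field_simp
  linarith

theorem Sys.d_ab (h : Sys G p W u) (hx : x ∈ Ws G u W) (v : H × V) :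
    fderiv ℝ (fa G u) x v + fderiv ℝ (fb G u) x v = v.1 ∧
    fderiv ℝ (xi G u) x v = fderiv ℝ (kap G u) x v • (fa G u x - fb G u x) +
      kap G u x • (fderiv ℝ (fa G u) x v - fderiv ℝ (fb G u) x v) := by
  constructor
  · have h1 := ((h.dif hx h.sm_fa).add (h.dif hx h.sm_fb)).unique
      ((hasFDerivAt_fst (𝕜 := ℝ) (p := x)).congr_of_eventuallyEq
        (Eventually.of_forall fun y => fa_add_fb u y))
    exact congrArg (fun L : H × V →L[ℝ] H => L v) h1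
  · have h1 := (h.d_xi hx.1).unique (((h.dif hx h.sm_kap).smul
      ((h.dif hx h.sm_fa).sub (h.dif hx h.sm_fb))).congr_of_eventuallyEq
        (mem_of_superset (h.op_Ws.mem_nhds hx) fun y hy => (fa_sub_fb hy.2).symm))
    rw [h1]
    simp [add_comm]

theorem Sys.d_g {g : H × V → H} (h : Sys G p W u) (hx : x ∈ Ws G u W)
    (hg : ContDiffOn ℝ 2 g (Ws G u W)) (v : H × V) :
    fderiv ℝ (fun y => (‖g y‖ ^ 2 / (8 * kap G u y)) • la G u y) x v =
      (‖g x‖ ^ 2 / 2) • Mq G u x (fderiv ℝ (la G u) x v) +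
        (⟪g x, fderiv ℝ g x v⟫_ℝ / (4 * kap G u x)) • la G u x := by
  have hk := (kap_pos hx.2).ne'
  have h0 := (hasDerivAt_inv (mul_ne_zero (by norm_num : (8 : ℝ) ≠ 0) hk)).comp_hasFDerivAt x
    ((h.dif hx h.sm_kap).const_mul 8)
  have h1 := (((h.dif hx hg).norm_sq.mul h0).smul (h.d_la hx.1)).fderiv
  have h2 : (fun y => (‖g y‖ ^ 2 / (8 * kap G u y)) • la G u y) =
      ((fun y => ‖g y‖ ^ 2) * (fun y : ℝ => y⁻¹) ∘ fun y => 8 * kap G u y) • la G u := by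
    funext y; simp [div_eq_mul_inv]
  rw [h2, h1]
  simp [Mq, h.d_kap hx]
  match_scalars <;> field_simp <;> ring

theorem Sys.d_g4 (h : Sys G p W u) (hx : x ∈ Ws G u W) (v : H × V) :
    fderiv ℝ (g4 G u) x v = (‖fa G u x‖ ^ 2 / 2) • Mq G u x (fderiv ℝ (la G u) x v) +
      (⟪fa G u x, fderiv ℝ (fa G u) x v⟫_ℝ / (4 * kap G u x)) • la G u x := h.d_g hx h.sm_fa v

theorem Sys.d_g5 (h : Sys G p W u) (hx : x ∈ Ws G u W) (v : H × V) :
    fderiv ℝ (g5 G u) x v = (‖fb G u x‖ ^ 2 / 2) • Mq G u x (fderiv ℝ (la G u) x v) +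
      (⟪fb G u x, fderiv ℝ (fb G u) x v⟫_ℝ / (4 * kap G u x)) • la G u x := h.d_g hx h.sm_fb v

theorem Sys.d_fs (h : Sys G p W u) (hx : x ∈ Ws G u W) (v : H × V) :
    fderiv ℝ (fs G u) x v = v.2 - fderiv ℝ (g4 G u) x v + fderiv ℝ (g5 G u) x v := by
  have h1 := (((hasFDerivAt_snd (𝕜 := ℝ) (p := x)).sub (h.dif hx h.sm_g4)).add
    (h.dif hx h.sm_g5)).fderiv
  exact congrArg (fun L : H × V →L[ℝ] V => L v) h1

end lemmas

end Pool.Agent.MP_1048c2_an.Cl

end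

section
/-!
From the weak equation and the identity for the P-function to the overdetermined system.
-/

set_option linter.unusedSectionVars false

namespace Pool.Agent.MP_1048c2_an.Cl

open Filter Topology Set Module MeasureTheory
open scoped InnerProductSpace

section div

variable {E : Type} [NormedAddCommGroup E] [NormedSpace ℝ E] [FiniteDimensional ℝ E]
  [MeasurableSpace E] [BorelSpace E] {μ : Measure E} [μ.IsAddHaarMeasure]

theorem integrable_Weak {W ψ : E → ℝ} (hψ : Continuous ψ) (hc : HasCompactSupport ψ)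
    (hW : ∀ x ∈ tsupport ψ, ContinuousAt W x) : Integrable (fun x => W x * ψ x) μ := by
  refine Continuous.integrable_of_hasCompactSupport ?_ hc.mul_left
  refine continuous_iff_continuousAt.2 fun x => ?_
  by_cases hx : x ∈ tsupport ψ
  · exact (hW x hx).mul hψ.continuousAt
  · refine (continuousAt_const (y := (0 : ℝ))).congr ?_
    filter_upwards [notMem_tsupport_iff_eventuallyEq.1 hx] with y hy
    simp [hy]

theorem parts_Weak {W φ : E → ℝ} (hφ : ContDiff ℝ 1 φ) (hc : HasCompactSupport φ)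
    (hW : ∀ x ∈ tsupport φ, ContDiffAt ℝ 1 W x) (v : E) :
    Integrable (fun x => W x * fderiv ℝ φ x v) μ ∧
      Integrable (fun x => fderiv ℝ W x v * φ x) μ ∧
      ∫ x, W x * fderiv ℝ φ x v ∂μ = -∫ x, fderiv ℝ W x v * φ x ∂μ := by
  have hcont : Continuous (fun x => fderiv ℝ φ x v) :=
    (hφ.continuous_fderiv (by simp)).clm_apply continuous_const
  have hc' : HasCompactSupport (fun x => fderiv ℝ φ x v) := hc.fderiv_apply ℝ v
  have hsub : tsupport (fun x => fderiv ℝ φ x v) ⊆ tsupport φ := tsupport_fderiv_apply_subset ℝ v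
  have h1 : Integrable (fun x => W x * fderiv ℝ φ x v) μ :=
    integrable_Weak hcont hc' fun x hx => (hW x (hsub hx)).continuousAt
  have h2 : Integrable (fun x => fderiv ℝ W x v * φ x) μ :=
    integrable_Weak hφ.continuous hc fun x hx =>
      ((hW x hx).continuousAt_fderiv (by simp)).clm_apply continuousAt_const
  have h3 : Integrable (fun x => W x * φ x) μ :=
    integrable_Weak hφ.continuous hc fun x hx => (hW x hx).continuousAt
  refine ⟨h1, h2, ?_⟩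
  exact integral_mul_fderiv_eq_neg_fderiv_mul_of_integrable h2 h1 h3
    (fun x hx => (hW x hx).differentiableAt (by simp))
    (fun x _ => hφ.differentiable (by simp) x)

/-- a field of class one that is weakly free of divergence is free of divergence -/
theorem div_Weak {U : Set E} (hU : IsOpen U) {Z : E → E} (hZ : ContDiffOn ℝ 1 Z U)
    (h : ∀ φ : E → ℝ, ContDiff ℝ 1 φ → HasCompactSupport φ → tsupport φ ⊆ U →
      ∫ x, fderiv ℝ φ x (Z x) ∂μ = 0) :
    ∀ x ∈ U, LinearMap.trace ℝ E (fderiv ℝ Z x) = 0 := by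
  classical
  let b := Module.finBasis ℝ E
  let L : Fin (finrank ℝ E) → E →L[ℝ] ℝ := fun i => LinearMap.toContinuousLinearMap (b.coord i)
  have hL : ∀ i, ContDiffOn ℝ 1 (fun y => L i (Z y)) U := fun i =>
    (L i).contDiff.comp_contDiffOn hZ
  let T : E → ℝ := fun x => ∑ i, fderiv ℝ (fun y => L i (Z y)) x (b i)
  have hT : ContinuousOn T U := continuousOn_finsetSum _ fun i _ =>
    ((hL i).continuousOn_fderiv_of_isOpen hU le_rfl).clm_apply continuousOn_const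
  have h1 : ∀ᵐ x ∂μ, x ∈ U → T x = 0 := by
    refine hU.ae_eq_zero_of_integral_contDiff_smul_eq_zero
      (hT.locallyIntegrableOn hU.measurableSet) fun g hg hc hs => ?_
    have hg1 : ContDiff ℝ 1 g := hg.of_le (by exact_mod_cast le_top)
    have h2 := fun i => parts_Weak (μ := μ) hg1 hc
      (fun x hx => (hL i).contDiffAt (hU.mem_nhds (hs hx))) (b i)
    have h3 : ∀ x, fderiv ℝ g x (Z x) = ∑ i, L i (Z x) * fderiv ℝ g x (b i) := by
      intro x
      conv_lhs => rw [← b.sum_repr (Z x)]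
      simp only [map_sum, map_smul, smul_eq_mul]
      rfl
    have h4 := h g hg1 hc hs
    simp only [h3] at h4
    rw [integral_finsetSum _ fun i _ => (h2 i).1, Finset.sum_congr rfl fun i _ => (h2 i).2.2,
      Finset.sum_neg_distrib, neg_eq_zero, ← integral_finsetSum _ fun i _ => (h2 i).2.1] at h4
    rw [← h4]
    refine integral_congr_ae (Eventually.of_forall fun x => ?_)
    simp only [T, smul_eq_mul, Finset.mul_sum, mul_comm]
  have h5 : EqOn T (fun _ => 0) U :=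
    Measure.eqOn_open_of_ae_eq ((ae_restrict_iff' hU.measurableSet).2 h1) hU hT continuousOn_const
  intro x hx
  have h6 : HasFDerivAt Z (fderiv ℝ Z x) x :=
    ((hZ.contDiffAt (hU.mem_nhds hx)).differentiableAt (by simp)).hasFDerivAt
  have h7 : ∀ i, fderiv ℝ (fun y => L i (Z y)) x = (L i).comp (fderiv ℝ Z x) := fun i =>
    ((L i).hasFDerivAt.comp x h6).fderiv
  refine Eq.trans ?_ (h5 hx)
  rw [LinearMap.trace_eq_matrix_trace ℝ b, Matrix.trace]
  simp only [T, h7]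
  simp [L, LinearMap.toMatrix_apply]

theorem trace_Weak {g : E → ℝ} {v : E → E} {g' : E →L[ℝ] ℝ} {v' : E →L[ℝ] E} {x : E}
    (hg : HasFDerivAt g g' x) (hv : HasFDerivAt v v' x) :
    LinearMap.trace ℝ E (fderiv ℝ (g • v) x) = g x * LinearMap.trace ℝ E v' + g' (v x) := by
  rw [(hg.smul hv).fderiv]
  have h : ((g x • v' + g'.smulRight (v x) : E →L[ℝ] E) : E →ₗ[ℝ] E) =
      g x • (v' : E →ₗ[ℝ] E) + (g' : E →ₗ[ℝ] ℝ).smulRight (v x) := by
    ext; simp
  rw [h, map_add, map_smul, LinearMap.trace_smulRight]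
  simp

end div

variable {m k : ℕ} {H V : Type} [NormedAddCommGroup H] [InnerProductSpace ℝ H]
  [NormedAddCommGroup V] [InnerProductSpace ℝ V] [FiniteDimensional ℝ H] [FiniteDimensional ℝ V]
  [MeasurableSpace H] [BorelSpace H] [MeasurableSpace V] [BorelSpace V]

theorem X_Weak (G : HeisenbergType m k H V) (i : Fin m) (φ : H × V → ℝ) (x : H × V) :
    X G i φ x = ⟪G.e i, (vf G φ x).1⟫_ℝ := by
  have h1 : fderiv ℝ φ x (G.e i, 0) = ⟪G.e i, xi G φ x⟫_ℝ := by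
    rw [fderiv_eq G, real_inner_comm]; simp
  simp only [X, vf, inner_add_right, real_inner_smul_right, h1, la, map_sum, map_smul,
    _root_.sum_apply, _root_.smul_apply, inner_sum, JL_apply, mul_comm]

theorem norm_Weak (G : HeisenbergType m k H V) (f : H × V → ℝ) (x : H × V) :
    horGradNorm G f x = ‖(vf G f x).1‖ := by
  simp only [horGradNorm, X_Weak, G.e.sum_sq_inner_right]
  exact Real.sqrt_sq (norm_nonneg _)

theorem pair_Weak (G : HeisenbergType m k H V) (f φ : H × V → ℝ) (x : H × V) :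
    ∑ i, X G i f x * X G i φ x = fderiv ℝ φ x (vf G f x) := by
  rw [fderiv_vf, ← G.e.sum_inner_mul_inner]
  refine Finset.sum_congr rfl fun i _ => ?_
  rw [X_Weak, X_Weak, mul_comm, real_inner_comm]

theorem vf_smul_Weak (G : HeisenbergType m k H V) {u f : H × V → ℝ} {x : H × V} {c : ℝ}
    (h : fderiv ℝ u x = c • fderiv ℝ f x) : vf G u x = c • vf G f x := by
  have h1 : xi G u x = c • xi G f x := by
    simp only [xi, h, Finset.smul_sum, smul_smul, _root_.smul_apply, smul_eq_mul]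
  have h2 : la G u x = c • la G f x := by
    simp only [la, h, Finset.smul_sum, smul_smul, _root_.smul_apply, smul_eq_mul]
  simp only [vf, h1, h2, map_smul, _root_.smul_apply, Prod.smul_mk, smul_add,
    smul_comm c]

theorem weak_st (G : HeisenbergType m k H V) : WeakSt G := by
  intro p R Ω f hp hQ hR hf hP hs
  obtain ⟨⟨-, hw⟩, -, hpos, -, -⟩ := hf
  set Q := homDim m k with hQd
  set e : ℝ := 2 * (p - 1) / (Q - p) with he
  have hQp : 0 < Q - p := sub_pos.2 hQ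
  have hp1 : 0 < p - 1 := sub_pos.2 hp
  have he0 : 0 < e := by positivity
  have hc0 : 0 < cConst m k p R := by unfold cConst; positivity
  have hec : e * R ^ 2 * cConst m k p R = 2 := by
    simp only [he, cConst, ← hQd]; field_simp
  have he1 : (Q + p - 2) / (Q - p) = e + 1 := by
    simp only [he]; field_simp; ring
  have hU : IsOpen (U0 Ω) :=
    isClosed_closure.isOpen_compl.inter (isOpen_ne.preimage continuous_fst)
  have hf0 : ∀ x ∈ U0 Ω, 0 < f x := fun x hx => hpos x fun h => hx.1 (subset_closure h)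
  have hz : ∀ x ∈ U0 Ω, 0 < ‖x.1‖ := fun x hx => norm_pos_iff.2 hx.2
  have hu : uf m k p R f = fun x => R ^ 2 * f x ^ (-e) := rfl
  have hsm : ContDiffOn ℝ 3 (uf m k p R f) (U0 Ω) :=
    contDiffOn_const.mul (hs.rpow_const_of_ne fun x hx => (hf0 x hx).ne')
  have hdf : ∀ x ∈ U0 Ω, HasFDerivAt f (fderiv ℝ f x) x := fun x hx =>
    ((hs.contDiffAt (hU.mem_nhds hx)).differentiableAt (by norm_num)).hasFDerivAt
  have hdu : ∀ x ∈ U0 Ω, fderiv ℝ (uf m k p R f) x =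
      (-(e * R ^ 2 * f x ^ (-(e + 1)))) • fderiv ℝ f x := by
    intro x hx
    rw [hu, (((hdf x hx).rpow_const (p := -e) (Or.inl (hf0 x hx).ne')).const_mul (R ^ 2)).fderiv,
      smul_smul, show -e - 1 = -(e + 1) by ring]
    congr 1
    ring
  have hvu := fun x hx => vf_smul_Weak G (hdu x hx)
  have hN : ∀ x ∈ U0 Ω, ‖(vf G f x).1‖ = cConst m k p R * ‖x.1‖ * f x ^ (e + 1) := by
    intro x hx
    have h1 := hP x hx.1
    have h2 := hf0 x hx
    have h3 := hz x hx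
    rw [pFunction, norm_Weak, div_eq_iff (Real.rpow_pos_of_pos h2 _).ne', mul_div_assoc, ← hQd,
      he1, mul_comm p, Real.rpow_mul h2.le, ← Real.mul_rpow hc0.le h3.le,
      ← Real.mul_rpow (by positivity) (by positivity)] at h1
    exact (Real.rpow_left_inj (norm_nonneg _) (by positivity) (by linarith)).1 h1
  have heik : ∀ x ∈ U0 Ω, ‖(vf G (uf m k p R f) x).1‖ ^ 2 = 4 * ‖x.1‖ ^ 2 := by
    intro x hx
    have h2 := hf0 x hx
    have h3 : f x ^ (-(e + 1)) * f x ^ (e + 1) = 1 := by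
      rw [← Real.rpow_add h2]; simp
    rw [hvu x hx, Prod.smul_fst, norm_smul, mul_pow, Real.norm_eq_abs, sq_abs, hN x hx]
    have h4 : -(e * R ^ 2 * f x ^ (-(e + 1))) * (cConst m k p R * ‖x.1‖ * f x ^ (e + 1)) =
        -2 * ‖x.1‖ := by
      linear_combination (-(e * R ^ 2 * cConst m k p R * ‖x.1‖)) * h3 - ‖x.1‖ * hec
    rw [← mul_pow, h4]
    ring
  refine ⟨hU, fun x hx => hx.2, hsm, fun x hx => ?_, heik, ?_⟩
  · have := hf0 x hx
    rw [hu]; positivity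
  -- the flux
  let g : H × V → ℝ := fun x => (‖x.1‖ ^ 2) ^ ((p - 2) / 2) * f x ^ ((e + 1) * (p - 1))
  have hvs : ContDiffOn ℝ 1 (vf G (uf m k p R f)) (U0 Ω) :=
    contDiffOn_vf G hU hsm (by norm_num)
  have hg : ContDiffOn ℝ 1 g (U0 Ω) :=
    ((contDiffOn_fst.norm_sq ℝ).rpow_const_of_ne fun x hx => (pow_pos (hz x hx) 2).ne').mul
      ((hs.of_le (by norm_num)).rpow_const_of_ne fun x hx => (hf0 x hx).ne')
  have hflux : ∀ x ∈ U0 Ω, g x • vf G (uf m k p R f) x =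
      (-(e * R ^ 2 / cConst m k p R ^ (p - 2))) • horGradNorm G f x ^ (p - 2) • vf G f x := by
    intro x hx
    have h2 := hf0 x hx
    have h3 := hz x hx
    have h4 : (‖x.1‖ ^ 2) ^ ((p - 2) / 2) = ‖x.1‖ ^ (p - 2) := by
      rw [← Real.rpow_natCast, ← Real.rpow_mul h3.le]
      congr 1
      push_cast
      ring
    have h5 : f x ^ ((e + 1) * (p - 1)) * f x ^ (-(e + 1)) = (f x ^ (e + 1)) ^ (p - 2) := by
      rw [← Real.rpow_add h2, ← Real.rpow_mul h2.le]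
      congr 1
      ring
    have h6 := (Real.rpow_pos_of_pos hc0 (p - 2)).ne'
    rw [hvu x hx, smul_smul, smul_smul, norm_Weak, hN x hx,
      Real.mul_rpow (by positivity) (by positivity), Real.mul_rpow hc0.le h3.le]
    congr 1
    simp only [g, h4, ← h5]
    field_simp
  have : (volume : Measure (H × V)).IsAddHaarMeasure := Measure.prod.instIsAddHaarMeasure _ _
  have hdiv := div_Weak (μ := volume) hU (hg.smul hvs) fun φ h1 h2 h3 => by
    have h4 := (hw φ h1 h2 (h3.trans inter_subset_left)).2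
    have h5 : ∀ x, x ∉ tsupport φ → fderiv ℝ φ x = 0 := fun x hx =>
      (notMem_tsupport_iff_eventuallyEq.1 hx).fderiv_eq.trans (by simp)
    rw [setIntegral_eq_integral_of_forall_compl_eq_zero fun x hx => by
      rw [pair_Weak, h5 x fun h => hx (h3 h).1]; simp] at h4
    rw [← mul_zero (-(e * R ^ 2 / cConst m k p R ^ (p - 2))), ← h4, ← integral_const_mul]
    refine integral_congr_ae (Eventually.of_forall fun x => ?_)
    by_cases hx : x ∈ tsupport φ
    · simp only [pair_Weak, Pi.smul_apply', hflux x (h3 hx), map_smul, smul_eq_mul]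
    · simp [pair_Weak, h5 x hx]
  intro x hx
  have h2 := hf0 x hx
  have h3 := hz x hx
  have h4 := hdiv x hx
  have hv : HasFDerivAt (vf G (uf m k p R f)) (fderiv ℝ (vf G (uf m k p R f)) x) x :=
    ((hvs.contDiffAt (hU.mem_nhds hx)).differentiableAt (by simp)).hasFDerivAt
  have hg' := ((hasFDerivAt_fst (𝕜 := ℝ) (p := x)).norm_sq.rpow_const (p := (p - 2) / 2)
    (Or.inl (pow_pos h3 2).ne')).mul
      ((hdf x hx).rpow_const (p := (e + 1) * (p - 1)) (Or.inl h2.ne'))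
  have h5 := (trace_Weak (g := g) hg' hv).symm.trans h4
  have h6 : fderiv ℝ (uf m k p R f) x (vf G (uf m k p R f) x) = 4 * ‖x.1‖ ^ 2 := by
    rw [fderiv_vf, real_inner_self_eq_norm_sq, heik x hx]
  rw [hdu x hx] at h6
  have h7 : ⟪x.1, (vf G (uf m k p R f) x).1⟫_ℝ = ⟪x.1, xi G (uf m k p R f) x⟫_ℝ := by
    simp only [vf, inner_add_right, real_inner_smul_right]
    rw [real_inner_comm (JL G _ _), inner_J_self, mul_zero, add_zero]
  simp only [_root_.smul_apply, _root_.add_apply, smul_eq_mul, ContinuousLinearMap.comp_apply,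
    innerSL_apply_apply, ContinuousLinearMap.coe_fst', h7, g, nsmul_eq_mul, Nat.cast_ofNat,
    Real.rpow_sub_one h2.ne', Real.rpow_sub_one (pow_pos h3 2).ne'] at h5 h6
  have h8 : f x ^ (-(e + 1)) = f x ^ (-e) / f x := by
    rw [← Real.rpow_sub_one h2.ne']
    congr 1
    ring
  have h9 : (e + 1) * (p - 1) = (Q + p - 2) / 2 * e := by
    rw [← he1, he]; field_simp
  have ha := Real.rpow_pos_of_pos (pow_pos h3 2) ((p - 2) / 2)
  have hb := Real.rpow_pos_of_pos h2 ((e + 1) * (p - 1))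
  have hc := Real.rpow_pos_of_pos h2 (-e)
  have h10 : uf m k p R f x = R ^ 2 * f x ^ (-e) := rfl
  rw [h10]
  rw [h8] at h6
  generalize (‖x.1‖ ^ 2) ^ ((p - 2) / 2) = a at *
  generalize f x ^ ((e + 1) * (p - 1)) = b at *
  generalize f x ^ (-e) = c at *
  generalize fderiv ℝ f x (vf G (uf m k p R f) x) = D at *
  generalize LinearMap.trace ℝ (H × V) (fderiv ℝ (vf G (uf m k p R f)) x) = T at *
  generalize ⟪x.1, xi G (uf m k p R f) x⟫_ℝ = s at *
  rw [h9] at h5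
  have h11 : D = -(4 * ‖x.1‖ ^ 2 * f x / (e * R ^ 2 * c)) := by
    field_simp at h6 ⊢
    linarith
  rw [h11] at h5
  refine mul_left_cancel₀ (mul_pos ha hb).ne' ?_
  rw [← sub_eq_zero, ← h5]
  field_simp
  ring

end Pool.Agent.MP_1048c2_an.Cl

end

section
/-!
Regularity of weak solutions: the group law, invariant fields, weak derivatives, convolution.
-/

set_option linter.unusedSectionVars false

namespace Pool.Agent.MP_1048c2_an.Cl

open Filter Topology Set Module MeasureTheory Metric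
open scoped InnerProductSpace ContDiff

variable {m k : ℕ} {H V : Type} [NormedAddCommGroup H] [InnerProductSpace ℝ H]
  [NormedAddCommGroup V] [InnerProductSpace ℝ V] [FiniteDimensional ℝ H] [FiniteDimensional ℝ V]
  (G : HeisenbergType m k H V)

/-- the group law -/
noncomputable def gm (x y : H × V) : H × V := (x.1 + y.1, x.2 + y.2 + (1 / 2 : ℝ) • BL G x.1 y.1)

/-- the left invariant horizontal derivative -/
noncomputable def XL (h : H) (φ : H × V → ℝ) (x : H × V) : ℝ :=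
  fderiv ℝ φ x (h, (1 / 2 : ℝ) • BL G x.1 h)

/-- the right invariant horizontal derivative -/
noncomputable def YR (h : H) (φ : H × V → ℝ) (x : H × V) : ℝ :=
  fderiv ℝ φ x (h, -((1 / 2 : ℝ) • BL G x.1 h))

/-- the horizontal Laplacian -/
noncomputable def Lap (φ : H × V → ℝ) (x : H × V) : ℝ := ∑ i, XL G (G.e i) (XL G (G.e i) φ) x

/-- test functions -/
def Tst (W : Set (H × V)) (φ : H × V → ℝ) : Prop :=
  ContDiff ℝ ∞ φ ∧ HasCompactSupport φ ∧ tsupport φ ⊆ W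

/-- the fourth power of the gauge -/
noncomputable def Nn (y : H × V) : ℝ := ‖y.1‖ ^ 4 + 16 * ‖y.2‖ ^ 2

theorem gm_zero (x : H × V) : gm G x 0 = x := by simp [gm]

theorem zero_gm (x : H × V) : gm G 0 x = x := by simp [gm]

theorem gm_assoc (x y w : H × V) : gm G (gm G x y) w = gm G x (gm G y w) := by
  simp only [gm, map_add, _root_.add_apply, Prod.mk.injEq]
  exact ⟨add_assoc _ _ _, by module⟩

theorem gm_neg (x : H × V) : gm G x (-x) = 0 := by simp [gm, BL_self]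

theorem neg_gm (x : H × V) : gm G (-x) x = 0 := by simp [gm, BL_self]

theorem neg_gm_gm (x y : H × V) : gm G (-x) (gm G x y) = y := by rw [← gm_assoc, neg_gm, zero_gm]

theorem gm_neg_gm (x y : H × V) : gm G x (gm G (-x) y) = y := by rw [← gm_assoc, gm_neg, zero_gm]

theorem gm_gm_neg (x y : H × V) : gm G (gm G y x) (-x) = y := by rw [gm_assoc, gm_neg, gm_zero]

theorem gm_neg_right (x y : H × V) : gm G (gm G y (-x)) x = y := by rw [gm_assoc, neg_gm, gm_zero]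

theorem contDiff_gm {F : Type} [NormedAddCommGroup F] [NormedSpace ℝ F] {f g : F → H × V}
    {n : WithTop ℕ∞} (hf : ContDiff ℝ n f) (hg : ContDiff ℝ n g) :
    ContDiff ℝ n fun y => gm G (f y) (g y) :=
  (hf.fst.add hg.fst).prodMk ((hf.snd.add hg.snd).add
    ((((BL G).contDiff.comp hf.fst).clm_apply hg.fst).const_smul _))

theorem continuous_gm {F : Type} [TopologicalSpace F] {f g : F → H × V} (hf : Continuous f)
    (hg : Continuous g) : Continuous fun y => gm G (f y) (g y) :=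
  (hf.fst.add hg.fst).prodMk ((hf.snd.add hg.snd).add
    ((((BL G).continuous.comp hf.fst).clm_apply hg.fst).const_smul (1 / 2 : ℝ)))

theorem hasFDerivAt_gm {F : Type} [NormedAddCommGroup F] [NormedSpace ℝ F] {f g : F → H × V}
    {f' g' : F →L[ℝ] H × V} {x : F} (hf : HasFDerivAt f f' x) (hg : HasFDerivAt g g' x) :
    ∃ L : F →L[ℝ] H × V, HasFDerivAt (fun y => gm G (f y) (g y)) L x ∧ ∀ v, L v =
      ((f' v).1 + (g' v).1, (f' v).2 + (g' v).2 +
        (1 / 2 : ℝ) • (BL G (f x).1 (g' v).1 + BL G (f' v).1 (g x).1)) :=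
  ⟨_, (hf.fst.add hg.fst).prodMk ((hf.snd.add hg.snd).add
    ((hasFDerivAt_B G hf.fst hg.fst).const_smul (1 / 2 : ℝ))), fun v => by simp⟩

/-- left translation -/
noncomputable def gmL (x : H × V) : H × V ≃ₜ H × V where
  toFun := gm G x
  invFun := gm G (-x)
  left_inv := neg_gm_gm G x
  right_inv := gm_neg_gm G x
  continuous_toFun := continuous_gm G continuous_const continuous_id
  continuous_invFun := continuous_gm G continuous_const continuous_id

/-- right translation -/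
noncomputable def gmR (x : H × V) : H × V ≃ₜ H × V where
  toFun y := gm G y x
  invFun y := gm G y (-x)
  left_inv := gm_gm_neg G x
  right_inv := gm_neg_right G x
  continuous_toFun := continuous_gm G continuous_id continuous_const
  continuous_invFun := continuous_gm G continuous_id continuous_const

theorem XL_vf (h : H) (u : H × V → ℝ) (x : H × V) : XL G h u x = ⟪(vf G u x).1, h⟫_ℝ := by
  rw [XL, fderiv_eq G, real_inner_smul_right, ← inner_JL]
  simp only [vf, inner_add_left, real_inner_smul_left]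

theorem XL_congr {h : H} {u u' : H × V → ℝ} {x : H × V} (hu : u =ᶠ[𝓝 x] u') :
    XL G h u x = XL G h u' x := by rw [XL, XL, hu.fderiv_eq]

theorem XL_of_notMem {h : H} {φ : H × V → ℝ} {x : H × V} (hx : x ∉ tsupport φ) :
    XL G h φ x = 0 := by
  rw [XL, (notMem_tsupport_iff_eventuallyEq.1 hx).fderiv_eq]; simp

theorem tsupport_XL (h : H) (φ : H × V → ℝ) : tsupport (XL G h φ) ⊆ tsupport φ :=
  closure_minimal (fun _ hx => by_contra fun h' => hx (XL_of_notMem G h')) (isClosed_tsupport φ)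

theorem XL_mul {h : H} {u v : H × V → ℝ} {x : H × V} (hu : DifferentiableAt ℝ u x)
    (hv : DifferentiableAt ℝ v x) :
    XL G h (fun y => u y * v y) x = u x * XL G h v x + XL G h u x * v x := by
  simp only [XL, fderiv_fun_mul hu hv, _root_.add_apply, _root_.smul_apply, smul_eq_mul]
  ring

theorem XL_gm {h : H} {κ : H × V → ℝ} {a y : H × V} (hκ : DifferentiableAt ℝ κ (gm G a y)) :
    XL G h (fun y => κ (gm G a y)) y = XL G h κ (gm G a y) := by
  obtain ⟨L, h1, h2⟩ := hasFDerivAt_gm G (hasFDerivAt_const a y) (hasFDerivAt_id y)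
  have h3 := (hκ.hasFDerivAt.comp y h1).fderiv
  rw [XL, show (fun y => κ (gm G a y)) = κ ∘ gm G a from rfl, h3, XL]
  simp only [ContinuousLinearMap.comp_apply, h2]
  congr 1
  simp [gm, add_comm]

theorem contDiffOn_XL (h : H) {u : H × V → ℝ} {W : Set (H × V)} {n n' : WithTop ℕ∞}
    (hW : IsOpen W) (hu : ContDiffOn ℝ n' u W) (hn : n + 1 ≤ n') : ContDiffOn ℝ n (XL G h u) W :=
  (hu.fderiv_of_isOpen hW hn).clm_apply (contDiffOn_const.prodMk
    ((contDiffOn_B G contDiffOn_fst contDiffOn_const).const_smul _))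

theorem contDiffOn_YR (h : H) {u : H × V → ℝ} {W : Set (H × V)} {n n' : WithTop ℕ∞}
    (hW : IsOpen W) (hu : ContDiffOn ℝ n' u W) (hn : n + 1 ≤ n') : ContDiffOn ℝ n (YR G h u) W :=
  (hu.fderiv_of_isOpen hW hn).clm_apply (contDiffOn_const.prodMk
    ((contDiffOn_B G contDiffOn_fst contDiffOn_const).const_smul _).neg)

theorem contDiff_XL (h : H) {u : H × V → ℝ} (hu : ContDiff ℝ ∞ u) : ContDiff ℝ ∞ (XL G h u) :=
  contDiffOn_univ.1 (contDiffOn_XL G h isOpen_univ hu.contDiffOn (by simp))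

theorem contDiff_YR (h : H) {u : H × V → ℝ} (hu : ContDiff ℝ ∞ u) : ContDiff ℝ ∞ (YR G h u) :=
  contDiffOn_univ.1 (contDiffOn_YR G h isOpen_univ hu.contDiffOn (by simp))

theorem contDiffOn_Lap {u : H × V → ℝ} {W : Set (H × V)} (hW : IsOpen W)
    (hu : ContDiffOn ℝ ∞ u W) : ContDiffOn ℝ ∞ (Lap G u) W :=
  ContDiffOn.sum fun _ _ => contDiffOn_XL G _ hW (contDiffOn_XL G _ hW hu (n := ∞) (by simp))
    (by simp)

theorem Tst.xl {W : Set (H × V)} {φ : H × V → ℝ} (hφ : Tst W φ) (h : H) : Tst W (XL G h φ) :=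
  ⟨contDiff_XL G h hφ.1, hφ.2.1.mono' ((subset_tsupport _).trans (tsupport_XL G h φ)),
    (tsupport_XL G h φ).trans hφ.2.2⟩

theorem Tst.mono {W W' : Set (H × V)} {φ : H × V → ℝ} (hφ : Tst W φ) (h : W ⊆ W') : Tst W' φ :=
  ⟨hφ.1, hφ.2.1, hφ.2.2.trans h⟩

theorem Tst.mul {W : Set (H × V)} {φ a : H × V → ℝ} (hφ : Tst W φ) (hW : IsOpen W)
    (ha : ContDiffOn ℝ ∞ a W) : Tst W fun x => a x * φ x := by
  refine ⟨contDiff_iff_contDiffAt.2 fun x => ?_, hφ.2.1.mul_left,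
    (tsupport_mul_subset_right).trans hφ.2.2⟩
  by_cases hx : x ∈ tsupport φ
  · exact (ha.contDiffAt (hW.mem_nhds (hφ.2.2 hx))).mul hφ.1.contDiffAt
  · refine (contDiffAt_const (c := (0 : ℝ))).congr_of_eventuallyEq ?_
    filter_upwards [notMem_tsupport_iff_eventuallyEq.1 hx] with y hy
    simp [hy]

theorem Tst.gm {W : Set (H × V)} {κ : H × V → ℝ} {δ : ℝ} {x : H × V} (h1 : ContDiff ℝ ∞ κ)
    (h2 : tsupport κ ⊆ closedBall 0 δ) (h3 : ∀ y ∈ closedBall (0 : H × V) δ, gm G x y ∈ W) :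
    Tst W fun y => κ (gm G (-x) y) := by
  have h4 : tsupport (fun y => κ (Cl.gm G (-x) y)) ⊆ Cl.gm G x '' closedBall 0 δ :=
    closure_minimal (fun y hy => ⟨_, h2 (subset_tsupport _ hy), gm_neg_gm G x y⟩)
      ((isCompact_closedBall _ _).image (gmL G x).continuous).isClosed
  refine ⟨h1.comp (contDiff_gm G contDiff_const contDiff_id),
    ((isCompact_closedBall _ _).image (gmL G x).continuous).of_isClosed_subset
      (isClosed_tsupport _) h4, h4.trans ?_⟩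
  rintro _ ⟨y, hy, rfl⟩
  exact h3 y hy

theorem tst_iff {W : Set (H × V)} {φ : H × V → ℝ} : Tst W φ ↔ IsTest W φ := by
  rw [Tst, IsTest, contDiff_infty]

/-- the commutator of two left invariant fields -/
theorem XL_comm (h h' : H) {φ : H × V → ℝ} {x : H × V} (hφ : ContDiffAt ℝ 2 φ x) :
    XL G h (XL G h' φ) x - XL G h' (XL G h φ) x = fderiv ℝ φ x (0, BL G h h') := by
  have h1 : HasFDerivAt (fderiv ℝ φ) (fderiv ℝ (fderiv ℝ φ) x) x :=
    ((hφ.fderiv_right (m := 1) (by norm_num)).differentiableAt (by norm_num)).hasFDerivAt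
  have h2 : ∀ a b : H, XL G a (XL G b φ) x = fderiv ℝ (fderiv ℝ φ) x (a, (1 / 2 : ℝ) • BL G x.1 a)
      (b, (1 / 2 : ℝ) • BL G x.1 b) + (1 / 2 : ℝ) * fderiv ℝ φ x (0, BL G a b) := by
    intro a b
    have h3 := (h1.clm_apply ((hasFDerivAt_const b x).prodMk ((hasFDerivAt_B G
      (hasFDerivAt_fst (p := x)) (hasFDerivAt_const b x)).const_smul (1 / 2 : ℝ)))).fderiv
    rw [XL, show XL G b φ = fun y => fderiv ℝ φ y (b, (1 / 2 : ℝ) • BL G y.1 b) from rfl]
    refine (congrArg (fun L : H × V →L[ℝ] ℝ => L _) h3).trans ?_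
    have h5 : ((0, (2⁻¹ : ℝ) • BL G a b) : H × V) = (2⁻¹ : ℝ) • (0, BL G a b) := by simp
    simp [add_comm]
    rw [h5, map_smul, smul_eq_mul]
  have h4 : ((0, BL G h' h) : H × V) = -(0, BL G h h') := by rw [BL_swap]; simp
  rw [h2, h2, hφ.isSymmSndFDerivAt (by simp) (h, _), h4, map_neg]
  ring

/-- every vector is a combination of the fields and of their brackets -/
theorem frame (hk : 0 < k) (L : H × V →L[ℝ] ℝ) (z : H) (v : H × V) :
    L v = ∑ a, ⟪G.e a, v.1⟫_ℝ * L (G.e a, (1 / 2 : ℝ) • BL G z (G.e a)) +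
      ∑ a, ∑ b, ⟪JL G (v.2 - (1 / 2 : ℝ) • BL G z v.1) (G.e a), G.e b⟫_ℝ / m *
        L (0, BL G (G.e a) (G.e b)) := by
  have hm : (m : ℝ) ≠ 0 := by exact_mod_cast (m_pos G hk).ne'
  have h1 : ∀ μ : V, ∑ a, ∑ b, (⟪JL G μ (G.e a), G.e b⟫_ℝ / m) • BL G (G.e a) (G.e b) = μ := by
    intro μ
    have : ∀ a, ∑ b, (⟪JL G μ (G.e a), G.e b⟫_ℝ / m) • BL G (G.e a) (G.e b) = (m : ℝ)⁻¹ • μ := by
      intro a
      have h2 := BL_J G μ (G.e a)
      rw [G.e.orthonormal.1, one_pow, one_smul, ← G.e.sum_repr' (JL G μ (G.e a)), map_sum] at h2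
      conv_rhs => rw [← h2, Finset.smul_sum]
      refine Finset.sum_congr rfl fun b _ => ?_
      rw [map_smul, smul_smul, real_inner_comm, div_eq_inv_mul]
    simp only [this, Finset.sum_const, Finset.card_univ, Fintype.card_fin,
      ← Nat.cast_smul_eq_nsmul ℝ, smul_smul, mul_inv_cancel₀ hm, one_smul]
  have h3 : v = ∑ a, ⟪G.e a, v.1⟫_ℝ • ((G.e a, (1 / 2 : ℝ) • BL G z (G.e a)) : H × V) +
      ∑ a, ∑ b, (⟪JL G (v.2 - (1 / 2 : ℝ) • BL G z v.1) (G.e a), G.e b⟫_ℝ / m) •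
        ((0, BL G (G.e a) (G.e b)) : H × V) := by
    ext
    · simp [Prod.fst_sum, G.e.sum_repr']
    · simp only [Prod.snd_add, Prod.snd_sum, Prod.smul_mk, h1]
      have : ∑ a, ⟪G.e a, v.1⟫_ℝ • (1 / 2 : ℝ) • BL G z (G.e a) = (1 / 2 : ℝ) • BL G z v.1 := by
        conv_rhs => rw [← G.e.sum_repr' v.1, map_sum, Finset.smul_sum]
        exact Finset.sum_congr rfl fun a _ => by rw [map_smul, smul_comm]
      rw [this]; abel
  conv_lhs => rw [h3]
  simp only [map_add, map_sum, map_smul, smul_eq_mul]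

theorem contDiff_Nn {n : WithTop ℕ∞} : ContDiff ℝ n (Nn : H × V → ℝ) := by
  have : (Nn : H × V → ℝ) = fun y => (‖y.1‖ ^ 2) ^ 2 + 16 * ‖y.2‖ ^ 2 := by
    funext y; rw [Nn]; ring
  rw [this]
  exact ((contDiff_fst.norm_sq ℝ).pow 2).add (contDiff_const.mul (contDiff_snd.norm_sq ℝ))

theorem Nn_nonneg (y : H × V) : 0 ≤ Nn y := by unfold Nn; positivity

theorem Nn_pos {y : H × V} (hy : y ≠ 0) : 0 < Nn y := by
  refine (Nn_nonneg y).lt_of_ne' fun h => hy ?_
  have h1 : 0 ≤ ‖y.1‖ ^ 4 := by positivity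
  have h2 : 0 ≤ ‖y.2‖ ^ 2 := by positivity
  rw [Nn] at h
  exact Prod.ext (norm_eq_zero.1 (pow_eq_zero_iff (n := 4) (by norm_num) |>.1 (by linarith)))
    (norm_eq_zero.1 (pow_eq_zero_iff (n := 2) (by norm_num) |>.1 (by linarith)))

variable [MeasurableSpace H] [BorelSpace H] [MeasurableSpace V] [BorelSpace V]

instance haar : (volume : Measure (H × V)).IsAddHaarMeasure :=
  Measure.prod.instIsAddHaarMeasure _ _

theorem X_eq (i : Fin m) : X G i = XL G (G.e i) := by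
  funext φ x; rw [X_Weak, XL_vf, real_inner_comm]

include G in
theorem mp_shear (T : H →L[ℝ] V) (x : H × V) :
    MeasurePreserving (fun y : H × V => x + (y.1, y.2 + T y.1)) volume volume := by
  let L : H × V →L[ℝ] H × V := (ContinuousLinearMap.fst ℝ H V).prod
    (ContinuousLinearMap.snd ℝ H V + T.comp (ContinuousLinearMap.fst ℝ H V))
  have h1 : LinearMap.det (L : H × V →ₗ[ℝ] H × V) = 1 := by
    simpa using det_shear G 1 1 T L fun v => by simp [L]
  have h2 : MeasurePreserving L volume volume := ⟨L.continuous.measurable, by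
    simpa [h1] using Measure.map_linearMap_addHaar_eq_smul_addHaar (volume : Measure (H × V))
      (f := (L : H × V →ₗ[ℝ] H × V)) (by rw [h1]; norm_num)⟩
  exact (measurePreserving_add_left volume x).comp h2

theorem mp_left (x : H × V) : MeasurePreserving (gm G x) volume volume := by
  convert mp_shear G ((1 / 2 : ℝ) • BL G x.1) x using 2 with y
  simp [gm, Prod.ext_iff, add_assoc]

theorem mp_right (x : H × V) : MeasurePreserving (fun y => gm G y x) volume volume := by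
  convert mp_shear G ((1 / 2 : ℝ) • (BL G).flip x.1) x using 2 with y
  simp [gm, Prod.ext_iff, add_assoc, add_comm]

theorem integral_left (x : H × V) (F : H × V → ℝ) : ∫ y, F (gm G x y) = ∫ y, F y :=
  (mp_left G x).integral_comp (gmL G x).measurableEmbedding F

theorem integral_right (x : H × V) (F : H × V → ℝ) : ∫ y, F (gm G y x) = ∫ y, F y :=
  (mp_right G x).integral_comp (gmR G x).measurableEmbedding F

/-- convolution on the group -/
noncomputable def cv (u κ : H × V → ℝ) (x : H × V) : ℝ := ∫ y, u y * κ (gm G (-x) y)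

theorem cv_eq (u κ : H × V → ℝ) (x : H × V) : cv G u κ x = ∫ y, u (gm G x y) * κ y := by
  rw [cv, ← integral_left G x]
  simp only [neg_gm_gm]

/-- `g` is the weak derivative of `u` on `W` in the direction `h` -/
def WD (W : Set (H × V)) (h : H) (u g : H × V → ℝ) : Prop :=
  ∀ φ, Tst W φ → ∫ x, u x * XL G h φ x = -∫ x, g x * φ x

/-- measurable and locally bounded -/
def LB (W : Set (H × V)) (g : H × V → ℝ) : Prop :=
  AEStronglyMeasurable g (volume.restrict W) ∧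
    ∃ M : H × V → ℝ, ContinuousOn M W ∧ ∀ᵐ x, x ∈ W → |g x| ≤ M x

/-- integrable kernels with small support -/
def Kr (δ : ℝ) (κ : H × V → ℝ) : Prop := Integrable κ ∧ ∀ y ∉ closedBall (0 : H × V) δ, κ y = 0

/-- convergence in the mean -/
def Lim (κ : ℕ → H × V → ℝ) (κ' : H × V → ℝ) : Prop :=
  (∀ n, Integrable (κ n)) ∧ Integrable κ' ∧ Tendsto (fun n => ∫ y, |κ n y - κ' y|) atTop (𝓝 0)

/-- convergence in the mean to a kernel with small support -/
def Cnv (δ : ℝ) (κ : ℕ → H × V → ℝ) : Prop := ∃ κ', Kr δ κ' ∧ Lim κ κ'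

variable {G} {W W' C : Set (H × V)} {u u' g g' φ ψ : H × V → ℝ} {h : H}

theorem integral_congr_tst (hφ : tsupport φ ⊆ W) (hu : EqOn u u' W) :
    ∫ x, u x * φ x = ∫ x, u' x * φ x := by
  refine integral_congr_ae (Eventually.of_forall fun x => ?_)
  by_cases hx : x ∈ tsupport φ
  · simp only [hu (hφ hx)]
  · simp only [image_eq_zero_of_notMem_tsupport hx, mul_zero]

theorem WD.congr (h1 : WD G W h u g) (h2 : W' ⊆ W) (h3 : EqOn u u' W') (h4 : EqOn g g' W') :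
    WD G W' h u' g' := fun φ hφ => by
  rw [← integral_congr_tst (hφ.xl G h).2.2 h3, ← integral_congr_tst hφ.2.2 h4]
  exact h1 φ (hφ.mono h2)

theorem integrable_loc (hu : LocallyIntegrableOn u W) (hψ : Continuous ψ)
    (hc : HasCompactSupport ψ) (hs : tsupport ψ ⊆ W) : Integrable fun x => u x * ψ x := by
  refine (integrableOn_iff_integrable_of_support_subset (s := tsupport ψ) fun x hx => ?_).1
    ((hu.integrableOn_compact_subset hs hc).mul_continuousOn hψ.continuousOn hc)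
  exact subset_tsupport _ (right_ne_zero_of_mul hx)

theorem Tst.integrable (hφ : Tst W φ) (hu : LocallyIntegrableOn u W) :
    Integrable fun x => u x * φ x := integrable_loc hu hφ.1.continuous hφ.2.1 hφ.2.2

theorem LB.of_cont (hW : IsOpen W) (hg : ContinuousOn g W) : LB W g :=
  ⟨hg.aestronglyMeasurable hW.measurableSet, fun x => |g x|, hg.abs,
    Eventually.of_forall fun _ _ => le_rfl⟩

theorem LB.mul (h1 : LB W g) (h2 : LB W g') : LB W fun x => g x * g' x := by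
  obtain ⟨a1, M, b1, c1⟩ := h1
  obtain ⟨a2, M', b2, c2⟩ := h2
  refine ⟨a1.mul a2, fun x => M x * M' x, b1.mul b2, ?_⟩
  filter_upwards [c1, c2] with x h1 h2 hx
  rw [abs_mul]
  exact mul_le_mul (h1 hx) (h2 hx) (abs_nonneg _) ((abs_nonneg _).trans (h1 hx))

theorem LB.add (h1 : LB W g) (h2 : LB W g') : LB W fun x => g x + g' x := by
  obtain ⟨a1, M, b1, c1⟩ := h1
  obtain ⟨a2, M', b2, c2⟩ := h2
  refine ⟨a1.add a2, fun x => M x + M' x, b1.add b2, ?_⟩
  filter_upwards [c1, c2] with x h1 h2 hx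
  exact (abs_add_le _ _).trans (add_le_add (h1 hx) (h2 hx))

theorem LB.mono (h1 : LB W g) (h2 : W' ⊆ W) : LB W' g := by
  obtain ⟨a1, M, b1, c1⟩ := h1
  exact ⟨a1.mono_set h2, M, b1.mono h2, c1.mono fun x h hx => h (h2 hx)⟩

theorem LB.memLp (h1 : LB W g) (hC : IsCompact C) (h2 : C ⊆ W) :
    MemLp (C.indicator g) ⊤ volume := by
  obtain ⟨a1, M, b1, c1⟩ := h1
  obtain ⟨B, hB⟩ := hC.exists_bound_of_continuousOn (b1.mono h2)
  refine memLp_top_of_bound
    ((aestronglyMeasurable_indicator_iff hC.measurableSet).2 (a1.mono_set h2)) (max B 0) ?_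
  filter_upwards [c1] with x hx
  by_cases h : x ∈ C
  · rw [indicator_of_mem h]
    exact (hx (h2 h)).trans ((le_abs_self _).trans ((hB x h).trans (le_max_left _ _)))
  · simp [indicator_of_notMem h]

theorem LB.loc (hW : IsOpen W) (h1 : LB W g) : LocallyIntegrableOn g W := by
  refine (locallyIntegrableOn_iff hW.isLocallyClosed).2 fun C h2 hC => ?_
  have : IsFiniteMeasure ((volume : Measure (H × V)).restrict C) :=
    ⟨by simpa using hC.measure_lt_top⟩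
  exact (((h1.memLp hC h2).restrict C).integrable le_top).congr
    (ae_restrict_of_forall_mem hC.measurableSet fun x hx => indicator_of_mem hx g)

theorem bound_of_memLp (hu : MemLp u ⊤ volume) : ∃ M, 0 ≤ M ∧ ∀ᵐ x, |u x| ≤ M := by
  refine ⟨(eLpNormEssSup u volume).toReal, ENNReal.toReal_nonneg, ?_⟩
  filter_upwards [ae_le_eLpNormEssSup (f := u) (μ := volume)] with x hx
  have := ENNReal.toReal_mono (by simpa using hu.2.ne) hx
  simpa using this

end Pool.Agent.MP_1048c2_an.Cl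

end

section
/-!
Regularity of weak solutions: the statements of the steps.
-/

set_option linter.unusedSectionVars false

namespace Pool.Agent.MP_1048c2_an.Cl

open Filter Topology Set Module MeasureTheory Metric
open scoped InnerProductSpace ContDiff

variable {m k : ℕ} {H V : Type} [NormedAddCommGroup H] [InnerProductSpace ℝ H]
  [NormedAddCommGroup V] [InnerProductSpace ℝ V] [FiniteDimensional ℝ H] [FiniteDimensional ℝ V]
  [MeasurableSpace H] [BorelSpace H] [MeasurableSpace V] [BorelSpace V]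
  (G : HeisenbergType m k H V)

/-- integration by parts -/
def IbpSt : Prop :=
  ∀ (W : Set (H × V)) (h : H) (u : H × V → ℝ), IsOpen W → ContDiffOn ℝ 1 u W →
    WD G W h u (XL G h u)

/-- the product rule -/
def ProdSt : Prop :=
  ∀ (W : Set (H × V)) (h : H) (u g a : H × V → ℝ), IsOpen W → ContDiffOn ℝ ∞ a W →
    LocallyIntegrableOn u W → LocallyIntegrableOn g W → WD G W h u g →
    WD G W h (fun x => a x * u x) fun x => a x * g x + XL G h a x * u x

variable (H V) in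
/-- differentiation under the integral -/
def DiffSt : Prop :=
  ∀ (u : H × V → ℝ) (Ψ : (H × V) × H × V → ℝ), LocallyIntegrable u → ContDiff ℝ 1 Ψ →
    (∀ r : ℝ, ∃ R : ℝ, ∀ x y, ‖x‖ ≤ r → R ≤ ‖y‖ → Ψ (x, y) = 0) →
    ContDiff ℝ 1 (fun x => ∫ y, u y * Ψ (x, y)) ∧
      ∀ x v, fderiv ℝ (fun x => ∫ y, u y * Ψ (x, y)) x v = ∫ y, u y * fderiv ℝ Ψ (x, y) (v, 0)

/-- derivatives of a convolution with a smooth kernel -/
def CvSt : Prop :=
  ∀ (u κ : H × V → ℝ) (δ : ℝ), MemLp u ⊤ volume → ContDiff ℝ ∞ κ → tsupport κ ⊆ closedBall 0 δ →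
    ContDiff ℝ 1 (cv G u κ) ∧ ∀ x, (∀ h, XL G h (cv G u κ) x = -cv G u (YR G h κ) x) ∧
      ∀ h h', fderiv ℝ (cv G u κ) x (0, BL G h h') =
        cv G u (XL G h' (XL G h κ)) x - cv G u (XL G h (XL G h' κ)) x

variable (H V) in
/-- approximate identities -/
def AISt : Prop :=
  ∀ (P : ℕ → H × V → ℝ) (c : ℝ) (Θ : H × V → ℝ), (∀ n, Integrable (P n)) → (∀ n y, 0 ≤ P n y) →
    Tendsto (fun n => ∫ y, P n y) atTop (𝓝 c) →
    (∀ r, 0 < r → Tendsto (fun n => ∫ y in (ball 0 r)ᶜ, P n y) atTop (𝓝 0)) →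
    MemLp Θ ⊤ volume → ContinuousAt Θ 0 →
    Tendsto (fun n => ∫ y, Θ y * P n y) atTop (𝓝 (c * Θ 0))

/-- weak convergence of mollified functions -/
def FubSt : Prop :=
  ∀ (g ψ : H × V → ℝ) (ρ : ℕ → ContDiffBump (0 : H × V)), MemLp g ⊤ volume → Continuous ψ →
    HasCompactSupport ψ → Tendsto (fun n => (ρ n).rOut) atTop (𝓝 0) →
    Tendsto (fun n => ∫ x, (∫ w, g w * (ρ n).normed volume (gm G w (-x))) * ψ x) atTop
      (𝓝 (∫ x, g x * ψ x))

/-- mollification -/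
def MolSt : Prop :=
  ∀ (W K : Set (H × V)) (h : H) (f g : H × V → ℝ) (a b M : ℝ), IsOpen W → IsCompact K → K ⊆ W →
    ContinuousOn f W → AEStronglyMeasurable f volume → AEStronglyMeasurable g volume →
    (∀ y, f y ∈ Icc a b) → (∀ᵐ y, |g y| ≤ M) → WD G W h f g →
    ∃ F : ℕ → H × V → ℝ, (∀ n, ContDiff ℝ 1 (F n)) ∧ (∀ n x, F n x ∈ Icc a b) ∧
      (∀ x ∈ K, Tendsto (fun n => F n x) atTop (𝓝 (f x))) ∧
      (∀ n, ∀ x ∈ K, |XL G h (F n) x| ≤ M) ∧
      ∀ ψ : H × V → ℝ, Continuous ψ → (∀ x ∉ K, ψ x = 0) →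
        Tendsto (fun n => ∫ x, XL G h (F n) x * ψ x) atTop (𝓝 (∫ x, g x * ψ x))

/-- the chain rule -/
def ChainSt : Prop :=
  ∀ (W : Set (H × V)) (h : H) (f g : H × V → ℝ) (b : ℝ), IsOpen W → ContinuousOn f W →
    (∀ x ∈ W, 0 < f x) → LB W g → WD G W h f g →
    WD G W h (fun x => f x ^ b) fun x => b * f x ^ (b - 1) * g x

/-- weak and classical derivatives agree -/
def UniqSt : Prop :=
  ∀ (W : Set (H × V)) (h : H) (u g : H × V → ℝ), IsOpen W → ContDiffOn ℝ 1 u W →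
    LocallyIntegrableOn g W → WD G W h u g → ∀ᵐ x, x ∈ W → g x = XL G h u x

/-- removal of the weight -/
def LinSt : Prop :=
  ∀ (W : Set (H × V)) (F a : H × V → ℝ) (g : Fin m → H × V → ℝ), IsOpen W → ContDiffOn ℝ ∞ a W →
    (∀ x ∈ W, a x ≠ 0) → LocallyIntegrableOn F W → (∀ i, LocallyIntegrableOn (g i) W) →
    (∀ i, WD G W (G.e i) F (g i)) →
    (∀ φ, Tst W φ → ∫ x, a x ^ 2 * ∑ i, g i x * XL G (G.e i) φ x = 0) →
    ∀ ψ, Tst W ψ → ∫ x, a x * F x * Lap G ψ x = ∫ x, Lap G a x * F x * ψ x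

/-- calculus with the gauge -/
def GamSt : Prop :=
  (∀ h y, |XL G h Nn y| ≤ 4 * ‖h‖ * Nn y ^ (3 / 4 : ℝ) ∧
    |YR G h Nn y| ≤ 4 * ‖h‖ * Nn y ^ (3 / 4 : ℝ)) ∧
  ∀ ε : ℝ, 0 < ε → ∀ y, Lap G (fun y => (Nn y + ε) ^ (-((homDim m k - 2) / 4))) y =
    -((homDim m k - 2) * (homDim m k + 2) *
      (ε * ‖y.1‖ ^ 2 * (Nn y + ε) ^ (-((homDim m k + 6) / 4))))

variable (m k H V) in
/-- local integrability of a power of the gauge -/
def IntSt : Prop :=
  finrank ℝ H = m → finrank ℝ V = k → 0 < m → 0 < k → ∀ δ : ℝ,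
    IntegrableOn (fun y : H × V => Nn y ^ (-((homDim m k - 1) / 4))) (closedBall 0 δ)

variable (m k H V) in
/-- a lower bound for the mass -/
def LowSt : Prop :=
  finrank ℝ H = m → finrank ℝ V = k → 0 < m → ∃ c : ℝ, 0 < c ∧ ∀ t : ℝ, 0 < t → t ≤ 1 →
    c ≤ ∫ y in ball (0 : H × V) (2 * t),
      t ^ 4 * ‖y.1‖ ^ 2 * (Nn y + t ^ 4) ^ (-((homDim m k + 6) / 4))

variable (H V) in
/-- convergence of regularized powers -/
def CnvSt : Prop :=
  ∀ (η : H × V → ℝ) (s : ℝ) (ε : ℕ → ℝ), Nontrivial V → 0 ≤ s → (∀ n, 0 < ε n) →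
    Tendsto ε atTop (𝓝 0) → Continuous η → (Integrable fun y => η y * Nn y ^ (-s)) →
    Lim (fun n y => η y * (Nn y + ε n) ^ (-s)) fun y => η y * Nn y ^ (-s)

/-- convergence of the derivatives of regularized powers -/
def DerSt : Prop :=
  ∀ (η : H × V → ℝ) (s δ : ℝ) (ε : ℕ → ℝ) (h : H), 0 < k → 0 ≤ s → (∀ n, 0 < ε n) →
    Tendsto ε atTop (𝓝 0) → ContDiff ℝ ∞ η → tsupport η ⊆ closedBall 0 δ →
    (s ≤ (homDim m k - 2) / 4 ∨ η =ᶠ[𝓝 0] 0) →
    Cnv δ (fun n => XL G h fun y => η y * (Nn y + ε n) ^ (-s)) ∧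
      Cnv δ fun n => YR G h fun y => η y * (Nn y + ε n) ^ (-s)

/-- the kernels -/
def KerSt : Prop :=
  0 < k → ∀ δ : ℝ, 0 < δ → ∃ (K κ P : ℕ → H × V → ℝ) (c : ℝ), 0 < c ∧
    (∀ n, ContDiff ℝ ∞ (K n) ∧ ContDiff ℝ ∞ (κ n) ∧ tsupport (K n) ⊆ closedBall 0 δ ∧
      tsupport (κ n) ⊆ closedBall 0 δ ∧ Integrable (P n) ∧
      ∀ y, 0 ≤ P n y ∧ P n y = κ n y - Lap G (K n) y) ∧
    Tendsto (fun n => ∫ y, P n y) atTop (𝓝 c) ∧
    (∀ r, 0 < r → Tendsto (fun n => ∫ y in (ball 0 r)ᶜ, P n y) atTop (𝓝 0)) ∧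
    ∀ h, Cnv δ (fun n => XL G h (K n)) ∧ Cnv δ (fun n => YR G h (K n)) ∧
      Cnv δ (fun n => XL G h (κ n)) ∧ Cnv δ fun n => YR G h (κ n)

/-- uniform convergence of convolutions -/
def UnifSt : Prop :=
  ∀ (u κ' : H × V → ℝ) (κ : ℕ → H × V → ℝ), MemLp u ⊤ volume → Lim κ κ' →
    TendstoUniformly (fun n => cv G u (κ n)) (cv G u κ') atTop

/-- limits of functions of class one -/
def LimSt : Prop :=
  ∀ (s : Set (H × V)) (F : ℕ → H × V → ℝ) (f : H × V → ℝ) (A : Fin m → H × V → ℝ)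
    (B : Fin m → Fin m → H × V → ℝ), 0 < k → IsOpen s → Bornology.IsBounded s →
    (∀ n, ContDiff ℝ 1 (F n)) → (∀ x ∈ s, Tendsto (fun n => F n x) atTop (𝓝 (f x))) →
    (∀ i, TendstoUniformlyOn (fun n => XL G (G.e i) (F n)) (A i) atTop s) →
    (∀ i j, TendstoUniformlyOn (fun n x => fderiv ℝ (F n) x (0, BL G (G.e i) (G.e j))) (B i j)
      atTop s) →
    ContDiffOn ℝ 1 f s ∧ ∀ x ∈ s, (∀ i, XL G (G.e i) f x = A i x) ∧
      ∀ i j, fderiv ℝ f x (0, BL G (G.e i) (G.e j)) = B i j x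

/-- convolution with an integrable kernel preserves the class -/
def SmoSt : Prop :=
  ∀ (W : Set (H × V)) (u κ : H × V → ℝ) (j : ℕ) (δ : ℝ) (x : H × V), IsOpen W →
    ContDiffOn ℝ j u W → Kr δ κ → (∀ y ∈ closedBall (0 : H × V) δ, gm G x y ∈ W) →
    ContDiffAt ℝ j (cv G u κ) x

/-- the representation of the derivatives -/
def RepSt : Prop :=
  ∀ (W : Set (H × V)) (w u : H × V → ℝ) (γ γ' : Fin m → H × V → ℝ) (x₀ : H × V), 0 < k →
    IsOpen W → x₀ ∈ W → MemLp w ⊤ volume → MemLp u ⊤ volume → (∀ i, MemLp (γ i) ⊤ volume) →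
    (∀ i, MemLp (γ' i) ⊤ volume) → ContinuousOn w W → (∀ i, WD G W (G.e i) w (γ i)) →
    (∀ i, WD G W (G.e i) u (γ' i)) →
    (∀ ψ, Tst W ψ → ∫ x, w x * Lap G ψ x = ∫ x, u x * ψ x) →
    ∃ (δ c : ℝ) (a a' b b' : Fin m → H × V → ℝ), 0 < δ ∧ c ≠ 0 ∧
      (∀ i, Kr δ (a i) ∧ Kr δ (a' i) ∧ Kr δ (b i) ∧ Kr δ (b' i)) ∧
      (∀ x ∈ ball x₀ δ, ∀ y ∈ closedBall (0 : H × V) δ, gm G x y ∈ W) ∧
      ContDiffOn ℝ 1 w (ball x₀ δ) ∧ ∀ x ∈ ball x₀ δ,
        (∀ i, c * XL G (G.e i) w x = cv G u (a' i) x - cv G w (a i) x) ∧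
        ∀ i j, c * fderiv ℝ w x (0, BL G (G.e i) (G.e j)) =
          cv G (γ i) (b j) x - cv G (γ j) (b i) x - cv G (γ' i) (b' j) x + cv G (γ' j) (b' i) x

/-- hypoellipticity -/
def BootSt : Prop :=
  ∀ (W : Set (H × V)) (w q : H × V → ℝ) (γ : Fin m → H × V → ℝ), 0 < k → IsOpen W →
    ContDiffOn ℝ ∞ q W → ContinuousOn w W → (∀ i, LB W (γ i)) → (∀ i, WD G W (G.e i) w (γ i)) →
    (∀ ψ, Tst W ψ → ∫ x, w x * Lap G ψ x = ∫ x, q x * w x * ψ x) → ∀ j : ℕ, ContDiffOn ℝ j w W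

/-- the potential is smooth away from the centre -/
def Reg1St : Prop :=
  ∀ (p R : ℝ) (Ω : Set (H × V)) (f : H × V → ℝ) (g : Fin m → H × V → ℝ), 0 < k → 1 < p →
    p < homDim m k → 0 < R → IsSobolevPotential G p Ω f g →
    (∀ᵐ x, x ∉ closure Ω → weakP k p f g x = cConst m k p R ^ p * ‖x.1‖ ^ p) →
    ContDiffOn ℝ 3 f (U0 Ω)

/-- the identities hold for the classical derivatives -/
def Reg2St : Prop :=
  ∀ (p R : ℝ) (Ω : Set (H × V)) (f : H × V → ℝ) (g : Fin m → H × V → ℝ), 1 < p →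
    IsSobolevPotential G p Ω f g →
    (∀ᵐ x, x ∉ closure Ω → weakP k p f g x = cConst m k p R ^ p * ‖x.1‖ ^ p) →
    ContDiffOn ℝ 3 f (U0 Ω) →
    (∀ x ∈ U0 Ω, pFunction G p f x = cConst m k p R ^ p * ‖x.1‖ ^ p) ∧
      ∀ φ, Tst (U0 Ω) φ → ∫ x, horGradNorm G f x ^ (p - 2) * ∑ i, X G i f x * X G i φ x = 0

/-- from the weak equation to the system -/
def Weak2St : Prop :=
  ∀ (p R : ℝ) (Ω : Set (H × V)) (f : H × V → ℝ), 1 < p → p < homDim m k → 0 < R →
    (∀ x ∉ Ω, 0 < f x) → ContDiffOn ℝ 3 f (U0 Ω) →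
    (∀ x ∈ U0 Ω, pFunction G p f x = cConst m k p R ^ p * ‖x.1‖ ^ p) →
    (∀ φ, Tst (U0 Ω) φ → ∫ x, horGradNorm G f x ^ (p - 2) * ∑ i, X G i f x * X G i φ x = 0) →
    Sys G p (U0 Ω) (uf m k p R f)

/-- from the local classification to the domain -/
def Glob2St : Prop :=
  ∀ (p R : ℝ) (Ω : Set (H × V)) (f : H × V → ℝ), 0 < k → 1 < p → p < homDim m k → 0 < R →
    IsOpen Ω → Bornology.IsBounded Ω → ContDiffOn ℝ 1 f (U0 Ω) → ContinuousOn f Ωᶜ →
    (∀ x ∉ Ω, 0 < f x) → (∀ x ∈ frontier Ω, f x = 1) → Tendsto f (cocompact (H × V)) (𝓝 0) →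
    (∀ x ∈ U0 Ω, fderiv ℝ (uf m k p R f) x ≠ 0) →
    (∀ x ∈ Ws G (uf m k p R f) (U0 Ω), Gau (uf m k p R f) x) →
    ∃ σ₀ : V, interior (closure Ω) = gaugeBall R σ₀

/-- potentials of class one are Sobolev potentials -/
def BridgeSt : Prop :=
  ∀ (p : ℝ) (Ω : Set (H × V)) (f : H × V → ℝ), 0 ≤ p → IsCapacitaryPotential G p Ω f →
    IsSobolevPotential G p Ω f fun i => X G i f

theorem neg_gm_eq (x y : H × V) : -gm G x y = gm G (-y) (-x) := by
  simp only [gm, Prod.neg_mk, Prod.fst_neg, Prod.snd_neg, map_neg, _root_.neg_apply, neg_neg,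
    BL_swap G y.1 x.1, Prod.mk.injEq]
  exact ⟨by abel, by module⟩

theorem tube {W : Set (H × V)} (hW : IsOpen W) {x₀ : H × V} (hx : x₀ ∈ W) :
    ∃ δ, 0 < δ ∧ ∀ x ∈ ball x₀ δ, ∀ y ∈ closedBall (0 : H × V) δ, gm G x y ∈ W := by
  have h1 : (fun q : (H × V) × H × V => gm G q.1 q.2) ⁻¹' W ∈ 𝓝 (x₀, 0) :=
    (hW.preimage (continuous_gm G continuous_fst continuous_snd)).mem_nhds
      (by simpa [gm_zero] using hx)
  obtain ⟨δ, h2, h3⟩ := nhds_basis_closedBall.mem_iff.1 h1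
  rw [← closedBall_prod_same] at h3
  exact ⟨δ, h2, fun x hx y hy => h3 (mk_mem_prod (ball_subset_closedBall hx) hy)⟩

theorem U0_open (Ω : Set (H × V)) : IsOpen (U0 Ω) :=
  isClosed_closure.isOpen_compl.inter (isOpen_ne.preimage continuous_fst)

variable {G} {W : Set (H × V)} {u g w κ : H × V → ℝ} {h : H} {δ : ℝ} {x : H × V}

theorem WD.cv (hu : WD G W h u g) (h1 : ContDiff ℝ ∞ κ) (h2 : tsupport κ ⊆ closedBall 0 δ)
    (h3 : ∀ y ∈ closedBall (0 : H × V) δ, gm G x y ∈ W) : cv G u (XL G h κ) x = -cv G g κ x := by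
  rw [Cl.cv, Cl.cv, ← hu _ (Tst.gm G h1 h2 h3)]
  simp only [XL_gm G (h1.differentiable (by simp) _)]

theorem lap_cv (hu : ∀ ψ, Tst W ψ → ∫ x, w x * Lap G ψ x = ∫ x, u x * ψ x) (h1 : ContDiff ℝ ∞ κ)
    (h2 : tsupport κ ⊆ closedBall 0 δ) (h3 : ∀ y ∈ closedBall (0 : H × V) δ, gm G x y ∈ W) :
    cv G w (Lap G κ) x = cv G u κ x := by
  rw [cv, cv, ← hu _ (Tst.gm G h1 h2 h3)]
  have h4 : ∀ i, (XL G (G.e i) fun y => κ (gm G (-x) y)) = fun y => XL G (G.e i) κ (gm G (-x) y) :=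
    fun i => funext fun y => XL_gm G (h1.differentiable (by simp) _)
  simp only [Lap, h4, XL_gm G ((contDiff_XL G _ h1).differentiable (by simp) _)]

end Pool.Agent.MP_1048c2_an.Cl

end
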