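import Pool.Agent.MP_1048c2_an.Mg.A

section
set_option linter.unusedSectionVars false
namespace Pool.Agent.MP_1048c2_an.Cl
open Filter Topology Set Module
open scoped InnerProductSpace
variable {m k : ℕ} {H V : Type} [NormedAddCommGroup H] [InnerProductSpace ℝ H] [NormedAddCommGroup V] [InnerProductSpace ℝ V] [FiniteDimensional ℝ H] [FiniteDimensional ℝ V]

theorem deg_P2b (G : HeisenbergType m k H V) (P0 P1 : H × V →L[ℝ] H × V) (e : H) (he : ‖e‖ = 1)
    (h1 : ∀ v, (P1 v).1 = ⟪e, (P1 v).1⟫_ℝ • e) (U C c : ℝ) (n : ℕ) (hn : k + 1 ≤ n)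
    (hid : ∀ t : ℝ, (P0 + t • P1).det * U = (C + c * t) ^ n)
    (hz : k + 1 < n ∨ ∃ v, v ≠ 0 ∧ (P0 v).1 = ⟪e, (P0 v).1⟫_ℝ • e ∧ P1 v = 0) : c = 0 := by
  obtain ⟨j, rfl⟩ := Nat.exists_eq_add_of_le hn
  let E : H × V →L[ℝ] H × V :=
    ((innerSL ℝ e).comp (ContinuousLinearMap.fst ℝ H V)).smulRight (e, 0)
  let S : H × V →L[ℝ] H × V := (ContinuousLinearMap.inr ℝ H V).comp (ContinuousLinearMap.snd ℝ H V)
  let L : H × V →L[ℝ] H × V := P0 - E.comp P0 - S.comp P0 + P1
  let M : H × V →L[ℝ] H × V := E.comp P0 + S.comp P0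
  have key : ∀ s : ℝ, 0 < s → s ^ j * ((L + s • M).det * U) = (C * s + c) ^ (k + 1 + j) := by
    intro s hs
    have hs' := hs.ne'
    let Sh : H × V →L[ℝ] H × V := ContinuousLinearMap.id ℝ _ + (s - 1) • S
    have d1 : Sh.det = 1 ^ m * s ^ k := det_shear G 1 s 0 Sh fun v => by
      ext
      · simp [Sh, S]
      · simp only [Sh, S]
        simp
        module
    let f : Dual ℝ (H × V) := (s - 1) • ((innerSL ℝ e).comp (ContinuousLinearMap.fst ℝ H V)).toLinearMap
    have d2 : (LinearMap.transvection f ((e, 0) : H × V)).det = s := by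
      rw [LinearMap.transvection.det]
      simp [f, he]
    have d3 : ((L + s • M : H × V →L[ℝ] H × V) : H × V →ₗ[ℝ] H × V) =
        LinearMap.transvection f ((e, 0) : H × V) ∘ₗ (Sh : H × V →ₗ[ℝ] H × V) ∘ₗ
          ((P0 + s⁻¹ • P1 : H × V →L[ℝ] H × V) : H × V →ₗ[ℝ] H × V) := by
      refine LinearMap.ext fun v => ?_
      have h2 := h1 v
      ext
      · simp [L, M, E, S, Sh, f, LinearMap.transvection.apply, inner_add_right,
          real_inner_smul_right]
        generalize ⟪e, (P1 v).1⟫_ℝ = a at h2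
        rw [h2]
        match_scalars
        · ring
        · field_simp
          ring
      · simp [L, M, E, S, Sh, f, LinearMap.transvection.apply]
        match_scalars <;> first | ring1 | (field_simp; ring1)
    have d4 : (L + s • M).det = s * (s ^ k * (P0 + s⁻¹ • P1).det) := by
      rw [ContinuousLinearMap.det, d3, LinearMap.det_comp, LinearMap.det_comp, d2]
      rw [ContinuousLinearMap.det] at d1
      rw [d1, one_pow, one_mul, ContinuousLinearMap.det]
    have d5 : C * s + c = s * (C + c * s⁻¹) := by field_simp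
    rw [d4, d5, mul_pow, ← hid]
    ring
  have c1 : Continuous fun s : ℝ => s ^ j * ((L + s • M).det * U) :=
    (continuous_pow j).mul ((ContinuousLinearMap.continuous_det.comp
      (continuous_const.add (continuous_id.smul continuous_const))).mul continuous_const)
  have c2 : Continuous fun s : ℝ => (C * s + c) ^ (k + 1 + j) := by fun_prop
  have h0 := (EqOn.closure (s := Ioi (0 : ℝ)) (fun s hs => key s hs) c1 c2)
    (show (0 : ℝ) ∈ closure (Ioi 0) by rw [closure_Ioi]; exact self_mem_Ici)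
  simp only [zero_smul, add_zero, mul_zero, zero_add] at h0
  refine pow_eq_zero_iff (n := k + 1 + j) (by omega) |>.1 ?_
  rw [← h0]
  rcases hz with hz | ⟨v, hv, h2, h3⟩
  · rw [zero_pow (by omega), zero_mul]
  · have : L.det = 0 := by
      rw [ContinuousLinearMap.det, LinearMap.det_eq_zero_iff_ker_ne_bot, Submodule.ne_bot_iff]
      refine ⟨v, ?_, hv⟩
      rw [LinearMap.mem_ker]
      ext
      · simp [L, E, S, h3, ← h2]
      · simp [L, E, S, h3]
    rw [this, zero_mul, mul_zero]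

theorem plane_P2b (G : HeisenbergType 2 k H V) (z e y : H) (hz : z ≠ 0) (he : ‖e‖ = 1)
    (h1 : ⟪z, e⟫_ℝ = 0) (h2 : ⟪z, y⟫_ℝ = 0) : y = ⟪e, y⟫_ℝ • e := by
  have hc : ∀ a b : H, ⟪a, b⟫_ℝ =
      ⟪G.e 0, a⟫_ℝ * ⟪G.e 0, b⟫_ℝ + ⟪G.e 1, a⟫_ℝ * ⟪G.e 1, b⟫_ℝ := by
    intro a b
    rw [← G.e.sum_inner_mul_inner a b, Fin.sum_univ_two, real_inner_comm a, real_inner_comm a]
  have h3 : ⟪z, z⟫_ℝ ≠ 0 := by simpa using hz
  have h4 : ⟪e, e⟫_ℝ = 1 := by rw [real_inner_self_eq_norm_sq, he, one_pow]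
  rw [← sub_eq_zero, ← inner_self_eq_zero (𝕜 := ℝ)]
  have h5 : ⟪z, y - ⟪e, y⟫_ℝ • e⟫_ℝ = 0 := by
    rw [inner_sub_right, real_inner_smul_right, h1, h2]; ring
  have h6 : ⟪e, y - ⟪e, y⟫_ℝ • e⟫_ℝ = 0 := by
    rw [inner_sub_right, real_inner_smul_right, h4]; ring
  generalize y - ⟪e, y⟫_ℝ • e = r at h5 h6
  rw [hc] at h1 h3 h4 h5 h6 ⊢
  refine mul_left_cancel₀ h3 ?_
  generalize ⟪G.e 0, z⟫_ℝ = z0 at *
  generalize ⟪G.e 1, z⟫_ℝ = z1 at *
  generalize ⟪G.e 0, e⟫_ℝ = e0 at *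
  generalize ⟪G.e 1, e⟫_ℝ = e1 at *
  generalize ⟪G.e 0, r⟫_ℝ = r0 at *
  generalize ⟪G.e 1, r⟫_ℝ = r1 at *
  have a0 : r0 * (z0 * e1 - z1 * e0) = 0 := by linear_combination e1 * h5 - z1 * h6
  have a1 : r1 * (z0 * e1 - z1 * e0) = 0 := by linear_combination z0 * h6 - e0 * h5
  have a2 : (z0 * e1 - z1 * e0) ^ 2 = z0 * z0 + z1 * z1 := by
    linear_combination (z0 * z0 + z1 * z1) * h4 - (z0 * e0 + z1 * e1) * h1
  rw [← a2]
  linear_combination (r0 * (z0 * e1 - z1 * e0)) * a0 + (r1 * (z0 * e1 - z1 * e0)) * a1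

theorem unit_P2b (G : HeisenbergType m k H V) (hm : 0 < m) (y : H) :
    ∃ e : H, ‖e‖ = 1 ∧ y = ⟪e, y⟫_ℝ • e := by
  by_cases hy : y = 0
  · exact ⟨G.e ⟨0, hm⟩, G.e.orthonormal.1 _, by simp [hy]⟩
  · have hn : ‖y‖ ≠ 0 := norm_ne_zero_iff.2 hy
    refine ⟨‖y‖⁻¹ • y, by simp [norm_smul, hn], ?_⟩
    rw [real_inner_smul_left, real_inner_self_eq_norm_sq, smul_smul]
    have : ‖y‖⁻¹ * ‖y‖ ^ 2 * ‖y‖⁻¹ = 1 := by field_simp
    rw [this, one_smul]

/-- the constant part of the pencil -/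
noncomputable def P0_P2b (d : Sd H V) (x : H × V) (w : ℝ) : H × V →L[ℝ] H × V :=
  (w • fderiv ℝ d.a x + w⁻¹ • fderiv ℝ d.b x).prod
    (fderiv ℝ d.s x + w ^ 2 • fderiv ℝ d.g4 x - w⁻¹ ^ 2 • fderiv ℝ d.g5 x)

/-- the linear part of the pencil -/
noncomputable def P1_P2b (d : Sd H V) (x : H × V) (w : ℝ) : H × V →L[ℝ] H × V :=
  ((fderiv ℝ d.κ x).smulRight (w • d.a x - w⁻¹ • d.b x) +
      (1 / 2 : ℝ) • (fderiv ℝ d.ℓ x).smulRight (w • d.a' x + w⁻¹ • d.b' x)).prod
  ((1 / 2 : ℝ) • (fderiv ℝ d.ℓ x).smulRight (d.g1 x) + fderiv ℝ d.g3 x +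
    (2 * w ^ 2) • (fderiv ℝ d.κ x).smulRight (d.g4 x) +
    (2 * w⁻¹ ^ 2) • (fderiv ℝ d.κ x).smulRight (d.g5 x))

theorem Pm_P2b (d : Sd H V) (x : H × V) (t w : ℝ) :
    d.Pm x t w = P0_P2b d x w + t • P1_P2b d x w := by
  refine ContinuousLinearMap.ext fun v => ?_
  ext
  · simp [Sd.Pm, P0_P2b, P1_P2b]
  · simp [Sd.Pm, P0_P2b, P1_P2b]
    module

theorem p2b_st (G : HeisenbergType m k H V) : P2bSt G := by
  intro W u n hk h hn x hx ha hb hid
  borelize H V
  have hxs := W1_subset hx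
  have hκ := kap_pos hx.2.1
  have hκ2 := kap_sq hx.2.1
  have hcon := h.constraint hxs
  have hμ := hx.2.2
  have hl : ‖la G u x‖ ≠ 0 := norm_ne_zero_iff.2 hμ
  have hm := m_pos G hk
  have dl : HasFDerivAt (fun y => ‖la G u y‖) (fderiv ℝ (fun y => ‖la G u y‖) x) x :=
    ((h.d_la hx.1).differentiableAt.norm ℝ hμ).hasFDerivAt
  have dl' : ∀ v, fderiv ℝ (fun y => ‖la G u y‖) x v =
      ⟪la G u x, fderiv ℝ (la G u) x v⟫_ℝ / ‖la G u x‖ := by
    intro v
    have h3 := congrArg (fun L : H × V →L[ℝ] ℝ => L v) ((dl.pow 2).unique (h.d_la hx.1).norm_sq)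
    simp at h3
    field_simp
    linarith
  have hP1 : ∀ w v, (P1_P2b (d1 G u) x w v).1 = ⟪la G u x, fderiv ℝ (la G u) x v⟫_ℝ •
      ((-(1 / (4 * kap G u x))) • (w • fa G u x - w⁻¹ • fb G u x) +
        (1 / (2 * ‖la G u x‖ ^ 2)) • JL G (la G u x) (w • fa G u x + w⁻¹ • fb G u x)) := by
    intro w v
    have := hκ.ne'
    simp [P1_P2b, d1, dl', h.d_kap hxs]
    match_scalars <;> field_simp
  have hid' : ∀ w, 0 < w → ∀ t : ℝ, (P0_P2b (d1 G u) x w + t • P1_P2b (d1 G u) x w).det * u x ^ n =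
      ((u x + 2 / kap G u x * (‖fa G u x‖ ^ 2 * w ^ 2 - ‖fb G u x‖ ^ 2 * w⁻¹ ^ 2 -
        (‖fa G u x‖ ^ 2 - ‖fb G u x‖ ^ 2))) + (8 * ⟪fa G u x, fb G u x⟫_ℝ) * t) ^ n := by
    intro w hw t
    have := hid t w hw
    rw [DetId, Pm_P2b] at this
    rw [this]
    simp only [d1]
    congr 1
    ring
  suffices hc : 8 * ⟪fa G u x, fb G u x⟫_ℝ = 0 by linarith
  have line : ∀ (e y : H) (r : ℝ), y = ⟪e, y⟫_ℝ • e → r • y = ⟪e, r • y⟫_ℝ • e := by
    intro e y r hy
    rw [real_inner_smul_right, mul_smul, ← hy]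
  rcases Nat.lt_or_ge (k + 1) n with hlt | hge
  · obtain ⟨e, he, hy⟩ := unit_P2b G hm ((-(1 / (4 * kap G u x))) •
      ((1 : ℝ) • fa G u x - (1 : ℝ)⁻¹ • fb G u x) +
        (1 / (2 * ‖la G u x‖ ^ 2)) • JL G (la G u x) ((1 : ℝ) • fa G u x + (1 : ℝ)⁻¹ • fb G u x))
    exact deg_P2b G _ _ e he (fun v => by rw [hP1]; exact line e _ _ hy) _ _ _ n hlt.le
      (hid' 1 one_pos) (Or.inl hlt)
  obtain rfl : m = 2 := by omega
  have hA : 0 < ‖fa G u x‖ := norm_pos_iff.2 ha
  have hB : 0 < ‖fb G u x‖ := norm_pos_iff.2 hb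
  obtain ⟨w, hw, hw2⟩ : ∃ w : ℝ, 0 < w ∧ w ^ 2 = ‖fb G u x‖ / ‖fa G u x‖ :=
    ⟨√(‖fb G u x‖ / ‖fa G u x‖), Real.sqrt_pos.2 (div_pos hB hA), Real.sq_sqrt (div_pos hB hA).le⟩
  have hw0 := hw.ne'
  by_cases hz : w • fa G u x + w⁻¹ • fb G u x = 0
  · have h1 : fb G u x = (-w ^ 2) • fa G u x := by
      have := congrArg (fun y => w • y) hz
      simp only [smul_add, smul_smul, mul_inv_cancel₀ hw0, one_smul, smul_zero] at this
      linear_combination (norm := module) this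
    have h2 : ⟪JL G (la G u x) (fa G u x), fb G u x⟫_ℝ = 0 := by
      rw [h1, real_inner_smul_right, inner_J_self, mul_zero]
    rw [h2] at hcon
    have h3 : kap G u x * ⟪fa G u x, fb G u x⟫_ℝ = 0 := by linarith
    rw [(mul_eq_zero.1 h3).resolve_left hκ.ne', mul_zero]
  set z := w • fa G u x + w⁻¹ • fb G u x with hzd
  set η := w • fa G u x - w⁻¹ • fb G u x with hηd
  have hJ : ‖JL G (la G u x) z‖ ≠ 0 := by
    intro h0
    have := norm_J_sq G (la G u x) z
    rw [h0] at this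
    exact mul_ne_zero (pow_ne_zero 2 hl) (pow_ne_zero 2 (norm_ne_zero_iff.2 hz)) (by linarith)
  set e := ‖JL G (la G u x) z‖⁻¹ • JL G (la G u x) z with hed
  have he : ‖e‖ = 1 := by simp [hed, norm_smul, hJ]
  have hzJ : ⟪z, JL G (la G u x) z⟫_ℝ = 0 := by rw [real_inner_comm, inner_J_self]
  have hze : ⟪z, e⟫_ℝ = 0 := by rw [hed, real_inner_smul_right, hzJ, mul_zero]
  have hzη : ⟪z, η⟫_ℝ = 0 := by
    simp only [hzd, hηd, inner_add_left, inner_sub_right, real_inner_smul_left,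
      real_inner_smul_right, real_inner_self_eq_norm_sq, real_inner_comm (fa G u x) (fb G u x),
      norm_smul, mul_pow, Real.norm_eq_abs, sq_abs]
    have h1 : w ^ 2 * ‖fa G u x‖ = ‖fb G u x‖ := by rw [hw2]; field_simp
    rw [← h1]
    field_simp
    ring
  have pl : ∀ r s : ℝ, r • η + s • JL G (la G u x) z = ⟪e, r • η + s • JL G (la G u x) z⟫_ℝ • e :=
    fun r s => plane_P2b G z e _ hz he hze (by
      rw [inner_add_right, real_inner_smul_right, real_inner_smul_right, hzη, hzJ]; ring)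
  refine deg_P2b G _ _ e he (fun v => by rw [hP1]; exact line e _ _ (pl _ _)) _ _ _ n (by omega)
    (hid' w hw) (Or.inr ⟨vf G u x, ?_, ?_⟩)
  · intro h0
    have h1 := h.eik x hx.1
    rw [h0] at h1
    have h2 : ‖x.1‖ ^ 2 = 0 := by simpa using h1
    exact h.nz x hx.1 (by simpa using h2)
  obtain ⟨q1, q2⟩ := h.ham hx.1
  have q3 : fderiv ℝ (kap G u) x (vf G u x) = 0 := by rw [h.d_kap hxs, q1]; simp
  have q4 : fderiv ℝ (fun y => ‖la G u y‖) x (vf G u x) = 0 := by rw [dl', q1]; simp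
  obtain ⟨q5, q6⟩ := h.d_ab hxs (vf G u x)
  have q7 : (vf G u x).1 = kap G u x • (fa G u x - fb G u x) +
      (1 / 2 : ℝ) • JL G (la G u x) (fa G u x + fb G u x) := by
    rw [fa_add_fb, fa_sub_fb hx.2.1]; rfl
  have q8 : fderiv ℝ (fa G u) x (vf G u x) - fderiv ℝ (fb G u) x (vf G u x) =
      (1 / 2 : ℝ) • JL G (la G u x) (fa G u x - fb G u x) + kap G u x • (fa G u x + fb G u x) := by
    refine smul_right_injective H hκ.ne' ?_
    rw [q3, zero_smul, zero_add, q2, ← hκ2] at q6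
    simp only []
    rw [← q6, fa_add_fb, ← fa_sub_fb hx.2.1, map_smul]
    module
  rw [q7] at q5
  have qa : fderiv ℝ (fa G u) x (vf G u x) =
      (1 / 2 : ℝ) • JL G (la G u x) (fa G u x) + kap G u x • fa G u x := by
    simp only [map_add, map_sub] at q5 q8
    linear_combination (norm := module) (1 / 2 : ℝ) • q5 + (1 / 2 : ℝ) • q8
  have qb : fderiv ℝ (fb G u) x (vf G u x) =
      (1 / 2 : ℝ) • JL G (la G u x) (fb G u x) - kap G u x • fb G u x := by
    simp only [map_add, map_sub] at q5 q8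
    linear_combination (norm := module) (1 / 2 : ℝ) • q5 - (1 / 2 : ℝ) • q8
  constructor
  · have : (P0_P2b (d1 G u) x w (vf G u x)).1 =
        kap G u x • η + (1 / 2 : ℝ) • JL G (la G u x) z := by
      simp only [hzd, hηd, map_add, map_smul]
      simp [P0_P2b, d1, qa, qb]
      module
    rw [this]
    exact pl _ _
  have dc := (h.dif hxs h.sm_fa).inner ℝ (h.dif hxs h.sm_fb)
  have di := (hasDerivAt_inv (pow_ne_zero 2 hl)).comp_hasFDerivAt x (dl.pow 2)
  have dg := (((dc.const_mul 8).mul di).smul (h.d_la hx.1)).fderiv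
  have e3 : (d1 G u).g3 = ((fun y => 8 * ⟪fa G u y, fb G u y⟫_ℝ) *
      (fun y : ℝ => y⁻¹) ∘ fun y => ‖la G u y‖ ^ 2) • la G u := by
    funext y; simp [d1, div_eq_mul_inv]
  have q9 : fderiv ℝ (d1 G u).g3 x (vf G u x) = 0 := by
    have hs := J_skew G (la G u x) (fa G u x) (fb G u x)
    rw [e3, dg]
    simp [q1, q4, qa, qb, inner_add_left, inner_sub_right, real_inner_smul_left,
      real_inner_smul_right, hs]
  have q10 : fderiv ℝ (d1 G u).κ x (vf G u x) = 0 := q3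
  have q11 : fderiv ℝ (d1 G u).ℓ x (vf G u x) = 0 := q4
  ext <;> simp [P1_P2b, q9, q10, q11]

end Pool.Agent.MP_1048c2_an.Cl

end

section
/-!
From the determinant identity to the relations between the differentials.
-/

set_option linter.unusedSectionVars false

namespace Pool.Agent.MP_1048c2_an.Cl

open Filter Topology Set Module
open scoped InnerProductSpace

variable {m k : ℕ} {H V : Type} [NormedAddCommGroup H] [InnerProductSpace ℝ H]
  [NormedAddCommGroup V] [InnerProductSpace ℝ V] [FiniteDimensional ℝ H] [FiniteDimensional ℝ V]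
  {G : HeisenbergType m k H V} {p : ℝ} {W : Set (H × V)} {u : H × V → ℝ} {x : H × V}

theorem Mq_apply (G : HeisenbergType m k H V) (u : H × V → ℝ) (x : H × V) (μ : V) :
    Mq G u x μ = (1 / (4 * kap G u x)) • μ +
      (⟪la G u x, μ⟫_ℝ / (16 * kap G u x ^ 3)) • la G u x := by
  simp only [Mq, _root_.add_apply, _root_.smul_apply, ContinuousLinearMap.id_apply,
    ContinuousLinearMap.smulRight_apply, innerSL_apply_apply, smul_smul]
  congr 2
  ring

theorem sg_apply (G : HeisenbergType m k H V) (u : H × V → ℝ) (x v : H × V) :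
    sg G u x v = fderiv ℝ (fs G u) x v + ((⟪fb G u x, fderiv ℝ (fa G u) x v⟫_ℝ -
      ⟪fa G u x, fderiv ℝ (fb G u) x v⟫_ℝ) / (4 * kap G u x)) • la G u x := by
  simp only [sg, _root_.add_apply, _root_.smul_apply, _root_.sub_apply,
    ContinuousLinearMap.smulRight_apply, ContinuousLinearMap.comp_apply, innerSL_apply_apply,
    smul_smul]
  congr 2
  ring

/-- the second coordinate of a tangent vector -/
theorem Sys.snd_eq (h : Sys G p W u) (hx : x ∈ Ws G u W) (v : H × V) :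
    v.2 = sg G u x v + ((‖fa G u x‖ ^ 2 - ‖fb G u x‖ ^ 2) / 2) •
      Mq G u x (fderiv ℝ (la G u) x v) +
      (⟪fa G u x - fb G u x, v.1⟫_ℝ / (4 * kap G u x)) • la G u x := by
  rw [sg_apply, h.d_fs hx, h.d_g4 hx, h.d_g5 hx, ← (h.d_ab hx v).1]
  simp only [inner_sub_left, inner_add_right]
  match_scalars <;> ring

theorem Sys.lagr (h : Sys G p W u) (hx : x ∈ Ws G u W) (v v' : H × V) :
    2 * kap G u x * ⟪fderiv ℝ (fb G u) x v, fderiv ℝ (fa G u) x v'⟫_ℝ +
        ⟪sg G u x v, fderiv ℝ (la G u) x v'⟫_ℝ =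
      2 * kap G u x * ⟪fderiv ℝ (fb G u) x v', fderiv ℝ (fa G u) x v⟫_ℝ +
        ⟪sg G u x v', fderiv ℝ (la G u) x v⟫_ℝ := by
  have h1 := h.symm hx.1 v v'
  have hk := (kap_pos hx.2).ne'
  have e1 := h.snd_eq hx v
  have e2 := h.snd_eq hx v'
  rw [(h.d_ab hx v).2, (h.d_ab hx v').2, h.d_kap hx, h.d_kap hx, e1, e2] at h1
  have e3 := (h.d_ab hx v).1
  have e4 := (h.d_ab hx v').1
  clear e1 e2
  generalize fderiv ℝ (fa G u) x v = da at *
  generalize fderiv ℝ (fa G u) x v' = da' at *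
  generalize fderiv ℝ (fb G u) x v = db at *
  generalize fderiv ℝ (fb G u) x v' = db' at *
  generalize fderiv ℝ (la G u) x v = dl at *
  generalize fderiv ℝ (la G u) x v' = dl' at *
  generalize sg G u x v = s at *
  generalize sg G u x v' = s' at *
  generalize fa G u x - fb G u x = η at *
  rw [← e3, ← e4] at h1
  simp only [Mq_apply, inner_add_right, inner_add_left, real_inner_smul_right, real_inner_smul_left,
    inner_sub_left, real_inner_comm dl (la G u x), real_inner_comm dl' (la G u x),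
    real_inner_comm dl dl', real_inner_comm da da', real_inner_comm db db', real_inner_comm da db',
    real_inner_comm s dl', real_inner_comm s' dl, real_inner_comm db da'] at h1 ⊢
  linear_combination (-1 : ℝ) * h1

theorem Sys.pm_apply (h : Sys G p W u) (hx : x ∈ Ws G u W) {w : ℝ} (hw : w ≠ 0) (v : H × V) :
    (d1 G u).Pm x 0 w v = (w • fderiv ℝ (fa G u) x v + w⁻¹ • fderiv ℝ (fb G u) x v,
      sg G u x v + ((‖fa G u x‖ ^ 2 * w ^ 2 - ‖fb G u x‖ ^ 2 * w⁻¹ ^ 2) / 2) •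
        Mq G u x (fderiv ℝ (la G u) x v) + (⟪w • fa G u x - w⁻¹ • fb G u x,
          w • fderiv ℝ (fa G u) x v + w⁻¹ • fderiv ℝ (fb G u) x v⟫_ℝ / (4 * kap G u x)) •
            la G u x) := by
  simp only [Sd.Pm, d1, ContinuousLinearMap.prod_apply, _root_.add_apply, _root_.sub_apply,
    _root_.smul_apply, zero_smul, mul_zero, add_zero, sub_zero, sg_apply, h.d_g4 hx, h.d_g5 hx,
    inner_sub_left, inner_add_right, real_inner_smul_left, real_inner_smul_right]
  congr 1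
  match_scalars <;> (field_simp; try ring)

theorem p2c_st (G : HeisenbergType m k H V) (hS : SpecSt m k H V) : P2cSt G := by
  intro W u n hs hn x hx ha hb hd
  have hx' := W1_subset hx
  have hκ := kap_pos hx'.2
  have hA : 0 < ‖fa G u x‖ ^ 2 := pow_pos (norm_pos_iff.2 ha) 2
  have hB : 0 < ‖fb G u x‖ ^ 2 := pow_pos (norm_pos_iff.2 hb) 2
  have hu := hs.pos x hx.1
  obtain ⟨h1, h2, h3⟩ := hS (fderiv ℝ (fa G u) x) (fderiv ℝ (fb G u) x) (fderiv ℝ (la G u) x)
    ((1 / (2 * kap G u x)) • sg G u x) ((‖fa G u x‖ ^ 2 / (4 * kap G u x)) • Mq G u x)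
    (‖fb G u x‖ ^ 2 / ‖fa G u x‖ ^ 2) (kap G u x * u0 G u x / (2 * ‖fa G u x‖ ^ 2))
    ((2 * ‖fa G u x‖ ^ 2 / kap G u x) ^ n / (u x ^ n * (2 * kap G u x) ^ k)) n (finrank_H G)
    (finrank_V G) hn (by positivity) (by positivity)
    (fun a b => by
      simp only [_root_.smul_apply, Mq_apply, inner_add_left, inner_add_right,
        real_inner_smul_left, real_inner_smul_right, real_inner_comm a (la G u x)]
      ring)
    (fun a ha => by
      simp only [_root_.smul_apply, Mq_apply, inner_add_left, real_inner_smul_left,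
        real_inner_self_eq_norm_sq]
      have h1 : 0 < ‖a‖ ^ 2 := pow_pos (norm_pos_iff.2 ha) 2
      have h2 : 0 ≤ ⟪la G u x, a⟫_ℝ / (16 * kap G u x ^ 3) * ⟪la G u x, a⟫_ℝ := by
        rw [div_mul_eq_mul_div]; exact div_nonneg (mul_self_nonneg _) (by positivity)
      positivity)
    (fun v v' => by
      have := hs.lagr hx' v v'
      simp only [_root_.smul_apply, real_inner_smul_left]
      field_simp
      linear_combination this)
    (fun ε hε => by
      obtain ⟨w, hw, rfl⟩ : ∃ w : ℝ, 0 < w ∧ ε = w⁻¹ ^ 2 :=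
        ⟨(√ε)⁻¹, by positivity, by rw [inv_inv, Real.sq_sqrt hε.le]⟩
      have h4 := hd w hw
      let T : H →L[ℝ] V := (-(1 / (2 * kap G u x * w ^ 2) / (4 * kap G u x))) •
        (innerSL ℝ (w • fa G u x - w⁻¹ • fb G u x)).smulRight (la G u x)
      let L : H × V →L[ℝ] H × V := (w⁻¹ • ContinuousLinearMap.fst ℝ H V).prod
        ((1 / (2 * kap G u x * w ^ 2)) • ContinuousLinearMap.snd ℝ H V +
          T.comp (ContinuousLinearMap.fst ℝ H V))
      have h5 := det_shear G w⁻¹ (1 / (2 * kap G u x * w ^ 2)) T L fun v => rfl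
      have h6 : (fderiv ℝ (fa G u) x + w⁻¹ ^ 2 • fderiv ℝ (fb G u) x).prod
          ((1 - (w⁻¹ ^ 2) ^ 2 * (‖fb G u x‖ ^ 2 / ‖fa G u x‖ ^ 2)) •
            ((‖fa G u x‖ ^ 2 / (4 * kap G u x)) • Mq G u x).comp (fderiv ℝ (la G u) x) +
            w⁻¹ ^ 2 • (1 / (2 * kap G u x)) • sg G u x) = L.comp ((d1 G u).Pm x 0 w) := by
        refine ContinuousLinearMap.ext fun v => ?_
        rw [ContinuousLinearMap.comp_apply, hs.pm_apply hx' hw.ne']
        simp only [L, T, ContinuousLinearMap.prod_apply, _root_.add_apply, _root_.smul_apply,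
          ContinuousLinearMap.comp_apply, ContinuousLinearMap.coe_fst', ContinuousLinearMap.coe_snd',
          ContinuousLinearMap.smulRight_apply, innerSL_apply_apply]
        congr 1
        · match_scalars <;> field_simp
        · match_scalars <;> field_simp <;> ring
      have h7 : (L.comp ((d1 G u).Pm x 0 w)).det = L.det * ((d1 G u).Pm x 0 w).det :=
        LinearMap.det_comp _ _
      have h8 : u x + 8 * ⟪fa G u x, fb G u x⟫_ℝ * 0 + 2 / kap G u x *
          (‖fa G u x‖ ^ 2 * w ^ 2 - ‖fb G u x‖ ^ 2 * w⁻¹ ^ 2 - (‖fa G u x‖ ^ 2 - ‖fb G u x‖ ^ 2)) =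
          2 * ‖fa G u x‖ ^ 2 / kap G u x * w ^ 2 *
            (1 + kap G u x * u0 G u x / (2 * ‖fa G u x‖ ^ 2) * w⁻¹ ^ 2 -
              ‖fb G u x‖ ^ 2 / ‖fa G u x‖ ^ 2 * (w⁻¹ ^ 2) ^ 2) := by
        simp only [u0]; field_simp; ring
      replace h4 : ((d1 G u).Pm x 0 w).det * u x ^ n = _ := h4.trans (congrArg (· ^ n) h8)
      rw [mul_pow, mul_pow, ← pow_mul w 2 n, hn, pow_add, pow_mul w 2 k] at h4
      rw [h6, h7, h5, eq_div_of_mul_eq (pow_pos hu n).ne' h4]
      generalize (1 + kap G u x * u0 G u x / (2 * ‖fa G u x‖ ^ 2) * w⁻¹ ^ 2 -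
        ‖fb G u x‖ ^ 2 / ‖fa G u x‖ ^ 2 * (w⁻¹ ^ 2) ^ 2) ^ n = z
      rw [one_div, inv_pow, inv_pow, mul_pow _ (w ^ 2)]
      field_simp)
  refine ⟨h1, fun v => ?_, h3⟩
  have h9 := congrArg (fun y => (2 * kap G u x) • y) (h2 v)
  simp only [_root_.smul_apply, smul_smul] at h9
  rw [mul_one_div_cancel (by positivity), one_smul] at h9
  rw [h9]
  congr 1
  field_simp

end Pool.Agent.MP_1048c2_an.Cl

end

section
/-!
The degenerate case of the determinant identity.
-/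

set_option linter.unusedSectionVars false

namespace Pool.Agent.MP_1048c2_an.Cl

open Filter Topology Set Module
open scoped InnerProductSpace

variable {m k : ℕ} {H V : Type} [NormedAddCommGroup H] [InnerProductSpace ℝ H] [NormedAddCommGroup V] [InnerProductSpace ℝ V] [FiniteDimensional ℝ H] [FiniteDimensional ℝ V]

theorem det_P2z (G : HeisenbergType m k H V) (u : H × V → ℝ) (x : H × V) {r : ℝ} (hr : r ≠ 0) :
    ((d0 G u).Pm x 0 r⁻¹).det = r⁻¹ ^ m *
      ((fderiv ℝ (fa G u) x + r ^ 2 • fderiv ℝ (fb G u) x).prod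
        (ContinuousLinearMap.snd ℝ H V)).det := by
  have h1 := det_shear G r⁻¹ 1 0 ((r⁻¹ • ContinuousLinearMap.fst ℝ H V).prod
    (ContinuousLinearMap.snd ℝ H V)) (fun v => by simp)
  have h2 : (d0 G u).Pm x 0 r⁻¹ = ((r⁻¹ • ContinuousLinearMap.fst ℝ H V).prod
      (ContinuousLinearMap.snd ℝ H V)).comp
      ((fderiv ℝ (fa G u) x + r ^ 2 • fderiv ℝ (fb G u) x).prod
        (ContinuousLinearMap.snd ℝ H V)) := by
    refine ContinuousLinearMap.ext fun v => ?_
    have h3 : fderiv ℝ (fun y : H × V => y.2) x = ContinuousLinearMap.snd ℝ H V := fderiv_snd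
    simp only [Sd.Pm, d0, h3, zero_smul, add_zero, mul_zero, sub_zero, fderiv_fun_const,
      Pi.zero_apply, smul_zero, inv_inv, ContinuousLinearMap.prod_apply, add_apply, smul_apply,
      ContinuousLinearMap.comp_apply, ContinuousLinearMap.coe_fst', ContinuousLinearMap.coe_snd',
      Prod.mk.injEq, and_true]
    match_scalars <;> field_simp
  rw [one_pow, mul_one] at h1
  rw [h2, ← h1]
  exact LinearMap.det_comp _ _

theorem p2z_st (G : HeisenbergType m k H V) : P2zSt G := by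
  intro W u n hk hn x _ _ h
  set A := ‖fa G u x‖ ^ 2 with hA
  set B := ‖fb G u x‖ ^ 2 with hB
  let f : ℝ → ℝ := fun r => ((fderiv ℝ (fa G u) x + r ^ 2 • fderiv ℝ (fb G u) x).prod
    (ContinuousLinearMap.snd ℝ H V)).det * u x ^ n * r ^ (2 * k)
  let g : ℝ → ℝ := fun r => (A + r ^ 2 * (u x - B * r ^ 2 - (A - B))) ^ n
  have hf : Continuous f := by
    have h1 : Continuous fun r : ℝ => (fderiv ℝ (fa G u) x + r ^ 2 • fderiv ℝ (fb G u) x).prod
        (ContinuousLinearMap.snd ℝ H V) := by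
      have h2 : Continuous fun r : ℝ =>
          (fderiv ℝ (fa G u) x + r ^ 2 • fderiv ℝ (fb G u) x, ContinuousLinearMap.snd ℝ H V) := by
        fun_prop
      exact (ContinuousLinearMap.prodL ℝ).continuous.comp h2
    exact ((ContinuousLinearMap.continuous_det.comp h1).mul continuous_const).mul
      (continuous_pow _)
  have hg : Continuous g := by fun_prop
  have he : EqOn f g (Ioi 0) := by
    intro r hr
    have hr' : r ≠ 0 := ne_of_gt hr
    have h1 := h r⁻¹ (inv_pos.2 hr)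
    rw [DetId, det_P2z G u x hr'] at h1
    simp only [d0, mul_zero, add_zero, inv_inv, ← hA, ← hB] at h1
    have h2 : g r = (r ^ 2) ^ n * (u x + 2 / 2 * (A * r⁻¹ ^ 2 - B * r ^ 2 - (A - B))) ^ n := by
      rw [← mul_pow]
      refine congrArg (· ^ n) ?_
      field_simp
      ring
    rw [h2, ← h1, ← pow_mul, hn, pow_add]
    have h3 : r ^ m * r⁻¹ ^ m = 1 := by rw [← mul_pow, mul_inv_cancel₀ hr', one_pow]
    simp only [f]
    linear_combination (-(((fderiv ℝ (fa G u) x + r ^ 2 • fderiv ℝ (fb G u) x).prod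
      (ContinuousLinearMap.snd ℝ H V)).det * u x ^ n * r ^ (2 * k))) * h3
  have h0 : f 0 = g 0 := he.closure hf hg (by rw [closure_Ioi]; exact self_mem_Ici)
  have h4 : A ^ n = 0 := by
    have : (0 : ℝ) ^ (2 * k) = 0 := zero_pow (by omega)
    simpa [f, g, this] using h0.symm
  have h5 : A = 0 := pow_eq_zero_iff (by omega) |>.1 h4
  exact norm_eq_zero.1 (pow_eq_zero_iff two_ne_zero |>.1 h5)

end Pool.Agent.MP_1048c2_an.Cl

end

section
set_option linter.unusedSectionVars false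
namespace Pool.Agent.MP_1048c2_an.Cl
open Filter Topology Set Module
open scoped InnerProductSpace
variable {m k : ℕ} {H V : Type} [NormedAddCommGroup H] [InnerProductSpace ℝ H] [NormedAddCommGroup V] [InnerProductSpace ℝ V] [FiniteDimensional ℝ H] [FiniteDimensional ℝ V]

theorem det_block_Spec {E W : Type} [AddCommGroup E] [Module ℝ E] [AddCommGroup W] [Module ℝ W]
    [FiniteDimensional ℝ E] [FiniteDimensional ℝ W] (A : E →ₗ[ℝ] E) (N : W →ₗ[ℝ] E)
    (D : E →ₗ[ℝ] W) (Φ : E × W →ₗ[ℝ] E × W)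
    (hΦ : ∀ p, Φ p = (A p.1 + N p.2, D p.1 + p.2)) :
    LinearMap.det Φ = LinearMap.det (A - N ∘ₗ D) := by
  classical
  let b := Module.finBasis ℝ E
  let c := Module.finBasis ℝ W
  rw [← LinearMap.det_toMatrix (b.prod c), ← LinearMap.det_toMatrix b]
  have : LinearMap.toMatrix (b.prod c) (b.prod c) Φ = Matrix.fromBlocks (LinearMap.toMatrix b b A)
      (LinearMap.toMatrix c b N) (LinearMap.toMatrix b c D) 1 := by
    ext (i | i) (j | j) <;>
      simp [LinearMap.toMatrix_apply, hΦ, Basis.prod_apply, Matrix.one_apply, Finsupp.single_apply,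
        eq_comm]
  rw [this, Matrix.det_fromBlocks_one₂₂, map_sub, LinearMap.toMatrix_comp b c b]

theorem nilp_Spec {W : Type} [AddCommGroup W] [Module ℝ W] (Z : W →ₗ[ℝ] W) (B : W → W → ℝ)
    (hZ : ∀ x y, B (Z x) y = B x (Z y)) (h0 : ∀ y, B 0 y = 0) (hp : ∀ x, B x x = 0 → x = 0)
    (n : ℕ) (x : W) (hn : (Z ^ (n + 1)) x = 0) : Z x = 0 := by
  induction n with
  | zero => simpa using hn
  | succ j ih =>
    apply ih
    have h1 : Z (Z ((Z ^ j) x)) = 0 := by
      rw [← hn, pow_succ', pow_succ']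
      rfl
    have h2 : Z ((Z ^ j) x) = 0 := by
      apply hp
      rw [← hZ, h1, h0]
    rw [pow_succ']
    exact h2

theorem cayley_Spec {W : Type} [AddCommGroup W] [Module ℝ W] [FiniteDimensional ℝ W]
    (Y : W →ₗ[ℝ] W) (s γ : ℝ) (n : ℕ) (hn : finrank ℝ W = 2 * n)
    (h : ∀ ε : ℝ, 0 < ε → LinearMap.det (1 + ε • Y) = (1 + s * ε - γ * ε ^ 2) ^ n) :
    (Y * Y - s • Y - γ • (1 : W →ₗ[ℝ] W)) ^ n = 0 := by
  have h1 : Y.charpoly = (Polynomial.X * Polynomial.X - Polynomial.C s * Polynomial.X -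
      Polynomial.C γ) ^ n := by
    apply Polynomial.eq_of_infinite_eval_eq
    refine (Set.Iio_infinite (0 : ℝ)).mono fun t ht => ?_
    have ht' : t < 0 := ht
    have ht0 : t ≠ 0 := ht'.ne
    have he : 0 < -t⁻¹ := by
      have := inv_lt_zero.2 ht'
      linarith
    have h2 : algebraMap ℝ (W →ₗ[ℝ] W) t - Y = t • (1 + (-t⁻¹) • Y) := by
      rw [smul_add, smul_smul, mul_neg, mul_inv_cancel₀ ht0, Algebra.algebraMap_eq_smul_one,
        neg_one_smul, sub_eq_add_neg]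
    show Polynomial.eval t _ = Polynomial.eval t _
    rw [LinearMap.eval_charpoly, h2, LinearMap.det_smul, h _ he, hn, pow_mul, ← mul_pow]
    simp only [Polynomial.eval_pow, Polynomial.eval_sub, Polynomial.eval_mul, Polynomial.eval_X,
      Polynomial.eval_C]
    have h3 : t ^ 2 * (1 + s * -t⁻¹ - γ * (-t⁻¹) ^ 2) = t * t - s * t - γ := by
      field_simp
      ring
    rw [h3]
  have h2 := Y.aeval_self_charpoly
  rw [h1] at h2
  simp only [map_pow, map_sub, map_mul, Polynomial.aeval_X, Polynomial.aeval_C,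
    Algebra.algebraMap_eq_smul_one, smul_mul_assoc, one_mul] at h2
  exact h2

theorem spec_st : SpecSt m k H V := by
  intro Da Db Dl Sg M γ s C n hH hV hn hγ hC hMs hMp hsym hdet
  let L0 : H × V →L[ℝ] H × V := Da.prod (M.comp Dl)
  let F1 : H × V →L[ℝ] H × V := Db.prod Sg
  let F2 : H × V →L[ℝ] H × V := (0 : H × V →L[ℝ] H).prod (M.comp Dl)
  have hF : ∀ ε : ℝ, (Da + ε • Db).prod ((1 - ε ^ 2 * γ) • M.comp Dl + ε • Sg) =
      L0 + ε • F1 - (ε ^ 2 * γ) • F2 := fun ε => by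
    refine ContinuousLinearMap.ext fun v => Prod.ext ?_ ?_
    · simp [L0, F1, F2]
    · show (1 - ε ^ 2 * γ) • M (Dl v) + ε • Sg v =
        M (Dl v) + ε • Sg v - (ε ^ 2 * γ) • M (Dl v)
      module
  have hMi : ∀ x, M x = 0 → x = 0 := fun x hx => by
    by_contra h
    have := hMp x h
    rw [hx, inner_zero_left] at this
    exact lt_irrefl _ this
  have hMn : ∀ x, 0 ≤ ⟪M x, x⟫_ℝ := fun x => by
    by_cases h : x = 0
    · simp [h]
    · exact (hMp x h).le
  have hL0 : L0.det = C := by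
    have c1 : Continuous fun ε : ℝ => (L0 + ε • F1 - (ε ^ 2 * γ) • F2).det :=
      ContinuousLinearMap.continuous_det.comp (by fun_prop)
    have c2 : Continuous fun ε : ℝ => C * (1 + s * ε - γ * ε ^ 2) ^ n := by fun_prop
    have e1 : EqOn (fun ε : ℝ => (L0 + ε • F1 - (ε ^ 2 * γ) • F2).det)
        (fun ε : ℝ => C * (1 + s * ε - γ * ε ^ 2) ^ n) (Ioi 0) := fun ε hε => by
      simpa only [hF] using hdet ε hε
    have e2 := e1.closure c1 c2 (x := 0) (by rw [closure_Ioi]; exact le_refl (0 : ℝ))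
    simpa using e2
  have hL0' : LinearMap.det (L0 : H × V →ₗ[ℝ] H × V) ≠ 0 := by
    have : LinearMap.det (L0 : H × V →ₗ[ℝ] H × V) = C := hL0
    rw [this]; exact hC
  let L : (H × V) ≃ₗ[ℝ] (H × V) := LinearMap.equivOfDetNeZero _ hL0'
  have hLs : ∀ w, L0 (L.symm w) = w := fun w => L.apply_symm_apply w
  have hLi : ∀ v, L0 v = 0 → v = 0 := fun v hv => L.injective (by rw [map_zero]; exact hv)
  have ha : ∀ w, Da (L.symm w) = w.1 := fun w => congrArg Prod.fst (hLs w)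
  have hl : ∀ w, M (Dl (L.symm w)) = w.2 := fun w => congrArg Prod.snd (hLs w)
  let K : H × V →ₗ[ℝ] H × V := L.symm.toLinearMap ∘ₗ (F1 : H × V →ₗ[ℝ] H × V)
  let N : V →ₗ[ℝ] H × V := L.symm.toLinearMap ∘ₗ LinearMap.inr ℝ H V ∘ₗ (M : V →ₗ[ℝ] V)
  have hKa : ∀ v, Da (K v) = Db v := fun v => ha _
  have hKl : ∀ v, M (Dl (K v)) = Sg v := fun v => hl _
  have hNa : ∀ r, Da (N r) = 0 := fun r => ha _
  have hNl : ∀ r, Dl (N r) = r := fun r => by
    have h1 : M (Dl (N r)) = M r := hl _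
    exact sub_eq_zero.1 (hMi _ (by rw [map_sub, h1, sub_self]))
  let Y : (H × V) × V →ₗ[ℝ] (H × V) × V :=
    (K ∘ₗ LinearMap.fst ℝ (H × V) V + γ • N ∘ₗ LinearMap.snd ℝ (H × V) V).prod
      ((Dl : H × V →ₗ[ℝ] V) ∘ₗ LinearMap.fst ℝ (H × V) V)
  have hY : ∀ p, Y p = (K p.1 + γ • N p.2, Dl p.1) := fun p => rfl
  have hdY : ∀ ε : ℝ, 0 < ε → LinearMap.det (1 + ε • Y) = (1 + s * ε - γ * ε ^ 2) ^ n := by
    intro ε hε
    rw [det_block_Spec (1 + ε • K) ((ε * γ) • N) (ε • (Dl : H × V →ₗ[ℝ] V)) (1 + ε • Y)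
      (fun p => by
        refine Prod.ext ?_ ?_
        · simp only [LinearMap.add_apply, LinearMap.smul_apply, Module.End.one_apply, hY,
            Prod.fst_add, Prod.smul_fst]
          module
        · simp only [LinearMap.add_apply, LinearMap.smul_apply, Module.End.one_apply, hY,
            Prod.snd_add, Prod.smul_snd, ContinuousLinearMap.coe_coe]
          module)]
    have h1 : (L0 : H × V →ₗ[ℝ] H × V) *
        ((1 + ε • K) - ((ε * γ) • N) ∘ₗ (ε • (Dl : H × V →ₗ[ℝ] V))) =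
        (((Da + ε • Db).prod ((1 - ε ^ 2 * γ) • M.comp Dl + ε • Sg) : H × V →L[ℝ] H × V) :
          H × V →ₗ[ℝ] H × V) := by
      refine LinearMap.ext fun v => Prod.ext ?_ ?_
      · simp [L0, hKa, hNa]
      · show M (Dl (v + ε • K v - (ε * γ) • N (ε • Dl v))) =
          (1 - ε ^ 2 * γ) • M (Dl v) + ε • Sg v
        simp only [map_sub, map_add, map_smul, hKl, hNl]
        module
    have h2 := congrArg LinearMap.det h1
    have h3 : LinearMap.det (L0 : H × V →ₗ[ℝ] H × V) = C := hL0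
    rw [map_mul, h3] at h2
    exact mul_left_cancel₀ hC (h2.trans (hdet ε hε))
  have hfr : finrank ℝ ((H × V) × V) = 2 * n := by
    rw [finrank_prod, finrank_prod, hH, hV]; omega
  have hZn := cayley_Spec Y s γ n hfr hdY
  let B : (H × V) × V → (H × V) × V → ℝ := fun p q =>
    ⟪Da p.1, Da q.1⟫_ℝ + ⟪M (Dl p.1), Dl q.1⟫_ℝ + γ * ⟪M p.2, q.2⟫_ℝ
  have hBs : ∀ p q, B p q = B q p := fun p q => by
    simp only [B]
    rw [real_inner_comm (Da p.1), hMs (Dl p.1), real_inner_comm (M (Dl q.1)), hMs p.2,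
      real_inner_comm (M q.2)]
  have hBY : ∀ p q, B (Y p) q = B p (Y q) := fun p q => by
    rw [hBs p]
    simp only [B, hY, map_add, map_smul, hKa, hKl, hNa, hNl, smul_zero, add_zero, inner_add_left,
      real_inner_smul_left]
    have h1 := hsym p.1 q.1
    rw [hMs p.2, real_inner_comm (M (Dl q.1)) p.2, hMs q.2, real_inner_comm (M (Dl p.1)) q.2]
    linarith
  have hBl : ∀ x y z q, B (x - s • y - γ • z) q = B x q - s * B y q - γ * B z q :=
    fun x y z q => by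
      simp only [B, Prod.fst_sub, Prod.snd_sub, Prod.smul_fst, Prod.smul_snd, map_sub, map_smul,
        inner_sub_left, real_inner_smul_left]
      ring
  have hZa : ∀ p, (Y * Y - s • Y - γ • (1 : (H × V) × V →ₗ[ℝ] (H × V) × V)) p =
      Y (Y p) - s • Y p - γ • p := fun p => rfl
  have hZ : ∀ p, Y (Y p) - s • Y p - γ • p = 0 := fun p => by
    rw [← hZa]
    refine nilp_Spec _ B (fun x y => ?_) (fun y => by simp [B]) (fun x hx => ?_) n p ?_
    · rw [hBs x, hZa, hZa, hBl, hBl, hBY (Y x), hBY x (Y y), hBY x y, hBs (Y (Y y)) x,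
        hBs (Y y) x, hBs y x]
    · have h1 : 0 ≤ ⟪Da x.1, Da x.1⟫_ℝ := real_inner_self_nonneg
      have h2 := hMn (Dl x.1)
      have h3 := mul_nonneg hγ.le (hMn x.2)
      simp only [B] at hx
      have e1 : Da x.1 = 0 := inner_self_eq_zero.1 (by linarith : ⟪Da x.1, Da x.1⟫_ℝ = 0)
      have e2 : Dl x.1 = 0 := by
        by_contra h
        linarith [hMp _ h]
      have e3 : x.2 = 0 := by
        by_contra h
        linarith [mul_pos hγ (hMp _ h)]
      refine Prod.ext (hLi _ (Prod.ext e1 ?_)) e3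
      show M (Dl x.1) = 0
      rw [e2, map_zero]
    · rw [pow_succ', hZn, mul_zero]; rfl
  have hbN : ∀ r, Db (N r) = 0 := fun r => by
    have h1 := congrArg (fun p => Da p.1) (hZ (0, r))
    simp only [hY, Prod.fst_sub, Prod.smul_fst, map_sub, map_add, map_smul, map_zero, hKa, hNa,
      smul_zero, zero_add, add_zero, sub_zero, Prod.fst_zero] at h1
    exact (smul_eq_zero.1 h1).resolve_left hγ.ne'
  have hbK : ∀ v, Db (K v) = s • Db v + γ • Da v := fun v => by
    have h1 := congrArg (fun p => Da p.1) (hZ (v, 0))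
    simp only [hY, Prod.fst_sub, Prod.smul_fst, map_sub, map_add, map_smul, map_zero, hKa, hNa,
      smul_zero, add_zero, Prod.fst_zero] at h1
    rw [sub_sub, sub_eq_zero] at h1
    exact h1
  have hS : ∀ v, Sg v = s • M (Dl v) := fun v => by
    have h1 := congrArg (fun p => M p.2) (hZ (v, 0))
    simp only [hY, Prod.snd_sub, Prod.smul_snd, map_sub, map_add, map_smul, map_zero, hKl,
      smul_zero, add_zero, sub_zero, Prod.snd_zero] at h1
    exact sub_eq_zero.1 h1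
  let β : H →L[ℝ] H := LinearMap.toContinuousLinearMap
    ((Db : H × V →ₗ[ℝ] H) ∘ₗ L.symm.toLinearMap ∘ₗ LinearMap.inl ℝ H V)
  have hβ : ∀ h, β h = Db (L.symm (h, 0)) := fun h => rfl
  have hDl : ∀ h, Dl (L.symm (h, 0)) = 0 := fun h => hMi _ (hl _)
  have hb : ∀ v, Db v = β (Da v) := fun v => by
    have h1 : v - (L.symm (Da v, 0) + N (Dl v)) = 0 := by
      refine hLi _ (Prod.ext ?_ ?_)
      · show Da _ = 0
        rw [map_sub, map_add, ha, hNa, add_zero, sub_self]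
      · show M (Dl _) = 0
        rw [map_sub, map_add, hDl, hNl, zero_add, sub_self, map_zero]
    rw [hβ]
    calc Db v = Db (L.symm (Da v, 0) + N (Dl v)) := by rw [← sub_eq_zero.1 h1]
      _ = _ := by rw [map_add, hbN, add_zero]
  refine ⟨fun h => ⟨L.symm (h, 0), ha _⟩, hS, β, fun h h' => ?_, hb, fun h => ?_⟩
  · have h1 := hsym (L.symm (h, 0)) (L.symm (h', 0))
    rw [hDl, hDl, ha, ha, inner_zero_right, inner_zero_right, add_zero, add_zero] at h1
    rw [hβ, hβ, h1, real_inner_comm]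
  · have h1 := hbK (L.symm (h, 0))
    rw [hb (K _), hKa, ha] at h1
    rw [hβ h]
    exact h1

end Pool.Agent.MP_1048c2_an.Cl

end

section
/-!
From the relations between the differentials to the equations for the square of `u`.
-/

set_option linter.unusedSectionVars false

namespace Pool.Agent.MP_1048c2_an.Cl

open Filter Topology Set Module
open scoped InnerProductSpace

variable {m k : ℕ} {H V : Type} [NormedAddCommGroup H] [InnerProductSpace ℝ H]
  [NormedAddCommGroup V] [InnerProductSpace ℝ V] [FiniteDimensional ℝ H] [FiniteDimensional ℝ V]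

/-- the Hessian in terms of the two components -/
noncomputable def Hs_Trans (a b : H) (β : H →L[ℝ] H) (s : ℝ) (h : H) : H :=
  (4 * ‖a‖ ^ 2) • (s • h - (2 : ℝ) • β h) - (16 : ℝ) • (⟪b, h⟫_ℝ • a + ⟪a, h⟫_ℝ • b)

theorem hs_Trans {a b : H} {β : H →L[ℝ] H} {s γ : ℝ} (h1 : ∀ h h', ⟪β h, h'⟫_ℝ = ⟪h, β h'⟫_ℝ)
    (h2 : ∀ h, β (β h) = s • β h + γ • h) (h3 : β a = -b) (h4 : ⟪a, b⟫_ℝ = 0)
    (h5 : ‖b‖ ^ 2 = ‖a‖ ^ 2 * γ) :
    Hs_Trans a b β s (a + b) = (4 * ‖a‖ ^ 2 * s - 8 * ‖b‖ ^ 2) • a -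
      (4 * ‖a‖ ^ 2 * s + 8 * ‖a‖ ^ 2) • b ∧
    ∀ h, Hs_Trans a b β s (Hs_Trans a b β s h) =
      (16 * (‖a‖ ^ 2) ^ 2 * s ^ 2 + 64 * ‖a‖ ^ 2 * ‖b‖ ^ 2) • h := by
  have h6 : β b = s • b - γ • a := by
    have := h2 a
    rw [h3, map_neg] at this
    linear_combination (norm := module) -this
  have h7 : ⟪b, a⟫_ℝ = 0 := by rw [real_inner_comm, h4]
  refine ⟨?_, fun h => ?_⟩
  · simp only [Hs_Trans, map_add, inner_add_right, h3, h4, h6, h7, real_inner_self_eq_norm_sq, h5]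
    module
  · simp only [Hs_Trans, map_add, map_sub, map_smul, inner_add_right, inner_sub_right,
      real_inner_smul_right, ← h1, h2, h3, h4, h6, h7, real_inner_self_eq_norm_sq, h5,
      inner_neg_left, inner_sub_left, real_inner_smul_left]
    module

theorem trans_st (G : HeisenbergType m k H V) (hN : NSysSt G) : TransSt G := by
  intro W u hs hW
  obtain ⟨hsm, hN⟩ := hN 2 W u hs
  set N : H × V → ℝ := fun y => u y ^ 2 with hNdef
  have key : ∀ x ∈ W, (∀ v, fderiv ℝ (la G N) x v = (32 : ℝ) • v.2) ∧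
      (∀ v, fderiv ℝ (xi G N) x v = fderiv ℝ (Fz G N) x v + (8 * ⟪x.1, v.1⟫_ℝ) • x.1 +
        (4 * ‖x.1‖ ^ 2) • v.1) ∧
      (∀ μ, fderiv ℝ (Fz G N) x (0, μ) = 0) ∧
      fderiv ℝ (Fz G N) x (x.1, 0) = Fz G N x ∧
      (∀ h, fderiv ℝ (Fz G N) x (fderiv ℝ (Fz G N) x (h, 0), 0) = psi G N x • h) ∧
      0 < psi G N x := by
    intro x hx
    obtain ⟨hl, ha, hb, hc, hsurj, hsg, β, hβ1, hβ2, hβ3⟩ := hW x hx
    have hx' : x ∈ Ws G u W := ⟨hx, hl⟩
    have hn := hs.op.mem_nhds hx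
    have hκ := kap_pos hl
    have hκ2 := kap_sq hl
    have hA : 0 < ‖fa G u x‖ ^ 2 := pow_pos (norm_pos_iff.2 ha) 2
    have hB : 0 < ‖fb G u x‖ ^ 2 := pow_pos (norm_pos_iff.2 hb) 2
    have hxi : HasFDerivAt (xi G N) _ x := (((hs.d_u hx).const_mul 2).smul
      (hs.d_xi hx)).congr_of_eventuallyEq (mem_of_superset hn fun y hy => (hN y hy).1)
    have hla : HasFDerivAt (la G N) _ x := (((hs.d_u hx).const_mul 2).smul
      (hs.d_la hx)).congr_of_eventuallyEq (mem_of_superset hn fun y hy => (hN y hy).2.1)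
    have hF : HasFDerivAt (Fz G N) _ x := hxi.differentiableAt.hasFDerivAt.sub
      (((hasFDerivAt_fst (𝕜 := ℝ) (p := x)).norm_sq.const_mul 4).smul
        (hasFDerivAt_fst (𝕜 := ℝ) (p := x)))
    have hβa : β (fa G u x) = -fb G u x := by
      have h1 := ((hs.dif hx' hs.sm_fa).inner ℝ (hs.dif hx' hs.sm_fb)).unique
        ((hasFDerivAt_const (0 : ℝ) x).congr_of_eventuallyEq
          (mem_of_superset hn fun y hy => (hW y hy).2.2.2.1))
      refine ext_inner_right ℝ fun h => ?_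
      obtain ⟨v, rfl⟩ := hsurj h
      have h2 := congrArg (fun L : H × V →L[ℝ] ℝ => L v) h1
      simp only [ContinuousLinearMap.comp_apply, ContinuousLinearMap.prod_apply,
        fderivInnerCLM_apply, _root_.zero_apply, hβ2] at h2
      rw [hβ1, inner_neg_left, real_inner_comm _ (fb G u x)]
      linarith
    have hv2 : ∀ v : H × V, v.2 = (u x / 16) • fderiv ℝ (la G u) x v +
        (u x * ⟪la G u x, fderiv ℝ (la G u) x v⟫_ℝ / (64 * kap G u x ^ 2) +
          ⟪fa G u x - fb G u x, v.1⟫_ℝ / (4 * kap G u x)) • la G u x := fun v => by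
      rw [hs.snd_eq hx' v, hsg, Mq_apply, u0]
      match_scalars <;> (field_simp; try ring)
    have hdu : ∀ v : H × V, fderiv ℝ u x v = 4 * ⟪fa G u x - fb G u x, v.1⟫_ℝ / kap G u x +
        u x * ⟪la G u x, fderiv ℝ (la G u) x v⟫_ℝ / (4 * kap G u x ^ 2) := fun v => by
      have h1 : ‖la G u x‖ ^ 2 = 16 - 4 * kap G u x ^ 2 := by linarith
      rw [fderiv_eq G, hv2 v, ← fa_sub_fb hl]
      simp only [inner_add_right, real_inner_smul_right, real_inner_smul_left,
        real_inner_self_eq_norm_sq, h1]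
      field_simp
      ring
    have h1 : ∀ v, fderiv ℝ (xi G N) x v = fderiv ℝ (Fz G N) x v + (8 * ⟪x.1, v.1⟫_ℝ) • x.1 +
        (4 * ‖x.1‖ ^ 2) • v.1 := fun v => by
      rw [hF.fderiv]
      simp
      module
    have hr : ‖x.1‖ ^ 2 = ‖fa G u x‖ ^ 2 + ‖fb G u x‖ ^ 2 := by
      rw [← fa_add_fb (G := G) u x, norm_add_sq_real, hc]; ring
    set s := kap G u x * u0 G u x / (2 * ‖fa G u x‖ ^ 2) with hsdef
    have hν : kap G u x * u x = 2 * (‖fa G u x‖ ^ 2 * s + ‖fa G u x‖ ^ 2 - ‖fb G u x‖ ^ 2) := by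
      rw [hsdef, u0]; field_simp; ring
    have hγ : ‖fb G u x‖ ^ 2 = ‖fa G u x‖ ^ 2 * (‖fb G u x‖ ^ 2 / ‖fa G u x‖ ^ 2) := by
      field_simp
    have h2 : ∀ v, fderiv ℝ (Fz G N) x v = Hs_Trans (fa G u x) (fb G u x) β s v.1 := fun v => by
      have h3 : fderiv ℝ (xi G N) x v = (8 * ⟪fa G u x - fb G u x, v.1⟫_ℝ) •
          (fa G u x - fb G u x) + (2 * (kap G u x * u x)) •
            (fderiv ℝ (fa G u) x v - β (fderiv ℝ (fa G u) x v)) := by
        rw [hxi.fderiv]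
        simp only [_root_.add_apply, _root_.smul_apply, ContinuousLinearMap.smulRight_apply,
          (hs.d_ab hx' v).2, hs.d_kap hx', hdu, hβ2, ← fa_sub_fb hl, smul_eq_mul]
        match_scalars <;> (field_simp; try ring)
      have h4 := h1 v
      have h5 : v.1 = fderiv ℝ (fa G u) x v + β (fderiv ℝ (fa G u) x v) := by
        rw [← hβ2, (hs.d_ab hx' v).1]
      have h6 : β v.1 = β (fderiv ℝ (fa G u) x v) + (s • β (fderiv ℝ (fa G u) x v) +
          (‖fb G u x‖ ^ 2 / ‖fa G u x‖ ^ 2) • fderiv ℝ (fa G u) x v) := by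
        rw [h5, map_add, hβ3]
      rw [h3, hr, hν, ← fa_add_fb (G := G) u x, inner_add_left, inner_sub_left] at h4
      rw [Hs_Trans, h6]
      generalize ⟪fa G u x, v.1⟫_ℝ = e1 at *
      generalize ⟪fb G u x, v.1⟫_ℝ = e2 at *
      rw [h5] at h4 ⊢
      generalize ‖fb G u x‖ ^ 2 / ‖fa G u x‖ ^ 2 = γ at *
      rw [hγ] at h4
      linear_combination (norm := module) -h4
    obtain ⟨h7, h8⟩ := hs_Trans hβ1 hβ3 hβa hc hγ
    have h9 : Fz G N x = (4 * ‖fa G u x‖ ^ 2 * s - 8 * ‖fb G u x‖ ^ 2) • fa G u x -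
        (4 * ‖fa G u x‖ ^ 2 * s + 8 * ‖fa G u x‖ ^ 2) • fb G u x := by
      rw [Fz, (hN x hx).1, hr, ← fa_sub_fb hl, ← fa_add_fb (G := G) u x, smul_smul,
        show 2 * u x * kap G u x = 2 * (kap G u x * u x) by ring, hν]
      module
    have h10 : psi G N x =
        16 * (‖fa G u x‖ ^ 2) ^ 2 * s ^ 2 + 64 * ‖fa G u x‖ ^ 2 * ‖fb G u x‖ ^ 2 := by
      have e : ‖x.1‖ ^ 4 = (‖x.1‖ ^ 2) ^ 2 := by ring
      have h11 : ⟪fb G u x, fa G u x⟫_ℝ = 0 := by rw [real_inner_comm, hc]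
      rw [psi, h9, (hN x hx).2.1, e, hr, norm_smul, mul_pow, Real.norm_eq_abs, sq_abs,
        ← fa_add_fb (G := G) u x]
      simp only [inner_add_left, inner_sub_right, real_inner_smul_right, hc, h11,
        real_inner_self_eq_norm_sq, hNdef]
      linear_combination (-4 * u x ^ 2) * hκ2 + 4 * (kap G u x * u x +
        2 * (‖fa G u x‖ ^ 2 * s + ‖fa G u x‖ ^ 2 - ‖fb G u x‖ ^ 2)) * hν
    refine ⟨fun v => ?_, h1, fun μ => ?_, ?_, fun h => ?_, ?_⟩
    · rw [hla.fderiv, hv2 v]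
      simp only [_root_.add_apply, _root_.smul_apply, ContinuousLinearMap.smulRight_apply, hdu,
        smul_eq_mul]
      match_scalars <;> (field_simp; try ring)
    · simp [h2, Hs_Trans]
    · rw [h2, h9, ← h7, fa_add_fb]
    · rw [h2, h2, h10, h8]
    · rw [h10]; positivity
  refine ⟨hs.op, hsm, fun x hx => (key x hx).1, fun x hx => (key x hx).2.2.2.1,
    fun x hx => (key x hx).2.2.2.2.1, fun x hx => (key x hx).2.2.2.2.2, fun x hx => ?_,
    fun x hx => ?_⟩
  · obtain ⟨hl, -, -, hc, -⟩ := hW x hx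
    have h1 := hs.constraint ⟨hx, hl⟩
    have h2 := J_skew G (la G u x) (fb G u x) (fa G u x)
    rw [hc, mul_zero] at h1
    rw [real_inner_comm (JL G (la G u x) (fa G u x)), h1] at h2
    rw [(hN x hx).1, (hN x hx).2.1, ← fa_sub_fb hl, ← fa_add_fb (G := G) u x]
    simp [inner_add_left, inner_sub_right, real_inner_smul_left, real_inner_smul_right,
      inner_J_self, h1, h2]
  · obtain ⟨h1, h2, h3, -⟩ := key x hx
    have h4 := (hN x hx).2.2.2
    have h5 : ∑ i, ⟪G.e i, x.1⟫_ℝ * ⟪G.e i, x.1⟫_ℝ = ‖x.1‖ ^ 2 := by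
      rw [← real_inner_self_eq_norm_sq, ← G.e.sum_inner_mul_inner]
      exact Finset.sum_congr rfl fun i _ => by rw [real_inner_comm]
    simp only [h1, h2, h3, inner_add_right, real_inner_smul_right, real_inner_self_eq_norm_sq,
      G.e.orthonormal.1, G.ε.orthonormal.1, inner_zero_right, smul_zero, mul_zero, zero_smul,
      add_zero, Finset.sum_add_distrib, Finset.sum_const, Finset.card_univ, Fintype.card_fin,
      nsmul_eq_mul, sub_self, zero_mul, zero_div, homDim, real_inner_comm (G.e _) x.1, mul_assoc,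
      ← Finset.mul_sum, h5] at h4
    linarith

end Pool.Agent.MP_1048c2_an.Cl

end

section
/-!
The system for the square of a solution.
-/

set_option linter.unusedSectionVars false

namespace Pool.Agent.MP_1048c2_an.Cl

open Filter Topology Set Module
open scoped InnerProductSpace

variable {m k : ℕ} {H V : Type} [NormedAddCommGroup H] [InnerProductSpace ℝ H]
  [NormedAddCommGroup V] [InnerProductSpace ℝ V] [FiniteDimensional ℝ H] [FiniteDimensional ℝ V]

/-- the divergence of the horizontal gradient, expanded -/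
theorem tr_NSys (G : HeisenbergType m k H V) {N : H × V → ℝ} {W : Set (H × V)} {x : H × V}
    (hW : IsOpen W) (hN : ContDiffOn ℝ 3 N W) (hx : x ∈ W) :
    LinearMap.trace ℝ (H × V) (fderiv ℝ (vf G N) x) =
      ∑ i, ⟪G.e i, fderiv ℝ (xi G N) x (G.e i, 0)⟫_ℝ +
        ∑ l, ⟪JL G (G.ε l) x.1, fderiv ℝ (xi G N) x (0, G.ε l)⟫_ℝ +
        ‖x.1‖ ^ 2 / 4 * ∑ l, ⟪G.ε l, fderiv ℝ (la G N) x (0, G.ε l)⟫_ℝ := by
  have h1 := (((contDiffOn_xi G (n := 2) hW hN (by norm_num)).contDiffAt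
    (hW.mem_nhds hx)).differentiableAt (by norm_num)).hasFDerivAt
  have h2 := (((contDiffOn_la G (n := 2) hW hN (by norm_num)).contDiffAt
    (hW.mem_nhds hx)).differentiableAt (by norm_num)).hasFDerivAt
  have h3 := ((h1.add ((hasFDerivAt_J G h2 (hasFDerivAt_fst (p := x))).const_smul
    (1 / 2 : ℝ))).prodMk (((hasFDerivAt_B G (hasFDerivAt_fst (p := x)) h1).const_smul
      (1 / 2 : ℝ)).add (((hasFDerivAt_fst (𝕜 := ℝ) (p := x)).norm_sq.mul_const
        (4 : ℝ)⁻¹).smul h2))).fderiv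
  have h4 : ∀ i l, ⟪fderiv ℝ (la G N) x (G.e i, 0), G.ε l⟫_ℝ =
      ⟪G.e i, fderiv ℝ (xi G N) x (0, G.ε l)⟫_ℝ := fun i l => by
    rw [real_inner_comm _ (G.e i)]
    simpa using symm2 G ((hN.contDiffAt (hW.mem_nhds hx)).of_le (by norm_num)) (G.e i, 0) (0, G.ε l)
  have h5 : ∑ i, ⟪G.e i, JL G (fderiv ℝ (la G N) x (G.e i, 0)) x.1⟫_ℝ =
      ∑ l, ⟪JL G (G.ε l) x.1, fderiv ℝ (xi G N) x (0, G.ε l)⟫_ℝ := by
    rw [Finset.sum_congr rfl fun l _ => (G.e.sum_inner_mul_inner (JL G (G.ε l) x.1) _).symm,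
      Finset.sum_comm]
    refine Finset.sum_congr rfl fun i _ => ?_
    rw [real_inner_comm, inner_JL, ← G.ε.sum_inner_mul_inner]
    exact Finset.sum_congr rfl fun l _ => by rw [h4, inner_JL, mul_comm]
  have h6 : ∀ i, ⟪G.e i, JL G (la G N x) (G.e i)⟫_ℝ = 0 := fun i => by
    rw [real_inner_comm, inner_J_self]
  have h7 : fderiv ℝ (vf G N) x = _ := h3
  rw [h7, trace_eq G]
  simp [inner_add_right, real_inner_smul_right, h6, Finset.sum_add_distrib, ← Finset.mul_sum, h5,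
    ← inner_JL]
  ring

theorem nsys_st (G : HeisenbergType m k H V) : NSysSt G := by
  intro p W u h
  have hN : ContDiffOn ℝ 3 (fun y => u y ^ 2) W := h.sm.pow 2
  have h1 : ∀ x ∈ W, xi G (fun y => u y ^ 2) x = (2 * u x) • xi G u x ∧
      la G (fun y => u y ^ 2) x = (2 * u x) • la G u x := fun x hx =>
    xi_la_of G fun v => by
      have h0 : fderiv ℝ (fun y => u y ^ 2) x = _ := ((h.d_u hx).pow 2).fderiv
      rw [h0]
      simp [fderiv_eq G, real_inner_smul_left]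
      ring
  have h2 : ∀ x ∈ W, vf G (fun y => u y ^ 2) x = (2 * u x) • vf G u x := fun x hx => by
    simp only [vf, h1 x hx, map_smul, _root_.smul_apply, Prod.smul_mk, Prod.mk.injEq]
    constructor <;> module
  refine ⟨hN, fun x hx => ⟨(h1 x hx).1, (h1 x hx).2, ?_, ?_⟩⟩
  · rw [h2 x hx, Prod.smul_fst, norm_smul, mul_pow, h.eik x hx, Real.norm_eq_abs, sq_abs]
    ring
  · have h3 := ((h.sm_vf.contDiffAt (h.op.mem_nhds hx)).differentiableAt
      (by norm_num)).hasFDerivAt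
    have h4 := ((((h.d_u hx).const_mul 2).smul h3).congr_of_eventuallyEq
      (mem_of_superset (h.op.mem_nhds hx) fun y hy => h2 y hy)).fderiv
    have h5 : LinearMap.trace ℝ (H × V) ((fderiv ℝ u x).smulRight (vf G u x)) =
        fderiv ℝ u x (vf G u x) := LinearMap.trace_smulRight _ _
    have h6 : ((2 : ℝ) • fderiv ℝ u x).smulRight (vf G u x) =
        (2 : ℝ) • (fderiv ℝ u x).smulRight (vf G u x) := by
      ext v <;> simp [mul_smul]
    have h7 := (h.pos x hx).ne'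
    have h8 : ‖x.1‖ ≠ 0 := norm_ne_zero_iff.2 (h.nz x hx)
    rw [← tr_NSys G h.op hN hx, h4, h6, ContinuousLinearMap.toLinearMap_add,
      ContinuousLinearMap.toLinearMap_smul, ContinuousLinearMap.toLinearMap_smul, map_add, map_smul,
      map_smul, h5, h.dv x hx, h.du_vf hx, (h1 x hx).1, real_inner_smul_right, smul_eq_mul,
      smul_eq_mul]
    field_simp
    ring

end Pool.Agent.MP_1048c2_an.Cl

end

section
set_option linter.unusedSectionVars false

namespace Pool.Agent.MP_1048c2_an.Cl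

open Filter Topology Set Module
open scoped InnerProductSpace

variable {m k : ℕ} {H V : Type} [NormedAddCommGroup H] [InnerProductSpace ℝ H]
  [NormedAddCommGroup V] [InnerProductSpace ℝ V] [FiniteDimensional ℝ H] [FiniteDimensional ℝ V]

theorem zero_Third {E : Type} [NormedAddCommGroup E] [NormedSpace ℝ E] {W : Set (H × V)}
    {f : H × V → E} {f' : H × V →L[ℝ] E} {x : H × V} (hW : IsOpen W) (hx : x ∈ W)
    (h : ∀ y ∈ W, f y = 0) (hf : HasFDerivAt f f' x) (v : H × V) : f' v = 0 := by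
  have h2 : f =ᶠ[𝓝 x] fun _ => 0 := mem_of_superset (hW.mem_nhds hx) h
  rw [hf.unique ((hasFDerivAt_const (0 : E) x).congr_of_eventuallyEq h2)]
  rfl

variable {G : HeisenbergType m k H V} {W : Set (H × V)} {N : H × V → ℝ}

theorem smF_Third (h : Phys G W N) : ContDiffOn ℝ 2 (Fz G N) W :=
  (contDiffOn_xi G h.op h.sm (by norm_num)).sub
    ((contDiffOn_const.mul (contDiffOn_fst.norm_sq ℝ)).smul contDiffOn_fst)

theorem dF_Third (h : Phys G W N) {y : H × V} (hy : y ∈ W) :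
    HasFDerivAt (Fz G N) (fderiv ℝ (Fz G N) y) y :=
  (((smF_Third h).contDiffAt (h.op.mem_nhds hy)).differentiableAt (by norm_num)).hasFDerivAt

theorem dla_Third (h : Phys G W N) {y : H × V} (hy : y ∈ W) :
    HasFDerivAt (la G N) (fderiv ℝ (la G N) y) y :=
  (((contDiffOn_la G h.op h.sm (n := 2) (by norm_num)).contDiffAt
    (h.op.mem_nhds hy)).differentiableAt (by norm_num)).hasFDerivAt

theorem sym_Third (h : Phys G W N) {y : H × V} (hy : y ∈ W) (v : H × V) (z : H) :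
    ⟪fderiv ℝ (Fz G N) y v, z⟫_ℝ = ⟪fderiv ℝ (Fz G N) y (z, 0), v.1⟫_ℝ := by
  have h1 : HasFDerivAt (xi G N) (fderiv ℝ (xi G N) y) y :=
    (((contDiffOn_xi G h.op h.sm (n := 2) (by norm_num)).contDiffAt
      (h.op.mem_nhds hy)).differentiableAt (by norm_num)).hasFDerivAt
  have h2 := h1.sub (((hasFDerivAt_fst (𝕜 := ℝ) (p := y)).norm_sq.const_mul 4).smul
    (hasFDerivAt_fst (𝕜 := ℝ) (p := y)))
  have h3 : ∀ w : H × V, fderiv ℝ (Fz G N) y w = fderiv ℝ (xi G N) y w -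
      ((4 * ‖y.1‖ ^ 2) • w.1 + (8 * ⟪y.1, w.1⟫_ℝ) • y.1) := by
    intro w
    rw [(dF_Third h hy).unique h2]
    simp only [_root_.sub_apply, _root_.add_apply, _root_.smul_apply,
      ContinuousLinearMap.smulRight_apply, ContinuousLinearMap.comp_apply, innerSL_apply_apply,
      ContinuousLinearMap.coe_fst', smul_eq_mul, nsmul_eq_mul, Nat.cast_ofNat]
    module
  have h4 := symm2 G ((h.sm.contDiffAt (h.op.mem_nhds hy)).of_le (by norm_num)) v (z, 0)
  rw [h.p1 y hy (z, 0)] at h4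
  simp only [inner_zero_right, add_zero, smul_zero, inner_zero_left] at h4
  rw [h3, h3]
  simp only [inner_sub_left, inner_add_left, real_inner_smul_left, h4]
  rw [real_inner_comm z v.1]
  ring

theorem dpsi_Third (h : Phys G W N) {y : H × V} (hy : y ∈ W) :
    HasFDerivAt (psi G N) (0 : H × V →L[ℝ] ℝ) y := by
  have h1 : HasFDerivAt N (fderiv ℝ N y) y :=
    ((h.sm.contDiffAt (h.op.mem_nhds hy)).differentiableAt (by norm_num)).hasFDerivAt
  have h0 := (hasFDerivAt_fst (𝕜 := ℝ) (p := y)).norm_sq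
  have h2 := (((h1.sub ((dla_Third h hy).norm_sq.mul_const (1 / 64))).sub (h0.mul h0)).sub
    (((hasFDerivAt_fst (𝕜 := ℝ) (p := y)).inner ℝ (dF_Third h hy)).mul_const (1 / 2))).const_mul 16
  have h3 : psi G N = fun y => 16 * (N y - ‖la G N y‖ ^ 2 * (1 / 64) - ‖y.1‖ ^ 2 * ‖y.1‖ ^ 2 -
      ⟪y.1, Fz G N y⟫_ℝ * (1 / 2)) := by
    funext y
    unfold psi
    ring
  rw [h3]
  refine HasFDerivAt.congr_fderiv h2 (ContinuousLinearMap.ext fun v => ?_)
  have h4 := sym_Third h hy v y.1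
  rw [h.p2 y hy] at h4
  have h5 : xi G N y = Fz G N y + (4 * ‖y.1‖ ^ 2) • y.1 := by simp [Fz]
  simp only [_root_.sub_apply, _root_.add_apply, _root_.smul_apply,
    ContinuousLinearMap.comp_apply, innerSL_apply_apply, ContinuousLinearMap.prod_apply,
    fderivInnerCLM_apply, ContinuousLinearMap.coe_fst', smul_eq_mul, nsmul_eq_mul,
    Nat.cast_ofNat, _root_.zero_apply, fderiv_eq G N, h.p1 y hy, real_inner_smul_right]
  rw [real_inner_comm (fderiv ℝ (Fz G N) y v) y.1, h4, h5, inner_add_left, real_inner_smul_left,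
    real_inner_comm (Fz G N y) v.1]
  ring

theorem e2a_Third (h : Phys G W N) (μ : V) {y : H × V} (hy : y ∈ W) :
    ⟪JL G μ y.1, Fz G N y⟫_ℝ = 0 := by
  have h1 := zero_Third (f := fun y => ⟪JL G (la G N y) y.1, Fz G N y⟫_ℝ) h.op hy
    (fun y hy => by
      simp only [Fz, inner_sub_right, real_inner_smul_right, inner_J_self, h.e2 y hy, mul_zero,
        sub_zero])
    ((hasFDerivAt_J G (dla_Third h hy) (hasFDerivAt_fst (p := y))).inner ℝ (dF_Third h hy)) (0, μ)
  have h2 : fderiv ℝ (Fz G N) y (0, μ) = 0 := ext_inner_right ℝ fun z => by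
    rw [sym_Third h hy]
    simp
  simpa [h.p1 y hy, h2, real_inner_smul_left] using h1

theorem e2b_Third (h : Phys G W N) (μ : V) (z : H) {y : H × V} (hy : y ∈ W) :
    ⟪JL G μ y.1, fderiv ℝ (Fz G N) y (z, 0)⟫_ℝ + ⟪JL G μ z, Fz G N y⟫_ℝ = 0 := by
  have h1 := zero_Third (f := fun y => ⟪JL G μ y.1, Fz G N y⟫_ℝ) h.op hy
    (fun y hy => e2a_Third h μ hy)
    ((((JL G μ).hasFDerivAt).comp y (hasFDerivAt_fst (p := y))).inner ℝ (dF_Third h hy)) (z, 0)
  simpa using h1

theorem third_st (G : HeisenbergType m k H V) : ThirdSt G := by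
  rintro W N h ⟨x, hx⟩
  have hc := (smF_Third h).contDiffAt (h.op.mem_nhds hx)
  have hD : HasFDerivAt (fderiv ℝ (Fz G N)) (fderiv ℝ (fderiv ℝ (Fz G N)) x) x :=
    ((hc.fderiv_right (m := 1) (by norm_num)).differentiableAt (by norm_num)).hasFDerivAt
  set D2 := fderiv ℝ (fderiv ℝ (Fz G N)) x with hD2
  have hD' : ∀ z : H, HasFDerivAt (fun y => fderiv ℝ (Fz G N) y (z, 0)) (D2.flip (z, 0)) x :=
    fun z => (hD.clm_apply (hasFDerivAt_const ((z, 0) : H × V) x)).congr_fderiv (by ext <;> simp)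
  have s1 : ∀ a b : H, D2 (a, 0) (b, 0) = D2 (b, 0) (a, 0) := fun a b =>
    hc.isSymmSndFDerivAt (by simp) _ _
  have s2 : ∀ a b c : H, ⟪D2 (a, 0) (b, 0), c⟫_ℝ = ⟪D2 (a, 0) (c, 0), b⟫_ℝ := by
    intro a b c
    have := zero_Third (f := fun y => ⟪fderiv ℝ (Fz G N) y (b, 0), c⟫_ℝ -
      ⟪fderiv ℝ (Fz G N) y (c, 0), b⟫_ℝ) h.op hx
      (fun y hy => sub_eq_zero.2 (sym_Third h hy (b, 0) c))
      (((hD' b).inner ℝ (hasFDerivAt_const c x)).sub ((hD' c).inner ℝ (hasFDerivAt_const b x)))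
      (a, 0)
    simpa [sub_eq_zero] using this
  set S : H →L[ℝ] H := (fderiv ℝ (Fz G N) x).comp (ContinuousLinearMap.inl ℝ H V) with hS
  have hS' : ∀ z, S z = fderiv ℝ (Fz G N) x (z, 0) := fun z => rfl
  have sS : ∀ a b, ⟪S a, b⟫_ℝ = ⟪a, S b⟫_ℝ := fun a b => by
    rw [hS', hS', sym_Third h hx, real_inner_comm]
  have s3 : ∀ a b c : H, ⟪D2 (a, 0) (S b, 0), c⟫_ℝ = -⟪D2 (a, 0) (b, 0), S c⟫_ℝ := by
    intro a b c
    have := zero_Third (f := fun y => fderiv ℝ (Fz G N) y (fderiv ℝ (Fz G N) y (b, 0), 0) -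
      psi G N y • b) h.op hx (fun y hy => sub_eq_zero.2 (h.p3 y hy b))
      ((hD.clm_apply ((hD' b).prodMk (hasFDerivAt_const (0 : V) x))).sub
        ((dpsi_Third h hx).smul_const b)) (a, 0)
    have e : S (D2 (a, 0) (b, 0)) + D2 (a, 0) (S b, 0) = 0 := by simpa [hS'] using this
    rw [← sS, ← inner_neg_left, eq_neg_of_add_eq_zero_right e]
  have s4 : ∀ a b c : H, ⟪D2 (a, 0) (S b, 0), c⟫_ℝ = 0 := by
    intro a b c
    have e1 := s3 a b c
    have e2 := s3 b c a
    have e3 := s3 c a b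
    rw [s1 a b, s2 b a (S c)] at e1
    rw [s1 b c, s2 c b (S a)] at e2
    rw [s1 c a, s2 a c (S b)] at e3
    linarith
  have hp := h.pos x hx
  have s5 : ∀ a b : H, D2 (a, 0) (b, 0) = 0 := fun a b => ext_inner_right ℝ fun c => by
    have := s4 a ((psi G N x)⁻¹ • S b) c
    rw [map_smul, hS', hS', h.p3 x hx, inv_smul_smul₀ hp.ne'] at this
    simpa using this
  have s6 : ∀ μ a, S (JL G μ a) = JL G μ (S a) := fun μ a => ext_inner_right ℝ fun b => by
    have := zero_Third (f := fun y => ⟪JL G μ y.1, fderiv ℝ (Fz G N) y (a, 0)⟫_ℝ +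
      ⟪JL G μ a, Fz G N y⟫_ℝ) h.op hx (fun y hy => e2b_Third h μ a hy)
      (((((JL G μ).hasFDerivAt).comp x (hasFDerivAt_fst (p := x))).inner ℝ (hD' a)).add
        ((hasFDerivAt_const (JL G μ a) x).inner ℝ (dF_Third h hx))) (b, 0)
    have e : ⟪JL G μ b, S a⟫_ℝ + ⟪JL G μ a, S b⟫_ℝ = 0 := by simpa [hS', s5] using this
    rw [sS, J_skew G μ (S a), real_inner_comm (JL G μ b)]
    linarith
  have hq : 0 < √(psi G N x) := Real.sqrt_pos.2 hp
  refine ⟨(√(psi G N x))⁻¹ • S, fun a b => ?_, fun a => ?_, ?_, fun μ a => ?_⟩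
  · simp only [_root_.smul_apply, real_inner_smul_left, real_inner_smul_right, sS]
  · simp only [_root_.smul_apply, map_smul]
    rw [hS', hS', h.p3 x hx, smul_smul, smul_smul, ← mul_inv, Real.mul_self_sqrt hp.le,
      inv_mul_cancel₀ hp.ne', one_smul]
  · simp only [_root_.smul_apply, real_inner_smul_right, ← Finset.mul_sum, hS', h.tr x hx,
      mul_zero]
  · simp only [_root_.smul_apply, map_smul, s6]

end Pool.Agent.MP_1048c2_an.Cl

end
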