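import Pool.Agent.MP_1048c2_an.Mg.A

section
set_option linter.unusedSectionVars false
namespace Pool.Agent.MP_1048c2_an.Cl
open Filter Topology Set Module
open scoped InnerProductSpace
variable {m k : ℕ} {H V : Type} [NormedAddCommGroup H] [InnerProductSpace ℝ H] [NormedAddCommGroup V] [InnerProductSpace ℝ V] [FiniteDimensional ℝ H] [FiniteDimensional ℝ V]

theorem line_Boch {F E : Type} [NormedAddCommGroup F] [NormedSpace ℝ F] [NormedAddCommGroup E]
    [NormedSpace ℝ E] {Φ : F → E} {Φ' : F →L[ℝ] E} {y : F} (h : HasFDerivAt Φ Φ' y) (u : F) :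
    HasDerivAt (fun t : ℝ => Φ (y + t • u)) (Φ' u) 0 :=
  h.hasLineDerivAt u

theorem app_Boch {F E : Type} [NormedAddCommGroup F] [NormedSpace ℝ F] [NormedAddCommGroup E]
    [NormedSpace ℝ E] {Φ : ℝ → F →L[ℝ] E} {Φ' : F →L[ℝ] E} (h : HasDerivAt Φ Φ' 0) (a : F) :
    HasDerivAt (fun t : ℝ => Φ t a) (Φ' a) 0 := by
  simpa using h.clm_apply (hasDerivAt_const (0 : ℝ) a)

theorem zero_Boch {F : Type} [NormedAddCommGroup F] [NormedSpace ℝ F] {f : F → ℝ} {y u : F}
    {d : ℝ} (h0 : ∀ᶠ z in 𝓝 y, f z = 0) (h : HasDerivAt (fun t : ℝ => f (y + t • u)) d 0) :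
    d = 0 := by
  have hc : Tendsto (fun t : ℝ => y + t • u) (𝓝 0) (𝓝 y) := by
    have : Continuous (fun t : ℝ => y + t • u) := by fun_prop
    simpa using this.tendsto 0
  have h1 : (fun t : ℝ => f (y + t • u)) =ᶠ[𝓝 0] fun _ => (0 : ℝ) := hc.eventually h0
  exact h.unique ((hasDerivAt_const (0 : ℝ) (0 : ℝ)).congr_of_eventuallyEq h1)

theorem core_Boch {F ι : Type} [NormedAddCommGroup F] [NormedSpace ℝ F] [Fintype ι]
    [DecidableEq ι] (g : F → ℝ) (y₀ v₀ : F) (v : ι → F) (r : F →L[ℝ] ℝ) (μ : ℝ)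
    (D1 : F → F → ℝ) (D2 : F → F → F → ℝ) (D3 : F → F → F → ℝ)
    (P : F → Prop) (hg : P y₀) (hgev : ∀ᶠ y in 𝓝 y₀, P y)
    (h1 : ∀ y, P y → ∀ u, HasDerivAt (fun t : ℝ => g (y + t • u)) (D1 y u) 0)
    (h2 : ∀ y, P y → ∀ u a, HasDerivAt (fun t : ℝ => D1 (y + t • u) a) (D2 y u a) 0)
    (h3 : ∀ u a b, HasDerivAt (fun t : ℝ => D2 (y₀ + t • u) a b) (D3 u a b) 0)
    (s2 : ∀ y, P y → ∀ a b, D2 y a b = D2 y b a)
    (s3a : ∀ a b, D3 a b = D3 b a) (hr0 : r v₀ = 1) (hrv : ∀ l, r (v l) = 0) (hry : r y₀ ≠ 0)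
    (hμ : 0 < μ)
    (hev : ∀ᶠ y in 𝓝 y₀, D1 y v₀ ^ 2 + ∑ l, D1 y (v l) ^ 2 = 4 * g y ∧
      D2 y v₀ v₀ + ∑ l, D2 y (v l) (v l) + μ * D1 y v₀ / r y = 2 * (Fintype.card ι + 1 + μ)) :
    D1 y₀ v₀ = 2 * r y₀ ∧ ∀ l l', D2 y₀ (v l) (v l') = if l = l' then 2 else 0 := by
  let w : Option ι → F := fun a => a.elim v₀ v
  have s3b : ∀ a b c, D3 a b c = D3 a c b := by
    intro a b c
    have := zero_Boch (f := fun y => D2 y b c - D2 y c b) (y := y₀) (u := a)
      (hgev.mono fun y hy => by rw [s2 y hy b c]; ring)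
      ((h3 a b c).fun_sub (h3 a c b))
    linarith
  have e1 : ∀ᶠ y in 𝓝 y₀, ∑ a, D1 y (w a) ^ 2 - 4 * g y = 0 := hev.mono fun y hy => by
    rw [Fintype.sum_option]; simp only [w, Option.elim]; linarith [hy.1]
  have e1' : ∀ᶠ y in 𝓝 y₀, ∀ u, ∑ a, D1 y (w a) * D2 y u (w a) - 2 * D1 y u = 0 := by
    filter_upwards [e1.eventually_nhds, hgev] with y hy hc u
    have := zero_Boch (f := fun y => ∑ a, D1 y (w a) ^ 2 - 4 * g y) (y := y) (u := u) hy
      ((HasDerivAt.fun_sum fun a _ => (h2 y hc u (w a)).fun_pow 2).fun_sub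
        ((h1 y hc u).const_mul 4))
    simp only [zero_smul, add_zero, Nat.cast_ofNat, Nat.add_one_sub_one, pow_one] at this
    have h4 : ∑ a, 2 * D1 y (w a) * D2 y u (w a) = 2 * ∑ a, D1 y (w a) * D2 y u (w a) := by
      rw [Finset.mul_sum]; exact Finset.sum_congr rfl fun a _ => by ring
    linarith
  have e1'' : ∀ b, ∑ a, (D2 y₀ (w b) (w a) ^ 2 + D1 y₀ (w a) * D3 (w a) (w b) (w b)) =
      2 * D2 y₀ (w b) (w b) := by
    intro b
    have := zero_Boch (f := fun y => ∑ a, D1 y (w a) * D2 y (w b) (w a) - 2 * D1 y (w b))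
      (y := y₀) (u := w b) (e1'.mono fun y hy => hy (w b))
      ((HasDerivAt.fun_sum fun a _ => (h2 y₀ hg (w b) (w a)).fun_mul
        (h3 (w b) (w b) (w a))).fun_sub
        ((h2 y₀ hg (w b) (w b)).const_mul 2))
    simp only [zero_smul, add_zero] at this
    have h4 : ∑ a, (D2 y₀ (w b) (w a) ^ 2 + D1 y₀ (w a) * D3 (w a) (w b) (w b)) =
        ∑ a, (D2 y₀ (w b) (w a) * D2 y₀ (w b) (w a) + D1 y₀ (w a) * D3 (w b) (w b) (w a)) :=
      Finset.sum_congr rfl fun a _ => by rw [s3b (w b) (w b) (w a), s3a (w b) (w a)]; ring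
    linarith
  set κ : ℝ := 2 * (Fintype.card ι + 1 + μ) with hκ
  have hrev : ∀ᶠ y in 𝓝 y₀, r y ≠ 0 := r.continuous.continuousAt.eventually_ne hry
  have e2 : ∀ᶠ y in 𝓝 y₀, (∑ b, D2 y (w b) (w b) - κ) * r y + μ * D1 y v₀ = 0 := by
    filter_upwards [hev, hrev] with y hy hy'
    rw [Fintype.sum_option]; simp only [w, Option.elim]
    have := hy.2
    have h5 : μ * D1 y v₀ = μ * D1 y v₀ / r y * r y := by field_simp
    rw [h5, ← this]; ring
  set Δ := ∑ b, D2 y₀ (w b) (w b) with hΔ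
  set q := D1 y₀ v₀ / r y₀ with hq
  have hq' : D1 y₀ v₀ = q * r y₀ := by rw [hq]; field_simp
  have hΔq : Δ - κ = -(μ * q) := by
    have := e2.self_of_nhds
    rw [hq'] at this
    have h6 : (Δ - κ + μ * q) * r y₀ = 0 := by linarith
    rcases mul_eq_zero.1 h6 with h | h
    · linarith
    · exact absurd h hry
  have e2' : ∀ a, (∑ b, D3 (w a) (w b) (w b)) * r y₀ =
      μ * q * r (w a) - μ * D2 y₀ v₀ (w a) := by
    intro a
    have := zero_Boch (f := fun y => (∑ b, D2 y (w b) (w b) - κ) * r y + μ * D1 y v₀)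
      (y := y₀) (u := w a) e2
      ((((HasDerivAt.fun_sum fun b _ =>
        h3 (w a) (w b) (w b)).sub_const κ).fun_mul
        (line_Boch r.hasFDerivAt (w a))).fun_add
        ((h2 y₀ hg (w a) v₀).const_mul μ))
    simp only [zero_smul, add_zero] at this
    rw [← hΔ, hΔq, s2 y₀ hg (w a) v₀] at this
    linarith
  have e3 : ∑ a, D1 y₀ (w a) * ∑ b, D3 (w a) (w b) (w b) = μ * q ^ 2 - 2 * μ * q := by
    have h7 : (∑ a, D1 y₀ (w a) * ∑ b, D3 (w a) (w b) (w b)) * r y₀ =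
        μ * q * ∑ a, D1 y₀ (w a) * r (w a) - μ * ∑ a, D1 y₀ (w a) * D2 y₀ v₀ (w a) := by
      rw [Finset.sum_mul, Finset.mul_sum, Finset.mul_sum, ← Finset.sum_sub_distrib]
      exact Finset.sum_congr rfl fun a _ => by rw [mul_assoc, e2' a]; ring
    have h8 : ∑ a, D1 y₀ (w a) * r (w a) = D1 y₀ v₀ := by
      rw [Fintype.sum_option]; simp [w, hr0, hrv]
    have h9 := e1'.self_of_nhds v₀
    rw [h8, hq'] at h7
    rw [hq'] at h9
    apply mul_right_cancel₀ hry
    rw [h7]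
    have : ∑ a, D1 y₀ (w a) * D2 y₀ v₀ (w a) = 2 * (q * r y₀) := by linarith
    rw [this]; ring
  have e4 : ∑ b, ∑ a, D2 y₀ (w b) (w a) ^ 2 + (μ * q ^ 2 - 2 * μ * q) = 2 * Δ := by
    rw [← e3, hΔ, Finset.mul_sum, ← Finset.sum_congr rfl fun b _ => e1'' b]
    simp only [Finset.sum_add_distrib, Finset.mul_sum]
    rw [Finset.sum_comm (f := fun a b => D1 y₀ (w a) * D3 (w a) (w b) (w b))]
  have e5 : ∑ b, ∑ a, (D2 y₀ (w b) (w a) - if b = a then 2 else 0) ^ 2 = -(μ * (q - 2) ^ 2) := by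
    have h10 : ∀ b, ∑ a, (D2 y₀ (w b) (w a) - if b = a then 2 else 0) ^ 2 =
        ∑ a, D2 y₀ (w b) (w a) ^ 2 - 4 * D2 y₀ (w b) (w b) + 4 := by
      intro b
      have : ∀ a, (D2 y₀ (w b) (w a) - if b = a then 2 else 0) ^ 2 =
          D2 y₀ (w b) (w a) ^ 2 + if b = a then 4 - 4 * D2 y₀ (w b) (w b) else 0 := by
        intro a
        split_ifs with hab
        · subst hab; ring
        · ring
      simp only [this, Finset.sum_add_distrib, Finset.sum_ite_eq, Finset.mem_univ, if_true]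
      ring
    simp only [h10, Finset.sum_add_distrib, Finset.sum_sub_distrib, ← Finset.mul_sum,
      Finset.sum_const, Finset.card_univ, Fintype.card_option, nsmul_eq_mul]
    push_cast
    rw [← hΔ]
    linarith
  have hn : 0 ≤ ∑ b, ∑ a, (D2 y₀ (w b) (w a) - if b = a then 2 else 0) ^ 2 :=
    Finset.sum_nonneg fun b _ => Finset.sum_nonneg fun a _ => sq_nonneg _
  have hm : 0 ≤ μ * (q - 2) ^ 2 := by positivity
  have hz : μ * (q - 2) ^ 2 = 0 := by linarith
  have hq2 : q = 2 := by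
    rcases mul_eq_zero.1 hz with h | h
    · exact absurd h hμ.ne'
    · linarith [pow_eq_zero_iff (two_ne_zero) |>.1 h]
  refine ⟨by rw [hq', hq2], fun l l' => ?_⟩
  rw [hz, neg_zero, Finset.sum_eq_zero_iff_of_nonneg
    fun b _ => Finset.sum_nonneg fun a _ => sq_nonneg _] at e5
  have := (Finset.sum_eq_zero_iff_of_nonneg fun a _ => sq_nonneg _).1
    (e5 (some l) (Finset.mem_univ _)) (some l') (Finset.mem_univ _)
  have h11 := pow_eq_zero_iff (two_ne_zero) |>.1 this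
  simp only [w, Option.elim, Option.some.injEq] at h11
  linarith

theorem two_Boch {F : Type} [NormedAddCommGroup F] [NormedSpace ℝ F] {Φ : F → F →L[ℝ] ℝ}
    {y : F} (h : DifferentiableAt ℝ Φ y) (u a : F) :
    HasDerivAt (fun t : ℝ => Φ (y + t • u) a) (fderiv ℝ Φ y u a) 0 :=
  app_Boch (line_Boch h.hasFDerivAt u) a

theorem three_Boch {F : Type} [NormedAddCommGroup F] [NormedSpace ℝ F] {Φ : F → F →L[ℝ] ℝ}
    {y : F} (h : ContDiffAt ℝ 2 Φ y) (u a b : F) :
    HasDerivAt (fun t : ℝ => fderiv ℝ Φ (y + t • u) a b)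
      (fderiv ℝ (fderiv ℝ Φ) y u a b) 0 := by
  have h3 := ((h.fderiv_right (m := 1) (by norm_num)).differentiableAt (by simp)).hasFDerivAt
  have h4 := line_Boch h3 u
  have h5 := app_Boch (E := F →L[ℝ] ℝ) h4 a
  exact app_Boch (E := ℝ) h5 b

theorem boch_st : BochSt := by
  intro F ι _ _ _ _ g y₀ v₀ v r μ hg hr0 hrv hry hμ hev
  have c2 : ∀ y, ContDiffAt ℝ 3 g y → ContDiffAt ℝ 2 (fderiv ℝ g) y := fun y hy =>
    hy.fderiv_right (m := 2) (by norm_num)
  exact core_Boch g y₀ v₀ v r μ (fun y a => fderiv ℝ g y a)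
    (fun y a b => fderiv ℝ (fderiv ℝ g) y a b)
    (fun a b c => fderiv ℝ (fderiv ℝ (fderiv ℝ g)) y₀ a b c) (fun y => ContDiffAt ℝ 3 g y) hg
    (hg.eventually (by simp))
    (fun y hy u => line_Boch (hy.differentiableAt (by simp)).hasFDerivAt u)
    (fun y hy u a => two_Boch ((c2 y hy).differentiableAt (by simp)) u a)
    (fun u a b => three_Boch (c2 y₀ hg) u a b)
    (fun y hy a b => (hy.isSymmSndFDerivAt (by simp; norm_num)) a b)
    (fun a b => by
      have := ((c2 y₀ hg).isSymmSndFDerivAt (by simp)) a b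
      funext c
      rw [this]) hr0 hrv hry hμ hev

end Pool.Agent.MP_1048c2_an.Cl

end

section
set_option linter.unusedSectionVars false
namespace Pool.Agent.MP_1048c2_an.Cl
open Filter Topology Set Module
open scoped InnerProductSpace
variable {m k : ℕ} {H V : Type} [NormedAddCommGroup H] [InnerProductSpace ℝ H] [NormedAddCommGroup V] [InnerProductSpace ℝ V] [FiniteDimensional ℝ H] [FiniteDimensional ℝ V]

/-- the chart along a ray -/
noncomputable def ray_Rad (e : H) (y : ℝ × V) : H × V := (√y.1 • e, y.2)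

theorem ray_sm_Rad (e : H) {y : ℝ × V} (hy : y.1 ≠ 0) : ContDiffAt ℝ 3 (ray_Rad e) y :=
  ((contDiffAt_fst.sqrt hy).smul contDiffAt_const).prodMk contDiffAt_snd

theorem ray_d_Rad (e : H) {y : ℝ × V} (hy : y.1 ≠ 0) :
    ∃ L : ℝ × V →L[ℝ] H × V, HasFDerivAt (ray_Rad e) L y ∧
      ∀ v, L v = ((1 / (2 * √y.1) * v.1) • e, v.2) :=
  ⟨_, (((hasFDerivAt_fst (p := y)).sqrt hy).smul_const e).prodMk (hasFDerivAt_snd (p := y)),
    fun v => by simp⟩

theorem snd_d_Rad {F : Type} [NormedAddCommGroup F] [NormedSpace ℝ F] {g f : F → ℝ} {y v : F}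
    {f' : F →L[ℝ] ℝ} (hg : ContDiffAt ℝ 3 g y) (hf : HasFDerivAt f f' y)
    (h : ∀ᶠ x in 𝓝 y, fderiv ℝ g x v = f x) (w : F) :
    fderiv ℝ (fderiv ℝ g) y w v = f' w := by
  have h1 : HasFDerivAt (fderiv ℝ g) (fderiv ℝ (fderiv ℝ g) y) y :=
    ((hg.fderiv_right (m := 1) (by norm_num)).differentiableAt (by norm_num)).hasFDerivAt
  have h2 := (h1.clm_apply (hasFDerivAt_const v y)).unique (hf.congr_of_eventuallyEq h)
  have h3 := congrArg (fun L : F →L[ℝ] ℝ => L w) h2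
  simpa using h3

theorem core_Rad (G : HeisenbergType m k H V) (hB : BochSt) {p : ℝ} (hp : 1 < p)
    {W : Set (H × V)} (hW : IsOpen W) (nz : ∀ x ∈ W, x.1 ≠ 0) {N φ : H × V → ℝ}
    (hN : ContDiffOn ℝ 3 N W) (hφ : ∀ x ∈ W, DifferentiableAt ℝ φ x)
    (hξ : ∀ x ∈ W, xi G N x = φ x • x.1)
    (h1 : ∀ x ∈ W, φ x ^ 2 + ‖la G N x‖ ^ 2 / 4 = 16 * N x)
    (h2 : ∀ x ∈ W, fderiv ℝ φ x (x.1, 0) + (m + p - 2) * φ x +
      ‖x.1‖ ^ 2 / 4 * ∑ l, ⟪G.ε l, fderiv ℝ (la G N) x (0, G.ε l)⟫_ℝ =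
        4 * (m + 2 * k + p) * ‖x.1‖ ^ 2) (x : H × V) (hx : x ∈ W) :
    φ x = 4 * ‖x.1‖ ^ 2 ∧ ∀ l, fderiv ℝ (la G N) x (0, G.ε l) = (32 : ℝ) • G.ε l := by
  classical
  have hz : 0 < ‖x.1‖ := norm_pos_iff.2 (nz x hx)
  set e : H := ‖x.1‖⁻¹ • x.1 with he
  have he1 : ‖e‖ = 1 := by
    rw [he, norm_smul, norm_inv, norm_norm, inv_mul_cancel₀ hz.ne']
  set y₀ : ℝ × V := (‖x.1‖ ^ 2, x.2) with hy₀
  have hΨ : ray_Rad e y₀ = x := by
    simp only [ray_Rad, hy₀, Real.sqrt_sq hz.le, he, smul_smul, mul_inv_cancel₀ hz.ne', one_smul]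
  have hm : (1 : ℝ) ≤ m := by
    have : Nontrivial H := nontrivial_of_ne _ _ (nz x hx)
    have h3 : 0 < finrank ℝ H := finrank_pos
    rw [finrank_H G] at h3
    exact_mod_cast h3
  let U : Set (ℝ × V) := {y | 0 < y.1 ∧ ray_Rad e y ∈ W}
  have hUo : IsOpen U := by
    have hc : Continuous (ray_Rad (V := V) e) := by
      unfold ray_Rad
      fun_prop
    exact (isOpen_lt continuous_const continuous_fst).inter (hW.preimage hc)
  have hy₀U : y₀ ∈ U := ⟨by positivity, by rw [hΨ]; exact hx⟩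
  let g : ℝ × V → ℝ := fun y => N (ray_Rad e y)
  have hg : ∀ y ∈ U, ContDiffAt ℝ 3 g y := fun y hy =>
    (hN.contDiffAt (hW.mem_nhds hy.2)).comp y (ray_sm_Rad e hy.1.ne')
  have hdg : ∀ y ∈ U, ∀ v : ℝ × V, fderiv ℝ g y v =
      φ (ray_Rad e y) / 2 * v.1 + ⟪la G N (ray_Rad e y), v.2⟫_ℝ := fun y hy v => by
    obtain ⟨L, hL, hL'⟩ := ray_d_Rad e hy.1.ne'
    have h3 := (((hN.contDiffAt (hW.mem_nhds hy.2)).differentiableAt
      (by norm_num)).hasFDerivAt.comp y hL).fderiv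
    have h4 : √y.1 ≠ 0 := (Real.sqrt_pos.2 hy.1).ne'
    rw [show fderiv ℝ g y = _ from h3, ContinuousLinearMap.comp_apply, hL', fderiv_eq G,
      hξ _ hy.2]
    simp only [ray_Rad, real_inner_smul_left, real_inner_smul_right, real_inner_self_eq_norm_sq,
      he1]
    field_simp
  have hdl : ∀ y ∈ W, HasFDerivAt (la G N) (fderiv ℝ (la G N) y) y := fun y hy =>
    (((contDiffOn_la G hW hN (n := 2) (by norm_num)).contDiffAt (hW.mem_nhds hy)).differentiableAt
      (by norm_num)).hasFDerivAt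
  have hd0 : ∀ y ∈ U, fderiv ℝ (fderiv ℝ g) y (1, 0) (1, 0) =
      fderiv ℝ φ (ray_Rad e y) ((ray_Rad e y).1, 0) / (4 * y.1) := fun y hy => by
    obtain ⟨L, hL, hL'⟩ := ray_d_Rad e hy.1.ne'
    have h3 := (((hφ _ hy.2).hasFDerivAt.comp y hL).const_mul (1 / 2 : ℝ))
    rw [snd_d_Rad (hg y hy) h3 (mem_of_superset (hUo.mem_nhds hy) fun y' hy' => by
      show fderiv ℝ g y' (1, 0) = 1 / 2 * φ (ray_Rad e y')
      rw [hdg y' hy']
      simp only [inner_zero_right]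
      ring)]
    have h4 : √y.1 ≠ 0 := (Real.sqrt_pos.2 hy.1).ne'
    have h5 : √y.1 * √y.1 = y.1 := Real.mul_self_sqrt hy.1.le
    have h6 : L (1, 0) = (1 / (2 * y.1)) • (((ray_Rad e y).1, 0) : H × V) := by
      rw [hL']
      simp only [ray_Rad, Prod.smul_mk, smul_smul, smul_zero, mul_one]
      congr 2
      rw [div_mul_eq_mul_div, one_mul, div_eq_div_iff (by positivity) (by have := hy.1; positivity)]
      linear_combination (-2) * h5
    simp only [_root_.smul_apply, ContinuousLinearMap.comp_apply, h6, map_smul, smul_eq_mul]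
    have := hy.1
    field_simp
    ring
  have hd1 : ∀ y ∈ U, ∀ l l', fderiv ℝ (fderiv ℝ g) y (0, (1 / 4 : ℝ) • G.ε l)
      (0, (1 / 4 : ℝ) • G.ε l') =
      ⟪G.ε l', fderiv ℝ (la G N) (ray_Rad e y) (0, G.ε l)⟫_ℝ / 16 := fun y hy l l' => by
    obtain ⟨L, hL, hL'⟩ := ray_d_Rad e hy.1.ne'
    have h3 := (innerSL ℝ ((1 / 4 : ℝ) • G.ε l')).hasFDerivAt.comp y ((hdl _ hy.2).comp y hL)
    rw [snd_d_Rad (hg y hy) h3 (mem_of_superset (hUo.mem_nhds hy) fun y' hy' => by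
      show fderiv ℝ g y' (0, (1 / 4 : ℝ) • G.ε l') =
        ⟪(1 / 4 : ℝ) • G.ε l', la G N (ray_Rad e y')⟫_ℝ
      rw [hdg y' hy', real_inner_comm]
      simp)]
    have h6 : L (0, (1 / 4 : ℝ) • G.ε l) = (1 / 4 : ℝ) • ((0, G.ε l) : H × V) := by
      rw [hL']
      simp
    simp only [ContinuousLinearMap.comp_apply, h6, map_smul, innerSL_apply_apply,
      _root_.smul_apply, smul_eq_mul]
    ring
  have key := hB (ℝ × V) (Fin k) g y₀ (1, 0) (fun l => (0, (1 / 4 : ℝ) • G.ε l))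
    (ContinuousLinearMap.fst ℝ ℝ V) ((m + p - 2) / 2) (hg _ hy₀U) rfl (fun l => rfl)
    hy₀U.1.ne' (by linarith) (mem_of_superset (hUo.mem_nhds hy₀U) fun y hy => by
      have h4 : ‖(ray_Rad e y).1‖ ^ 2 = y.1 := by
        simp only [ray_Rad, norm_smul, he1, mul_one, Real.norm_eq_abs, sq_abs]
        exact Real.sq_sqrt hy.1.le
      constructor
      · have h3 := h1 _ hy.2
        have h5 := G.ε.sum_sq_inner_left (la G N (ray_Rad e y))
        simp only [hdg y hy, inner_zero_right, real_inner_smul_right, mul_pow, mul_zero, zero_add,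
          add_zero, mul_one, ← Finset.mul_sum, h5]
        show _ = 4 * N (ray_Rad e y)
        linarith
      · have h3 := h2 _ hy.2
        rw [h4] at h3
        have h5 := hy.1
        simp only [hd0 y hy, hd1 y hy, hdg y hy, inner_zero_right, add_zero, mul_one,
          ← Finset.sum_div, Fintype.card_fin, ContinuousLinearMap.coe_fst']
        field_simp
        linear_combination 64 * h3)
  obtain ⟨k1, k2⟩ := key
  rw [hdg _ hy₀U, hΨ] at k1
  simp only [inner_zero_right, add_zero, mul_one, ContinuousLinearMap.coe_fst', hy₀] at k1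
  refine ⟨by linarith, fun l => ?_⟩
  rw [← G.ε.sum_repr' (fderiv ℝ (la G N) x (0, G.ε l))]
  have k3 : ∀ l', ⟪G.ε l', fderiv ℝ (la G N) x (0, G.ε l)⟫_ℝ = if l = l' then 32 else 0 :=
    fun l' => by
      have := k2 l l'
      rw [hd1 _ hy₀U, hΨ] at this
      split_ifs at this ⊢ <;> linarith
  simp [k3]

theorem rad_st (G : HeisenbergType m k H V) (hN : NSysSt G) (hB : BochSt) : RadSt G := by
  intro p W u hp hS hr x hx
  obtain ⟨hN3, hN'⟩ := hN p W u hS
  set N : H × V → ℝ := fun y => u y ^ 2 with hNdef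
  have hW := hS.op
  have nz := hS.nz
  let φ : H × V → ℝ := fun y => ⟪y.1, xi G N y⟫_ℝ / ‖y.1‖ ^ 2
  have hdx : ∀ y ∈ W, HasFDerivAt (xi G N) (fderiv ℝ (xi G N) y) y := fun y hy =>
    (((contDiffOn_xi G hW hN3 (n := 2) (by norm_num)).contDiffAt
      (hW.mem_nhds hy)).differentiableAt (by norm_num)).hasFDerivAt
  have hdl : ∀ y ∈ W, HasFDerivAt (la G N) (fderiv ℝ (la G N) y) y := fun y hy =>
    (((contDiffOn_la G hW hN3 (n := 2) (by norm_num)).contDiffAt
      (hW.mem_nhds hy)).differentiableAt (by norm_num)).hasFDerivAt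
  have hr0 : ∀ y ∈ W, ‖y.1‖ ^ 2 ≠ 0 := fun y hy => pow_ne_zero _ (norm_ne_zero_iff.2 (nz y hy))
  have hφ : ∀ y ∈ W, DifferentiableAt ℝ φ y := fun y hy => by
    have a1 : DifferentiableAt ℝ (fun y : H × V => ⟪y.1, xi G N y⟫_ℝ) y :=
      differentiableAt_fst.inner ℝ (hdx y hy).differentiableAt
    have a2 : DifferentiableAt ℝ (fun y : H × V => ‖y.1‖ ^ 2) y := differentiableAt_fst.norm_sq ℝ
    have a3 : DifferentiableAt ℝ
        (fun y : H × V => ⟪y.1, xi G N y⟫_ℝ * (‖y.1‖ ^ 2)⁻¹) y := a1.mul (a2.inv (hr0 y hy))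
    exact a3.congr_of_eventuallyEq (Eventually.of_forall fun y => div_eq_mul_inv _ _)
  have hξ : ∀ y ∈ W, xi G N y = φ y • y.1 := fun y hy => by
    obtain ⟨c, hc⟩ := hr y hy
    have h1 : xi G N y = (2 * u y * c) • y.1 := by rw [(hN' y hy).1, hc, smul_smul]
    have h2 : φ y = 2 * u y * c := by
      show ⟪y.1, xi G N y⟫_ℝ / ‖y.1‖ ^ 2 = _
      rw [h1, real_inner_smul_right, real_inner_self_eq_norm_sq, mul_div_assoc,
        div_self (hr0 y hy), mul_one]
    rw [h1, h2]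
  have hD : ∀ y ∈ W, ∀ v, fderiv ℝ (xi G N) y v = fderiv ℝ φ y v • y.1 + φ y • v.1 :=
    fun y hy v => by
      have h1 := ((hφ y hy).hasFDerivAt.smul (hasFDerivAt_fst (p := y))).congr_of_eventuallyEq
        (f₁ := xi G N) (mem_of_superset (hW.mem_nhds hy) fun y' hy' => hξ y' hy')
      rw [h1.fderiv]
      simp [add_comm]
  have h1 : ∀ y ∈ W, φ y ^ 2 + ‖la G N y‖ ^ 2 / 4 = 16 * N y := fun y hy => by
    have h2 := (hN' y hy).2.2.1
    simp only [vf, norm_add_sq_real, hξ y hy, norm_smul, mul_pow, norm_J_sq,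
      real_inner_smul_right, real_inner_smul_left, Real.norm_eq_abs, sq_abs] at h2
    rw [real_inner_comm, inner_J_self] at h2
    apply mul_left_cancel₀ (hr0 y hy)
    show _ = _ * (16 * u y ^ 2)
    linarith
  have h2 : ∀ y ∈ W, fderiv ℝ φ y (y.1, 0) + (m + p - 2) * φ y +
      ‖y.1‖ ^ 2 / 4 * ∑ l, ⟪G.ε l, fderiv ℝ (la G N) y (0, G.ε l)⟫_ℝ =
        4 * (m + 2 * k + p) * ‖y.1‖ ^ 2 := fun y hy => by
    have h3 := (hN' y hy).2.2.2
    have h4 : ∑ i, ⟪G.e i, fderiv ℝ (xi G N) y (G.e i, 0)⟫_ℝ =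
        fderiv ℝ φ y (y.1, 0) + m * φ y := by
      have h5 : ((y.1, 0) : H × V) = ∑ i, ⟪G.e i, y.1⟫_ℝ • ((G.e i, 0) : H × V) := by
        ext
        · simp [Prod.fst_sum, G.e.sum_repr']
        · simp [Prod.snd_sum]
      rw [h5, map_sum]
      simp only [hD y hy, inner_add_right, real_inner_smul_right, real_inner_self_eq_norm_sq,
        G.e.orthonormal.1, Finset.sum_add_distrib, map_smul, smul_eq_mul]
      simp [mul_comm]
    have h5 : ∑ l, ⟪JL G (G.ε l) y.1, fderiv ℝ (xi G N) y (0, G.ε l)⟫_ℝ = 0 :=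
      Finset.sum_eq_zero fun l _ => by
        simp only [hD y hy, smul_zero, add_zero, real_inner_smul_right, inner_J_self, mul_zero]
    rw [h4, h5, mul_div_assoc, homDim] at h3
    change _ + (p - 2) * φ y = _ at h3
    linarith
  have key := core_Rad G hB hp hW nz hN3 hφ hξ h1 h2
  have hφ0 : ∀ y ∈ W, ∀ μ : V, fderiv ℝ φ y (0, μ) = 0 := fun y hy μ => by
    have h3 := (((hasFDerivAt_fst (𝕜 := ℝ) (p := y)).norm_sq).const_mul 4).congr_of_eventuallyEq
      (f₁ := φ) (mem_of_superset (hW.mem_nhds hy) fun y' hy' => (key y' hy').1)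
    rw [h3.fderiv]
    simp
  have hDl : ∀ y ∈ W, ∀ v : H × V, fderiv ℝ (la G N) y v = (32 : ℝ) • v.2 := fun y hy v => by
    have h3 : fderiv ℝ (la G N) y (v.1, 0) = 0 := ext_inner_right ℝ fun μ => by
      have h4 := symm2 G ((hN3.contDiffAt (hW.mem_nhds hy)).of_le (by norm_num)) (v.1, 0) (0, μ)
      simpa [hD y hy, hφ0 y hy] using h4
    have h4 : v = (v.1, 0) + ∑ l, ⟪G.ε l, v.2⟫_ℝ • ((0, G.ε l) : H × V) := by
      ext
      · simp [Prod.fst_sum]
      · simp [Prod.snd_sum, G.ε.sum_repr']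
    conv_lhs => rw [h4]
    rw [map_add, h3, zero_add, map_sum]
    simp only [map_smul, (key y hy).2]
    conv_rhs => rw [← G.ε.sum_repr' v.2, Finset.smul_sum]
    exact Finset.sum_congr rfl fun l _ => smul_comm _ _ _
  obtain ⟨δ, hδ, hb⟩ := Metric.isOpen_iff.1 hW x hx
  have hd : ∀ y ∈ Metric.ball x δ, HasFDerivAt (fun y => la G N y - (32 : ℝ) • y.2)
      (0 : H × V →L[ℝ] V) y := fun y hy =>
    ((hdl y (hb hy)).sub ((hasFDerivAt_snd (p := y)).const_smul (32 : ℝ))).congr_fderiv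
      (ContinuousLinearMap.ext fun v => by simp [hDl y (hb hy)])
  refine ⟨x.2 - (1 / 32 : ℝ) • la G N x, mem_of_superset (Metric.ball_mem_nhds x hδ)
    fun y hy => ?_⟩
  have h3 := Metric.isOpen_ball.is_const_of_fderiv_eq_zero (𝕜 := ℝ)
    (convex_ball x δ).isPreconnected
    (fun y hy => (hd y hy).differentiableAt.differentiableWithinAt) (fun y hy => (hd y hy).fderiv)
    hy (Metric.mem_ball_self hδ)
  have h4 : la G N y = (32 : ℝ) • (y.2 - (x.2 - (1 / 32 : ℝ) • la G N x)) := by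
    linear_combination (norm := module) h3
  have h5 := h1 y (hb hy)
  rw [(key y (hb hy)).1, h4, norm_smul, Real.norm_of_nonneg (by norm_num : (0 : ℝ) ≤ 32)] at h5
  show N y = _
  linarith

end Pool.Agent.MP_1048c2_an.Cl

end

section
set_option linter.unusedSectionVars false

namespace Pool.Agent.MP_1048c2_an.Cl

open Filter Topology Set Module
open scoped InnerProductSpace

variable {m k : ℕ} {H V : Type} [NormedAddCommGroup H] [InnerProductSpace ℝ H]
  [NormedAddCommGroup V] [InnerProductSpace ℝ V] [FiniteDimensional ℝ H] [FiniteDimensional ℝ V]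

theorem trace_Split (G : HeisenbergType m k H V) (A : H →ₗ[ℝ] H) :
    LinearMap.trace ℝ H A = ∑ i, ⟪G.e i, A (G.e i)⟫_ℝ :=
  LinearMap.trace_eq_sum_inner A G.e

theorem split_st (G : HeisenbergType m k H V) : SplitSt G := by
  constructor
  · rintro ⟨K, hK, hd⟩
    let P : H →L[ℝ] H := K.starProjection
    have hPK : ∀ z, P z ∈ K := fun z => K.starProjection_apply_mem z
    have hPid : ∀ z ∈ K, P z = z := fun z hz => Submodule.starProjection_eq_self_iff.2 hz
    have hPo : ∀ z, z - P z ∈ Kᗮ := fun z => K.sub_starProjection_mem_orthogonal z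
    have hP0 : ∀ z ∈ Kᗮ, P z = 0 := fun z hz => (K.starProjection_apply_eq_zero_iff).2 hz
    have hKo : ∀ μ, ∀ z ∈ Kᗮ, JL G μ z ∈ Kᗮ := by
      intro μ z hz
      rw [Submodule.mem_orthogonal']
      intro u hu
      rw [J_skew, (Submodule.mem_orthogonal' K z).1 hz (JL G μ u) (hK μ u hu), neg_zero]
    have hPJ : ∀ μ z, P (JL G μ z) = JL G μ (P z) := by
      intro μ z
      have h1 : JL G μ z = JL G μ (P z) + JL G μ (z - P z) := by rw [← map_add]; simp
      rw [h1, map_add, hP0 _ (hKo μ _ (hPo z)), add_zero]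
      exact hPid _ (hK μ _ (hPK z))
    have hproj : LinearMap.IsProj K (P : H →ₗ[ℝ] H) := ⟨hPK, hPid⟩
    have htr := hproj.trace
    refine ⟨(2 : ℝ) • P - 1, ?_, ?_, ?_, ?_⟩
    · intro z z'
      have := K.inner_starProjection_left_eq_right z z'
      simp only [ContinuousLinearMap.sub_apply, ContinuousLinearMap.smul_apply,
        ContinuousLinearMap.one_apply, inner_sub_left, inner_sub_right, real_inner_smul_left,
        real_inner_smul_right, P, this]
    · intro z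
      simp only [ContinuousLinearMap.sub_apply, ContinuousLinearMap.smul_apply,
        ContinuousLinearMap.one_apply, map_sub, map_smul, hPid _ (hPK z)]
      module
    · rw [trace_Split G] at htr
      have h2 : ∀ i, ⟪G.e i, ((2 : ℝ) • P - 1) (G.e i)⟫_ℝ = 2 * ⟪G.e i, P (G.e i)⟫_ℝ - 1 := by
        intro i
        simp only [ContinuousLinearMap.sub_apply, ContinuousLinearMap.smul_apply,
          ContinuousLinearMap.one_apply, inner_sub_right, real_inner_smul_right,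
          real_inner_self_eq_norm_sq, G.e.orthonormal.1 i, one_pow]
      simp only [h2, Finset.sum_sub_distrib, ← Finset.mul_sum]
      have h3 : (2 : ℝ) * finrank ℝ K = m := by exact_mod_cast hd
      simp only [ContinuousLinearMap.coe_coe] at htr
      rw [htr]
      simp [h3]
    · intro μ z
      simp only [ContinuousLinearMap.sub_apply, ContinuousLinearMap.smul_apply,
        ContinuousLinearMap.one_apply, map_sub, map_smul, hPJ]
  · rintro ⟨A, -, hAA, htr, hJ⟩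
    let K : Submodule ℝ H := LinearMap.ker ((A : H →ₗ[ℝ] H) - 1)
    have hK : ∀ z, z ∈ K ↔ A z = z := fun z => by
      simp [K, sub_eq_zero]
    let P : H →ₗ[ℝ] H := (1 / 2 : ℝ) • (1 + (A : H →ₗ[ℝ] H))
    have hP : ∀ z, P z = (1 / 2 : ℝ) • (z + A z) := fun z => rfl
    have hproj : LinearMap.IsProj K P := by
      refine ⟨fun z => ?_, fun z hz => ?_⟩
      · rw [hK, hP, map_smul, map_add, hAA, add_comm]
      · rw [hP, (hK z).1 hz]; module
    refine ⟨K, fun μ z hz => ?_, ?_⟩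
    · rw [hK, ← JL_apply, hJ, (hK z).1 hz]
    · have h1 := hproj.trace
      rw [trace_Split G] at h1
      have h2 : ∀ i, ⟪G.e i, P (G.e i)⟫_ℝ = 1 / 2 + 1 / 2 * ⟪G.e i, A (G.e i)⟫_ℝ := by
        intro i
        rw [hP, real_inner_smul_right, inner_add_right, real_inner_self_eq_norm_sq,
          G.e.orthonormal.1 i]
        ring
      simp only [h2, Finset.sum_add_distrib, ← Finset.mul_sum, htr] at h1
      have h3 : (2 : ℝ) * finrank ℝ K = m := by
        rw [← h1]; simp; ring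
      exact_mod_cast h3

end Pool.Agent.MP_1048c2_an.Cl

end

section
/-! From the local classification to the domain. -/

set_option linter.unusedSectionVars false

namespace Pool.Agent.MP_1048c2_an.Cl

open Filter Topology Set Module
open scoped InnerProductSpace

variable {m k : ℕ} {H V : Type} [NormedAddCommGroup H] [InnerProductSpace ℝ H]
  [NormedAddCommGroup V] [InnerProductSpace ℝ V] [FiniteDimensional ℝ H] [FiniteDimensional ℝ V]
  [MeasurableSpace H] [BorelSpace H] [MeasurableSpace V] [BorelSpace V]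

/-- the fourth power of the gauge -/
def N_Glob (σ₀ : V) (y : H × V) : ℝ := ‖y.1‖ ^ 4 + 16 * ‖y.2 - σ₀‖ ^ 2

theorem N_cont_Glob (σ₀ : V) : Continuous (N_Glob (H := H) σ₀) := by
  unfold N_Glob
  fun_prop

theorem N_dil_Glob (σ₀ : V) (z : H) (σ : V) (t : ℝ) :
    N_Glob σ₀ (t • z, σ₀ + t ^ 2 • σ) = t ^ 4 * N_Glob 0 (z, σ) := by
  simp only [N_Glob, add_sub_cancel_left, norm_smul, Real.norm_eq_abs, mul_pow, sq_abs, sub_zero,
    (by decide : Even 4).pow_abs]
  ring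

theorem N_shift_Glob (σ₀ : V) (x : H × V) : N_Glob 0 (x.1, x.2 - σ₀) = N_Glob σ₀ x := by
  simp [N_Glob]

theorem lim_Glob {X : Type} [TopologicalSpace X] {F : X → ℝ} {s : Set X} {x : X}
    (hF : ContinuousWithinAt F s x) (hx : x ∈ closure s) (h : ∀ y ∈ s, F y = 0) : F x = 0 := by
  simpa using hF.mem_closure hx (t := {0}) h

theorem la_Glob (G : HeisenbergType m k H V) {u : H × V → ℝ} {y : H × V} {σ₀ : V}
    (hu : DifferentiableAt ℝ u y) (h : ∀ᶠ y' in 𝓝 y, u y' ^ 2 = N_Glob σ₀ y') :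
    u y • la G u y = (16 : ℝ) • (y.2 - σ₀) := by
  have d1 := hu.hasFDerivAt.pow 2
  have d2 := (((hasFDerivAt_fst (𝕜 := ℝ) (p := y)).norm_sq.pow 2).add
    ((((hasFDerivAt_snd (𝕜 := ℝ) (p := y)).sub_const σ₀).norm_sq).const_mul 16)).congr_of_eventuallyEq
      (f₁ := fun y' => u y' ^ 2) (h.mono fun y' hy' => by
        simp only [Pi.add_apply, hy', N_Glob]
        ring)
  refine ext_inner_right ℝ fun v => ?_
  have h3 := congrArg (fun L : H × V →L[ℝ] ℝ => L (0, v)) (d1.unique d2)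
  simp [fderiv_eq G] at h3
  simp only [real_inner_smul_left, inner_sub_left]
  linarith

theorem la_sq_Glob (G : HeisenbergType m k H V) {u : H × V → ℝ} {y : H × V}
    (hu : DifferentiableAt ℝ u y) (h : Gau u y) :
    ‖la G u y‖ ^ 2 * u y ^ 2 - 16 * (u y ^ 2 - ‖y.1‖ ^ 4) = 0 := by
  obtain ⟨σ₀, h⟩ := h
  have h1 := congrArg (fun v : V => ‖v‖ ^ 2) (la_Glob G hu h)
  simp only [norm_smul, mul_pow, Real.norm_eq_abs, sq_abs] at h1
  have h2 := h.self_of_nhds
  linarith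

/-- the properties of the power of the potential -/
structure Hy_Glob (G : HeisenbergType m k H V) (R : ℝ) (Ω : Set (H × V)) (u : H × V → ℝ) :
    Prop where
  k0 : 0 < k
  R0 : 0 < R
  op : IsOpen Ω
  bd : Bornology.IsBounded Ω
  c1 : ContDiffOn ℝ 1 u (closure Ω)ᶜ
  c0 : ContinuousOn u Ωᶜ
  pos : ∀ x ∉ Ω, 0 < u x
  fr : ∀ x ∈ frontier Ω, u x = R ^ 2
  inf : Tendsto u (cocompact (H × V)) atTop
  ne : ∀ x ∈ U0 Ω, fderiv ℝ u x ≠ 0
  gau : ∀ x ∈ Ws G u (U0 Ω), Gau u x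

variable {G : HeisenbergType m k H V} {R : ℝ} {Ω : Set (H × V)} {u : H × V → ℝ}

theorem Hy_Glob.rank (h : Hy_Glob G R Ω u) : 1 < Module.rank ℝ H := by
  have h1 := m_pos G h.k0
  obtain ⟨j, hj⟩ := m_even G h.k0
  rw [← finrank_eq_rank, finrank_H G]
  exact_mod_cast (by omega : 1 < m)

theorem Hy_Glob.nt (h : Hy_Glob G R Ω u) : Nontrivial H :=
  (rank_pos_iff_nontrivial (R := ℝ)).1 (zero_lt_one.trans h.rank)

theorem Hy_Glob.dense (h : Hy_Glob G R Ω u) : Dense {x : H × V | x.1 ≠ 0} := by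
  have := h.nt
  exact (dense_compl_singleton (0 : H)).preimage isOpenMap_fst

theorem Hy_Glob.dif (h : Hy_Glob G R Ω u) {x : H × V} (hx : x ∈ (closure Ω)ᶜ) :
    DifferentiableAt ℝ u x :=
  (h.c1.contDiffAt (isClosed_closure.isOpen_compl.mem_nhds hx)).differentiableAt one_ne_zero

theorem Hy_Glob.cla (h : Hy_Glob G R Ω u) {x : H × V} (hx : x ∈ (closure Ω)ᶜ) :
    ContinuousAt (la G u) x :=
  (contDiffOn_la G (n := 0) isClosed_closure.isOpen_compl h.c1
    (by simp)).continuousOn.continuousAt (isClosed_closure.isOpen_compl.mem_nhds hx)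

theorem Hy_Glob.lim (h : Hy_Glob G R Ω u) {x : H × V} (hx : x ∈ (closure Ω)ᶜ) {s : Set (H × V)}
    (hs : x ∈ closure s) (h1 : ∀ y ∈ s, y ∈ (closure Ω)ᶜ ∧ Gau u y) :
    ‖la G u x‖ ^ 2 * u x ^ 2 - 16 * (u x ^ 2 - ‖x.1‖ ^ 4) = 0 := by
  have c1 := h.cla hx
  have c2 := (h.dif hx).continuousAt
  refine lim_Glob (F := fun x => ‖la G u x‖ ^ 2 * u x ^ 2 - 16 * (u x ^ 2 - ‖x.1‖ ^ 4))
    (ContinuousAt.continuousWithinAt (by fun_prop)) hs fun y hy =>
      la_sq_Glob G (h.dif (h1 y hy).1) (h1 y hy).2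

theorem Hy_Glob.noextr (h : Hy_Glob G R Ω u) {x : H × V} (hx : x ∈ (closure Ω)ᶜ) :
    ¬IsLocalExtr u x := fun he => by
  have h0 := he.fderiv_eq_zero
  by_cases hz : x.1 = 0
  · have h1 : la G u x = 0 := by simp [la, h0]
    have h2 : ∀ᶠ y in 𝓝 x, ‖la G u y‖ < 4 :=
      (h.cla hx).norm.eventually_lt_const (by simp [h1])
    have h3 : x ∈ closure (Ws G u (U0 Ω)) :=
      mem_closure_iff_frequently.2 (((mem_closure_iff_frequently.1 (h.dense x)).and_eventually
        (h2.and (isClosed_closure.isOpen_compl.mem_nhds hx))).mono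
          fun y hy => ⟨⟨hy.2.2, hy.1⟩, hy.2.1⟩)
    have h4 := h.lim hx h3 fun y hy => ⟨hy.1.1, h.gau y hy⟩
    have h5 := h.pos x fun hh => hx (subset_closure hh)
    rw [h1, hz, norm_zero, norm_zero] at h4
    nlinarith
  · exact h.ne x ⟨hx, hz⟩ h0

theorem Hy_Glob.start (h : Hy_Glob G R Ω u) : ∃ x ∈ U0 Ω, R ^ 2 < u x ∧ la G u x = 0 := by
  have := h.nt
  have h1 : ∀ᶠ x in cocompact (H × V), x ∈ (closure Ω)ᶜ ∧ R ^ 2 < u x :=
    Eventually.and h.bd.isCompact_closure.compl_mem_cocompact (h.inf.eventually_gt_atTop _)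
  rw [← Metric.cobounded_eq_cocompact,
    (Metric.hasBasis_cobounded_compl_closedBall (0 : H × V)).eventually_iff] at h1
  obtain ⟨r, -, hr⟩ := h1
  obtain ⟨z, hz⟩ := NormedSpace.exists_lt_norm ℝ H (max r 0)
  have h2 : ∀ σ : V, (z, σ) ∈ (closure Ω)ᶜ ∧ R ^ 2 < u (z, σ) := fun σ => hr (by
    rw [mem_compl_iff, mem_closedBall_zero_iff, not_le]
    exact ((le_max_left _ _).trans_lt hz).trans_le (norm_fst_le (z, σ)))
  have h3 : ∀ σ : V, HasFDerivAt (fun σ : V => u (z, σ))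
      ((fderiv ℝ u (z, σ)).comp (ContinuousLinearMap.inr ℝ H V)) σ := fun σ =>
    (h.dif (h2 σ).1).hasFDerivAt.comp σ (hasFDerivAt_prodMk_right z σ)
  have h4 : Tendsto (fun σ : V => ((z, σ) : H × V)) (cocompact V) (cocompact (H × V)) :=
    (Isometry.of_dist_eq fun a b => by simp [Prod.dist_eq]).isClosedEmbedding.tendsto_cocompact
  obtain ⟨σ, hσ⟩ := (continuous_iff_continuousAt.2 fun σ => (h3 σ).continuousAt).exists_forall_le
    (h.inf.comp h4)
  have h5 := IsLocalMin.hasFDerivAt_eq_zero (Eventually.of_forall hσ) (h3 σ)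
  refine ⟨(z, σ), ⟨(h2 σ).1, norm_pos_iff.1 ((le_max_right _ _).trans_lt hz)⟩, (h2 σ).2,
    ext_inner_right ℝ fun v => ?_⟩
  simpa [fderiv_eq G] using congrArg (fun L : V →L[ℝ] ℝ => L v) h5

theorem Hy_Glob.conn (h : Hy_Glob G R Ω u) (σ₀ : V) :
    IsPreconnected {x : H × V | x.1 ≠ 0 ∧ R ^ 4 < N_Glob σ₀ x} := by
  have R0 := h.R0
  have g4 : ∀ x : H × V, √(√(N_Glob 0 x)) ^ 4 = N_Glob 0 x := fun x => by
    rw [show 4 = 2 * 2 from rfl, pow_mul, Real.sq_sqrt (Real.sqrt_nonneg _),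
      Real.sq_sqrt (by unfold N_Glob; positivity)]
  have gp : ∀ x : H × V, x.1 ≠ 0 → 0 < √(√(N_Glob 0 x)) := fun x hx => by
    have := norm_pos_iff.2 hx
    unfold N_Glob
    positivity
  have hc : IsPreconnected ((({0}ᶜ : Set H) ×ˢ (univ : Set V)) ×ˢ Ioi (1 : ℝ)) :=
    ((isConnected_compl_singleton_of_one_lt_rank h.rank 0).isPreconnected.prod
      isPreconnected_univ).prod isPreconnected_Ioi
  have cg : Continuous fun y : (H × V) × ℝ => √(√(N_Glob 0 y.1)) :=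
    ((N_cont_Glob 0).comp continuous_fst).sqrt.sqrt
  have cl : ContinuousOn (fun y : (H × V) × ℝ => y.2 * R / √(√(N_Glob 0 y.1)))
      ((({0}ᶜ : Set H) ×ˢ (univ : Set V)) ×ˢ Ioi (1 : ℝ)) :=
    (continuous_snd.mul continuous_const).continuousOn.div cg.continuousOn
      fun y hy => (gp y.1 hy.1.1).ne'
  have := hc.image (fun y : (H × V) × ℝ => (((y.2 * R / √(√(N_Glob 0 y.1))) • y.1.1,
    σ₀ + (y.2 * R / √(√(N_Glob 0 y.1))) ^ 2 • y.1.2) : H × V))
    ((cl.smul continuous_fst.fst.continuousOn).prodMk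
      (continuousOn_const.add ((cl.pow 2).smul continuous_fst.snd.continuousOn)))
  refine (congrArg IsPreconnected (Subset.antisymm ?_ ?_)).mp this
  · rintro _ ⟨⟨x, t⟩, ⟨⟨hx, -⟩, ht⟩, rfl⟩
    have g0 := gp x hx
    have ht' : 1 < t := ht
    refine ⟨smul_ne_zero (by positivity) hx, ?_⟩
    rw [N_dil_Glob, div_pow, g4, div_mul_cancel₀ _ (by rw [← g4]; positivity), mul_pow]
    exact lt_mul_of_one_lt_left (by positivity) (one_lt_pow₀ ht' (by norm_num))
  · rintro x ⟨hx, hN⟩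
    have g0 := gp (x.1, x.2 - σ₀) hx
    refine ⟨((x.1, x.2 - σ₀), √(√(N_Glob 0 (x.1, x.2 - σ₀))) / R), ⟨⟨hx, mem_univ _⟩, ?_⟩, ?_⟩
    · rw [mem_Ioi, one_lt_div R0]
      refine lt_of_pow_lt_pow_left₀ 4 g0.le ?_
      rwa [g4, N_shift_Glob]
    · simp only [div_mul_cancel₀ _ R0.ne', div_self g0.ne']
      simp

theorem Hy_Glob.clos (h : Hy_Glob G R Ω u) (σ₀ : V) {x : H × V} (hx : R ^ 4 ≤ N_Glob σ₀ x) :
    x ∈ closure {x : H × V | x.1 ≠ 0 ∧ R ^ 4 < N_Glob σ₀ x} := by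
  have R0 := h.R0
  have h1 : {x : H × V | R ^ 4 < N_Glob σ₀ x} ⊆
      closure {x : H × V | x.1 ≠ 0 ∧ R ^ 4 < N_Glob σ₀ x} :=
    (h.dense.open_subset_closure_inter (isOpen_lt continuous_const (N_cont_Glob σ₀))).trans
      (closure_mono fun y hy => ⟨hy.2, hy.1⟩)
  refine closure_minimal h1 isClosed_closure ?_
  have c : Continuous fun t : ℝ => ((t • x.1, σ₀ + t ^ 2 • (x.2 - σ₀)) : H × V) := by fun_prop
  have h2 : Tendsto (fun t : ℝ => ((t • x.1, σ₀ + t ^ 2 • (x.2 - σ₀)) : H × V)) (𝓝[>] 1)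
      (𝓝 x) := by
    simpa using (c.tendsto 1).mono_left (nhdsWithin_le_nhds (s := Ioi 1))
  refine mem_closure_of_tendsto h2 (eventually_mem_nhdsWithin.mono fun t ht => ?_)
  have ht' : 1 < t ^ 4 := one_lt_pow₀ ht (by norm_num)
  show R ^ 4 < N_Glob σ₀ _
  rw [N_dil_Glob, N_shift_Glob]
  exact hx.trans_lt (lt_mul_of_one_lt_left (lt_of_lt_of_le (by positivity) hx) ht')

theorem Hy_Glob.outer (h : Hy_Glob G R Ω u) : ∃ σ₀ : V, ∀ x, R ^ 4 ≤ N_Glob σ₀ x →
    x ∈ closure (closure Ω)ᶜ ∧ u x ^ 2 = N_Glob σ₀ x := by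
  have R0 := h.R0
  obtain ⟨x₀, hx₀, hu₀, hl₀⟩ := h.start
  obtain ⟨σ₀, hσ₀⟩ := h.gau x₀ ⟨hx₀, by rw [hl₀]; norm_num⟩
  obtain ⟨O, hO⟩ : ∃ O, O = U0 Ω ∩ {x | ∀ᶠ y in 𝓝 x, u y ^ 2 = N_Glob σ₀ y} := ⟨_, rfl⟩
  have hO' : ∀ x, x ∈ O ↔ x ∈ U0 Ω ∧ ∀ᶠ y in 𝓝 x, u y ^ 2 = N_Glob σ₀ y := fun x => by
    rw [hO]; rfl
  have op : IsOpen O := hO ▸ (isClosed_closure.isOpen_compl.inter
    (isOpen_ne.preimage continuous_fst)).inter isOpen_setOfPred_eventually_nhds
  have sub : O ⊆ Ωᶜ := fun x hx hh => ((hO' x).1 hx).1.1 (subset_closure hh)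
  have cl : ∀ x ∈ closure O, x ∉ Ω ∧ u x ^ 2 = N_Glob σ₀ x := fun x hx => by
    have h1 : x ∈ Ωᶜ := closure_minimal sub h.op.isClosed_compl hx
    exact ⟨h1, sub_eq_zero.1 (lim_Glob (F := fun x => u x ^ 2 - N_Glob σ₀ x)
      ((((h.c0 x h1).mono sub).pow 2).sub (N_cont_Glob σ₀).continuousWithinAt) hx
        fun y hy => sub_eq_zero.2 ((hO' y).1 hy).2.self_of_nhds)⟩
  have key := (h.conn σ₀).subset_of_closure_inter_subset op
    ⟨x₀, ⟨hx₀.2, by
      have : u x₀ ^ 2 = N_Glob σ₀ x₀ := hσ₀.self_of_nhds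
      nlinarith [sq_nonneg R]⟩, (hO' x₀).2 ⟨hx₀, hσ₀⟩⟩ fun x ⟨hx, hz, hN⟩ => by
      obtain ⟨h1, h2⟩ := cl x hx
      have h3 : x ∈ (closure Ω)ᶜ := fun hh => by
        have := h.fr x (h.op.frontier_eq ▸ ⟨hh, h1⟩)
        rw [← h2, this] at hN
        linarith
      have h4 := h.lim h3 hx fun y hy => ⟨((hO' y).1 hy).1.1, σ₀, ((hO' y).1 hy).2⟩
      have h5 := h.pos x h1
      have h6 : 0 < ‖x.1‖ ^ 4 := pow_pos (norm_pos_iff.2 hz) 4
      have h7 : ‖la G u x‖ < 4 := by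
        refine lt_of_pow_lt_pow_left₀ 2 (by norm_num) (lt_of_mul_lt_mul_right ?_ (sq_nonneg (u x)))
        linarith
      obtain ⟨σ₁, hσ₁⟩ := h.gau x ⟨⟨h3, hz⟩, h7⟩
      obtain ⟨y, hy, hy'⟩ :=
        ((mem_closure_iff_frequently.1 hx).and_eventually hσ₁.eventually_nhds).exists
      have hy2 := (hO' y).1 hy
      have h8 := (la_Glob G (h.dif hy2.1.1) hy2.2).symm.trans (la_Glob G (h.dif hy2.1.1) hy')
      have h9 : σ₀ = σ₁ := sub_right_injective (smul_right_injective V (by norm_num) h8)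
      exact (hO' x).2 ⟨⟨h3, hz⟩, h9 ▸ hσ₁⟩
  refine ⟨σ₀, fun x hx => ?_⟩
  have h1 := closure_mono key (h.clos σ₀ hx)
  exact ⟨closure_mono (fun y hy => ((hO' y).1 hy).1.1) h1, (cl x h1).2⟩

theorem Hy_Glob.ball (h : Hy_Glob G R Ω u) : ∃ σ₀ : V, interior (closure Ω) = gaugeBall R σ₀ := by
  have R0 := h.R0
  obtain ⟨σ₀, hσ₀⟩ := h.outer
  have ob : IsOpen (gaugeBall R σ₀ : Set (H × V)) := isOpen_lt (N_cont_Glob σ₀) continuous_const
  refine ⟨σ₀, Subset.antisymm (fun x hx => ?_) (interior_maximal (fun x hx => ?_) ob)⟩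
  · by_contra hh
    have := (hσ₀ x (not_lt.1 hh)).1
    rw [closure_compl] at this
    exact this hx
  · by_contra hh
    obtain ⟨D, hD⟩ : ∃ D, D = gaugeBall R σ₀ ∩ (closure Ω)ᶜ := ⟨_, rfl⟩
    have xD : x ∈ D := hD ▸ ⟨hx, hh⟩
    have oD : IsOpen D := hD ▸ ob.inter isClosed_closure.isOpen_compl
    have bD : Bornology.IsBounded D := by
      refine ((Metric.isBounded_closedBall (x := (0 : H)) (r := R)).prod
        (Metric.isBounded_closedBall (x := σ₀) (r := R ^ 2))).subset fun y hy => ?_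
      rw [hD] at hy
      have h1 : ‖y.1‖ ^ 4 + 16 * ‖y.2 - σ₀‖ ^ 2 < R ^ 4 := hy.1
      have h2 : 0 ≤ ‖y.1‖ ^ 4 := by positivity
      have h3 : 0 ≤ ‖y.2 - σ₀‖ ^ 2 := by positivity
      refine ⟨mem_closedBall_zero_iff.2 (le_of_pow_le_pow_left₀ (n := 4) (by norm_num) R0.le
        (by linarith)), mem_closedBall_iff_norm.2 (le_of_pow_le_pow_left₀ (n := 2) (by norm_num)
          (by positivity) (by linarith))⟩
    have kD := bD.isCompact_closure
    have sD : closure D ⊆ Ωᶜ :=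
      closure_minimal (fun y hy hh => (hD ▸ hy).2 (subset_closure hh)) h.op.isClosed_compl
    have fD : ∀ y ∈ closure D, y ∉ D → u y = R ^ 2 := fun y hy hy' => by
      by_cases h1 : y ∈ closure Ω
      · exact h.fr y (h.op.frontier_eq ▸ ⟨h1, sD hy⟩)
      · have h2 : R ^ 4 ≤ N_Glob σ₀ y := not_lt.1 fun hh => hy' (hD ▸ ⟨hh, h1⟩)
        have h3 : N_Glob σ₀ y ≤ R ^ 4 :=
          closure_minimal (s := D) (t := {y | N_Glob σ₀ y ≤ R ^ 4})
            (fun y hy => le_of_lt (show N_Glob σ₀ y < R ^ 4 from (hD ▸ hy).1)) (isClosed_le (N_cont_Glob σ₀) continuous_const) hy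
        refine (pow_left_inj₀ (h.pos y (sD hy)).le (by positivity) two_ne_zero).1 ?_
        rw [(hσ₀ y h2).2, le_antisymm h3 h2]
        ring
    have nD : ∀ y ∈ D, closure D ∈ 𝓝 y := fun y hy =>
      mem_of_superset (oD.mem_nhds hy) subset_closure
    have eD : ∀ y ∈ closure D, IsExtrOn u (closure D) y → u y = R ^ 2 := fun y hy he => by
      by_cases h1 : y ∈ D
      · exact (h.noextr (hD ▸ h1).2 (he.isLocalExtr (nD y h1))).elim
      · exact fD y hy h1
    obtain ⟨a, ha, ha'⟩ := kD.exists_isMaxOn ⟨x, subset_closure xD⟩ (h.c0.mono sD)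
    obtain ⟨b, hb, hb'⟩ := kD.exists_isMinOn ⟨x, subset_closure xD⟩ (h.c0.mono sD)
    refine h.noextr hh (IsMaxOn.isLocalMax (fun y hy => ?_) (nD x xD)).isExtr
    have h1 : u y ≤ u a := ha' hy
    have h2 : u b ≤ u x := hb' (subset_closure xD)
    rw [eD a ha ha'.isExtr] at h1
    rw [eD b hb hb'.isExtr] at h2
    exact h1.trans h2

theorem glob_st (G : HeisenbergType m k H V) : GlobSt G := by
  intro p R Ω f hk hp hQ hR op _ bd ⟨⟨c1, _⟩, c0, pos, fr, inf⟩ ne gau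
  have ha : -(2 * (p - 1) / (homDim m k - p)) < 0 :=
    neg_neg_of_pos (div_pos (by linarith) (by linarith))
  refine Hy_Glob.ball (G := G) (u := uf m k p R f) ⟨hk, hR, op, bd,
    contDiffOn_const.mul (c1.rpow_const_of_ne fun x hx =>
      (pos x fun hh => hx (subset_closure hh)).ne'),
    continuousOn_const.mul (c0.rpow_const fun x hx => Or.inl (pos x hx).ne'),
    fun x hx => mul_pos (by positivity) (Real.rpow_pos_of_pos (pos x hx) _),
    fun x hx => by rw [uf, fr x hx, Real.one_rpow, mul_one], ?_, ne, gau⟩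
  refine Tendsto.const_mul_atTop (by positivity) ((tendsto_rpow_neg_nhdsGT_zero ha).comp
    (tendsto_nhdsWithin_iff.2 ⟨inf, ?_⟩))
  exact mem_of_superset bd.isCompact_closure.compl_mem_cocompact fun x hx =>
    pos x fun hh => hx (subset_closure hh)

end Pool.Agent.MP_1048c2_an.Cl

end

section
/-! From the local classification to the domain, without regularity on the centre. -/

set_option linter.unusedSectionVars false

namespace Pool.Agent.MP_1048c2_an.Cl

open Filter Topology Set Module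
open scoped InnerProductSpace

variable {m k : ℕ} {H V : Type} [NormedAddCommGroup H] [InnerProductSpace ℝ H]
  [NormedAddCommGroup V] [InnerProductSpace ℝ V] [FiniteDimensional ℝ H] [FiniteDimensional ℝ V]
  [MeasurableSpace H] [BorelSpace H] [MeasurableSpace V] [BorelSpace V]

/-- the properties of the power of the potential -/
structure Hy2 (G : HeisenbergType m k H V) (R : ℝ) (Ω : Set (H × V)) (u : H × V → ℝ) :
    Prop where
  k0 : 0 < k
  R0 : 0 < R
  op : IsOpen Ω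
  bd : Bornology.IsBounded Ω
  c1 : ContDiffOn ℝ 1 u (U0 Ω)
  c0 : ContinuousOn u Ωᶜ
  pos : ∀ x ∉ Ω, 0 < u x
  fr : ∀ x ∈ frontier Ω, u x = R ^ 2
  inf : Tendsto u (cocompact (H × V)) atTop
  ne : ∀ x ∈ U0 Ω, fderiv ℝ u x ≠ 0
  gau : ∀ x ∈ Ws G u (U0 Ω), Gau u x

variable {G : HeisenbergType m k H V} {R : ℝ} {Ω : Set (H × V)} {u : H × V → ℝ}

theorem Hy2.rank (h : Hy2 G R Ω u) : 1 < Module.rank ℝ H := by
  have h1 := m_pos G h.k0
  obtain ⟨j, hj⟩ := m_even G h.k0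
  rw [← finrank_eq_rank, finrank_H G]
  exact_mod_cast (by omega : 1 < m)

theorem Hy2.nt (h : Hy2 G R Ω u) : Nontrivial H :=
  (rank_pos_iff_nontrivial (R := ℝ)).1 (zero_lt_one.trans h.rank)

theorem Hy2.dense (h : Hy2 G R Ω u) : Dense {x : H × V | x.1 ≠ 0} := by
  have := h.nt
  exact (dense_compl_singleton (0 : H)).preimage isOpenMap_fst

theorem Hy2.dif (h : Hy2 G R Ω u) {x : H × V} (hx : x ∈ U0 Ω) : DifferentiableAt ℝ u x :=
  (h.c1.contDiffAt ((U0_open Ω).mem_nhds hx)).differentiableAt one_ne_zero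

theorem Hy2.cla (h : Hy2 G R Ω u) {x : H × V} (hx : x ∈ U0 Ω) : ContinuousAt (la G u) x :=
  (contDiffOn_la G (n := 0) (U0_open Ω) h.c1
    (by simp)).continuousOn.continuousAt ((U0_open Ω).mem_nhds hx)

theorem Hy2.lim (h : Hy2 G R Ω u) {x : H × V} (hx : x ∈ U0 Ω) {s : Set (H × V)}
    (hs : x ∈ closure s) (h1 : ∀ y ∈ s, y ∈ U0 Ω ∧ Gau u y) :
    ‖la G u x‖ ^ 2 * u x ^ 2 - 16 * (u x ^ 2 - ‖x.1‖ ^ 4) = 0 := by
  have c1 := h.cla hx
  have c2 := (h.dif hx).continuousAt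
  refine lim_Glob (F := fun x => ‖la G u x‖ ^ 2 * u x ^ 2 - 16 * (u x ^ 2 - ‖x.1‖ ^ 4))
    (ContinuousAt.continuousWithinAt (by fun_prop)) hs fun y hy =>
      la_sq_Glob G (h.dif (h1 y hy).1) (h1 y hy).2

theorem Hy2.la0 (h : Hy2 G R Ω u) {z : H} {σ : V} (hx : (z, σ) ∈ U0 Ω)
    (he : IsLocalExtr (fun σ : V => u (z, σ)) σ) : la G u (z, σ) = 0 := by
  have h5 := he.hasFDerivAt_eq_zero
    ((h.dif hx).hasFDerivAt.comp σ (hasFDerivAt_prodMk_right z σ))
  refine ext_inner_right ℝ fun v => ?_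
  simpa [fderiv_eq G] using congrArg (fun L : V →L[ℝ] ℝ => L v) h5

theorem Hy2.slice (h : Hy2 G R Ω u) {z : H} {σ : V} (hx : (z, σ) ∈ U0 Ω)
    (he : IsLocalExtr (fun σ : V => u (z, σ)) σ) :
    ∀ᶠ τ in 𝓝 σ, u (z, τ) ^ 2 = ‖z‖ ^ 4 + 16 * ‖τ - σ‖ ^ 2 := by
  have h1 := h.la0 hx he
  obtain ⟨σ₀, h2⟩ := h.gau _ ⟨hx, by rw [h1]; norm_num⟩
  have h3 := la_Glob G (h.dif hx) h2
  rw [h1, smul_zero, eq_comm, smul_eq_zero, sub_eq_zero] at h3
  obtain rfl : σ = σ₀ := h3.resolve_left (by norm_num)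
  exact (Continuous.prodMk_right z).continuousAt.eventually h2

theorem Hy2.start (h : Hy2 G R Ω u) : ∃ x ∈ U0 Ω, R ^ 2 < u x ∧ la G u x = 0 := by
  have := h.nt
  have h1 : ∀ᶠ x in cocompact (H × V), x ∈ (closure Ω)ᶜ ∧ R ^ 2 < u x :=
    Eventually.and h.bd.isCompact_closure.compl_mem_cocompact (h.inf.eventually_gt_atTop _)
  rw [← Metric.cobounded_eq_cocompact,
    (Metric.hasBasis_cobounded_compl_closedBall (0 : H × V)).eventually_iff] at h1
  obtain ⟨r, -, hr⟩ := h1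
  obtain ⟨z, hz⟩ := NormedSpace.exists_lt_norm ℝ H (max r 0)
  have h2 : ∀ σ : V, (z, σ) ∈ (closure Ω)ᶜ ∧ R ^ 2 < u (z, σ) := fun σ => hr (by
    rw [mem_compl_iff, mem_closedBall_zero_iff, not_le]
    exact ((le_max_left _ _).trans_lt hz).trans_le (norm_fst_le (z, σ)))
  have hz' : z ≠ 0 := norm_pos_iff.1 ((le_max_right _ _).trans_lt hz)
  have h3 : ∀ σ : V, ContinuousAt (fun σ : V => u (z, σ)) σ := fun σ =>
    (h.dif ⟨(h2 σ).1, hz'⟩).continuousAt.comp (Continuous.prodMk_right z).continuousAt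
  have h4 : Tendsto (fun σ : V => ((z, σ) : H × V)) (cocompact V) (cocompact (H × V)) :=
    (Isometry.of_dist_eq fun a b => by simp [Prod.dist_eq]).isClosedEmbedding.tendsto_cocompact
  obtain ⟨σ, hσ⟩ := (continuous_iff_continuousAt.2 h3).exists_forall_le
    (h.inf.comp h4)
  exact ⟨(z, σ), ⟨(h2 σ).1, hz'⟩, (h2 σ).2,
    h.la0 ⟨(h2 σ).1, hz'⟩ (Or.inl (Eventually.of_forall hσ))⟩

theorem Hy2.conn (h : Hy2 G R Ω u) (σ₀ : V) :
    IsPreconnected {x : H × V | x.1 ≠ 0 ∧ R ^ 4 < N_Glob σ₀ x} := by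
  have R0 := h.R0
  have g4 : ∀ x : H × V, √(√(N_Glob 0 x)) ^ 4 = N_Glob 0 x := fun x => by
    rw [show 4 = 2 * 2 from rfl, pow_mul, Real.sq_sqrt (Real.sqrt_nonneg _),
      Real.sq_sqrt (by unfold N_Glob; positivity)]
  have gp : ∀ x : H × V, x.1 ≠ 0 → 0 < √(√(N_Glob 0 x)) := fun x hx => by
    have := norm_pos_iff.2 hx
    unfold N_Glob
    positivity
  have hc : IsPreconnected ((({0}ᶜ : Set H) ×ˢ (univ : Set V)) ×ˢ Ioi (1 : ℝ)) :=
    ((isConnected_compl_singleton_of_one_lt_rank h.rank 0).isPreconnected.prod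
      isPreconnected_univ).prod isPreconnected_Ioi
  have cg : Continuous fun y : (H × V) × ℝ => √(√(N_Glob 0 y.1)) :=
    ((N_cont_Glob 0).comp continuous_fst).sqrt.sqrt
  have cl : ContinuousOn (fun y : (H × V) × ℝ => y.2 * R / √(√(N_Glob 0 y.1)))
      ((({0}ᶜ : Set H) ×ˢ (univ : Set V)) ×ˢ Ioi (1 : ℝ)) :=
    (continuous_snd.mul continuous_const).continuousOn.div cg.continuousOn
      fun y hy => (gp y.1 hy.1.1).ne'
  have := hc.image (fun y : (H × V) × ℝ => (((y.2 * R / √(√(N_Glob 0 y.1))) • y.1.1,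
    σ₀ + (y.2 * R / √(√(N_Glob 0 y.1))) ^ 2 • y.1.2) : H × V))
    ((cl.smul continuous_fst.fst.continuousOn).prodMk
      (continuousOn_const.add ((cl.pow 2).smul continuous_fst.snd.continuousOn)))
  refine (congrArg IsPreconnected (Subset.antisymm ?_ ?_)).mp this
  · rintro _ ⟨⟨x, t⟩, ⟨⟨hx, -⟩, ht⟩, rfl⟩
    have g0 := gp x hx
    have ht' : 1 < t := ht
    refine ⟨smul_ne_zero (by positivity) hx, ?_⟩
    rw [N_dil_Glob, div_pow, g4, div_mul_cancel₀ _ (by rw [← g4]; positivity), mul_pow]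
    exact lt_mul_of_one_lt_left (by positivity) (one_lt_pow₀ ht' (by norm_num))
  · rintro x ⟨hx, hN⟩
    have g0 := gp (x.1, x.2 - σ₀) hx
    refine ⟨((x.1, x.2 - σ₀), √(√(N_Glob 0 (x.1, x.2 - σ₀))) / R), ⟨⟨hx, mem_univ _⟩, ?_⟩, ?_⟩
    · rw [mem_Ioi, one_lt_div R0]
      refine lt_of_pow_lt_pow_left₀ 4 g0.le ?_
      rwa [g4, N_shift_Glob]
    · simp only [div_mul_cancel₀ _ R0.ne', div_self g0.ne']
      simp

theorem Hy2.clos (h : Hy2 G R Ω u) (σ₀ : V) {x : H × V} (hx : R ^ 4 ≤ N_Glob σ₀ x) :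
    x ∈ closure {x : H × V | x.1 ≠ 0 ∧ R ^ 4 < N_Glob σ₀ x} := by
  have R0 := h.R0
  have h1 : {x : H × V | R ^ 4 < N_Glob σ₀ x} ⊆
      closure {x : H × V | x.1 ≠ 0 ∧ R ^ 4 < N_Glob σ₀ x} :=
    (h.dense.open_subset_closure_inter (isOpen_lt continuous_const (N_cont_Glob σ₀))).trans
      (closure_mono fun y hy => ⟨hy.2, hy.1⟩)
  refine closure_minimal h1 isClosed_closure ?_
  have c : Continuous fun t : ℝ => ((t • x.1, σ₀ + t ^ 2 • (x.2 - σ₀)) : H × V) := by fun_prop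
  have h2 : Tendsto (fun t : ℝ => ((t • x.1, σ₀ + t ^ 2 • (x.2 - σ₀)) : H × V)) (𝓝[>] 1)
      (𝓝 x) := by
    simpa using (c.tendsto 1).mono_left (nhdsWithin_le_nhds (s := Ioi 1))
  refine mem_closure_of_tendsto h2 (eventually_mem_nhdsWithin.mono fun t ht => ?_)
  have ht' : 1 < t ^ 4 := one_lt_pow₀ ht (by norm_num)
  show R ^ 4 < N_Glob σ₀ _
  rw [N_dil_Glob, N_shift_Glob]
  exact hx.trans_lt (lt_mul_of_one_lt_left (lt_of_lt_of_le (by positivity) hx) ht')

theorem Hy2.outer (h : Hy2 G R Ω u) : ∃ σ₀ : V, ∀ x, R ^ 4 ≤ N_Glob σ₀ x →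
    x ∈ closure (closure Ω)ᶜ ∧ u x ^ 2 = N_Glob σ₀ x := by
  have R0 := h.R0
  obtain ⟨x₀, hx₀, hu₀, hl₀⟩ := h.start
  obtain ⟨σ₀, hσ₀⟩ := h.gau x₀ ⟨hx₀, by rw [hl₀]; norm_num⟩
  obtain ⟨O, hO⟩ : ∃ O, O = U0 Ω ∩ {x | ∀ᶠ y in 𝓝 x, u y ^ 2 = N_Glob σ₀ y} := ⟨_, rfl⟩
  have hO' : ∀ x, x ∈ O ↔ x ∈ U0 Ω ∧ ∀ᶠ y in 𝓝 x, u y ^ 2 = N_Glob σ₀ y := fun x => by
    rw [hO]; rfl
  have op : IsOpen O := hO ▸ (isClosed_closure.isOpen_compl.inter
    (isOpen_ne.preimage continuous_fst)).inter isOpen_setOfPred_eventually_nhds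
  have sub : O ⊆ Ωᶜ := fun x hx hh => ((hO' x).1 hx).1.1 (subset_closure hh)
  have cl : ∀ x ∈ closure O, x ∉ Ω ∧ u x ^ 2 = N_Glob σ₀ x := fun x hx => by
    have h1 : x ∈ Ωᶜ := closure_minimal sub h.op.isClosed_compl hx
    exact ⟨h1, sub_eq_zero.1 (lim_Glob (F := fun x => u x ^ 2 - N_Glob σ₀ x)
      ((((h.c0 x h1).mono sub).pow 2).sub (N_cont_Glob σ₀).continuousWithinAt) hx
        fun y hy => sub_eq_zero.2 ((hO' y).1 hy).2.self_of_nhds)⟩
  have key := (h.conn σ₀).subset_of_closure_inter_subset op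
    ⟨x₀, ⟨hx₀.2, by
      have : u x₀ ^ 2 = N_Glob σ₀ x₀ := hσ₀.self_of_nhds
      nlinarith [sq_nonneg R]⟩, (hO' x₀).2 ⟨hx₀, hσ₀⟩⟩ fun x ⟨hx, hz, hN⟩ => by
      obtain ⟨h1, h2⟩ := cl x hx
      have h3 : x ∈ (closure Ω)ᶜ := fun hh => by
        have := h.fr x (h.op.frontier_eq ▸ ⟨hh, h1⟩)
        rw [← h2, this] at hN
        linarith
      have h4 := h.lim ⟨h3, hz⟩ hx fun y hy => ⟨((hO' y).1 hy).1, σ₀, ((hO' y).1 hy).2⟩
      have h5 := h.pos x h1
      have h6 : 0 < ‖x.1‖ ^ 4 := pow_pos (norm_pos_iff.2 hz) 4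
      have h7 : ‖la G u x‖ < 4 := by
        refine lt_of_pow_lt_pow_left₀ 2 (by norm_num) (lt_of_mul_lt_mul_right ?_ (sq_nonneg (u x)))
        linarith
      obtain ⟨σ₁, hσ₁⟩ := h.gau x ⟨⟨h3, hz⟩, h7⟩
      obtain ⟨y, hy, hy'⟩ :=
        ((mem_closure_iff_frequently.1 hx).and_eventually hσ₁.eventually_nhds).exists
      have hy2 := (hO' y).1 hy
      have h8 := (la_Glob G (h.dif hy2.1) hy2.2).symm.trans (la_Glob G (h.dif hy2.1) hy')
      have h9 : σ₀ = σ₁ := sub_right_injective (smul_right_injective V (by norm_num) h8)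
      exact (hO' x).2 ⟨⟨h3, hz⟩, h9 ▸ hσ₁⟩
  refine ⟨σ₀, fun x hx => ?_⟩
  have h1 := closure_mono key (h.clos σ₀ hx)
  exact ⟨closure_mono (fun y hy => ((hO' y).1 hy).1.1) h1, (cl x h1).2⟩

theorem Hy2.ball (h : Hy2 G R Ω u) : ∃ σ₀ : V, interior (closure Ω) = gaugeBall R σ₀ := by
  have R0 := h.R0
  obtain ⟨σ₀, hσ₀⟩ := h.outer
  have ob : IsOpen (gaugeBall R σ₀ : Set (H × V)) := isOpen_lt (N_cont_Glob σ₀) continuous_const
  refine ⟨σ₀, Subset.antisymm (fun x hx => ?_) (interior_maximal (fun x hx => ?_) ob)⟩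
  · by_contra hh
    have := (hσ₀ x (not_lt.1 hh)).1
    rw [closure_compl] at this
    exact this hx
  · by_contra hh
    obtain ⟨D, hD⟩ : ∃ D, D = gaugeBall R σ₀ ∩ (closure Ω)ᶜ := ⟨_, rfl⟩
    have xD : x ∈ D := hD ▸ ⟨hx, hh⟩
    have oD : IsOpen D := hD ▸ ob.inter isClosed_closure.isOpen_compl
    have bD : Bornology.IsBounded D := by
      refine ((Metric.isBounded_closedBall (x := (0 : H)) (r := R)).prod
        (Metric.isBounded_closedBall (x := σ₀) (r := R ^ 2))).subset fun y hy => ?_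
      rw [hD] at hy
      have h1 : ‖y.1‖ ^ 4 + 16 * ‖y.2 - σ₀‖ ^ 2 < R ^ 4 := hy.1
      have h2 : 0 ≤ ‖y.1‖ ^ 4 := by positivity
      have h3 : 0 ≤ ‖y.2 - σ₀‖ ^ 2 := by positivity
      refine ⟨mem_closedBall_zero_iff.2 (le_of_pow_le_pow_left₀ (n := 4) (by norm_num) R0.le
        (by linarith)), mem_closedBall_iff_norm.2 (le_of_pow_le_pow_left₀ (n := 2) (by norm_num)
          (by positivity) (by linarith))⟩
    have kD := bD.isCompact_closure
    have sD : closure D ⊆ Ωᶜ :=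
      closure_minimal (fun y hy hh => (hD ▸ hy).2 (subset_closure hh)) h.op.isClosed_compl
    have fD : ∀ y ∈ closure D, y ∉ D → u y = R ^ 2 := fun y hy hy' => by
      by_cases h1 : y ∈ closure Ω
      · exact h.fr y (h.op.frontier_eq ▸ ⟨h1, sD hy⟩)
      · have h2 : R ^ 4 ≤ N_Glob σ₀ y := not_lt.1 fun hh => hy' (hD ▸ ⟨hh, h1⟩)
        have h3 : N_Glob σ₀ y ≤ R ^ 4 :=
          closure_minimal (s := D) (t := {y | N_Glob σ₀ y ≤ R ^ 4})
            (fun y hy => le_of_lt (show N_Glob σ₀ y < R ^ 4 from (hD ▸ hy).1)) (isClosed_le (N_cont_Glob σ₀) continuous_const) hy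
        refine (pow_left_inj₀ (h.pos y (sD hy)).le (by positivity) two_ne_zero).1 ?_
        rw [(hσ₀ y h2).2, le_antisymm h3 h2]
        ring
    have nD : ∀ y ∈ D, closure D ∈ 𝓝 y := fun y hy =>
      mem_of_superset (oD.mem_nhds hy) subset_closure
    have dD : ∀ y ∈ D, y ∈ (closure Ω)ᶜ := fun y hy => (hD ▸ hy).2
    have iD : ∀ y ∈ closure D, u y ≠ R ^ 2 → y ∈ D := fun y hy h1 =>
      by_contra fun h2 => h1 (fD y hy h2)
    have kT : ∀ z : H, IsCompact {τ : V | (z, τ) ∈ closure D} := fun z =>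
      (Isometry.of_dist_eq (f := fun τ : V => ((z, τ) : H × V)) fun a b => by
        simp [Prod.dist_eq]).isClosedEmbedding.isCompact_preimage kD
    have cT : ∀ z : H, ContinuousOn (fun τ : V => u (z, τ)) {τ : V | (z, τ) ∈ closure D} :=
      fun z => (h.c0.mono sD).comp (Continuous.prodMk_right z).continuousOn fun _ hτ => hτ
    have nT : ∀ z τ, (z, τ) ∈ D → {τ : V | (z, τ) ∈ closure D} ∈ 𝓝 τ := fun z τ hτ =>
      (Continuous.prodMk_right z).continuousAt.preimage_mem_nhds (nD _ hτ)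
    have up : ∀ y ∈ D, y.1 ≠ 0 → u y ≤ R ^ 2 := fun y hy hz => by
      by_contra h1
      obtain ⟨τ, h2, h3⟩ := (kT y.1).exists_isMaxOn ⟨y.2, subset_closure hy⟩ (cT y.1)
      have h4 : u y ≤ u (y.1, τ) := h3 (subset_closure hy)
      have h5 := iD _ h2 (by linarith)
      have h6 := h3.isLocalMax (nT _ _ h5)
      have h7 := h.slice ⟨dD _ h5, hz⟩ h6.isExtr
      have h8 := h7.self_of_nhds
      have : Nontrivial V := finrank_pos_iff.1 ((finrank_V G).symm ▸ h.k0)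
      obtain ⟨τ', ⟨h9, h10, h11⟩, h12⟩ := (((h7.and (h6.and (nT _ _ h5))).filter_mono
        (nhdsWithin_le_nhds (s := {τ}ᶜ))).and self_mem_nhdsWithin).exists
      have h13 := pow_le_pow_left₀ (h.pos _ (sD h11)).le h10 2
      have h14 := pow_pos (norm_pos_iff.2 (sub_ne_zero.2 h12)) 2
      rw [sub_self, norm_zero] at h8
      linarith
    obtain ⟨b, hb, hb'⟩ := kD.exists_isMinOn ⟨x, subset_closure xD⟩ (h.c0.mono sD)
    have lo : R ^ 2 ≤ u b := by
      by_contra h1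
      rw [not_le] at h1
      have h2 := iD b hb h1.ne
      by_cases hz : b.1 = 0
      · have h3 := h.pos b (sD hb)
        have h4 : ContinuousAt u b := (h.c0.mono sD).continuousAt (nD b h2)
        have h5 : ∀ᶠ y in 𝓝 b, ‖y.1‖ ^ 4 < u b ^ 2 :=
          (continuous_fst.norm.pow 4).continuousAt.eventually_lt_const (by simp [hz, pow_pos h3])
        obtain ⟨y, hy, h6, h7, h8⟩ := ((mem_closure_iff_frequently.1 (h.dense b)).and_eventually
          (h5.and ((h4.eventually_lt_const h1).and (oD.mem_nhds h2)))).exists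
        obtain ⟨τ, h9, h10⟩ := (kT y.1).exists_isMinOn ⟨y.2, subset_closure h8⟩ (cT y.1)
        have h11 : u (y.1, τ) ≤ u y := h10 (subset_closure h8)
        have h12 := iD _ h9 (by linarith)
        have h13 := (h.slice ⟨dD _ h12, hy⟩ (h10.isLocalMin (nT _ _ h12)).isExtr).self_of_nhds
        have h14 := pow_le_pow_left₀ h3.le (hb' h9 : u b ≤ u (y.1, τ)) 2
        rw [sub_self, norm_zero] at h13
        linarith
      · exact h.ne b ⟨dD b h2, hz⟩ (hb'.isLocalMin (nD b h2)).fderiv_eq_zero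
    obtain ⟨y, hy, hz⟩ := h.dense.inter_open_nonempty D oD ⟨x, xD⟩
    refine h.ne y ⟨dD y hy, hz⟩ (IsMinOn.isLocalMin (fun w hw => ?_) (nD y hy)).fderiv_eq_zero
    exact (up y hy hz).trans (lo.trans (hb' hw))

theorem glob2_st (G : HeisenbergType m k H V) : Glob2St G := by
  intro p R Ω f hk hp hQ hR op bd c1 c0 pos fr inf ne gau
  have ha : -(2 * (p - 1) / (homDim m k - p)) < 0 :=
    neg_neg_of_pos (div_pos (by linarith) (by linarith))
  refine Hy2.ball (G := G) (u := uf m k p R f) ⟨hk, hR, op, bd,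
    contDiffOn_const.mul (c1.rpow_const_of_ne fun x hx =>
      (pos x fun hh => hx.1 (subset_closure hh)).ne'),
    continuousOn_const.mul (c0.rpow_const fun x hx => Or.inl (pos x hx).ne'),
    fun x hx => mul_pos (by positivity) (Real.rpow_pos_of_pos (pos x hx) _),
    fun x hx => by rw [uf, fr x hx, Real.one_rpow, mul_one], ?_, ne, gau⟩
  refine Tendsto.const_mul_atTop (by positivity) ((tendsto_rpow_neg_nhdsGT_zero ha).comp
    (tendsto_nhdsWithin_iff.2 ⟨inf, ?_⟩))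
  exact mem_of_superset bd.isCompact_closure.compl_mem_cocompact fun x hx =>
    pos x fun hh => hx (subset_closure hh)

end Pool.Agent.MP_1048c2_an.Cl

end

section
/-!
From the weak equation against smooth test functions to the overdetermined system.
-/

set_option linter.unusedSectionVars false

namespace Pool.Agent.MP_1048c2_an.Cl

open Filter Topology Set Module MeasureTheory
open scoped InnerProductSpace ContDiff

section div

variable {E : Type} [NormedAddCommGroup E] [NormedSpace ℝ E] [FiniteDimensional ℝ E]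
  [MeasurableSpace E] [BorelSpace E] {μ : Measure E} [μ.IsAddHaarMeasure]

/-- a field of class one that is weakly free of divergence is free of divergence -/
theorem div_Weak2 {U : Set E} (hU : IsOpen U) {Z : E → E} (hZ : ContDiffOn ℝ 1 Z U)
    (h : ∀ φ : E → ℝ, ContDiff ℝ ∞ φ → HasCompactSupport φ → tsupport φ ⊆ U →
      ∫ x, fderiv ℝ φ x (Z x) ∂μ = 0) :
    ∀ x ∈ U, LinearMap.trace ℝ E (fderiv ℝ Z x) = 0 := by
  classical
  let b := Module.finBasis ℝ E
  let L : Fin (finrank ℝ E) → E →L[ℝ] ℝ := fun i => LinearMap.toContinuousLinearMap (b.coord i)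
  have hL : ∀ i, ContDiffOn ℝ 1 (fun y => L i (Z y)) U := fun i =>
    (L i).contDiff.comp_contDiffOn hZ
  let T : E → ℝ := fun x => ∑ i, fderiv ℝ (fun y => L i (Z y)) x (b i)
  have hT : ContinuousOn T U := continuousOn_finsetSum _ fun i _ =>
    ((hL i).continuousOn_fderiv_of_isOpen hU le_rfl).clm_apply continuousOn_const
  have h1 : ∀ᵐ x ∂μ, x ∈ U → T x = 0 := by
    refine hU.ae_eq_zero_of_integral_contDiff_smul_eq_zero
      (hT.locallyIntegrableOn hU.measurableSet) fun g hg hc hs => ?_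
    have hg1 : ContDiff ℝ 1 g := hg.of_le (by exact_mod_cast le_top)
    have h2 := fun i => parts_Weak (μ := μ) hg1 hc
      (fun x hx => (hL i).contDiffAt (hU.mem_nhds (hs hx))) (b i)
    have h3 : ∀ x, fderiv ℝ g x (Z x) = ∑ i, L i (Z x) * fderiv ℝ g x (b i) := by
      intro x
      conv_lhs => rw [← b.sum_repr (Z x)]
      simp only [map_sum, map_smul, smul_eq_mul]
      rfl
    have h4 := h g hg hc hs
    simp only [h3] at h4
    rw [integral_finsetSum _ fun i _ => (h2 i).1, Finset.sum_congr rfl fun i _ => (h2 i).2.2,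
      Finset.sum_neg_distrib, neg_eq_zero, ← integral_finsetSum _ fun i _ => (h2 i).2.1] at h4
    rw [← h4]
    refine integral_congr_ae (Eventually.of_forall fun x => ?_)
    simp only [T, smul_eq_mul, Finset.mul_sum, mul_comm]
  have h5 : EqOn T (fun _ => 0) U :=
    Measure.eqOn_open_of_ae_eq ((ae_restrict_iff' hU.measurableSet).2 h1) hU hT continuousOn_const
  intro x hx
  have h6 : HasFDerivAt Z (fderiv ℝ Z x) x :=
    ((hZ.contDiffAt (hU.mem_nhds hx)).differentiableAt (by simp)).hasFDerivAt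
  have h7 : ∀ i, fderiv ℝ (fun y => L i (Z y)) x = (L i).comp (fderiv ℝ Z x) := fun i =>
    ((L i).hasFDerivAt.comp x h6).fderiv
  refine Eq.trans ?_ (h5 hx)
  rw [LinearMap.trace_eq_matrix_trace ℝ b, Matrix.trace]
  simp only [T, h7]
  simp [L, LinearMap.toMatrix_apply]

end div

variable {m k : ℕ} {H V : Type} [NormedAddCommGroup H] [InnerProductSpace ℝ H]
  [NormedAddCommGroup V] [InnerProductSpace ℝ V] [FiniteDimensional ℝ H] [FiniteDimensional ℝ V]
  [MeasurableSpace H] [BorelSpace H] [MeasurableSpace V] [BorelSpace V]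

theorem weak2_st (G : HeisenbergType m k H V) : Weak2St G := by
  intro p R Ω f hp hQ hR hpos hs hP hw
  set Q := homDim m k with hQd
  set e : ℝ := 2 * (p - 1) / (Q - p) with he
  have hQp : 0 < Q - p := sub_pos.2 hQ
  have hp1 : 0 < p - 1 := sub_pos.2 hp
  have he0 : 0 < e := by positivity
  have hc0 : 0 < cConst m k p R := by unfold cConst; positivity
  have hec : e * R ^ 2 * cConst m k p R = 2 := by
    simp only [he, cConst, ← hQd]; field_simp
  have he1 : (Q + p - 2) / (Q - p) = e + 1 := by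
    simp only [he]; field_simp; ring
  have hU : IsOpen (U0 Ω) :=
    isClosed_closure.isOpen_compl.inter (isOpen_ne.preimage continuous_fst)
  have hf0 : ∀ x ∈ U0 Ω, 0 < f x := fun x hx => hpos x fun h => hx.1 (subset_closure h)
  have hz : ∀ x ∈ U0 Ω, 0 < ‖x.1‖ := fun x hx => norm_pos_iff.2 hx.2
  have hu : uf m k p R f = fun x => R ^ 2 * f x ^ (-e) := rfl
  have hsm : ContDiffOn ℝ 3 (uf m k p R f) (U0 Ω) :=
    contDiffOn_const.mul (hs.rpow_const_of_ne fun x hx => (hf0 x hx).ne')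
  have hdf : ∀ x ∈ U0 Ω, HasFDerivAt f (fderiv ℝ f x) x := fun x hx =>
    ((hs.contDiffAt (hU.mem_nhds hx)).differentiableAt (by norm_num)).hasFDerivAt
  have hdu : ∀ x ∈ U0 Ω, fderiv ℝ (uf m k p R f) x =
      (-(e * R ^ 2 * f x ^ (-(e + 1)))) • fderiv ℝ f x := by
    intro x hx
    rw [hu, (((hdf x hx).rpow_const (p := -e) (Or.inl (hf0 x hx).ne')).const_mul (R ^ 2)).fderiv,
      smul_smul, show -e - 1 = -(e + 1) by ring]
    congr 1
    ring
  have hvu := fun x hx => vf_smul_Weak G (hdu x hx)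
  have hN : ∀ x ∈ U0 Ω, ‖(vf G f x).1‖ = cConst m k p R * ‖x.1‖ * f x ^ (e + 1) := by
    intro x hx
    have h1 := hP x hx
    have h2 := hf0 x hx
    have h3 := hz x hx
    rw [pFunction, norm_Weak, div_eq_iff (Real.rpow_pos_of_pos h2 _).ne', mul_div_assoc, ← hQd,
      he1, mul_comm p, Real.rpow_mul h2.le, ← Real.mul_rpow hc0.le h3.le,
      ← Real.mul_rpow (by positivity) (by positivity)] at h1
    exact (Real.rpow_left_inj (norm_nonneg _) (by positivity) (by linarith)).1 h1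
  have heik : ∀ x ∈ U0 Ω, ‖(vf G (uf m k p R f) x).1‖ ^ 2 = 4 * ‖x.1‖ ^ 2 := by
    intro x hx
    have h2 := hf0 x hx
    have h3 : f x ^ (-(e + 1)) * f x ^ (e + 1) = 1 := by
      rw [← Real.rpow_add h2]; simp
    rw [hvu x hx, Prod.smul_fst, norm_smul, mul_pow, Real.norm_eq_abs, sq_abs, hN x hx]
    have h4 : -(e * R ^ 2 * f x ^ (-(e + 1))) * (cConst m k p R * ‖x.1‖ * f x ^ (e + 1)) =
        -2 * ‖x.1‖ := by
      linear_combination (-(e * R ^ 2 * cConst m k p R * ‖x.1‖)) * h3 - ‖x.1‖ * hec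
    rw [← mul_pow, h4]
    ring
  refine ⟨hU, fun x hx => hx.2, hsm, fun x hx => ?_, heik, ?_⟩
  · have := hf0 x hx
    rw [hu]; positivity
  -- the flux
  let g : H × V → ℝ := fun x => (‖x.1‖ ^ 2) ^ ((p - 2) / 2) * f x ^ ((e + 1) * (p - 1))
  have hvs : ContDiffOn ℝ 1 (vf G (uf m k p R f)) (U0 Ω) :=
    contDiffOn_vf G hU hsm (by norm_num)
  have hg : ContDiffOn ℝ 1 g (U0 Ω) :=
    ((contDiffOn_fst.norm_sq ℝ).rpow_const_of_ne fun x hx => (pow_pos (hz x hx) 2).ne').mul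
      ((hs.of_le (by norm_num)).rpow_const_of_ne fun x hx => (hf0 x hx).ne')
  have hflux : ∀ x ∈ U0 Ω, g x • vf G (uf m k p R f) x =
      (-(e * R ^ 2 / cConst m k p R ^ (p - 2))) • horGradNorm G f x ^ (p - 2) • vf G f x := by
    intro x hx
    have h2 := hf0 x hx
    have h3 := hz x hx
    have h4 : (‖x.1‖ ^ 2) ^ ((p - 2) / 2) = ‖x.1‖ ^ (p - 2) := by
      rw [← Real.rpow_natCast, ← Real.rpow_mul h3.le]
      congr 1
      push_cast
      ring
    have h5 : f x ^ ((e + 1) * (p - 1)) * f x ^ (-(e + 1)) = (f x ^ (e + 1)) ^ (p - 2) := by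
      rw [← Real.rpow_add h2, ← Real.rpow_mul h2.le]
      congr 1
      ring
    have h6 := (Real.rpow_pos_of_pos hc0 (p - 2)).ne'
    rw [hvu x hx, smul_smul, smul_smul, norm_Weak, hN x hx,
      Real.mul_rpow (by positivity) (by positivity), Real.mul_rpow hc0.le h3.le]
    congr 1
    simp only [g, h4, ← h5]
    field_simp
  have hdiv := div_Weak2 (μ := volume) hU (hg.smul hvs) fun φ h1 h2 h3 => by
    have h4 := hw φ ⟨h1, h2, h3⟩
    have h5 : ∀ x, x ∉ tsupport φ → fderiv ℝ φ x = 0 := fun x hx =>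
      (notMem_tsupport_iff_eventuallyEq.1 hx).fderiv_eq.trans (by simp)
    rw [← mul_zero (-(e * R ^ 2 / cConst m k p R ^ (p - 2))), ← h4, ← integral_const_mul]
    refine integral_congr_ae (Eventually.of_forall fun x => ?_)
    by_cases hx : x ∈ tsupport φ
    · simp only [pair_Weak, Pi.smul_apply', hflux x (h3 hx), map_smul, smul_eq_mul]
    · simp [pair_Weak, h5 x hx]
  intro x hx
  have h2 := hf0 x hx
  have h3 := hz x hx
  have h4 := hdiv x hx
  have hv : HasFDerivAt (vf G (uf m k p R f)) (fderiv ℝ (vf G (uf m k p R f)) x) x :=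
    ((hvs.contDiffAt (hU.mem_nhds hx)).differentiableAt (by simp)).hasFDerivAt
  have hg' := ((hasFDerivAt_fst (𝕜 := ℝ) (p := x)).norm_sq.rpow_const (p := (p - 2) / 2)
    (Or.inl (pow_pos h3 2).ne')).mul
      ((hdf x hx).rpow_const (p := (e + 1) * (p - 1)) (Or.inl h2.ne'))
  have h5 := (trace_Weak (g := g) hg' hv).symm.trans h4
  have h6 : fderiv ℝ (uf m k p R f) x (vf G (uf m k p R f) x) = 4 * ‖x.1‖ ^ 2 := by
    rw [fderiv_vf, real_inner_self_eq_norm_sq, heik x hx]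
  rw [hdu x hx] at h6
  have h7 : ⟪x.1, (vf G (uf m k p R f) x).1⟫_ℝ = ⟪x.1, xi G (uf m k p R f) x⟫_ℝ := by
    simp only [vf, inner_add_right, real_inner_smul_right]
    rw [real_inner_comm (JL G _ _), inner_J_self, mul_zero, add_zero]
  simp only [_root_.smul_apply, _root_.add_apply, smul_eq_mul, ContinuousLinearMap.comp_apply,
    innerSL_apply_apply, ContinuousLinearMap.coe_fst', h7, g, nsmul_eq_mul, Nat.cast_ofNat,
    Real.rpow_sub_one h2.ne', Real.rpow_sub_one (pow_pos h3 2).ne'] at h5 h6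
  have h8 : f x ^ (-(e + 1)) = f x ^ (-e) / f x := by
    rw [← Real.rpow_sub_one h2.ne']
    congr 1
    ring
  have h9 : (e + 1) * (p - 1) = (Q + p - 2) / 2 * e := by
    rw [← he1, he]; field_simp
  have ha := Real.rpow_pos_of_pos (pow_pos h3 2) ((p - 2) / 2)
  have hb := Real.rpow_pos_of_pos h2 ((e + 1) * (p - 1))
  have hc := Real.rpow_pos_of_pos h2 (-e)
  have h10 : uf m k p R f x = R ^ 2 * f x ^ (-e) := rfl
  rw [h10]
  rw [h8] at h6
  generalize (‖x.1‖ ^ 2) ^ ((p - 2) / 2) = a at *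
  generalize f x ^ ((e + 1) * (p - 1)) = b at *
  generalize f x ^ (-e) = c at *
  generalize fderiv ℝ f x (vf G (uf m k p R f) x) = D at *
  generalize LinearMap.trace ℝ (H × V) (fderiv ℝ (vf G (uf m k p R f)) x) = T at *
  generalize ⟪x.1, xi G (uf m k p R f) x⟫_ℝ = s at *
  rw [h9] at h5
  have h11 : D = -(4 * ‖x.1‖ ^ 2 * f x / (e * R ^ 2 * c)) := by
    field_simp at h6 ⊢
    linarith
  rw [h11] at h5
  refine mul_left_cancel₀ (mul_pos ha hb).ne' ?_
  rw [← sub_eq_zero, ← h5]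
  field_simp
  ring

end Pool.Agent.MP_1048c2_an.Cl

end

section
/-!
The potential of the counterexample.
-/

set_option linter.unusedSectionVars false

namespace Pool.Agent.MP_1048c2_an.Cl

open Filter Topology Set Module
open scoped InnerProductSpace

variable {m k : ℕ} {H V : Type} [NormedAddCommGroup H] [InnerProductSpace ℝ H]
  [NormedAddCommGroup V] [InnerProductSpace ℝ V] [FiniteDimensional ℝ H] [FiniteDimensional ℝ V]
  [MeasurableSpace H] [BorelSpace H] [MeasurableSpace V] [BorelSpace V]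

section parts

open MeasureTheory

variable {E : Type} [NormedAddCommGroup E] [NormedSpace ℝ E] [FiniteDimensional ℝ E]
  [MeasurableSpace E] [BorelSpace E] {μ : Measure E} [μ.IsAddHaarMeasure]

theorem cont_mul_CouA {W ψ : E → ℝ} (hψ : Continuous ψ)
    (hW : ∀ x ∈ tsupport ψ, ContinuousAt W x) : Continuous (fun x => W x * ψ x) := by
  rw [continuous_iff_continuousAt]
  intro x
  by_cases hx : x ∈ tsupport ψ
  · exact (hW x hx).mul hψ.continuousAt
  · have h0 : ψ =ᶠ[𝓝 x] fun _ => 0 := notMem_tsupport_iff_eventuallyEq.mp hx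
    have h1 : (fun y => W y * ψ y) =ᶠ[𝓝 x] fun _ => 0 := by
      filter_upwards [h0] with y hy
      simp [hy]
    exact (continuousAt_congr h1).mpr continuousAt_const

theorem int_mul_CouA {W ψ : E → ℝ} (hψ : Continuous ψ)
    (hc : HasCompactSupport ψ) (hW : ∀ x ∈ tsupport ψ, ContinuousAt W x) :
    Integrable (fun x => W x * ψ x) μ :=
  (cont_mul_CouA hψ hW).integrable_of_hasCompactSupport hc.mul_left

theorem by_parts_CouA {W φ : E → ℝ} (hφ : ContDiff ℝ 1 φ) (hc : HasCompactSupport φ)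
    (hW : ∀ x ∈ tsupport φ, ContDiffAt ℝ 1 W x) (v : E) :
    Integrable (fun x => W x * fderiv ℝ φ x v) μ ∧
      Integrable (fun x => fderiv ℝ W x v * φ x) μ ∧
      ∫ x, W x * fderiv ℝ φ x v ∂μ = -∫ x, fderiv ℝ W x v * φ x ∂μ := by
  have hcont : Continuous (fun x => fderiv ℝ φ x v) :=
    (hφ.continuous_fderiv (by simp)).clm_apply continuous_const
  have hc' : HasCompactSupport (fun x => fderiv ℝ φ x v) := hc.fderiv_apply ℝ v
  have hsub : tsupport (fun x => fderiv ℝ φ x v) ⊆ tsupport φ := tsupport_fderiv_apply_subset ℝ v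
  have h1 : Integrable (fun x => W x * fderiv ℝ φ x v) μ :=
    int_mul_CouA hcont hc' fun x hx => (hW x (hsub hx)).continuousAt
  have h2 : Integrable (fun x => fderiv ℝ W x v * φ x) μ :=
    int_mul_CouA hφ.continuous hc fun x hx =>
      ((hW x hx).continuousAt_fderiv (by simp)).clm_apply continuousAt_const
  have h3 : Integrable (fun x => W x * φ x) μ :=
    int_mul_CouA hφ.continuous hc fun x hx => (hW x hx).continuousAt
  refine ⟨h1, h2, ?_⟩
  exact integral_mul_fderiv_eq_neg_fderiv_mul_of_integrable h2 h1 h3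
    (fun x hx => (hW x hx).differentiableAt (by simp))
    (fun x _ => hφ.differentiable (by simp) x)

theorem div_free_CouA {w : E → E} {φ : E → ℝ} (hφ : ContDiff ℝ 1 φ) (hc : HasCompactSupport φ)
    (hW : ∀ x ∈ tsupport φ, ContDiffAt ℝ 1 w x)
    (h0 : ∀ x ∈ tsupport φ, LinearMap.trace ℝ E (fderiv ℝ w x) = 0) :
    Integrable (fun x => fderiv ℝ φ x (w x)) μ ∧ ∫ x, fderiv ℝ φ x (w x) ∂μ = 0 := by
  let b := Module.finBasis ℝ E
  let c : Fin (finrank ℝ E) → E →L[ℝ] ℝ := fun j => LinearMap.toContinuousLinearMap (b.coord j)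
  have hb := fun j => by_parts_CouA (μ := μ) (W := fun x => c j (w x)) hφ hc
    (fun x hx => (c j).contDiff.contDiffAt.comp x (hW x hx)) (b j)
  have h1 : (fun x => fderiv ℝ φ x (w x)) = fun x => ∑ j, c j (w x) * fderiv ℝ φ x (b j) := by
    funext x
    conv_lhs => rw [← b.sum_repr (w x), map_sum]
    refine Finset.sum_congr rfl fun j _ => ?_
    rw [map_smul, smul_eq_mul]
    rfl
  rw [h1]
  refine ⟨integrable_finsetSum _ fun j _ => (hb j).1, ?_⟩
  rw [integral_finsetSum _ fun j _ => (hb j).1, Finset.sum_congr rfl fun j _ => (hb j).2.2,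
    Finset.sum_neg_distrib, ← integral_finsetSum _ fun j _ => (hb j).2.1, neg_eq_zero]
  refine integral_eq_zero_of_ae (Eventually.of_forall fun x => ?_)
  by_cases hx : x ∈ tsupport φ
  · have h2 := h0 x hx
    rw [LinearMap.trace_eq_matrix_trace ℝ b, Matrix.trace] at h2
    have h3 : ∀ j, fderiv ℝ (fun x => c j (w x)) x (b j) = b.repr (fderiv ℝ w x (b j)) j := by
      intro j
      have := ((c j).hasFDerivAt.comp x
        ((hW x hx).differentiableAt (by simp)).hasFDerivAt).fderiv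
      rw [show (fun x => c j (w x)) = c j ∘ w from rfl, this]
      simp [c]
    simp only [Matrix.diag, LinearMap.toMatrix_apply, ContinuousLinearMap.coe_coe] at h2
    simp only [h3, Pi.zero_apply, ← Finset.sum_mul, h2, zero_mul]
  · simp [image_eq_zero_of_notMem_tsupport hx]

end parts

variable (G : HeisenbergType m k H V)

/-- the horizontal gradient of the quartic -/
noncomputable def w_CouA (A : H →L[ℝ] H) (x : H × V) : H × V :=
  ((4 * ‖x.1‖ ^ 2) • x.1 - (4 : ℝ) • A x.1 + (16 : ℝ) • JL G x.2 x.1, (8 * ‖x.1‖ ^ 2) • x.2)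

theorem X_eq_CouA (φ : H × V → ℝ) (x : H × V) (i : Fin m) :
    X G i φ x = ⟪G.e i, (vf G φ x).1⟫_ℝ := by
  have h1 : fderiv ℝ φ x (G.e i, 0) = ⟪G.e i, xi G φ x⟫_ℝ := by
    rw [fderiv_eq G, inner_zero_right, add_zero, real_inner_comm]
  simp only [X, vf, inner_add_right, real_inner_smul_right, h1]
  congr 2
  simp only [la, map_sum, map_smul, _root_.sum_apply, _root_.smul_apply, inner_sum,
    real_inner_smul_right, JL_apply, mul_comm]

theorem sum_X_CouA (f φ : H × V → ℝ) (x : H × V) :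
    ∑ i, X G i f x * X G i φ x = fderiv ℝ φ x (vf G f x) := by
  rw [fderiv_vf, ← G.e.sum_inner_mul_inner]
  refine Finset.sum_congr rfl fun i _ => ?_
  rw [X_eq_CouA, X_eq_CouA, real_inner_comm (G.e i), mul_comm]

theorem contDiff_N_CouA (A : H →L[ℝ] H) (n : WithTop ℕ∞) :
    ContDiff ℝ n (NA A : H × V → ℝ) := by
  have h1 : ContDiff ℝ n fun x : H × V => ‖x.1‖ ^ 2 := contDiff_fst.norm_sq ℝ
  have h2 : ContDiff ℝ n fun x : H × V => ‖x.2‖ ^ 2 := contDiff_snd.norm_sq ℝ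
  have h3 : ContDiff ℝ n fun x : H × V => ⟪A x.1, x.1⟫_ℝ :=
    (A.contDiff.comp contDiff_fst).inner ℝ contDiff_fst
  have h4 : (NA A : H × V → ℝ) =
      fun x => (‖x.1‖ ^ 2) ^ 2 - 2 * ⟪A x.1, x.1⟫_ℝ + 1 + 16 * ‖x.2‖ ^ 2 := by
    funext x; rw [NA]; ring
  rw [h4]
  exact (((h1.pow 2).sub (contDiff_const.mul h3)).add contDiff_const).add (contDiff_const.mul h2)

theorem contDiff_w_CouA (A : H →L[ℝ] H) (n : WithTop ℕ∞) : ContDiff ℝ n (w_CouA G A) := by
  have h1 : ContDiff ℝ n fun x : H × V => ‖x.1‖ ^ 2 := contDiff_fst.norm_sq ℝ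
  have h2 : ContDiff ℝ n fun x : H × V => JL G x.2 x.1 :=
    contDiffOn_univ.1 (contDiffOn_J G contDiffOn_snd contDiffOn_fst)
  exact ((((contDiff_const.mul h1).smul contDiff_fst).sub
    ((A.contDiff.comp contDiff_fst).const_smul _)).add (h2.const_smul _)).prodMk
      ((contDiff_const.mul h1).smul contDiff_snd)

variable {G} {A : H →L[ℝ] H}

theorem dN_CouA (hA : Inv G A) (x v : H × V) :
    fderiv ℝ (NA A) x v =
      ⟪(4 * ‖x.1‖ ^ 2) • x.1 - (4 : ℝ) • A x.1, v.1⟫_ℝ + ⟪(32 : ℝ) • x.2, v.2⟫_ℝ := by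
  have h1 := (hasFDerivAt_fst (𝕜 := ℝ) (p := x)).norm_sq
  have h2 := (hasFDerivAt_snd (𝕜 := ℝ) (p := x)).norm_sq
  have h3 := (A.hasFDerivAt.comp x (hasFDerivAt_fst (𝕜 := ℝ) (p := x))).inner ℝ
    (hasFDerivAt_fst (𝕜 := ℝ) (p := x))
  have h4 : (NA A : H × V → ℝ) =
      fun x => (‖x.1‖ ^ 2) ^ 2 - 2 * ⟪A x.1, x.1⟫_ℝ + 1 + 16 * ‖x.2‖ ^ 2 := by
    funext x; rw [NA]; ring
  have h5 : HasFDerivAt (fun x : H × V => (‖x.1‖ ^ 2) ^ 2 - 2 * ⟪A x.1, x.1⟫_ℝ + 1 + 16 * ‖x.2‖ ^ 2)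
      _ x := (((h1.pow 2).sub (h3.const_mul 2)).add_const 1).add (h2.const_mul 16)
  rw [h4, h5.fderiv]
  have h6 : ⟪A v.1, x.1⟫_ℝ = ⟪A x.1, v.1⟫_ℝ := by rw [hA.1, real_inner_comm]
  rw [inner_sub_left, real_inner_smul_left, real_inner_smul_left, real_inner_smul_left]
  simp [h6]
  ring

theorem JA_CouA (hA : Inv G A) (μ : V) (z : H) : ⟪JL G μ z, A z⟫_ℝ = 0 := by
  have h1 := hA.1 (JL G μ z) z
  have h2 := J_skew G μ (A z) z
  rw [hA.2.2.2, h2, real_inner_comm] at h1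
  linarith

theorem BA_CouA (hA : Inv G A) (z : H) : BL G z (A z) = 0 :=
  ext_inner_left ℝ fun μ => by rw [← inner_JL, JA_CouA hA, inner_zero_right]

theorem normA_CouA (hA : Inv G A) (z : H) : ‖A z‖ ^ 2 = ‖z‖ ^ 2 := by
  rw [← real_inner_self_eq_norm_sq, hA.1, hA.2.1, real_inner_self_eq_norm_sq]

theorem vf_of_CouA (hA : Inv G A) {f : H × V → ℝ} {x : H × V} {c : ℝ}
    (h : fderiv ℝ f x = c • fderiv ℝ (NA A) x) : vf G f x = c • w_CouA G A x := by
  obtain ⟨h1, h2⟩ := xi_la_of G (u := f) (x := x)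
    (ξ := c • ((4 * ‖x.1‖ ^ 2) • x.1 - (4 : ℝ) • A x.1)) (μ := c • (32 : ℝ) • x.2) fun v => by
      rw [h, _root_.smul_apply, dN_CouA hA, real_inner_smul_left _ _ c,
        real_inner_smul_left _ _ c, smul_eq_mul, mul_add]
  simp only [vf, w_CouA, h1, h2, map_smul, map_sub, BL_self, BA_CouA hA, _root_.smul_apply,
    Prod.smul_mk, Prod.mk.injEq]
  constructor <;> module

theorem norm_w_CouA (hA : Inv G A) (x : H × V) :
    ‖(w_CouA G A x).1‖ ^ 2 = 16 * ‖x.1‖ ^ 2 * NA A x := by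
  have h1 := JA_CouA hA x.2 x.1
  have h2 := inner_J_self G x.2 x.1
  rw [real_inner_comm] at h1 h2
  simp only [w_CouA, NA, norm_add_sq_real, norm_sub_sq_real, norm_smul, mul_pow, Real.norm_eq_abs,
    sq_abs, norm_J_sq, normA_CouA hA, inner_sub_left, real_inner_smul_left, real_inner_smul_right,
    h1, h2, real_inner_comm (A x.1)]
  ring

theorem dN_w_CouA (hA : Inv G A) (x : H × V) :
    fderiv ℝ (NA A) x (w_CouA G A x) = 16 * ‖x.1‖ ^ 2 * NA A x := by
  have h := vf_of_CouA hA (f := NA A) (x := x) (c := 1) (by rw [one_smul])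
  rw [one_smul] at h
  rw [← norm_w_CouA hA, ← h, fderiv_vf, real_inner_self_eq_norm_sq]

theorem div_w_CouA (hA : Inv G A) (x : H × V) :
    LinearMap.trace ℝ (H × V) (fderiv ℝ (w_CouA G A) x) = 4 * (homDim m k + 2) * ‖x.1‖ ^ 2 := by
  have h0 := hasFDerivAt_fst (𝕜 := ℝ) (p := x)
  have h0' := hasFDerivAt_snd (𝕜 := ℝ) (p := x)
  have h1 := h0.norm_sq
  have h5 : HasFDerivAt (w_CouA G A) _ x :=
    ((((h1.const_mul 4).smul h0).sub ((A.hasFDerivAt.comp x h0).const_smul (4 : ℝ))).add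
      ((hasFDerivAt_J G h0' h0).const_smul (16 : ℝ))).prodMk ((h1.const_mul 8).smul h0')
  rw [h5.fderiv, trace_eq G]
  have h2 : ∀ i, ⟪G.e i, JL G x.2 (G.e i)⟫_ℝ = 0 := fun i => by
    rw [real_inner_comm, inner_J_self]
  have h3 : ∑ i, ⟪x.1, G.e i⟫_ℝ * ⟪G.e i, x.1⟫_ℝ = ‖x.1‖ ^ 2 := by
    rw [G.e.sum_inner_mul_inner, real_inner_self_eq_norm_sq]
  have h4 := hA.2.2.1
  simp [inner_add_right, inner_sub_right, real_inner_smul_right, h2, G.e.orthonormal.1,
    G.ε.orthonormal.1, Finset.sum_add_distrib, Finset.sum_sub_distrib, ← Finset.mul_sum, h4,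
    mul_assoc, h3, homDim]
  ring

theorem N_ge_CouA (hA : Inv G A) (x : H × V) : ‖x‖ ^ 2 + -2 ≤ NA A x := by
  have h1 : ⟪A x.1, x.1⟫_ℝ ≤ ‖x.1‖ ^ 2 := by
    have h := real_inner_le_norm (A x.1) x.1
    have h' : ‖A x.1‖ = ‖x.1‖ :=
      (pow_left_inj₀ (norm_nonneg _) (norm_nonneg _) two_ne_zero).1 (normA_CouA hA x.1)
    rw [h'] at h
    linarith
  have h3 : ‖x‖ ^ 2 ≤ ‖x.1‖ ^ 2 + ‖x.2‖ ^ 2 := by
    rw [Prod.norm_def]
    rcases max_cases ‖x.1‖ ‖x.2‖ with h | h <;> rw [h.1] <;> nlinarith [sq_nonneg ‖x.1‖,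
      sq_nonneg ‖x.2‖]
  unfold NA
  nlinarith [sq_nonneg (‖x.1‖ ^ 2 - 3 / 2), sq_nonneg ‖x.2‖]

theorem df_CouA (A : H →L[ℝ] H) (q : ℝ) {x : H × V} (hx : 0 < NA A x) :
    HasFDerivAt (fun x : H × V => (NA A x / 16) ^ q)
      ((q / 16 * (NA A x / 16) ^ (q - 1)) • fderiv ℝ (NA A) x) x := by
  have h1 : HasFDerivAt (NA A) (fderiv ℝ (NA A) x) x :=
    ((contDiff_N_CouA A 1).differentiable (by simp) x).hasFDerivAt
  have h2 : HasFDerivAt (fun x : H × V => NA A x / 16) ((1 / 16 : ℝ) • fderiv ℝ (NA A) x) x := by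
    have := h1.const_mul (1 / 16 : ℝ)
    refine this.congr_of_eventuallyEq (Eventually.of_forall fun y => ?_)
    simp only
    ring
  refine (h2.rpow_const (p := q) (Or.inl (by positivity))).congr_fderiv ?_
  rw [smul_smul]
  congr 1
  ring

theorem cd_f_CouA (A : H →L[ℝ] H) (q : ℝ) (n : WithTop ℕ∞) {x : H × V} (hx : 0 < NA A x) :
    ContDiffAt ℝ n (fun x : H × V => (NA A x / 16) ^ q) x :=
  ((contDiff_N_CouA A n).contDiffAt.div_const 16).rpow_const_of_ne (by positivity)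

theorem div_f_CouA (hA : Inv G A) (c : ℝ) {x : H × V} (hx : 0 < NA A x) :
    LinearMap.trace ℝ (H × V) (fderiv ℝ (fun y : H × V =>
      (c * (NA A y / 16) ^ (-(homDim m k - 2) / 4 - 1)) • w_CouA G A y) x) = 0 := by
  have h1 : HasFDerivAt (w_CouA G A) (fderiv ℝ (w_CouA G A) x) x :=
    ((contDiff_w_CouA G A 1).differentiable (by simp) x).hasFDerivAt
  have h2 : HasFDerivAt (fun y : H × V =>
      (c * (NA A y / 16) ^ (-(homDim m k - 2) / 4 - 1)) • w_CouA G A y) _ x :=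
    ((df_CouA A (-(homDim m k - 2) / 4 - 1) hx).const_mul c).smul h1
  rw [h2.fderiv, ContinuousLinearMap.toLinearMap_add, map_add,
    ContinuousLinearMap.toLinearMap_smul, map_smul, div_w_CouA hA]
  have h3 : ∀ (L : H × V →L[ℝ] ℝ) (v : H × V),
      LinearMap.trace ℝ (H × V) (L.smulRight v) = L v := fun L v =>
    LinearMap.trace_smulRight (L : H × V →ₗ[ℝ] ℝ) v
  rw [h3]
  simp only [_root_.smul_apply, dN_w_CouA hA, smul_eq_mul]
  rw [Real.rpow_sub_one (x := NA A x / 16) (by positivity) (-(homDim m k - 2) / 4 - 1)]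
  field_simp
  ring

theorem coua_st (G : HeisenbergType m k H V) : CouASt G := by
  intro A hk hA
  have hc : Continuous (NA A : H × V → ℝ) := (contDiff_N_CouA A 0).continuous
  have hm : (1 : ℝ) ≤ m := by exact_mod_cast m_pos G hk
  have hk' : (1 : ℝ) ≤ k := by exact_mod_cast hk
  have hQ : 0 < homDim m k - 2 := by unfold homDim; linarith
  have hp : ∀ x : H × V, x ∉ {x : H × V | NA A x < 16} → 0 < NA A x := fun x hx =>
    lt_of_lt_of_le (by norm_num) (not_lt.1 hx)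
  have hp' : ∀ x ∈ (closure {x : H × V | NA A x < 16})ᶜ, 0 < NA A x := fun x hx =>
    hp x fun h => hx (subset_closure h)
  have hv : ∀ x : H × V, 0 < NA A x →
      vf G (fun x => (NA A x / 16) ^ (-(homDim m k - 2) / 4)) x =
        (-(homDim m k - 2) / 4 / 16 * (NA A x / 16) ^ (-(homDim m k - 2) / 4 - 1)) •
          w_CouA G A x := fun x hx => vf_of_CouA hA (df_CouA A _ hx).fderiv
  refine ⟨⟨⟨fun x hx => (cd_f_CouA A _ 1 (hp' x hx)).contDiffWithinAt, fun φ hφ hcs hsub => ?_⟩,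
    fun x hx => (cd_f_CouA A _ 0 (hp x hx)).continuousAt.continuousWithinAt,
    fun x hx => Real.rpow_pos_of_pos (by have := hp x hx; positivity) _, fun x hx => ?_, ?_⟩,
    fun x hx => ?_, fun n x hx => (cd_f_CouA A _ n (hp' x hx)).contDiffWithinAt⟩
  · have : (MeasureTheory.volume : MeasureTheory.Measure (H × V)).IsAddHaarMeasure :=
      MeasureTheory.Measure.prod.instIsAddHaarMeasure _ _
    obtain ⟨h1, h2⟩ := div_free_CouA (μ := MeasureTheory.volume) (w := fun y : H × V =>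
      (-(homDim m k - 2) / 4 / 16 * (NA A y / 16) ^ (-(homDim m k - 2) / 4 - 1)) • w_CouA G A y)
      hφ hcs (fun x hx => (contDiffAt_const.mul (cd_f_CouA A _ 1 (hp' x (hsub hx)))).smul
        (contDiff_w_CouA G A 1).contDiffAt) fun x hx => div_f_CouA hA _ (hp' x (hsub hx))
    have hmeas : MeasurableSet (closure {x : H × V | NA A x < 16})ᶜ :=
      isClosed_closure.measurableSet.compl
    have heq : Set.EqOn (fun y : H × V => fderiv ℝ φ y
        ((-(homDim m k - 2) / 4 / 16 * (NA A y / 16) ^ (-(homDim m k - 2) / 4 - 1)) • w_CouA G A y))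
        (fun x => horGradNorm G (fun x => (NA A x / 16) ^ (-(homDim m k - 2) / 4)) x ^
          ((2 : ℝ) - 2) * ∑ i : Fin m,
            X G i (fun x => (NA A x / 16) ^ (-(homDim m k - 2) / 4)) x * X G i φ x)
        (closure {x : H × V | NA A x < 16})ᶜ := by
      intro x hx
      simp only [sub_self, Real.rpow_zero, one_mul]
      rw [sum_X_CouA, hv x (hp' x hx)]
    refine ⟨h1.integrableOn.congr_fun heq hmeas, ?_⟩
    rw [← MeasureTheory.setIntegral_congr_fun hmeas heq,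
      MeasureTheory.setIntegral_eq_integral_of_forall_compl_eq_zero, h2]
    intro x hx
    have hx' : x ∉ tsupport φ := fun h => hx (hsub h)
    have h0 : φ =ᶠ[𝓝 x] fun _ => 0 := notMem_tsupport_iff_eventuallyEq.mp hx'
    rw [h0.fderiv_eq]
    simp
  · have : NA A x = 16 := frontier_lt_subset_eq hc continuous_const hx
    simp [this]
  · have h1 : Tendsto (fun x : H × V => ‖x‖ ^ 2 + -2) (cocompact (H × V)) atTop :=
      tendsto_atTop_add_const_right _ _
        ((tendsto_pow_atTop two_ne_zero).comp tendsto_norm_cocompact_atTop)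
    have h2 : Tendsto (fun x : H × V => NA A x / 16) (cocompact (H × V)) atTop :=
      (tendsto_atTop_mono (N_ge_CouA hA) h1).atTop_div_const (by norm_num)
    have h3 := (tendsto_rpow_neg_atTop (y := (homDim m k - 2) / 4) (by positivity)).comp h2
    rw [← neg_div] at h3
    exact h3
  · have hx' := hp' x hx
    have hN : 0 < NA A x / 16 := by positivity
    unfold pFunction horGradNorm
    rw [Real.rpow_two, Real.rpow_two, Real.rpow_two,
      Real.sq_sqrt (Finset.sum_nonneg fun i _ => sq_nonneg _)]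
    simp only [X_eq_CouA]
    rw [G.e.sum_sq_inner_right, hv x hx', Prod.smul_fst, norm_smul, mul_pow, norm_w_CouA hA,
      Real.norm_eq_abs, sq_abs, ← Real.rpow_mul hN.le, mul_pow, ← Real.rpow_natCast (_ ^ _) 2,
      ← Real.rpow_mul hN.le]
    have h1 : -(homDim m k - 2) / 4 * (2 * (homDim m k + 2 - 2) / (homDim m k - 2)) =
        (-(homDim m k - 2) / 4 - 1) * (2 : ℕ) + 1 := by
      field_simp
      push_cast
      ring
    rw [h1, Real.rpow_add_one hN.ne']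
    have h2 := (Real.rpow_pos_of_pos hN ((-(homDim m k - 2) / 4 - 1) * (2 : ℕ))).ne'
    unfold cConst
    field_simp
    ring

end Pool.Agent.MP_1048c2_an.Cl

end

section
/-! The topology of the counterexample. -/

set_option linter.unusedSectionVars false

namespace Pool.Agent.MP_1048c2_an.Cl

open Filter Topology Set Module
open scoped InnerProductSpace

variable {m k : ℕ} {H V : Type} [NormedAddCommGroup H] [InnerProductSpace ℝ H]
  [NormedAddCommGroup V] [InnerProductSpace ℝ V] [FiniteDimensional ℝ H] [FiniteDimensional ℝ V]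

theorem smooth_CouB (A : H →L[ℝ] H) (n : WithTop ℕ∞) : ContDiff ℝ n (NA (V := V) A) := by
  have h1 : ContDiff ℝ n fun x : H × V => ‖x.1‖ ^ 2 := contDiff_fst.norm_sq ℝ
  have h2 : ContDiff ℝ n fun x : H × V => ‖x.2‖ ^ 2 := contDiff_snd.norm_sq ℝ
  have h3 : ContDiff ℝ n fun x : H × V => ⟪A x.1, x.1⟫_ℝ :=
    (A.contDiff.comp contDiff_fst).inner ℝ contDiff_fst
  have h4 : NA (V := V) A = fun x => (‖x.1‖ ^ 2) ^ 2 - 2 * ⟪A x.1, x.1⟫_ℝ + 1 + 16 * ‖x.2‖ ^ 2 := by
    funext x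
    rw [NA]
    ring
  rw [h4]
  exact (((h1.pow 2).sub (contDiff_const.mul h3)).add contDiff_const).add (contDiff_const.mul h2)

theorem smul_CouB (A : H →L[ℝ] H) (t : ℝ) (x : H × V) : NA A (t • x) =
    t ^ 4 * ‖x.1‖ ^ 4 - t ^ 2 * (2 * ⟪A x.1, x.1⟫_ℝ) + 1 + t ^ 2 * (16 * ‖x.2‖ ^ 2) := by
  have h4 : |t| ^ 4 = t ^ 4 := by rw [show (4 : ℕ) = 2 * 2 from rfl, pow_mul, sq_abs, ← pow_mul]
  simp only [NA, Prod.smul_fst, Prod.smul_snd, map_smul, norm_smul, real_inner_smul_left,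
    real_inner_smul_right, mul_pow, Real.norm_eq_abs, sq_abs, h4]
  ring

theorem inner_le_CouB {G : HeisenbergType m k H V} {A : H →L[ℝ] H} (hA : Inv G A) (z : H) :
    ⟪A z, z⟫_ℝ ≤ ‖z‖ ^ 2 := by
  have h1 : ‖A z‖ ^ 2 = ‖z‖ ^ 2 := by
    rw [← real_inner_self_eq_norm_sq, hA.1, hA.2.1, real_inner_self_eq_norm_sq]
  have h2 : ‖A z‖ = ‖z‖ := (pow_left_inj₀ (norm_nonneg _) (norm_nonneg _) two_ne_zero).1 h1
  have h3 := real_inner_le_norm (A z) z
  rw [h2] at h3
  nlinarith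

theorem eig_CouB {G : HeisenbergType m k H V} {A : H →L[ℝ] H} (hk : 0 < k) (hA : Inv G A)
    (s : ℝ) (hs : s * s = 1) : ∃ z : H, ‖z‖ = 2 ∧ A z = s • z := by
  have h1 : ∃ w : H, A w + s • w ≠ 0 := by
    by_contra h
    push Not at h
    have h2 := hA.2.2.1
    have h3 : ∀ i, ⟪G.e i, A (G.e i)⟫_ℝ = -s := by
      intro i
      rw [eq_neg_of_add_eq_zero_left (h (G.e i)), inner_neg_right, real_inner_smul_right,
        real_inner_self_eq_norm_sq, G.e.orthonormal.1]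
      ring
    simp only [h3, Finset.sum_const, Finset.card_univ, Fintype.card_fin, nsmul_eq_mul] at h2
    have h4 : (0 : ℝ) < m := by exact_mod_cast m_pos G hk
    have h5 : s = 0 := by
      rcases mul_eq_zero.1 h2 with h6 | h6
      · exact absurd h6 h4.ne'
      · linarith
    rw [h5] at hs
    norm_num at hs
  obtain ⟨w, hw⟩ := h1
  have h6 : A (A w + s • w) = s • (A w + s • w) := by
    rw [map_add, map_smul, hA.2.1, smul_add, smul_smul, hs, one_smul, add_comm]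
  have h7 : 0 < ‖A w + s • w‖ := norm_pos_iff.2 hw
  refine ⟨(2 / ‖A w + s • w‖) • (A w + s • w), ?_, ?_⟩
  · rw [norm_smul, Real.norm_of_nonneg (by positivity)]
    field_simp
  · rw [map_smul, h6, smul_comm]

theorem coub_st (G : HeisenbergType m k H V) : CouBSt G := by
  intro A hk hA
  have hc : Continuous (NA (V := V) A) := (smooth_CouB A 0).continuous
  have h0 : (0 : H × V) ∈ {x : H × V | NA A x < 16} := by simp [NA]
  have hstar : StarConvex ℝ (0 : H × V) {x : H × V | NA A x < 16} := by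
    intro y hy a b ha hb hab
    have hy' : NA A y < 16 := hy
    have hb1 : b ≤ 1 := by linarith
    change NA A (a • (0 : H × V) + b • y) < 16
    have key : NA A (a • (0 : H × V) + b • y) =
        (1 - b ^ 2) + b ^ 2 * NA A y - b ^ 2 * (1 - b ^ 2) * ‖y.1‖ ^ 4 := by
      rw [smul_zero, zero_add, smul_CouB, NA]
      ring
    have h1 : 0 ≤ b ^ 2 := sq_nonneg b
    have h2 : b ^ 2 ≤ 1 := by nlinarith
    have h3 : 0 ≤ b ^ 2 * (1 - b ^ 2) * ‖y.1‖ ^ 4 :=
      mul_nonneg (mul_nonneg h1 (by linarith)) (by positivity)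
    rw [key]
    have h4 : b ^ 2 * NA A y ≤ b ^ 2 * 16 := mul_le_mul_of_nonneg_left hy'.le h1
    rcases eq_or_lt_of_le h2 with h | h
    · rw [h]; linarith
    · linarith
  refine ⟨⟨isOpen_lt hc continuous_const, (hstar.isPathConnected h0).isConnected, ?_,
    fun x => NA A x - 16, fun n => (smooth_CouB A n).sub contDiff_const, ?_, fun x hx h => ?_⟩,
    fun R σ₀ h => ?_⟩
  · rw [isBounded_iff_forall_norm_le]
    refine ⟨5, fun x hx => ?_⟩
    have h1 : NA A x < 16 := hx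
    have h2 := inner_le_CouB hA x.1
    rw [NA] at h1
    have h3 : ‖x.1‖ ^ 4 = (‖x.1‖ ^ 2) ^ 2 := by ring
    rw [h3] at h1
    rw [Prod.norm_def, max_le_iff]
    constructor
    · by_contra h4
      push Not at h4
      have h5 : 25 ≤ ‖x.1‖ ^ 2 := by nlinarith
      nlinarith [sq_nonneg ‖x.2‖]
    · nlinarith [sq_nonneg (‖x.1‖ ^ 2 - 1), norm_nonneg x.2]
  · ext x
    simp
  · have h1 : HasFDerivAt (fun y : H × V => NA A y - 16) (0 : H × V →L[ℝ] ℝ) ((1 : ℝ) • x) := by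
      rw [one_smul, ← h]
      exact ((((smooth_CouB A 1).sub contDiff_const).differentiable one_ne_zero) x).hasFDerivAt
    have h2 := h1.comp_hasDerivAt (1 : ℝ) ((hasDerivAt_id (1 : ℝ)).smul_const x)
    have h3 : HasDerivAt (fun t : ℝ => t ^ 4 * ‖x.1‖ ^ 4 - t ^ 2 * (2 * ⟪A x.1, x.1⟫_ℝ) + 1 +
        t ^ 2 * (16 * ‖x.2‖ ^ 2) - 16) _ 1 :=
      (((((hasDerivAt_pow 4 (1 : ℝ)).mul_const _).sub
        ((hasDerivAt_pow 2 (1 : ℝ)).mul_const _)).add_const _).add
        ((hasDerivAt_pow 2 (1 : ℝ)).mul_const _)).sub_const _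
    have h4 := h3.unique (h2.congr_of_eventuallyEq (Eventually.of_forall fun t => by
      simp only [Function.comp_apply, id, smul_CouB]))
    have h5 : NA A x - 16 = 0 := hx
    rw [NA] at h5
    norm_num at h4
    have h6 : 0 ≤ ‖x.1‖ ^ 4 := by positivity
    linarith
  · obtain ⟨z₁, hz₁, hA₁⟩ := eig_CouB hk hA 1 (by norm_num)
    obtain ⟨z₂, hz₂, hA₂⟩ := eig_CouB hk hA (-1) (by norm_num)
    let ρ := Submodule.reflection (ℝ ∙ (z₁ - z₂))ᗮ
    have hρ : ρ z₁ = z₂ := Submodule.reflection_sub (hz₁.trans hz₂.symm)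
    have hmaps : MapsTo (fun x : H × V => (ρ x.1, x.2)) (gaugeBall R σ₀) (gaugeBall R σ₀) := by
      intro x hx
      have hx' : ‖x.1‖ ^ 4 + 16 * ‖x.2 - σ₀‖ ^ 2 < R ^ 4 := hx
      change ‖ρ x.1‖ ^ 4 + 16 * ‖x.2 - σ₀‖ ^ 2 < R ^ 4
      rwa [ρ.norm_map]
    have hcl := hmaps.closure ((ρ.continuous.comp continuous_fst).prodMk continuous_snd)
    have h1 : ((z₁, 0) : H × V) ∈ {x : H × V | NA A x < 16} := by
      change NA A (z₁, 0) < 16
      simp only [NA, hA₁, one_smul, real_inner_self_eq_norm_sq, hz₁, norm_zero]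
      norm_num
    have h2 : ((ρ z₁, 0) : H × V) ∈ closure {x : H × V | NA A x < 16} := by
      rw [h]
      apply hcl (x := (z₁, 0))
      rw [← h]
      exact subset_closure h1
    have h3 : NA A ((ρ z₁, 0) : H × V) ≤ 16 := closure_lt_subset_le hc continuous_const h2
    simp only [hρ, NA, hA₂, real_inner_smul_left, real_inner_self_eq_norm_sq, hz₂,
      norm_zero] at h3
    norm_num at h3

end Pool.Agent.MP_1048c2_an.Cl

end
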