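import Pool.Agent.MP_1048c2_an.Mg.A

section
/-!
Approximate identities.
-/

set_option linter.unusedSectionVars false

namespace Pool.Agent.MP_1048c2_an.Cl

open Filter Topology Set Module MeasureTheory Metric
open scoped InnerProductSpace ContDiff

variable {m k : ℕ} {H V : Type} [NormedAddCommGroup H] [InnerProductSpace ℝ H]
  [NormedAddCommGroup V] [InnerProductSpace ℝ V] [FiniteDimensional ℝ H] [FiniteDimensional ℝ V]
  [MeasurableSpace H] [BorelSpace H] [MeasurableSpace V] [BorelSpace V]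

theorem bound_RAi {P Θ : H × V → ℝ} {M ε r : ℝ} (hP : Integrable P) (h0 : ∀ y, 0 ≤ P y)
    (hΘ : MemLp Θ ⊤ volume) (hM : ∀ᵐ x, |Θ x| ≤ M) (hε : 0 ≤ ε)
    (hr : ∀ y ∈ ball (0 : H × V) r, |Θ y - Θ 0| ≤ ε) :
    |(∫ y, Θ y * P y) - (∫ y, P y) * Θ 0| ≤
      ε * (∫ y, P y) + (M + |Θ 0|) * ∫ y in (ball 0 r)ᶜ, P y := by
  have hm : MeasurableSet (ball (0 : H × V) r)ᶜ := measurableSet_ball.compl
  have h1 : Integrable fun y => Θ y * P y :=
    hP.bdd_mul (c := M) hΘ.1 (hM.mono fun x hx => by simpa using hx)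
  have h2 : Integrable ((ball (0 : H × V) r)ᶜ.indicator P) := hP.indicator hm
  rw [← integral_mul_const, ← integral_sub h1 (hP.mul_const _), ← integral_indicator hm,
    ← integral_const_mul, ← integral_const_mul, ← integral_add (hP.const_mul _) (h2.const_mul _)]
  refine (abs_integral_le_integral_abs).trans (integral_mono_ae (h1.sub (hP.mul_const _)).abs
    ((hP.const_mul _).add (h2.const_mul _)) ?_)
  filter_upwards [hM] with y hy
  have h3 : |Θ y * P y - P y * Θ 0| = |Θ y - Θ 0| * P y := by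
    rw [← abs_of_nonneg (h0 y), ← abs_mul, abs_of_nonneg (h0 y)]
    congr 1
    ring
  rw [h3]
  by_cases hb : y ∈ ball (0 : H × V) r
  · rw [indicator_of_notMem (by simpa using hb), mul_zero, add_zero]
    exact mul_le_mul_of_nonneg_right (hr y hb) (h0 y)
  · rw [indicator_of_mem (by simpa using hb)]
    have h4 : |Θ y - Θ 0| ≤ M + |Θ 0| := (abs_sub _ _).trans (by linarith)
    have h5 := mul_le_mul_of_nonneg_right h4 (h0 y)
    have h6 := mul_nonneg hε (h0 y)
    linarith

theorem ai_st : AISt H V := by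
  intro P c Θ hP h0 hc hr hΘ hcont
  obtain ⟨M, -, hM⟩ := bound_of_memLp hΘ
  have hD : Tendsto (fun n => (∫ y, Θ y * P n y) - (∫ y, P n y) * Θ 0) atTop (𝓝 0) := by
    refine Metric.tendsto_nhds.2 fun η hη => ?_
    have hc1 : 0 < |c| + 1 := by positivity
    have hε : 0 < η / (|c| + 1) := div_pos hη hc1
    obtain ⟨r, hr0, hr1⟩ := Metric.continuousAt_iff.1 hcont _ hε
    have hb := (hc.const_mul (η / (|c| + 1))).add ((hr r hr0).const_mul (M + |Θ 0|))
    have hlt : η / (|c| + 1) * c + (M + |Θ 0|) * 0 < η := by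
      rw [mul_zero, add_zero, div_mul_eq_mul_div, div_lt_iff₀ hc1]
      exact mul_lt_mul_of_pos_left (by linarith [le_abs_self c]) hη
    filter_upwards [hb.eventually (gt_mem_nhds hlt)] with n hn
    rw [Real.dist_eq, sub_zero]
    refine (bound_RAi (hP n) (h0 n) hΘ hM hε.le fun y hy => ?_).trans_lt hn
    have := hr1 (mem_ball.1 hy)
    rw [Real.dist_eq] at this
    exact this.le
  have := hD.add (hc.mul_const (Θ 0))
  simpa using this

end Pool.Agent.MP_1048c2_an.Cl

end

section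
/-! The bootstrap argument. -/

set_option linter.unusedSectionVars false

namespace Pool.Agent.MP_1048c2_an.Cl

open Filter Topology Set Module MeasureTheory Metric
open scoped InnerProductSpace ContDiff

variable {m k : ℕ} {H V : Type} [NormedAddCommGroup H] [InnerProductSpace ℝ H]
  [NormedAddCommGroup V] [InnerProductSpace ℝ V] [FiniteDimensional ℝ H] [FiniteDimensional ℝ V]
  [MeasurableSpace H] [BorelSpace H] [MeasurableSpace V] [BorelSpace V]

theorem cv_congr_RBoot (G : HeisenbergType m k H V) {W : Set (H × V)} {u u' κ : H × V → ℝ} {δ : ℝ}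
    {x : H × V} (h1 : EqOn u u' W) (h2 : Kr δ κ)
    (h3 : ∀ y ∈ closedBall (0 : H × V) δ, gm G x y ∈ W) : cv G u κ x = cv G u' κ x := by
  rw [cv_eq, cv_eq]
  refine integral_congr_ae (Eventually.of_forall fun y => ?_)
  by_cases hy : y ∈ closedBall (0 : H × V) δ
  · simp only [h1 (h3 y hy)]
  · simp only [h2.2 y hy, mul_zero]

theorem rep_RBoot (G : HeisenbergType m k H V) (hR : RepSt G) {W : Set (H × V)}
    {w u : H × V → ℝ} {γ γ' : Fin m → H × V → ℝ} {x₀ : H × V} (hk : 0 < k) (hW : IsOpen W)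
    (hx : x₀ ∈ W) (hw : ContinuousOn w W) (hu : LB W u) (hγ : ∀ i, LB W (γ i))
    (hγ' : ∀ i, LB W (γ' i)) (h1 : ∀ i, WD G W (G.e i) w (γ i))
    (h2 : ∀ i, WD G W (G.e i) u (γ' i))
    (h3 : ∀ ψ, Tst W ψ → ∫ x, w x * Lap G ψ x = ∫ x, u x * ψ x) :
    ∃ (δ c : ℝ) (a a' b b' : Fin m → H × V → ℝ), 0 < δ ∧ c ≠ 0 ∧
      (∀ i, Kr δ (a i) ∧ Kr δ (a' i) ∧ Kr δ (b i) ∧ Kr δ (b' i)) ∧
      (∀ x ∈ ball x₀ δ, ∀ y ∈ closedBall (0 : H × V) δ, gm G x y ∈ W) ∧
      ContDiffOn ℝ 1 w (ball x₀ δ) ∧ ∀ x ∈ ball x₀ δ,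
        (∀ i, c * XL G (G.e i) w x = cv G u (a' i) x - cv G w (a i) x) ∧
        ∀ i j, c * fderiv ℝ w x (0, BL G (G.e i) (G.e j)) =
          cv G (γ i) (b j) x - cv G (γ j) (b i) x - cv G (γ' i) (b' j) x +
            cv G (γ' j) (b' i) x := by
  obtain ⟨C, hC, c1, c2⟩ := exists_compact_subset hW hx
  have s1 : interior C ⊆ W := interior_subset.trans c2
  have e : ∀ g : H × V → ℝ, EqOn g (C.indicator g) (interior C) := fun g x hx =>
    (indicator_of_mem (interior_subset hx) g).symm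
  obtain ⟨δ, c, a, a', b, b', d1, d2, d3, d4, d5, d6⟩ := hR (interior C) (C.indicator w)
    (C.indicator u) (fun i => C.indicator (γ i)) (fun i => C.indicator (γ' i)) x₀ hk
    isOpen_interior c1 ((LB.of_cont hW hw).memLp hC c2) (hu.memLp hC c2)
    (fun i => (hγ i).memLp hC c2) (fun i => (hγ' i).memLp hC c2) ((hw.mono s1).congr (e w).symm)
    (fun i => (h1 i).congr s1 (e _) (e _)) (fun i => (h2 i).congr s1 (e _) (e _)) fun ψ hψ => by
      rw [← integral_congr_tst hψ.2.2 (e u), ← h3 ψ (hψ.mono s1)]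
      have h4 : Function.support (Lap G ψ) ⊆ tsupport ψ := fun x hx => by_contra fun h =>
        hx (Finset.sum_eq_zero fun i _ => XL_of_notMem G fun h' => h (tsupport_XL G _ _ h'))
      exact (integral_congr_tst ((closure_minimal h4 (isClosed_tsupport ψ)).trans hψ.2.2)
        (e w)).symm
  have s2 : ball x₀ δ ⊆ interior C := fun x hx => by
    simpa [gm_zero] using d4 x hx 0 (mem_closedBall_self d1.le)
  refine ⟨δ, c, a, a', b, b', d1, d2, d3, fun x hx y hy => s1 (d4 x hx y hy),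
    d5.congr ((e w).mono s2), fun x hx => ?_⟩
  have h4 : w =ᶠ[𝓝 x] C.indicator w := (e w).eventuallyEq_of_mem (isOpen_interior.mem_nhds (s2 hx))
  have h5 := fun g κ (hκ : Kr δ κ) => cv_congr_RBoot G (e g) hκ (d4 x hx)
  refine ⟨fun i => ?_, fun i j => ?_⟩
  · rw [XL_congr G h4, (d6 x hx).1, h5 u _ (d3 i).2.1, h5 w _ (d3 i).1]
  · rw [h4.fderiv_eq, (d6 x hx).2, h5 (γ i) _ (d3 j).2.2.1, h5 (γ j) _ (d3 i).2.2.1,
      h5 (γ' i) _ (d3 j).2.2.2, h5 (γ' j) _ (d3 i).2.2.2]

theorem boot_st (G : HeisenbergType m k H V) (hR : RepSt G) (hS : SmoSt G) (hP : ProdSt G)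
    (hI : IbpSt G) : BootSt G := by
  intro W w q γ hk hW hq hw hγ hd he
  have lw := LB.of_cont hW hw
  have lq := LB.of_cont hW hq.continuousOn
  have sq : ∀ i, ContDiffOn ℝ ∞ (XL G (G.e i) q) W := fun i => contDiffOn_XL G _ hW hq (by simp)
  have rep := fun (γ : Fin m → H × V → ℝ) (hγ : ∀ i, LB W (γ i))
      (hd : ∀ i, WD G W (G.e i) w (γ i)) (x : H × V) (hx : x ∈ W) =>
    rep_RBoot G hR hk hW hx hw (lq.mul lw) hγ
      (fun i => (lq.mul (hγ i)).add ((LB.of_cont hW (sq i).continuousOn).mul lw)) hd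
      (fun i => hP W _ w _ q hW hq (lw.loc hW) ((hγ i).loc hW) (hd i)) he
  have c1 : ContDiffOn ℝ 1 w W := fun x hx => by
    obtain ⟨δ, c, a, a', b, b', d1, -, -, -, d5, -⟩ := rep γ hγ hd x hx
    exact (d5.contDiffAt (ball_mem_nhds x d1)).contDiffWithinAt
  have rep' := rep (fun i => XL G (G.e i) w)
    (fun i => LB.of_cont hW (contDiffOn_XL G _ hW c1 (n := 0) (by simp)).continuousOn)
    fun i => hI W _ w hW c1
  intro j
  induction j with
  | zero => exact c1.of_le (by simp)
  | succ j ih =>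
    have q1 : ContDiffOn ℝ j q W := hq.of_le (by exact_mod_cast le_top)
    have q2 : ∀ i, ContDiffOn ℝ j (XL G (G.e i) q) W := fun i =>
      (sq i).of_le (by exact_mod_cast le_top)
    have s1 : ∀ i, ContDiffOn ℝ j (XL G (G.e i) w) W := fun i x hx => by
      obtain ⟨δ, c, a, a', b, b', d1, d2, d3, d4, -, d6⟩ := rep' x hx
      have h1 := d4 x (mem_ball_self d1)
      refine (ContDiffAt.congr_of_eventuallyEq (((hS W _ _ j δ x hW (q1.mul ih) (d3 i).2.1 h1).sub
        (hS W _ _ j δ x hW ih (d3 i).1 h1)).div_const c) ?_).contDiffWithinAt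
      filter_upwards [ball_mem_nhds x d1] with y hy
      rw [← (d6 y hy).1, mul_div_cancel_left₀ _ d2]
    have s2 : ∀ i i', ContDiffOn ℝ j (fun x => fderiv ℝ w x (0, BL G (G.e i) (G.e i'))) W :=
      fun i i' x hx => by
        obtain ⟨δ, c, a, a', b, b', d1, d2, d3, d4, -, d6⟩ := rep' x hx
        have h1 := d4 x (mem_ball_self d1)
        have h2 := fun i => (q1.mul (s1 i)).add ((q2 i).mul ih)
        refine (ContDiffAt.congr_of_eventuallyEq (((((hS W _ _ j δ x hW (s1 i) (d3 i').2.2.1 h1).sub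
          (hS W _ _ j δ x hW (s1 i') (d3 i).2.2.1 h1)).sub
          (hS W _ _ j δ x hW (h2 i) (d3 i').2.2.2 h1)).add
          (hS W _ _ j δ x hW (h2 i') (d3 i).2.2.2 h1)).div_const c) ?_).contDiffWithinAt
        filter_upwards [ball_mem_nhds x d1] with y hy
        rw [← (d6 y hy).2, mul_div_cancel_left₀ _ d2]
    rw [Nat.cast_succ, contDiffOn_succ_iff_fderiv_of_isOpen hW]
    refine ⟨c1.differentiableOn one_ne_zero, by simp, contDiffOn_clm_apply.2 fun v => ?_⟩
    refine ContDiffOn.congr ?_ fun x _ => frame G hk (fderiv ℝ w x) x.1 v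
    exact (ContDiffOn.sum fun i _ => contDiffOn_const.mul (s1 i)).add
      (ContDiffOn.sum fun i _ => ContDiffOn.sum fun i' _ =>
        (((contDiffOn_J G (contDiffOn_const.sub ((contDiffOn_B G contDiffOn_fst
          contDiffOn_const).const_smul _)) contDiffOn_const).inner ℝ contDiffOn_const).div_const
            _).mul (s2 i i'))

end Pool.Agent.MP_1048c2_an.Cl

end

section
set_option linter.unusedSectionVars false
namespace Pool.Agent.MP_1048c2_an.Cl
open Filter Topology Set Module MeasureTheory Metric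
open scoped InnerProductSpace ContDiff
variable {m k : ℕ} {H V : Type} [NormedAddCommGroup H] [InnerProductSpace ℝ H] [NormedAddCommGroup V] [InnerProductSpace ℝ V] [FiniteDimensional ℝ H] [FiniteDimensional ℝ V] [MeasurableSpace H] [BorelSpace H] [MeasurableSpace V] [BorelSpace V]

theorem bridge_st (G : HeisenbergType m k H V) (hI : IbpSt G) : BridgeSt G := by
  intro p Ω f hp hf
  obtain ⟨⟨h1, h2⟩, h3, h4, h5, h6⟩ := hf
  have hU : IsOpen (closure Ω)ᶜ := isClosed_closure.isOpen_compl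
  have hX : ∀ (i : Fin m) (u : H × V → ℝ), X G i u = XL G (G.e i) u := fun i u =>
    congrFun (X_eq G i) u
  have hc : ∀ i, ContinuousOn (X G i f) (closure Ω)ᶜ := fun i => by
    rw [hX]
    exact (contDiffOn_XL G (G.e i) hU h1 (n := 0) (by simp)).continuousOn
  refine ⟨fun i => ⟨(hc i).locallyIntegrableOn hU.measurableSet,
    ((hc i).abs.rpow_const fun x _ => Or.inr hp).locallyIntegrableOn hU.measurableSet⟩,
    fun φ hφ => ⟨fun i => ?_, ?_⟩, h3, h4, h5, h6⟩
  · have := hI _ (G.e i) f hU h1 φ (tst_iff.2 hφ)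
    simpa only [hX] using this
  · have h7 := (h2 φ (hφ.1 1) hφ.2.1 hφ.2.2).2
    rw [setIntegral_eq_integral_of_forall_compl_eq_zero fun x hx => ?_] at h7
    · exact h7
    · have : ∀ i, X G i φ x = 0 := fun i => by
        rw [hX]
        exact XL_of_notMem G fun h => hx (hφ.2.2 h)
      simp [this]

end Pool.Agent.MP_1048c2_an.Cl

end

section
/-!
The chain rule for weak derivatives.
-/

set_option linter.unusedSectionVars false

namespace Pool.Agent.MP_1048c2_an.Cl

open Filter Topology Set Module MeasureTheory Metric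
open scoped InnerProductSpace ContDiff

variable {m k : ℕ} {H V : Type} [NormedAddCommGroup H] [InnerProductSpace ℝ H] [NormedAddCommGroup V] [InnerProductSpace ℝ V] [FiniteDimensional ℝ H] [FiniteDimensional ℝ V] [MeasurableSpace H] [BorelSpace H] [MeasurableSpace V] [BorelSpace V]

theorem cont_RChain {a ψ : H × V → ℝ} (hψ : Continuous ψ)
    (ha : ∀ x ∈ tsupport ψ, ContinuousAt a x) : Continuous fun x => a x * ψ x := by
  refine continuous_iff_continuousAt.2 fun x => ?_
  by_cases hx : x ∈ tsupport ψ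
  · exact (ha x hx).mul hψ.continuousAt
  · refine (continuousAt_const (y := (0 : ℝ))).congr ?_
    filter_upwards [notMem_tsupport_iff_eventuallyEq.1 hx] with y hy
    simp [hy]

theorem dct_RChain {A : ℕ → H × V → ℝ} {A' ψ : H × V → ℝ} {B : ℝ} (hψ : Continuous ψ)
    (hc : HasCompactSupport ψ) (hA : ∀ n, ∀ x ∈ tsupport ψ, ContinuousAt (A n) x ∧ |A n x| ≤ B)
    (hl : ∀ x ∈ tsupport ψ, Tendsto (fun n => A n x) atTop (𝓝 (A' x))) :
    Tendsto (fun n => ∫ x, A n x * ψ x) atTop (𝓝 (∫ x, A' x * ψ x)) := by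
  refine tendsto_integral_of_dominated_convergence (fun x => B * ‖ψ x‖)
    (fun n => (cont_RChain hψ fun x hx => (hA n x hx).1).aestronglyMeasurable)
    ((hψ.integrable_of_hasCompactSupport hc).norm.const_mul B)
    (fun n => Eventually.of_forall fun x => ?_) (Eventually.of_forall fun x => ?_)
  · by_cases hx : x ∈ tsupport ψ
    · rw [norm_mul]
      exact mul_le_mul_of_nonneg_right (hA n x hx).2 (norm_nonneg _)
    · simp [image_eq_zero_of_notMem_tsupport hx]
  · by_cases hx : x ∈ tsupport ψ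
    · exact (hl x hx).mul_const _
    · simp [image_eq_zero_of_notMem_tsupport hx]

theorem bnd_RChain {a : ℝ} (ha : 0 < a) (a' b : ℝ) : ∃ B, ∀ t ∈ Icc a a', |t ^ b| ≤ B :=
  isCompact_Icc.exists_bound_of_continuousOn (f := fun t : ℝ => t ^ b)
    (continuousOn_id.rpow_const fun _ ht => Or.inl (ha.trans_le ht.1).ne')

theorem chain_st (G : HeisenbergType m k H V) (hI : IbpSt G) (hM : MolSt G) : ChainSt G := by
  classical
  intro W h f g b hW hf hpos hg hD φ hφ
  obtain ⟨C, hC, hKC, hCW⟩ := exists_compact_between hφ.2.1 hW hφ.2.2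
  have hS : IsCompact (insert 1 (f '' C)) := (hC.image_of_continuousOn (hf.mono hCW)).insert 1
  obtain ⟨a, ha1, ha2⟩ := hS.exists_isLeast (insert_nonempty _ _)
  obtain ⟨a', -, ha3⟩ := hS.exists_isGreatest (insert_nonempty _ _)
  have ha : 0 < a := by
    rcases ha1 with rfl | ⟨x, hx, rfl⟩
    · exact one_pos
    · exact hpos x (hCW hx)
  have hf' : ∀ y, C.piecewise f (fun _ => 1) y ∈ Icc a a' := fun y => by
    have : C.piecewise f (fun _ => 1) y ∈ insert 1 (f '' C) := by
      by_cases hy : y ∈ C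
      · rw [piecewise_eq_of_mem _ _ _ hy]; exact Or.inr ⟨y, hy, rfl⟩
      · rw [piecewise_eq_of_notMem _ _ _ hy]; exact Or.inl rfl
    exact ⟨ha2 this, ha3 this⟩
  have e1 : EqOn f (C.piecewise f fun _ => 1) (interior C) := fun y hy =>
    (piecewise_eq_of_mem _ _ _ (interior_subset hy)).symm
  have e2 : EqOn g (C.indicator g) (interior C) := fun y hy =>
    (indicator_of_mem (interior_subset hy) g).symm
  have hg' := hg.memLp hC hCW
  obtain ⟨M, -, hM'⟩ := bound_of_memLp hg'
  obtain ⟨F, F1, F2, F3, F4, F5⟩ := hM (interior C) (tsupport φ) h _ _ a a' M isOpen_interior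
    hφ.2.1 hKC ((hf.mono (interior_subset.trans hCW)).congr e1.symm)
    (AEStronglyMeasurable.piecewise hC.measurableSet
      ((hf.mono hCW).aestronglyMeasurable hC.measurableSet) aestronglyMeasurable_const)
    hg'.1 hf' hM' (hD.congr (interior_subset.trans hCW) e1 e2)
  have F0 : ∀ n x, F n x ≠ 0 := fun n x => (ha.trans_le (F2 n x).1).ne'
  have F6 : ∀ c : ℝ, ∀ x ∈ tsupport φ, Tendsto (fun n => F n x ^ c) atTop (𝓝 (f x ^ c)) :=
    fun c x hx => (e1 (hKC hx) ▸ F3 x hx :).rpow_const (Or.inl (hpos x (hφ.2.2 hx)).ne')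
  have F7 : ∀ (c : ℝ) n, Continuous fun x => F n x ^ c := fun c n =>
    (F1 n).continuous.rpow_const fun x => Or.inl (F0 n x)
  have F8 : ∀ n, Continuous (XL G h (F n)) := fun n => continuousOn_univ.1
    (contDiffOn_XL G h isOpen_univ (F1 n).contDiffOn (n := 0) (by simp)).continuousOn
  have f7 : ∀ x ∈ tsupport φ, ContinuousAt (fun x => f x ^ (b - 1)) x := fun x hx =>
    (hf.continuousAt (hW.mem_nhds (hφ.2.2 hx))).rpow_const (Or.inl (hpos x (hφ.2.2 hx)).ne')
  obtain ⟨B, hB⟩ := bnd_RChain ha a' b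
  obtain ⟨B', hB'⟩ := bnd_RChain ha a' (b - 1)
  have hφc := hφ.1.continuous
  have T1 := dct_RChain (A := fun n x => F n x ^ b) (A' := fun x => f x ^ b)
    (hφ.xl G h).1.continuous (hφ.xl G h).2.1
    (fun n x _ => ⟨(F7 b n).continuousAt, hB _ (F2 n x)⟩) fun x hx => F6 b x (tsupport_XL G h φ hx)
  have T2 := F5 (fun x => b * f x ^ (b - 1) * φ x)
    (cont_RChain hφc fun x hx => continuousAt_const.mul (f7 x hx))
    fun x hx => by rw [image_eq_zero_of_notMem_tsupport hx, mul_zero]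
  have c3 : ∀ n, ∀ x ∈ tsupport φ,
      ContinuousAt (fun x => b * (F n x ^ (b - 1) - f x ^ (b - 1)) * XL G h (F n) x) x :=
    fun n x hx => (continuousAt_const.mul ((F7 _ n).continuousAt.sub (f7 x hx))).mul
      (F8 n).continuousAt
  have T3 := dct_RChain (A := fun n x => b * (F n x ^ (b - 1) - f x ^ (b - 1)) * XL G h (F n) x)
    (A' := fun _ => 0) (B := |b| * (B' + B') * M) hφc hφ.2.1
    (fun n x hx => ⟨c3 n x hx, by
      have h1 := hB' _ (F2 n x)
      have h2 := hB' _ (e1 (hKC hx) ▸ hf' x : f x ∈ Icc a a')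
      have h3 := (abs_sub _ _).trans (add_le_add h1 h2)
      rw [abs_mul, abs_mul]
      exact mul_le_mul (mul_le_mul_of_nonneg_left h3 (abs_nonneg _)) (F4 n x hx) (abs_nonneg _)
        (mul_nonneg (abs_nonneg _) ((abs_nonneg _).trans h3))⟩)
    fun x hx => by
      have h1 := ((((F6 (b - 1) x hx).sub_const (f x ^ (b - 1))).const_mul b).norm).mul_const M
      rw [sub_self, mul_zero, norm_zero, zero_mul] at h1
      refine squeeze_zero_norm (fun n => ?_) h1
      rw [norm_mul]
      exact mul_le_mul_of_nonneg_left (F4 n x hx) (norm_nonneg _)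
  have E : ∀ n, ∫ x, F n x ^ b * XL G h φ x =
      -((∫ x, XL G h (F n) x * (b * f x ^ (b - 1) * φ x)) +
        ∫ x, b * (F n x ^ (b - 1) - f x ^ (b - 1)) * XL G h (F n) x * φ x) := fun n => by
    rw [hI univ h (fun x => F n x ^ b) isOpen_univ
      ((F1 n).rpow_const_of_ne (F0 n)).contDiffOn φ (hφ.mono (subset_univ _)),
      ← integral_add _ (integrable_Weak hφc hφ.2.1 (c3 n))]
    · refine congrArg Neg.neg (integral_congr_ae (Eventually.of_forall fun x => ?_))
      have h1 := (((F1 n).differentiable one_ne_zero x).hasFDerivAt.rpow_const (p := b)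
        (Or.inl (F0 n x))).fderiv
      simp only [XL, h1, _root_.smul_apply, smul_eq_mul]
      ring
    · simp only [← mul_assoc]
      exact integrable_Weak hφc hφ.2.1 fun x hx =>
        ((F8 n).continuousAt.mul continuousAt_const).mul (f7 x hx)
  rw [tendsto_nhds_unique T1 (((T2.add T3).neg).congr fun n => (E n).symm)]
  simp only [zero_mul, integral_zero, add_zero]
  refine congrArg Neg.neg (integral_congr_ae (Eventually.of_forall fun x => ?_))
  by_cases hx : x ∈ tsupport φ
  · simp only [← e2 (hKC hx)]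
    ring
  · simp only [image_eq_zero_of_notMem_tsupport hx, mul_zero]

end Pool.Agent.MP_1048c2_an.Cl

end

section
set_option linter.unusedSectionVars false
namespace Pool.Agent.MP_1048c2_an.Cl
open Filter Topology Set Module MeasureTheory Metric
open scoped InnerProductSpace ContDiff
variable {m k : ℕ} {H V : Type} [NormedAddCommGroup H] [InnerProductSpace ℝ H] [NormedAddCommGroup V] [InnerProductSpace ℝ V] [FiniteDimensional ℝ H] [FiniteDimensional ℝ V] [MeasurableSpace H] [BorelSpace H] [MeasurableSpace V] [BorelSpace V]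

theorem cnv_st : CnvSt H V := by
  intro η s ε hV hs hε hε0 hη hint
  haveI : Nontrivial (H × V) := inferInstance
  have hae : ∀ᵐ y : H × V, y ≠ 0 := by
    rw [ae_iff]
    simp
  have hN : Continuous (Nn : H × V → ℝ) := (contDiff_Nn (n := 0)).continuous
  have hc : ∀ n, Continuous fun y : H × V => η y * (Nn y + ε n) ^ (-s) := fun n =>
    hη.mul ((hN.add continuous_const).rpow_const fun y =>
      Or.inl (add_pos_of_nonneg_of_pos (Nn_nonneg y) (hε n)).ne')
  have hb : ∀ n, ∀ᵐ y : H × V, ‖η y * (Nn y + ε n) ^ (-s)‖ ≤ ‖η y * Nn y ^ (-s)‖ := fun n => by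
    filter_upwards [hae] with y hy
    have h0 := Nn_pos hy
    have h1 := hε n
    rw [norm_mul, norm_mul, Real.norm_of_nonneg (Real.rpow_nonneg (by positivity) _),
      Real.norm_of_nonneg (Real.rpow_nonneg h0.le _)]
    exact mul_le_mul_of_nonneg_left
      (Real.rpow_le_rpow_of_nonpos h0 (by linarith) (by linarith)) (norm_nonneg _)
  have hi : ∀ n, Integrable fun y : H × V => η y * (Nn y + ε n) ^ (-s) := fun n =>
    hint.norm.mono' (hc n).aestronglyMeasurable (hb n)
  refine ⟨hi, hint, ?_⟩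
  have h := tendsto_integral_of_dominated_convergence (μ := (volume : Measure (H × V)))
    (F := fun n y => |η y * (Nn y + ε n) ^ (-s) - η y * Nn y ^ (-s)|) (f := fun _ => (0 : ℝ))
    (fun y => 2 * ‖η y * Nn y ^ (-s)‖) (fun n => ((hi n).sub hint).abs.aestronglyMeasurable)
    (hint.norm.const_mul 2) (fun n => by
      filter_upwards [hb n] with y hy
      rw [Real.norm_eq_abs, abs_abs, ← Real.norm_eq_abs]
      exact (norm_sub_le _ _).trans (by linarith)) (by
      filter_upwards [hae] with y hy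
      have h0 := Nn_pos hy
      have h1 : Tendsto (fun n => Nn y + ε n) atTop (𝓝 (Nn y)) := by
        simpa using hε0.const_add (Nn y)
      have h2 := (((h1.rpow_const (p := -s) (Or.inl h0.ne')).const_mul (η y)).sub_const
        (η y * Nn y ^ (-s))).abs
      simpa using h2)
  simpa using h

end Pool.Agent.MP_1048c2_an.Cl

end

section
set_option linter.unusedSectionVars false

namespace Pool.Agent.MP_1048c2_an.Cl

open Filter Topology Set Module MeasureTheory Metric
open scoped InnerProductSpace ContDiff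

variable {m k : ℕ} {H V : Type} [NormedAddCommGroup H] [InnerProductSpace ℝ H]
  [NormedAddCommGroup V] [InnerProductSpace ℝ V] [FiniteDimensional ℝ H] [FiniteDimensional ℝ V]
  [MeasurableSpace H] [BorelSpace H] [MeasurableSpace V] [BorelSpace V]

theorem fderiv_RCv (G : HeisenbergType m k H V) {κ : H × V → ℝ} (hκ : ContDiff ℝ ∞ κ)
    (x y v : H × V) :
    fderiv ℝ (fun p : (H × V) × H × V => κ (gm G (-p.1) p.2)) (x, y) (v, 0) =
      -fderiv ℝ κ (gm G (-x) y) (v.1, v.2 + (1 / 2 : ℝ) • BL G v.1 y.1) := by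
  obtain ⟨L, h1, h2⟩ := hasFDerivAt_gm G (hasFDerivAt_fst (𝕜 := ℝ) (p := (x, y))).neg
    (hasFDerivAt_snd (𝕜 := ℝ) (p := (x, y)))
  have h3 := (((hκ.differentiable (by simp)) (gm G (-x) y)).hasFDerivAt.comp (x, y) h1).fderiv
  refine (congrArg (fun T : (H × V) × H × V →L[ℝ] ℝ => T (v, 0)) h3).trans ?_
  rw [ContinuousLinearMap.comp_apply, h2, ← map_neg]
  congr 1
  simp [add_comm]

theorem cv_st (G : HeisenbergType m k H V) (hD : DiffSt H V) : CvSt G := by
  intro u κ δ hu hκ hs
  have hul : LocallyIntegrable u := hu.locallyIntegrable le_top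
  have hΨ : ContDiff ℝ 1 fun p : (H × V) × H × V => κ (gm G (-p.1) p.2) :=
    (hκ.of_le (by simp)).comp (contDiff_gm G contDiff_fst.neg contDiff_snd)
  obtain ⟨h1, h2⟩ := hD u _ hul hΨ fun r => by
    have hc : IsCompact ((fun q : (H × V) × H × V => gm G q.1 q.2) ''
        (closedBall 0 r ×ˢ closedBall 0 δ)) :=
      ((isCompact_closedBall _ _).prod (isCompact_closedBall _ _)).image
        (continuous_gm G continuous_fst continuous_snd)
    obtain ⟨R, hR⟩ := hc.isBounded.exists_norm_le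
    refine ⟨R + 1, fun x y hx hy => ?_⟩
    by_contra h0
    have h3 := hR _ ⟨(x, gm G (-x) y), mk_mem_prod (mem_closedBall_zero_iff.2 hx)
      (hs (subset_tsupport _ h0)), gm_neg_gm G x y⟩
    linarith
  refine ⟨h1, fun x => ⟨fun h => ?_, fun h h' => ?_⟩⟩
  · refine (h2 x _).trans ?_
    rw [cv, ← integral_neg]
    refine integral_congr_ae (Eventually.of_forall fun y => ?_)
    simp only [fderiv_RCv G hκ, YR, mul_neg]
    congr 4
    simp only [gm, Prod.fst_neg, map_add, map_neg, _root_.add_apply, _root_.neg_apply,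
      BL_swap G h y.1]
    module
  · refine (h2 x _).trans ?_
    have hi : ∀ a b : H, Integrable fun y => u y * XL G a (XL G b κ) (gm G (-x) y) := fun a b =>
      (Tst.gm G (W := univ) (contDiff_XL G a (contDiff_XL G b hκ))
        ((tsupport_XL G a _).trans ((tsupport_XL G b κ).trans hs)) fun _ _ => mem_univ _).integrable
        (hul.locallyIntegrableOn univ)
    rw [cv, cv, ← integral_sub (hi h' h) (hi h h')]
    refine integral_congr_ae (Eventually.of_forall fun y => ?_)
    have h3 := XL_comm G h h' (x := gm G (-x) y) (contDiff_infty.1 hκ 2).contDiffAt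
    simp only [fderiv_RCv G hκ, map_zero, _root_.zero_apply, smul_zero, add_zero]
    rw [← h3]; ring

end Pool.Agent.MP_1048c2_an.Cl

end

section
set_option linter.unusedSectionVars false
namespace Pool.Agent.MP_1048c2_an.Cl
open Filter Topology Set Module MeasureTheory Metric
open scoped InnerProductSpace ContDiff
variable {m k : ℕ} {H V : Type} [NormedAddCommGroup H] [InnerProductSpace ℝ H] [NormedAddCommGroup V] [InnerProductSpace ℝ V] [FiniteDimensional ℝ H] [FiniteDimensional ℝ V] [MeasurableSpace H] [BorelSpace H] [MeasurableSpace V] [BorelSpace V]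

theorem int_RDer [Nontrivial V] {a b t δ : ℝ} {φ g : H × V → ℝ}
    (hI : IntegrableOn (fun y : H × V => Nn y ^ (-a)) (closedBall 0 δ)) (hφ : Continuous φ)
    (h0 : ∀ y ∉ closedBall (0 : H × V) δ, φ y = 0) (hg : Continuous g)
    (hb : ∀ y, |φ y| ≤ g y * Nn y ^ b) (h : 0 ≤ b - t + a ∨ φ =ᶠ[𝓝 0] 0) :
    Integrable fun y => φ y * Nn y ^ (-t) := by
  have hN : Continuous (Nn : H × V → ℝ) := (contDiff_Nn (n := 0)).continuous
  rcases h with h | h
  · refine (integrableOn_iff_integrable_of_support_subset (s := closedBall 0 δ) fun y hy => ?_).1 ?_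
    · by_contra hn
      exact hy (by simp only [h0 y hn, zero_mul])
    · have h1 := hI.mul_continuousOn (hg.mul (hN.rpow_const fun _ => Or.inr h)).continuousOn
        (isCompact_closedBall _ _)
      refine h1.mono' (hφ.measurable.mul (hN.measurable.pow_const _)).aestronglyMeasurable ?_
      filter_upwards [ae_restrict_of_ae (Measure.ae_ne volume (0 : H × V))] with y hy
      have hp := Nn_pos hy
      rw [Real.norm_eq_abs, abs_mul, abs_of_pos (Real.rpow_pos_of_pos hp _)]
      refine (mul_le_mul_of_nonneg_right (hb y) (Real.rpow_pos_of_pos hp _).le).trans (le_of_eq ?_)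
      simp only [Pi.mul_apply]
      rw [mul_left_comm, mul_assoc, ← Real.rpow_add hp, ← Real.rpow_add hp]
      congr 2
      ring
  · refine Continuous.integrable_of_hasCompactSupport (continuous_iff_continuousAt.2 fun y => ?_)
      (HasCompactSupport.intro (isCompact_closedBall 0 δ) fun y hy => by
        simp only [h0 y hy, zero_mul])
    by_cases hy : y = 0
    · subst hy
      refine (continuousAt_const (y := (0 : ℝ))).congr ?_
      filter_upwards [h] with y hy
      simp [hy]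
    · exact hφ.continuousAt.mul (hN.continuousAt.rpow_const (Or.inl (Nn_pos hy).ne'))

theorem add_RDer {κ κ' : ℕ → H × V → ℝ} {f f' : H × V → ℝ} (h : Lim κ f) (h' : Lim κ' f') :
    Lim (fun n y => κ n y + κ' n y) fun y => f y + f' y := by
  refine ⟨fun n => (h.1 n).add (h'.1 n), h.2.1.add h'.2.1, ?_⟩
  have h1 := h.2.2.add h'.2.2
  rw [add_zero] at h1
  refine squeeze_zero (fun n => integral_nonneg fun y => abs_nonneg _) (fun n => ?_) h1
  have i1 := ((h.1 n).sub h.2.1).abs
  have i2 := ((h'.1 n).sub h'.2.1).abs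
  refine le_of_le_of_eq (integral_mono_of_nonneg (Eventually.of_forall fun y => abs_nonneg _)
    (i1.add i2) (Eventually.of_forall fun y => ?_)) (integral_add i1 i2)
  simp only [Pi.add_apply, Pi.sub_apply]
  rw [add_sub_add_comm]
  exact abs_add_le _ _

theorem main_RDer [Nontrivial V] (hC : CnvSt H V) {a s δ C : ℝ} {η : H × V → ℝ} {ε : ℕ → ℝ}
    {v : H × V → H × V} (hI : IntegrableOn (fun y : H × V => Nn y ^ (-a)) (closedBall 0 δ))
    (hv : Continuous v) (hb : ∀ y, |fderiv ℝ Nn y (v y)| ≤ C * Nn y ^ (3 / 4 : ℝ)) (hs : 0 ≤ s)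
    (hε : ∀ n, 0 < ε n) (hl : Tendsto ε atTop (𝓝 0)) (hη : ContDiff ℝ ∞ η)
    (ht : tsupport η ⊆ closedBall 0 δ) (h : s + 1 / 4 ≤ a ∨ η =ᶠ[𝓝 0] 0) :
    Cnv δ fun n y => fderiv ℝ (fun y => η y * (Nn y + ε n) ^ (-s)) y (v y) := by
  have c1 : Continuous fun y => fderiv ℝ η y (v y) :=
    (hη.continuous_fderiv (by simp)).clm_apply hv
  have c2 : Continuous fun y => -s * η y * fderiv ℝ Nn y (v y) :=
    (continuous_const.mul hη.continuous).mul
      (((contDiff_Nn (n := 1)).continuous_fderiv (by simp)).clm_apply hv)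
  have z1 : ∀ y ∉ closedBall (0 : H × V) δ, fderiv ℝ η y (v y) = 0 := fun y hy => by
    rw [(notMem_tsupport_iff_eventuallyEq.1 fun h => hy (ht h)).fderiv_eq]; simp
  have z2 : ∀ y ∉ closedBall (0 : H × V) δ, -s * η y * fderiv ℝ Nn y (v y) = 0 := fun y hy => by
    rw [image_eq_zero_of_notMem_tsupport fun h => hy (ht h), mul_zero, zero_mul]
  have i1 : Integrable fun y => fderiv ℝ η y (v y) * Nn y ^ (-s) :=
    int_RDer (b := 0) hI c1 z1 c1.abs (fun y => by rw [Real.rpow_zero, mul_one])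
      (h.imp (fun h => by linarith) fun h => by
        filter_upwards [h.fderiv (𝕜 := ℝ)] with y hy
        rw [hy]; simp)
  have i2 : Integrable fun y => -s * η y * fderiv ℝ Nn y (v y) * Nn y ^ (-(s + 1)) :=
    int_RDer (b := 3 / 4) (g := fun y => |-s * η y| * C) hI c2 z2
      ((continuous_const.mul hη.continuous).abs.mul continuous_const)
      (fun y => by
        rw [abs_mul, mul_assoc _ C]
        exact mul_le_mul_of_nonneg_left (hb y) (abs_nonneg _))
      (h.imp (fun h => by linarith) fun h => by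
        filter_upwards [h] with y hy
        simp [hy])
  have l := add_RDer (hC _ s ε inferInstance hs hε hl c1 i1)
    (hC _ (s + 1) ε inferInstance (by linarith) hε hl c2 i2)
  refine ⟨_, ⟨l.2.1, fun y hy => by simp only [z1 y hy, z2 y hy, zero_mul, add_zero]⟩, ?_⟩
  have e : (fun n y => fderiv ℝ (fun y => η y * (Nn y + ε n) ^ (-s)) y (v y)) = fun n y =>
      fderiv ℝ η y (v y) * (Nn y + ε n) ^ (-s) +
        -s * η y * fderiv ℝ Nn y (v y) * (Nn y + ε n) ^ (-(s + 1)) := by
    funext n y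
    have d1 := (hη.differentiable (by simp) y).hasFDerivAt
    have d2 := ((((contDiff_Nn (n := 1)).differentiable (by simp) y).hasFDerivAt.add_const
      (ε n)).rpow_const (p := -s) (Or.inl (add_pos_of_nonneg_of_pos (Nn_nonneg y) (hε n)).ne'))
    rw [(d1.fun_mul d2).fderiv, show -(s + 1) = -s - 1 by ring]
    simp only [_root_.add_apply, _root_.smul_apply, smul_eq_mul]
    ring
  rw [e]
  exact l

theorem der_st (G : HeisenbergType m k H V) (hG : GamSt G) (hI : IntSt m k H V) (hC : CnvSt H V) :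
    DerSt G := by
  intro η s δ ε h hk hs hε hl hη ht hc
  haveI : Nontrivial V := Module.nontrivial_of_finrank_pos (R := ℝ) (by rw [finrank_V G]; exact hk)
  have i := hI (finrank_H G) (finrank_V G) (m_pos G hk) hk δ
  have c : Continuous fun y : H × V => (1 / 2 : ℝ) • BL G y.1 h :=
    (((BL G).continuous.comp continuous_fst).clm_apply continuous_const).const_smul _
  have hc' : s + 1 / 4 ≤ (homDim m k - 1) / 4 ∨ η =ᶠ[𝓝 0] 0 := hc.imp_left fun h => by linarith
  exact ⟨main_RDer hC i (continuous_const.prodMk c) (fun y => (hG.1 h y).1) hs hε hl hη ht hc',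
    main_RDer hC i (continuous_const.prodMk c.neg) (fun y => (hG.1 h y).2) hs hε hl hη ht hc'⟩

end Pool.Agent.MP_1048c2_an.Cl

end

section
set_option linter.unusedSectionVars false

namespace Pool.Agent.MP_1048c2_an.Cl

open Filter Topology Set Module MeasureTheory Metric
open scoped InnerProductSpace ContDiff

variable {m k : ℕ} {H V : Type} [NormedAddCommGroup H] [InnerProductSpace ℝ H]
  [NormedAddCommGroup V] [InnerProductSpace ℝ V] [FiniteDimensional ℝ H] [FiniteDimensional ℝ V]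
  [MeasurableSpace H] [BorelSpace H] [MeasurableSpace V] [BorelSpace V]

theorem gen_RDiff {E : Type} [NormedAddCommGroup E] [NormedSpace ℝ E] [FiniteDimensional ℝ E]
    [MeasurableSpace E] [BorelSpace E] (μ : Measure E) (u : E → ℝ) (Ψ : E × E → ℝ)
    (hu : LocallyIntegrable u μ) (hΨ : ContDiff ℝ 1 Ψ)
    (hs : ∀ r : ℝ, ∃ R : ℝ, ∀ x y, ‖x‖ ≤ r → R ≤ ‖y‖ → Ψ (x, y) = 0) :
    ContDiff ℝ 1 (fun x => ∫ y, u y * Ψ (x, y) ∂μ) ∧ ∀ x v,
      fderiv ℝ (fun x => ∫ y, u y * Ψ (x, y) ∂μ) x v = ∫ y, u y * fderiv ℝ Ψ (x, y) (v, 0) ∂μ := by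
  let D : E × E → E →L[ℝ] ℝ := fun p =>
    (fderiv ℝ Ψ p).comp (ContinuousLinearMap.inl ℝ E E)
  have hD : Continuous D := (hΨ.continuous_fderiv one_ne_zero).clm_comp continuous_const
  have hd : ∀ x y, HasFDerivAt (fun x => Ψ (x, y)) (D (x, y)) x := fun x y =>
    (hΨ.differentiable one_ne_zero (x, y)).hasFDerivAt.comp x (hasFDerivAt_prodMk_left x y)
  have hm := hu.aestronglyMeasurable
  have key : ∀ x₀ : E, ∃ R : ℝ, ∃ b : E → ℝ, Integrable b μ ∧
      (∀ y, y ∉ closedBall (0 : E) R → Ψ (x₀, y) = 0 ∧ D (x₀, y) = 0) ∧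
      ∀ x ∈ ball (0 : E) (‖x₀‖ + 1), ∀ y, ‖u y • D (x, y)‖ ≤ b y := by
    intro x₀
    obtain ⟨R, hR⟩ := hs (‖x₀‖ + 1)
    have h0 : ∀ x ∈ ball (0 : E) (‖x₀‖ + 1), ∀ y, y ∉ closedBall (0 : E) R →
        D (x, y) = 0 := by
      intro x hx y hy
      rw [mem_closedBall_zero_iff, not_le] at hy
      refine (hd x y).unique ((hasFDerivAt_const (0 : ℝ) x).congr_of_eventuallyEq ?_)
      filter_upwards [isOpen_ball.mem_nhds hx] with z hz
      exact hR z y (mem_ball_zero_iff.1 hz).le hy.le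
    obtain ⟨C, hC⟩ := ((isCompact_closedBall (0 : E) (‖x₀‖ + 1)).prod
      (isCompact_closedBall (0 : E) R)).exists_bound_of_continuousOn hD.continuousOn
    refine ⟨R, (closedBall (0 : E) R).indicator fun y => ‖u y‖ * C, ?_, fun y hy => ⟨?_, ?_⟩,
      fun x hx y => ?_⟩
    · exact (integrable_indicator_iff measurableSet_closedBall).2
        ((hu.integrableOn_isCompact (isCompact_closedBall _ _)).norm.mul_const C)
    · rw [mem_closedBall_zero_iff, not_le] at hy
      exact hR _ _ (by linarith) hy.le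
    · exact h0 _ (by simp) y hy
    · by_cases hy : y ∈ closedBall (0 : E) R
      · rw [indicator_of_mem hy, norm_smul]
        exact mul_le_mul_of_nonneg_left (hC (x, y) ⟨ball_subset_closedBall hx, hy⟩)
          (norm_nonneg _)
      · rw [indicator_of_notMem hy, h0 x hx y hy, smul_zero, norm_zero]
  have hb : ∀ x₀ : E, ball (0 : E) (‖x₀‖ + 1) ∈ 𝓝 x₀ := fun x₀ =>
    isOpen_ball.mem_nhds (by simp)
  have m1 : ∀ x, Continuous fun y => Ψ (x, y) := fun x =>
    hΨ.continuous.comp (Continuous.prodMk_right x)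
  have m2 : ∀ x, Continuous fun y => D (x, y) := fun x => hD.comp (Continuous.prodMk_right x)
  have i2 : ∀ x, Integrable (fun y => u y • D (x, y)) μ := fun x => by
    obtain ⟨R, b, -, h, -⟩ := key x
    exact hu.integrable_smul_right_of_hasCompactSupport (m2 x)
      (HasCompactSupport.intro (isCompact_closedBall _ R) fun y hy => (h y hy).2)
  have hF : ∀ x, HasFDerivAt (fun x => ∫ y, u y * Ψ (x, y) ∂μ) (∫ y, u y • D (x, y) ∂μ) x := by
    intro x
    obtain ⟨R, b, h1, h, h2⟩ := key x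
    refine hasFDerivAt_integral_of_dominated_of_fderiv_le (F' := fun x y => u y • D (x, y)) (hb x)
      (Eventually.of_forall fun z => hm.mul (m1 z).aestronglyMeasurable) ?_
      (i2 x).aestronglyMeasurable (Eventually.of_forall fun y z hz => h2 z hz y) h1
      (Eventually.of_forall fun y z _ => (hd z y).const_mul (u y))
    exact hu.integrable_smul_right_of_hasCompactSupport (m1 x)
      (HasCompactSupport.intro (isCompact_closedBall _ R) fun y hy => (h y hy).1)
  refine ⟨contDiff_one_iff_fderiv.2 ⟨fun x => (hF x).differentiableAt, ?_⟩, fun x v => ?_⟩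
  · rw [funext fun x => (hF x).fderiv]
    refine continuous_iff_continuousAt.2 fun x => ?_
    obtain ⟨R, b, h1, -, h2⟩ := key x
    refine continuousAt_of_dominated (Eventually.of_forall fun z => (i2 z).aestronglyMeasurable)
      ?_ h1 (Eventually.of_forall fun y => ?_)
    · filter_upwards [hb x] with z hz using Eventually.of_forall (h2 z hz)
    · exact ((hD.comp (Continuous.prodMk_left y)).const_smul (u y)).continuousAt
  · rw [(hF x).fderiv, ContinuousLinearMap.integral_apply (i2 x)]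
    rfl

theorem diff_st : DiffSt H V := fun u Ψ hu hΨ hs => gen_RDiff volume u Ψ hu hΨ hs

end Pool.Agent.MP_1048c2_an.Cl

end

section
set_option linter.unusedSectionVars false
namespace Pool.Agent.MP_1048c2_an.Cl
open Filter Topology Set Module MeasureTheory Metric
open scoped InnerProductSpace ContDiff
variable {m k : ℕ} {H V : Type} [NormedAddCommGroup H] [InnerProductSpace ℝ H] [NormedAddCommGroup V] [InnerProductSpace ℝ V] [FiniteDimensional ℝ H] [FiniteDimensional ℝ V] [MeasurableSpace H] [BorelSpace H] [MeasurableSpace V] [BorelSpace V]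

theorem swap_RFub {g : H × V → ℝ} (hg : MemLp g ⊤ volume) {Φ : (H × V) × H × V → ℝ}
    (h1 : Continuous Φ) (h2 : HasCompactSupport Φ) :
    ∫ x, ∫ w, g w * Φ (x, w) = ∫ w, ∫ x, g w * Φ (x, w) := by
  obtain ⟨M, -, hM⟩ := bound_of_memLp hg
  refine integral_integral_swap (f := fun x w => g w * Φ (x, w)) ?_
  exact (h1.integrable_of_hasCompactSupport h2).bdd_mul (c := M) hg.1.comp_snd
    (Measure.quasiMeasurePreserving_snd.ae hM)

theorem cont_RFub (G : HeisenbergType m k H V) {g ψ : H × V → ℝ} (hg : MemLp g ⊤ volume)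
    (h1 : Continuous ψ) (h2 : HasCompactSupport ψ) : Continuous (cv G g ψ) := by
  refine continuous_iff_continuousAt.2 fun y => ?_
  have hK : IsCompact ((fun p : (H × V) × H × V => gm G p.1 p.2) '' (closedBall y 1 ×ˢ tsupport ψ)) :=
    ((isCompact_closedBall y 1).prod h2).image (continuous_gm G continuous_fst continuous_snd)
  have h3 := continuousOn_integral_bilinear_of_locally_integrable_of_compact_support
    (μ := (volume : Measure (H × V))) (ContinuousLinearMap.mul ℝ ℝ) (g := g)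
    (f := fun x w => ψ (gm G (-x) w)) (s := closedBall y 1) hK
    (h1.comp (continuous_gm G continuous_fst.neg continuous_snd)).continuousOn
    (fun p x hp hx => by_contra fun h => hx
      ⟨(p, gm G (-p) x), ⟨hp, subset_tsupport _ h⟩, gm_neg_gm G p x⟩)
    ((hg.locallyIntegrable le_top).integrableOn_isCompact hK)
  exact h3.continuousAt (closedBall_mem_nhds y one_pos)

theorem eq_RFub (G : HeisenbergType m k H V) {g ψ ρ : H × V → ℝ} (hg : MemLp g ⊤ volume)
    (h1 : Continuous ψ) (h2 : HasCompactSupport ψ) (h3 : Continuous ρ)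
    (h4 : HasCompactSupport ρ) :
    ∫ x, (∫ w, g w * ρ (gm G w (-x))) * ψ x = ∫ y, ρ y * cv G g ψ y := by
  have a1 := swap_RFub hg (Φ := fun p => ρ (gm G p.2 (-p.1)) * ψ p.1)
    ((h3.comp (continuous_gm G continuous_snd continuous_fst.neg)).mul (h1.comp continuous_fst))
    (HasCompactSupport.intro ((h4.isCompact.prod h2.isCompact).image
      (continuous_snd.prodMk (continuous_gm G continuous_fst continuous_snd))) fun p hp =>
        by_contra fun h => hp ⟨(gm G p.2 (-p.1), p.1), ⟨subset_tsupport _ (left_ne_zero_of_mul h),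
          subset_tsupport _ (right_ne_zero_of_mul h)⟩, by simp only [gm_neg_right]⟩)
  have a2 := swap_RFub hg (Φ := fun p => ρ p.1 * ψ (gm G (-p.1) p.2))
    ((h3.comp continuous_fst).mul (h1.comp (continuous_gm G continuous_fst.neg continuous_snd)))
    (HasCompactSupport.intro ((h4.isCompact.prod h2.isCompact).image
      (continuous_fst.prodMk (continuous_gm G continuous_fst continuous_snd))) fun p hp =>
        by_contra fun h => hp ⟨(p.1, gm G (-p.1) p.2), ⟨subset_tsupport _ (left_ne_zero_of_mul h),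
          subset_tsupport _ (right_ne_zero_of_mul h)⟩, by simp only [gm_neg_gm]⟩)
  have a3 : ∀ w, ∫ x, g w * (ρ (gm G w (-x)) * ψ x) = ∫ y, g w * (ρ y * ψ (gm G (-y) w)) := by
    intro w
    rw [← integral_right G w, ← integral_neg_eq_self]
    simp only [neg_gm_eq, neg_neg, gm_neg_gm]
  simp only [← integral_mul_const, mul_assoc, cv, ← integral_const_mul]
  rw [a1]
  simp only [a3]
  rw [← a2]
  simp only [mul_left_comm]

theorem fub_st (G : HeisenbergType m k H V) (hA : AISt H V) : FubSt G := by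
  intro g ψ ρ hg h1 h2 h3
  have a1 : ∀ n, ∫ x, (∫ w, g w * (ρ n).normed volume (gm G w (-x))) * ψ x =
      ∫ y, (ρ n).normed volume y * cv G g ψ y := fun n =>
    eq_RFub G hg h1 h2 (ρ n).continuous_normed (ρ n).hasCompactSupport_normed
  have a2 := ContDiffBump.convolution_tendsto_right_of_continuous (μ := (volume : Measure (H × V)))
    h3 ((cont_RFub G hg h1 h2).comp continuous_neg) 0
  simp only [a1]
  simpa [convolution, cv, zero_gm] using a2

end Pool.Agent.MP_1048c2_an.Cl

end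

section
/-!
Calculus with the gauge.
-/

set_option linter.unusedSectionVars false

namespace Pool.Agent.MP_1048c2_an.Cl

open Filter Topology Set Module MeasureTheory Metric
open scoped InnerProductSpace ContDiff

variable {m k : ℕ} {H V : Type} [NormedAddCommGroup H] [InnerProductSpace ℝ H]
  [NormedAddCommGroup V] [InnerProductSpace ℝ V] [FiniteDimensional ℝ H] [FiniteDimensional ℝ V]
  [MeasurableSpace H] [BorelSpace H] [MeasurableSpace V] [BorelSpace V]

theorem dN_RGam (x v : H × V) :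
    fderiv ℝ Nn x v = 4 * (‖x.1‖ ^ 2 * ⟪x.1, v.1⟫_ℝ) + 32 * ⟪x.2, v.2⟫_ℝ := by
  have h1 := (hasFDerivAt_fst (𝕜 := ℝ) (p := x)).norm_sq
  have h2 := (hasFDerivAt_snd (𝕜 := ℝ) (p := x)).norm_sq
  have h4 : (Nn : H × V → ℝ) = fun x => (‖x.1‖ ^ 2) ^ 2 + 16 * ‖x.2‖ ^ 2 := by
    funext x; rw [Nn]; ring
  have h5 : HasFDerivAt (fun x : H × V => (‖x.1‖ ^ 2) ^ 2 + 16 * ‖x.2‖ ^ 2) _ x :=
    (h1.pow 2).add (h2.const_mul 16)
  rw [h4, h5.fderiv]
  simp
  ring

variable (G : HeisenbergType m k H V)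

theorem XN_RGam (h : H) : XL G h Nn =
    fun x : H × V => 4 * (‖x.1‖ ^ 2 * ⟪x.1, h⟫_ℝ) + 16 * ⟪x.2, BL G x.1 h⟫_ℝ := by
  funext x
  rw [XL, dN_RGam, real_inner_smul_right]
  ring

theorem XN_RGam' (h : H) (x : H × V) :
    XL G h Nn x = ⟪(4 * ‖x.1‖ ^ 2) • x.1 + (16 : ℝ) • JL G x.2 x.1, h⟫_ℝ := by
  rw [XN_RGam, inner_add_left, real_inner_smul_left, real_inner_smul_left, inner_JL]
  ring

theorem YN_RGam (h : H) (x : H × V) :
    YR G h Nn x = ⟪(4 * ‖x.1‖ ^ 2) • x.1 + (-16 : ℝ) • JL G x.2 x.1, h⟫_ℝ := by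
  rw [YR, dN_RGam, inner_add_left, real_inner_smul_left, real_inner_smul_left, inner_JL,
    inner_neg_right, real_inner_smul_right]
  ring

theorem norm_w_RGam (c : ℝ) (hc : c ^ 2 = 256) (x : H × V) :
    ‖(4 * ‖x.1‖ ^ 2) • x.1 + c • JL G x.2 x.1‖ ^ 2 = 16 * ‖x.1‖ ^ 2 * Nn x := by
  have h2 := inner_J_self G x.2 x.1
  rw [real_inner_comm] at h2
  simp only [Nn, norm_add_sq_real, norm_smul, mul_pow, Real.norm_eq_abs, sq_abs, norm_J_sq,
    real_inner_smul_left, real_inner_smul_right, h2, hc]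
  ring

theorem bound_RGam {w h : H} {x : H × V} (hw : ‖w‖ ^ 2 = 16 * ‖x.1‖ ^ 2 * Nn x) :
    |⟪w, h⟫_ℝ| ≤ 4 * ‖h‖ * Nn x ^ (3 / 4 : ℝ) := by
  have hN := Nn_nonneg x
  obtain ⟨t, ht⟩ : ∃ t, t = Nn x ^ (1 / 4 : ℝ) := ⟨_, rfl⟩
  have t0 : 0 ≤ t := ht ▸ Real.rpow_nonneg hN _
  have t4 : t ^ 4 = Nn x := by
    rw [ht, ← Real.rpow_natCast, ← Real.rpow_mul hN]; norm_num
  have t3 : Nn x ^ (3 / 4 : ℝ) = t ^ 3 := by
    rw [ht, ← Real.rpow_natCast, ← Real.rpow_mul hN]; norm_num
  have h1 : ‖x.1‖ ≤ t := by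
    refine le_of_pow_le_pow_left₀ (n := 4) (by norm_num) t0 ?_
    rw [t4, Nn]
    linarith [sq_nonneg ‖x.2‖]
  have h2 : ‖w‖ ≤ 4 * t ^ 3 := by
    refine le_of_pow_le_pow_left₀ (n := 2) (by norm_num) (by positivity) ?_
    rw [hw, ← t4]
    calc 16 * ‖x.1‖ ^ 2 * t ^ 4 ≤ 16 * t ^ 2 * t ^ 4 := by gcongr
      _ = _ := by ring
  rw [t3]
  calc |⟪w, h⟫_ℝ| ≤ ‖w‖ * ‖h‖ := abs_real_inner_le_norm w h
    _ ≤ 4 * t ^ 3 * ‖h‖ := by gcongr
    _ = _ := by ring

theorem XXN_RGam (h : H) (x : H × V) : XL G h (XL G h Nn) x =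
    8 * ⟪x.1, h⟫_ℝ ^ 2 + 4 * ‖x.1‖ ^ 2 * ‖h‖ ^ 2 + 8 * ‖BL G x.1 h‖ ^ 2 := by
  have h0 := hasFDerivAt_fst (𝕜 := ℝ) (p := x)
  have h0' := hasFDerivAt_snd (𝕜 := ℝ) (p := x)
  have h5 : HasFDerivAt (fun x : H × V => 4 * (‖x.1‖ ^ 2 * ⟪x.1, h⟫_ℝ) +
      16 * ⟪x.2, BL G x.1 h⟫_ℝ) _ x :=
    ((h0.norm_sq.mul (h0.inner ℝ (hasFDerivAt_const h x))).const_mul 4).add
      ((h0'.inner ℝ (hasFDerivAt_B G h0 (hasFDerivAt_const h x))).const_mul 16)
  rw [XL, XN_RGam, h5.fderiv]
  simp [BL_self, real_inner_smul_left]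
  ring

theorem sumB_RGam (z : H) : ∑ i, ‖BL G z (G.e i)‖ ^ 2 = k * ‖z‖ ^ 2 := by
  have h1 : ∀ i, ‖BL G z (G.e i)‖ ^ 2 = ∑ l, ⟪G.e i, JL G (G.ε l) z⟫_ℝ ^ 2 := fun i => by
    rw [← G.ε.sum_sq_inner_right]
    exact Finset.sum_congr rfl fun l _ => by rw [← inner_JL, real_inner_comm]
  simp only [h1]
  rw [Finset.sum_comm]
  simp only [G.e.sum_sq_inner_right, norm_J_sq, G.ε.orthonormal.1]
  simp

theorem LapN_RGam (x : H × V) :
    ∑ i, XL G (G.e i) (XL G (G.e i) Nn) x = 4 * (homDim m k + 2) * ‖x.1‖ ^ 2 := by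
  have h3 : ∑ i, ⟪x.1, G.e i⟫_ℝ ^ 2 = ‖x.1‖ ^ 2 := G.e.sum_sq_inner_left x.1
  simp only [XXN_RGam, Finset.sum_add_distrib, ← Finset.mul_sum, h3, sumB_RGam,
    G.e.orthonormal.1, homDim]
  simp
  ring

theorem sqN_RGam (x : H × V) : ∑ i, XL G (G.e i) Nn x ^ 2 = 16 * ‖x.1‖ ^ 2 * Nn x := by
  simp only [XN_RGam']
  rw [G.e.sum_sq_inner_left, norm_w_RGam G 16 (by norm_num)]

theorem has_RGam {ε : ℝ} (hε : 0 < ε) (s : ℝ) (x : H × V) :
    HasFDerivAt (fun y : H × V => (Nn y + ε) ^ s)
      ((s * (Nn x + ε) ^ (s - 1)) • fderiv ℝ Nn x) x :=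
  (((contDiff_Nn (n := 1)).differentiable (by simp) x).hasFDerivAt.add_const ε).rpow_const
    (Or.inl (by linarith [Nn_nonneg x] : 0 < Nn x + ε).ne')

theorem Xp_RGam {ε : ℝ} (hε : 0 < ε) (s : ℝ) (h : H) :
    XL G h (fun y : H × V => (Nn y + ε) ^ s) =
      fun x => s * (Nn x + ε) ^ (s - 1) * XL G h Nn x := by
  funext x
  rw [XL, (has_RGam hε s x).fderiv, XL]
  rfl

theorem XXp_RGam {ε : ℝ} (hε : 0 < ε) (s : ℝ) (h : H) (x : H × V) :
    XL G h (XL G h fun y : H × V => (Nn y + ε) ^ s) x =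
      s * (Nn x + ε) ^ (s - 1) * XL G h (XL G h Nn) x +
        s * (s - 1) * (Nn x + ε) ^ (s - 1 - 1) * XL G h Nn x ^ 2 := by
  have h1 := (has_RGam hε (s - 1) x).const_mul s
  have h2 : XL G h (fun y : H × V => s * (Nn y + ε) ^ (s - 1)) x =
      s * ((s - 1) * (Nn x + ε) ^ (s - 1 - 1) * XL G h Nn x) := by
    rw [XL, h1.fderiv, XL]
    rfl
  rw [Xp_RGam G hε, XL_mul G h1.differentiableAt
    ((contDiff_XL G h contDiff_Nn).differentiable (by simp) x), h2]
  ring

theorem gam_st (G : HeisenbergType m k H V) : GamSt G := by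
  refine ⟨fun h y => ⟨?_, ?_⟩, fun ε hε y => ?_⟩
  · rw [XN_RGam']
    exact bound_RGam (norm_w_RGam G 16 (by norm_num) y)
  · rw [YN_RGam]
    exact bound_RGam (norm_w_RGam G (-16) (by norm_num) y)
  · have hp : 0 < Nn y + ε := by linarith [Nn_nonneg y]
    simp only [Lap, XXp_RGam G hε, Finset.sum_add_distrib, ← Finset.mul_sum, LapN_RGam, sqN_RGam]
    have e1 : -((homDim m k - 2) / 4) - 1 = -((homDim m k + 6) / 4) + 1 := by ring
    have e2 : -((homDim m k + 6) / 4) + 1 - 1 = -((homDim m k + 6) / 4) := by ring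
    rw [e1, e2, Real.rpow_add_one hp.ne']
    ring

end Pool.Agent.MP_1048c2_an.Cl

end

section
set_option linter.unusedSectionVars false

namespace Pool.Agent.MP_1048c2_an.Cl

open Filter Topology Set Module MeasureTheory Metric
open scoped InnerProductSpace ContDiff

variable {m k : ℕ} {H V : Type} [NormedAddCommGroup H] [InnerProductSpace ℝ H]
  [NormedAddCommGroup V] [InnerProductSpace ℝ V] [FiniteDimensional ℝ H] [FiniteDimensional ℝ V]
  [MeasurableSpace H] [BorelSpace H] [MeasurableSpace V] [BorelSpace V]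

/-- the vertical coefficients of a left invariant field -/
noncomputable def c_RIbp (G : HeisenbergType m k H V) (h : H) (l : Fin k) : H × V →L[ℝ] ℝ :=
  (innerSL ℝ (G.ε l)).comp (((1 / 2 : ℝ) • (BL G).flip h).comp (ContinuousLinearMap.fst ℝ H V))

theorem c_vert_RIbp (G : HeisenbergType m k H V) (h : H) (l : Fin k) (v : V) :
    c_RIbp G h l (0, v) = 0 := by simp [c_RIbp]

theorem XL_RIbp (G : HeisenbergType m k H V) (h : H) (φ : H × V → ℝ) (x : H × V) :
    XL G h φ x = fderiv ℝ φ x (h, 0) + ∑ l, c_RIbp G h l x * fderiv ℝ φ x (0, G.ε l) := by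
  have h1 : ((h, (1 / 2 : ℝ) • BL G x.1 h) : H × V) =
      (h, 0) + ∑ l, c_RIbp G h l x • ((0, G.ε l) : H × V) := by
    ext
    · simp [Prod.fst_sum]
    · have := G.ε.sum_repr' ((1 / 2 : ℝ) • BL G x.1 h)
      simpa [Prod.snd_sum, c_RIbp, real_inner_smul_right] using this.symm
  rw [XL, h1]
  simp only [map_add, map_sum, map_smul, smul_eq_mul]

theorem ibp_st (G : HeisenbergType m k H V) : IbpSt G := by
  intro W h u hW hu φ hφ
  have hφ1 : ContDiff ℝ 1 φ := hφ.1.of_le (by simp)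
  have hu1 : ∀ x ∈ tsupport φ, ContDiffAt ℝ 1 u x := fun x hx =>
    hu.contDiffAt (hW.mem_nhds (hφ.2.2 hx))
  have p0 := parts_Weak (μ := (volume : Measure (H × V))) hφ1 hφ.2.1 hu1 (h, 0)
  have p1 := fun l => parts_Weak (μ := (volume : Measure (H × V)))
    (W := fun x => c_RIbp G h l x * u x) hφ1 hφ.2.1
    (fun x hx => (c_RIbp G h l).contDiff.contDiffAt.mul (hu1 x hx)) (0, G.ε l)
  have e1 : ∀ x, u x * XL G h φ x = u x * fderiv ℝ φ x (h, 0) +
      ∑ l, c_RIbp G h l x * u x * fderiv ℝ φ x (0, G.ε l) := by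
    intro x
    rw [XL_RIbp, mul_add, Finset.mul_sum]
    congr 1
    exact Finset.sum_congr rfl fun l _ => by ring
  have e2 : ∀ x, XL G h u x * φ x = fderiv ℝ u x (h, 0) * φ x +
      ∑ l, fderiv ℝ (fun x => c_RIbp G h l x * u x) x (0, G.ε l) * φ x := by
    intro x
    by_cases hx : x ∈ tsupport φ
    · rw [XL_RIbp, add_mul, Finset.sum_mul]
      congr 1
      refine Finset.sum_congr rfl fun l _ => ?_
      rw [fderiv_fun_mul (c_RIbp G h l).differentiableAt
        ((hu1 x hx).differentiableAt (by simp)), ContinuousLinearMap.fderiv]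
      simp [c_vert_RIbp]
    · simp [image_eq_zero_of_notMem_tsupport hx]
  simp only [e1, e2]
  rw [integral_add p0.1 (integrable_finsetSum _ fun l _ => (p1 l).1),
    integral_add p0.2.1 (integrable_finsetSum _ fun l _ => (p1 l).2.1),
    integral_finsetSum _ fun l _ => (p1 l).1, integral_finsetSum _ fun l _ => (p1 l).2.1,
    p0.2.2, Finset.sum_congr rfl fun l _ => (p1 l).2.2, Finset.sum_neg_distrib, neg_add]

end Pool.Agent.MP_1048c2_an.Cl

end

section
/-!
Regularity of weak solutions: local integrability of a power of the gauge.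
-/

set_option linter.unusedSectionVars false

namespace Pool.Agent.MP_1048c2_an.Cl

open Filter Topology Set Module MeasureTheory Metric
open scoped InnerProductSpace ContDiff

variable {m k : ℕ} {H V : Type} [NormedAddCommGroup H] [InnerProductSpace ℝ H]
  [NormedAddCommGroup V] [InnerProductSpace ℝ V] [FiniteDimensional ℝ H] [FiniteDimensional ℝ V]
  [MeasurableSpace H] [BorelSpace H] [MeasurableSpace V] [BorelSpace V]

theorem loc_RInt (h : 1 ≤ finrank ℝ H) {α : ℝ} (hα : α < finrank ℝ H) (δ : ℝ) :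
    IntegrableOn (fun x : H => ‖x‖ ^ (-α)) (closedBall 0 δ) := by
  have : LocallyIntegrable (fun x : H => ‖x‖ ^ (-α)) volume :=
    locallyIntegrable_of_norm_le_rpow (C := 1) h hα
      (Eventually.of_forall fun x => by
        rw [one_mul, Real.norm_of_nonneg (by positivity)])
      (Measurable.aestronglyMeasurable (by fun_prop))
  exact this.integrableOn_isCompact (isCompact_closedBall _ _)

theorem pow_RInt {N x a : ℝ} {n : ℕ} (hx : 0 < x) (h : x ^ n ≤ N) (ha : 0 ≤ a) :
    N ^ (-a) ≤ x ^ (-(n * a)) := by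
  refine (Real.rpow_le_rpow_of_nonpos (by positivity) h (by linarith)).trans_eq ?_
  rw [← Real.rpow_natCast, ← Real.rpow_mul hx.le, mul_neg]

theorem int_st : IntSt m k H V := by
  intro hm hk m0 k0 δ
  have m1 : (1 : ℝ) ≤ m := by exact_mod_cast m0
  have k1 : (1 : ℝ) ≤ k := by exact_mod_cast k0
  have : Nontrivial H := Module.nontrivial_of_finrank_pos (R := ℝ) (by omega)
  have : Nontrivial V := Module.nontrivial_of_finrank_pos (R := ℝ) (by omega)
  have i1 := loc_RInt (H := H) (by omega) (α := m - 1 / 2) (by rw [hm]; linarith) δ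
  have i2 := loc_RInt (H := V) (by omega) (α := k - 1 / 4) (by rw [hk]; linarith) δ
  have i3 := Integrable.mul_prod i1 i2
  rw [Measure.prod_restrict, closedBall_prod_same] at i3
  refine Integrable.mono' i3 (Measurable.aestronglyMeasurable ?_) (ae_restrict_of_ae ?_)
  · unfold Nn
    fun_prop
  · have a1 : ∀ᵐ y : H × V, y.1 ≠ 0 :=
      Measure.quasiMeasurePreserving_fst.ae (μa := (volume : Measure H).prod (volume : Measure V))
        (p := fun x => x ≠ 0) (by simp [ae_iff])
    have a2 : ∀ᵐ y : H × V, y.2 ≠ 0 :=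
      Measure.quasiMeasurePreserving_snd.ae (μa := (volume : Measure H).prod (volume : Measure V))
        (p := fun x => x ≠ 0) (by simp [ae_iff])
    filter_upwards [a1, a2] with y h1 h2
    have p1 : 0 < ‖y.1‖ := norm_pos_iff.2 h1
    have p2 : 0 < ‖y.2‖ := norm_pos_iff.2 h2
    have n0 : 0 < Nn y := by unfold Nn; positivity
    have b1 : ‖y.1‖ ^ 4 ≤ Nn y := by unfold Nn; nlinarith [sq_nonneg ‖y.2‖]
    have b2 : ‖y.2‖ ^ 2 ≤ Nn y := by unfold Nn; nlinarith [sq_nonneg ‖y.2‖, pow_pos p1 4]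
    have c1 := pow_RInt p1 b1 (a := (m - 1 / 2) / 4) (by linarith)
    have c2 := pow_RInt p2 b2 (a := (k - 1 / 4) / 2) (by linarith)
    have e : -((homDim m k - 1) / 4) = -(((m : ℝ) - 1 / 2) / 4) + -(((k : ℝ) - 1 / 4) / 2) := by
      unfold homDim
      ring
    have e1 : ((4 : ℕ) : ℝ) * (((m : ℝ) - 1 / 2) / 4) = m - 1 / 2 := by push_cast; ring
    have e2 : ((2 : ℕ) : ℝ) * (((k : ℝ) - 1 / 4) / 2) = k - 1 / 4 := by push_cast; ring
    rw [e1] at c1
    rw [e2] at c2
    rw [Real.norm_of_nonneg (by positivity), e, Real.rpow_add n0]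
    exact mul_le_mul c1 c2 (by positivity) (by positivity)

end Pool.Agent.MP_1048c2_an.Cl

end
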