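import Pool.Agent.MP_1048c2_an.Mg.A

section
set_option linter.unusedSectionVars false

namespace Pool.Agent.MP_1048c2_an.Cl

open Filter Topology Set Module MeasureTheory Metric
open scoped InnerProductSpace ContDiff

variable {m k : ℕ} {H V : Type} [NormedAddCommGroup H] [InnerProductSpace ℝ H]
  [NormedAddCommGroup V] [InnerProductSpace ℝ V] [FiniteDimensional ℝ H] [FiniteDimensional ℝ V]
  [MeasurableSpace H] [BorelSpace H] [MeasurableSpace V] [BorelSpace V]

theorem cd_gam_RKer {ε : ℝ} (hε : 0 < ε) (s : ℝ) :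
    ContDiff ℝ ∞ fun y : H × V => (Nn y + ε) ^ s :=
  (contDiff_Nn.add contDiff_const).rpow_const_of_ne fun y => by
    have := Nn_nonneg y
    positivity

theorem xl_gam_RKer (G : HeisenbergType m k H V) {ε : ℝ} (hε : 0 < ε) (s : ℝ) (h : H)
    (y : H × V) : XL G h (fun y => (Nn y + ε) ^ (-s)) y =
      -s * (Nn y + ε) ^ (-(s + 1)) * XL G h Nn y := by
  have h1 : HasFDerivAt (Nn : H × V → ℝ) (fderiv ℝ Nn y) y :=
    ((contDiff_Nn (n := 1)).differentiable (by simp) y).hasFDerivAt
  have h2 : Nn y + ε ≠ 0 := by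
    have := Nn_nonneg y
    positivity
  rw [XL, ((h1.add_const ε).rpow_const (p := -s) (Or.inl h2)).fderiv, XL,
    show -s - 1 = -(s + 1) by ring]
  rfl

theorem xl_add_RKer (G : HeisenbergType m k H V) (h : H) {u v : H × V → ℝ}
    (hu : ContDiff ℝ ∞ u) (hv : ContDiff ℝ ∞ v) :
    XL G h (fun y => u y + v y) = fun y => XL G h u y + XL G h v y := by
  funext y
  rw [XL, fderiv_fun_add (hu.differentiable (by simp) y) (hv.differentiable (by simp) y)]
  rfl

theorem yr_add_RKer (G : HeisenbergType m k H V) (h : H) {u v : H × V → ℝ}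
    (hu : ContDiff ℝ ∞ u) (hv : ContDiff ℝ ∞ v) :
    YR G h (fun y => u y + v y) = fun y => YR G h u y + YR G h v y := by
  funext y
  rw [YR, fderiv_fun_add (hu.differentiable (by simp) y) (hv.differentiable (by simp) y)]
  rfl

theorem lap_mul_RKer (G : HeisenbergType m k H V) {u v : H × V → ℝ} (hu : ContDiff ℝ ∞ u)
    (hv : ContDiff ℝ ∞ v) (x : H × V) :
    Lap G (fun y => u y * v y) x = u x * Lap G v x +
      2 * ∑ i, XL G (G.e i) u x * XL G (G.e i) v x + Lap G u x * v x := by
  have d : ∀ {w : H × V → ℝ}, ContDiff ℝ ∞ w → ∀ y, DifferentiableAt ℝ w y :=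
    fun hw y => hw.differentiable (by simp) y
  simp only [Lap, Finset.mul_sum, Finset.sum_mul, ← Finset.sum_add_distrib]
  refine Finset.sum_congr rfl fun i _ => ?_
  have h1 : XL G (G.e i) (fun y => u y * v y) =
      fun y => u y * XL G (G.e i) v y + XL G (G.e i) u y * v y :=
    funext fun y => XL_mul G (d hu y) (d hv y)
  rw [h1, xl_add_RKer G _ (hu.mul (contDiff_XL G _ hv)) ((contDiff_XL G _ hu).mul hv)]
  simp only
  rw [XL_mul G (d hu x) (d (contDiff_XL G _ hv) x), XL_mul G (d (contDiff_XL G _ hu) x) (d hv x)]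
  ring

theorem xl_ev_RKer (G : HeisenbergType m k H V) (h : H) {u : H × V → ℝ} {c : ℝ} {x : H × V}
    (hu : u =ᶠ[𝓝 x] fun _ => c) : XL G h u =ᶠ[𝓝 x] fun _ => 0 := by
  filter_upwards [hu.eventuallyEq_nhds] with y hy
  rw [XL_congr G hy]
  simp [XL]

theorem tsupp_RKer {f : H × V → ℝ} {δ : ℝ} (h : ∀ y ∉ closedBall (0 : H × V) δ, f y = 0) :
    tsupport f ⊆ closedBall 0 δ :=
  closure_minimal (fun y hy => by_contra fun h' => hy (h y h')) isClosed_closedBall

theorem hcs_RKer {f : H × V → ℝ} {δ : ℝ} (h : tsupport f ⊆ closedBall 0 δ) :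
    HasCompactSupport f :=
  (isCompact_closedBall _ _).of_isClosed_subset (isClosed_tsupport _) h

theorem int_lap_RKer (G : HeisenbergType m k H V) (hI : IbpSt G) {φ : H × V → ℝ}
    (hφ : Tst univ φ) : Integrable (Lap G φ) ∧ ∫ x, Lap G φ x = 0 := by
  have h1 : ∀ i, Integrable (XL G (G.e i) (XL G (G.e i) φ)) := fun i =>
    ((hφ.xl G _).xl G _).1.continuous.integrable_of_hasCompactSupport ((hφ.xl G _).xl G _).2.1
  refine ⟨integrable_finsetSum _ fun i _ => h1 i, ?_⟩
  unfold Lap
  rw [integral_finsetSum _ fun i _ => h1 i]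
  refine Finset.sum_eq_zero fun i _ => ?_
  have h2 := hI univ (G.e i) (fun _ => 1) isOpen_univ contDiffOn_const _ (hφ.xl G (G.e i))
  have h3 : XL G (G.e i) (fun _ => (1 : ℝ)) = fun _ => 0 := by
    funext y
    simp [XL]
  simpa [h3] using h2

theorem lim_int_RKer {κ : ℕ → H × V → ℝ} {κ' : H × V → ℝ} (h : Lim κ κ') :
    Tendsto (fun n => ∫ y, κ n y) atTop (𝓝 (∫ y, κ' y)) := by
  refine tendsto_iff_norm_sub_tendsto_zero.2 (squeeze_zero (fun _ => norm_nonneg _)
    (fun n => ?_) h.2.2)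
  rw [← integral_sub (h.1 n) h.2.1]
  exact abs_integral_le_integral_abs

theorem cnv_add_RKer {δ : ℝ} {a b : ℕ → H × V → ℝ} (ha : Cnv δ a) (hb : Cnv δ b) :
    Cnv δ fun n y => a n y + b n y := by
  obtain ⟨a', a1, a2, a3, a4⟩ := ha
  obtain ⟨b', b1, b2, b3, b4⟩ := hb
  refine ⟨fun y => a' y + b' y,
    ⟨a3.add b3, fun y hy => by simp only [a1.2 y hy, b1.2 y hy, add_zero]⟩,
    fun n => (a2 n).add (b2 n), a3.add b3, ?_⟩
  have h1 := a4.add b4
  rw [add_zero] at h1
  refine squeeze_zero (fun _ => integral_nonneg fun _ => abs_nonneg _) (fun n => ?_) h1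
  have i1 : Integrable fun y => |a n y - a' y| := ((a2 n).sub a3).abs
  have i2 : Integrable fun y => |b n y - b' y| := ((b2 n).sub b3).abs
  rw [← integral_add i1 i2]
  refine integral_mono_of_nonneg (Eventually.of_forall fun _ => abs_nonneg _) (i1.add i2)
    (Eventually.of_forall fun y => ?_)
  show |a n y + b n y - (a' y + b' y)| ≤ |a n y - a' y| + |b n y - b' y|
  rw [add_sub_add_comm]
  exact abs_add_le _ _

theorem int_sing_RKer {α : H × V → ℝ} {δ : ℝ} (h1 : Continuous α)
    (h2 : tsupport α ⊆ closedBall 0 δ) (h3 : α =ᶠ[𝓝 0] 0) (s : ℝ) :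
    Integrable fun y => α y * Nn y ^ s := by
  refine Continuous.integrable_of_hasCompactSupport (continuous_iff_continuousAt.2 fun y => ?_)
    (hcs_RKer h2).mul_right
  by_cases hy : y = 0
  · subst hy
    refine (continuousAt_const (y := (0 : ℝ))).congr ?_
    filter_upwards [h3] with z hz
    rw [hz, Pi.zero_apply, zero_mul]
  · exact h1.continuousAt.mul
      (((contDiff_Nn (n := 0)).continuous.continuousAt).rpow_const (Or.inl (Nn_pos hy).ne'))

theorem low_RKer {r : ℝ} (hr : 0 < r) :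
    ∃ a : ℝ, 0 < a ∧ ∀ y ∉ ball (0 : H × V) r, a ≤ Nn y := by
  refine ⟨min (r ^ 4) (16 * r ^ 2), by positivity, fun y hy => ?_⟩
  rw [mem_ball_zero_iff, not_lt, Prod.norm_def, le_max_iff] at hy
  have h1 : 0 ≤ ‖y.1‖ ^ 4 := by positivity
  have h2 : 0 ≤ ‖y.2‖ ^ 2 := by positivity
  unfold Nn
  rcases hy with hy | hy
  · have := pow_le_pow_left₀ hr.le hy 4
    exact (min_le_left _ _).trans (by linarith)
  · have := pow_le_pow_left₀ hr.le hy 2
    exact (min_le_right _ _).trans (by linarith)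

theorem ker_st (G : HeisenbergType m k H V) (hG : GamSt G) (hL : LowSt m k H V) (hC : CnvSt H V)
    (hD : DerSt G) (hI : IbpSt G) : KerSt G := by
  intro hk δ hδ
  have hm := m_pos G hk
  have hQ : 3 ≤ homDim m k := by
    have h1 : (1 : ℝ) ≤ m := by exact_mod_cast hm
    have h2 : (1 : ℝ) ≤ k := by exact_mod_cast hk
    unfold homDim
    linarith
  have hV : Nontrivial V := nontrivial_of_finrank_pos (R := ℝ) (by rw [finrank_V G]; exact hk)
  obtain ⟨c₀, hc₀, hL⟩ := hL (finrank_H G) (finrank_V G) hm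
  obtain ⟨η, η1, η2, η3, η4⟩ : ∃ η : H × V → ℝ, ContDiff ℝ ∞ η ∧ tsupport η ⊆ closedBall 0 δ ∧
      (∀ y, 0 ≤ η y) ∧ ∀ y ∈ ball (0 : H × V) (δ / 2), η y = 1 := by
    let b : ContDiffBump (0 : H × V) := ⟨δ / 2, δ, by positivity, by linarith⟩
    exact ⟨b, b.contDiff, b.tsupport_eq.le, fun y => b.nonneg,
      fun y hy => b.one_of_mem_closedBall (ball_subset_closedBall hy)⟩
  have η5 : η =ᶠ[𝓝 0] fun _ => 1 :=
    eventually_of_mem (ball_mem_nhds _ (by positivity : 0 < δ / 2)) η4
  obtain ⟨t, t0, t1, t2, t3⟩ : ∃ t : ℕ → ℝ, (∀ n, 0 < t n) ∧ (∀ n, t n ≤ 1) ∧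
      (∀ n, 2 * t n ≤ δ / 2) ∧ Tendsto (fun n => t n ^ 4) atTop (𝓝 0) := by
    have h0 : 0 < min 1 (δ / 4) := by positivity
    have h1 : ∀ n : ℕ, min 1 (δ / 4) * (1 / ((n : ℝ) + 1)) ≤ min 1 (δ / 4) := fun n =>
      mul_le_of_le_one_right h0.le ((div_le_one (by positivity)).2
        (le_add_of_nonneg_left (Nat.cast_nonneg n)))
    refine ⟨fun n => min 1 (δ / 4) * (1 / ((n : ℝ) + 1)), fun n => by positivity,
      fun n => (h1 n).trans (min_le_left _ _), fun n => ?_, ?_⟩
    · have := (h1 n).trans (min_le_right _ _)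
      linarith
    · have := ((tendsto_one_div_add_atTop_nhds_zero_nat (𝕜 := ℝ)).const_mul
        (min 1 (δ / 4))).pow 4
      simpa using this
  have e0 : ∀ n, 0 < t n ^ 4 := fun n => pow_pos (t0 n) 4
  set q : ℝ := (homDim m k - 2) / 4 with hq
  have q0 : 0 ≤ q := by rw [hq]; linarith
  set c₁ : ℝ := (homDim m k - 2) * (homDim m k + 2) with hc₁
  have c1 : 0 < c₁ := mul_pos (by linarith) (by linarith)
  set s : ℝ := (homDim m k + 6) / 4 with hs
  have s0 : 0 ≤ s := by rw [hs]; linarith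
  obtain ⟨α, hα⟩ : ∃ α : H × V → ℝ,
      α = fun y => -2 * q * ∑ i, XL G (G.e i) η y * XL G (G.e i) Nn y := ⟨_, rfl⟩
  have α1 : ContDiff ℝ ∞ α := by
    rw [hα]
    exact contDiff_const.mul (ContDiff.sum fun i _ =>
      (contDiff_XL G _ η1).mul (contDiff_XL G _ contDiff_Nn))
  have α2 : tsupport α ⊆ closedBall 0 δ := tsupp_RKer fun y hy => by
    simp only [hα, XL_of_notMem G fun h => hy (η2 h), zero_mul, Finset.sum_const_zero, mul_zero]
  have α3 : α =ᶠ[𝓝 0] 0 := by
    filter_upwards [eventually_all.2 fun i => xl_ev_RKer G (G.e i) η5] with y hy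
    simp only [hα, hy, zero_mul, Finset.sum_const_zero, mul_zero, Pi.zero_apply]
  have β1 : ContDiff ℝ ∞ (Lap G η) :=
    contDiffOn_univ.1 (contDiffOn_Lap G isOpen_univ η1.contDiffOn)
  have β2 : tsupport (Lap G η) ⊆ closedBall 0 δ := tsupp_RKer fun y hy =>
    Finset.sum_eq_zero fun i _ => XL_of_notMem G fun h => hy (η2 (tsupport_XL G _ _ h))
  have β3 : Lap G η =ᶠ[𝓝 0] 0 := by
    filter_upwards [eventually_all.2 fun i => xl_ev_RKer G (G.e i) (xl_ev_RKer G (G.e i) η5)]
      with y hy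
    exact Finset.sum_eq_zero fun i _ => hy i
  have K1 : ∀ n, ContDiff ℝ ∞ fun y : H × V => η y * (Nn y + t n ^ 4) ^ (-q) :=
    fun n => η1.mul (cd_gam_RKer (e0 n) _)
  have K2 : ∀ n, tsupport (fun y : H × V => η y * (Nn y + t n ^ 4) ^ (-q)) ⊆ closedBall 0 δ :=
    fun n => tsupport_mul_subset_left.trans η2
  have A1 : ∀ n, ContDiff ℝ ∞ fun y : H × V => α y * (Nn y + t n ^ 4) ^ (-(q + 1)) :=
    fun n => α1.mul (cd_gam_RKer (e0 n) _)
  have B1 : ∀ n, ContDiff ℝ ∞ fun y : H × V => Lap G η y * (Nn y + t n ^ 4) ^ (-q) :=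
    fun n => β1.mul (cd_gam_RKer (e0 n) _)
  have P0 : ∀ n (y : H × V), 0 ≤ η y * (c₁ * (t n ^ 4 * ‖y.1‖ ^ 2 * (Nn y + t n ^ 4) ^ (-s))) :=
    fun n y => by
      have h1 := Nn_nonneg y
      have h2 := e0 n
      have h3 := η3 y
      positivity
  have P1 : ∀ n, Integrable fun y : H × V =>
      η y * (c₁ * (t n ^ 4 * ‖y.1‖ ^ 2 * (Nn y + t n ^ 4) ^ (-s))) := fun n =>
    Continuous.integrable_of_hasCompactSupport (η1.continuous.mul (continuous_const.mul
      ((continuous_const.mul (continuous_fst.norm.pow 2)).mul (cd_gam_RKer (e0 n) _).continuous)))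
      (hcs_RKer η2).mul_right
  have P2 : ∀ n (y : H × V), η y * (c₁ * (t n ^ 4 * ‖y.1‖ ^ 2 * (Nn y + t n ^ 4) ^ (-s))) =
      α y * (Nn y + t n ^ 4) ^ (-(q + 1)) + Lap G η y * (Nn y + t n ^ 4) ^ (-q) -
        Lap G (fun y => η y * (Nn y + t n ^ 4) ^ (-q)) y := fun n y => by
    rw [lap_mul_RKer G η1 (cd_gam_RKer (e0 n) _), hG.2 _ (e0 n), hα]
    simp only [xl_gam_RKer G (e0 n)]
    have : ∑ i, XL G (G.e i) η y * (-q * (Nn y + t n ^ 4) ^ (-(q + 1)) * XL G (G.e i) Nn y) =
        -q * (Nn y + t n ^ 4) ^ (-(q + 1)) * ∑ i, XL G (G.e i) η y * XL G (G.e i) Nn y := by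
      rw [Finset.mul_sum]
      exact Finset.sum_congr rfl fun i _ => by ring
    rw [this]
    ring
  have LA := hC α (q + 1) _ hV (by linarith) e0 t3 α1.continuous
    (int_sing_RKer α1.continuous α2 α3 _)
  have LB := hC (Lap G η) q _ hV q0 e0 t3 β1.continuous (int_sing_RKer β1.continuous β2 β3 _)
  have T : Tendsto (fun n => ∫ y : H × V,
      η y * (c₁ * (t n ^ 4 * ‖y.1‖ ^ 2 * (Nn y + t n ^ 4) ^ (-s)))) atTop
      (𝓝 ((∫ y, α y * Nn y ^ (-(q + 1))) + ∫ y, Lap G η y * Nn y ^ (-q))) := by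
    refine ((lim_int_RKer LA).add (lim_int_RKer LB)).congr fun n => ?_
    obtain ⟨h1, h2⟩ := int_lap_RKer G hI ⟨K1 n, hcs_RKer (K2 n), subset_univ _⟩
    have h3 : Integrable fun y : H × V =>
        α y * (Nn y + t n ^ 4) ^ (-(q + 1)) + Lap G η y * (Nn y + t n ^ 4) ^ (-q) :=
      (LA.1 n).add (LB.1 n)
    simp only [P2]
    rw [integral_sub h3 h1, h2, sub_zero, integral_add (LA.1 n) (LB.1 n)]
  refine ⟨fun n y => η y * (Nn y + t n ^ 4) ^ (-q),
    fun n y => α y * (Nn y + t n ^ 4) ^ (-(q + 1)) + Lap G η y * (Nn y + t n ^ 4) ^ (-q),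
    fun n y => η y * (c₁ * (t n ^ 4 * ‖y.1‖ ^ 2 * (Nn y + t n ^ 4) ^ (-s))), _, ?_,
    fun n => ⟨K1 n, (A1 n).add (B1 n), K2 n, tsupp_RKer fun y hy => ?_, P1 n,
      fun y => ⟨P0 n y, P2 n y⟩⟩, T, fun r hr => ?_, fun h => ?_⟩
  · refine (mul_pos c1 hc₀).trans_le (ge_of_tendsto' T fun n => ?_)
    refine le_trans ?_ (setIntegral_le_integral (s := ball 0 (2 * t n)) (P1 n)
      (Eventually.of_forall (P0 n)))
    refine (mul_le_mul_of_nonneg_left (hL (t n) (t0 n) (t1 n)) c1.le).trans (le_of_eq ?_)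
    rw [← integral_const_mul]
    refine setIntegral_congr_fun measurableSet_ball fun y hy => ?_
    simp only [η4 y (ball_subset_ball (t2 n) hy), one_mul]
  · simp only [image_eq_zero_of_notMem_tsupport fun h => hy (α2 h),
      image_eq_zero_of_notMem_tsupport fun h => hy (β2 h), zero_mul, add_zero]
  · obtain ⟨a, a0, ha⟩ := low_RKer (H := H) (V := V) hr
    have I1 : Integrable fun y : H × V => η y * (c₁ * (‖y.1‖ ^ 2 * a ^ (-s))) :=
      (η1.continuous.mul (continuous_const.mul ((continuous_fst.norm.pow 2).mul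
        continuous_const))).integrable_of_hasCompactSupport (hcs_RKer η2).mul_right
    have h1 := t3.mul_const (∫ y in (ball (0 : H × V) r)ᶜ, η y * (c₁ * (‖y.1‖ ^ 2 * a ^ (-s))))
    rw [zero_mul] at h1
    refine squeeze_zero (fun n => integral_nonneg (P0 n)) (fun n => ?_) h1
    rw [← integral_const_mul]
    refine setIntegral_mono_on (P1 n).integrableOn (I1.const_mul _).integrableOn
      measurableSet_ball.compl fun y hy => ?_
    have h2 : (Nn y + t n ^ 4) ^ (-s) ≤ a ^ (-s) :=
      Real.rpow_le_rpow_of_nonpos a0 (by linarith [ha y hy, e0 n]) (by linarith)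
    have h3 := η3 y
    have h4 := e0 n
    calc η y * (c₁ * (t n ^ 4 * ‖y.1‖ ^ 2 * (Nn y + t n ^ 4) ^ (-s)))
        ≤ η y * (c₁ * (t n ^ 4 * ‖y.1‖ ^ 2 * a ^ (-s))) := by gcongr
      _ = _ := by ring
  · have h1 := hD η q δ _ h hk q0 e0 t3 η1 η2 (Or.inl le_rfl)
    have h2 := hD α (q + 1) δ _ h hk (by linarith) e0 t3 α1 α2 (Or.inr α3)
    have h3 := hD (Lap G η) q δ _ h hk q0 e0 t3 β1 β2 (Or.inr β3)
    refine ⟨h1.1, h1.2, ?_, ?_⟩
    · simp only [xl_add_RKer G h (A1 _) (B1 _)]
      exact cnv_add_RKer h2.1 h3.1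
    · simp only [yr_add_RKer G h (A1 _) (B1 _)]
      exact cnv_add_RKer h2.2 h3.2

end Pool.Agent.MP_1048c2_an.Cl

end

section
set_option linter.unusedSectionVars false

namespace Pool.Agent.MP_1048c2_an.Cl

open Filter Topology Set Module MeasureTheory Metric
open scoped InnerProductSpace ContDiff

variable {m k : ℕ} {H V : Type} [NormedAddCommGroup H] [InnerProductSpace ℝ H]
  [NormedAddCommGroup V] [InnerProductSpace ℝ V] [FiniteDimensional ℝ H] [FiniteDimensional ℝ V]
  [MeasurableSpace H] [BorelSpace H] [MeasurableSpace V] [BorelSpace V]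

theorem smul_RLim {E : Type} [NormedAddCommGroup E] [NormedSpace ℝ E] {s : Set (H × V)}
    (hs : Bornology.IsBounded s) {a : ℕ → H × V → ℝ} {A : H × V → ℝ} {l : H × V → E}
    (hl : Continuous l) (h : TendstoUniformlyOn a A atTop s) :
    TendstoUniformlyOn (fun n x => a n x • l x) (fun x => A x • l x) atTop s := by
  obtain ⟨C, hC⟩ := hs.isCompact_closure.exists_bound_of_continuousOn hl.continuousOn
  rw [Metric.tendstoUniformlyOn_iff] at h ⊢
  intro ε hε
  have h0 : 0 < |C| + 1 := by positivity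
  filter_upwards [h (ε / (|C| + 1)) (by positivity)] with n hn x hx
  have h1 := hn x hx
  rw [dist_eq_norm] at h1 ⊢
  rw [← sub_smul, norm_smul]
  rw [lt_div_iff₀ h0] at h1
  refine lt_of_le_of_lt (mul_le_mul_of_nonneg_left ?_ (norm_nonneg _)) h1
  linarith [hC x (subset_closure hx), le_abs_self C]

theorem sum_RLim {E : Type} [NormedAddCommGroup E] {s : Set (H × V)} {a : Fin m → ℕ → H × V → E}
    {A : Fin m → H × V → E} (h : ∀ i, TendstoUniformlyOn (a i) (A i) atTop s)
    (t : Finset (Fin m)) :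
    TendstoUniformlyOn (fun n x => ∑ i ∈ t, a i n x) (fun x => ∑ i ∈ t, A i x) atTop s := by
  induction t using Finset.induction_on with
  | empty =>
    simp only [Finset.sum_empty]
    exact Metric.tendstoUniformlyOn_iff.2 fun ε hε => Eventually.of_forall fun _ _ _ => by
      simpa using hε
  | insert i t hi ih =>
    simp only [Finset.sum_insert hi]
    exact (h i).add ih

theorem lim_st (G : HeisenbergType m k H V) : LimSt G := by
  intro s F f A B hk hs hb hF hf hA hB
  let l₁ : Fin m → H × V →L[ℝ] ℝ := fun i => innerSL ℝ (G.e i) ∘L ContinuousLinearMap.fst ℝ H V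
  let l₂ : Fin m → Fin m → H × V → H × V →L[ℝ] ℝ := fun i j x =>
    (m : ℝ)⁻¹ • (innerSL ℝ (G.e j) ∘L (JL G).flip (G.e i) ∘L (ContinuousLinearMap.snd ℝ H V -
      (1 / 2 : ℝ) • (BL G x.1 ∘L ContinuousLinearMap.fst ℝ H V)))
  have c₂ : ∀ i j, Continuous (l₂ i j) := fun i j =>
    (continuous_const.clm_comp (continuous_const.clm_comp (continuous_const.sub
      ((((BL G).continuous.comp continuous_fst).clm_comp continuous_const).const_smul
        (1 / 2 : ℝ))))).const_smul (m : ℝ)⁻¹
  have e : (fun n x => fderiv ℝ (F n) x) = fun n x => ∑ i, XL G (G.e i) (F n) x • l₁ i +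
      ∑ i, ∑ j, fderiv ℝ (F n) x (0, BL G (G.e i) (G.e j)) • l₂ i j x := by
    funext n x
    refine ContinuousLinearMap.ext fun v => ?_
    rw [frame G hk _ x.1 v]
    simp only [_root_.add_apply, _root_.sum_apply, _root_.smul_apply, smul_eq_mul, l₁, l₂, XL,
      ContinuousLinearMap.comp_apply, innerSL_apply_apply, ContinuousLinearMap.flip_apply,
      _root_.sub_apply,
      ContinuousLinearMap.coe_fst', ContinuousLinearMap.coe_snd']
    congr 1
    · exact Finset.sum_congr rfl fun i _ => mul_comm _ _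
    · refine Finset.sum_congr rfl fun i _ => Finset.sum_congr rfl fun j _ => ?_
      rw [real_inner_comm]
      ring
  obtain ⟨D, hD⟩ : ∃ D, TendstoUniformlyOn (fun n x => fderiv ℝ (F n) x) D atTop s := by
    have a1 := sum_RLim (fun i => smul_RLim (E := H × V →L[ℝ] ℝ) (l := fun _ => l₁ i) hb
      continuous_const (hA i)) Finset.univ
    have a2 := sum_RLim (fun i => sum_RLim (fun j => smul_RLim (E := H × V →L[ℝ] ℝ) hb (c₂ i j)
      (hB i j)) Finset.univ) Finset.univ
    rw [e]
    exact ⟨_, a1.add a2⟩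
  have h1 : ∀ x ∈ s, HasFDerivAt f (D x) x := fun x hx =>
    hasFDerivAt_of_tendstoUniformlyOn hs hD
      (fun n y _ => ((hF n).differentiable one_ne_zero y).hasFDerivAt) hf hx
  have h2 : ContinuousOn D s := hD.continuousOn
    (Frequently.of_forall fun n => ((hF n).continuous_fderiv one_ne_zero).continuousOn)
  have h3 : ∀ x ∈ s, ∀ v, Tendsto (fun n => fderiv ℝ (F n) x v) atTop (𝓝 (fderiv ℝ f x v)) :=
    fun x hx v => by
      rw [(h1 x hx).fderiv]
      exact ((ContinuousLinearMap.apply ℝ ℝ v).continuous.tendsto _).comp (hD.tendsto_at hx)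
  refine ⟨?_, fun x hx => ⟨fun i => tendsto_nhds_unique (h3 x hx _) ((hA i).tendsto_at hx),
    fun i j => tendsto_nhds_unique (h3 x hx _) ((hB i j).tendsto_at hx)⟩⟩
  rw [← zero_add (1 : WithTop ℕ∞), contDiffOn_succ_iff_fderiv_of_isOpen hs]
  exact ⟨fun x hx => (h1 x hx).differentiableAt.differentiableWithinAt, by simp,
    contDiffOn_zero.2 (h2.congr fun x hx => (h1 x hx).fderiv)⟩

end Pool.Agent.MP_1048c2_an.Cl

end

section
set_option linter.unusedSectionVars false

namespace Pool.Agent.MP_1048c2_an.Cl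

open Filter Topology Set Module MeasureTheory Metric
open scoped InnerProductSpace ContDiff

variable {m k : ℕ} {H V : Type} [NormedAddCommGroup H] [InnerProductSpace ℝ H]
  [NormedAddCommGroup V] [InnerProductSpace ℝ V] [FiniteDimensional ℝ H] [FiniteDimensional ℝ V]
  [MeasurableSpace H] [BorelSpace H] [MeasurableSpace V] [BorelSpace V]

theorem lin_st (G : HeisenbergType m k H V) : LinSt G := by
  intro W F a g hW ha hne hF hg hWD heq ψ hψ
  have hXa : ∀ i, ContDiffOn ℝ ∞ (XL G (G.e i) a) W := fun i =>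
    contDiffOn_XL G _ hW ha (n := ∞) (by simp)
  have dif : ∀ {u : H × V → ℝ}, ContDiffOn ℝ ∞ u W → ∀ x ∈ W, DifferentiableAt ℝ u x :=
    fun hu x hx => (hu.contDiffAt (hW.mem_nhds hx)).differentiableAt (by simp)
  have tA : ∀ i, Tst W fun x => a x * XL G (G.e i) ψ x := fun i => (hψ.xl G _).mul hW ha
  have tB : ∀ i, Tst W fun x => XL G (G.e i) a x * ψ x := fun i => hψ.mul hW (hXa i)
  have tφ : Tst W fun x => (a x)⁻¹ * ψ x := hψ.mul hW (ha.inv hne)
  have tL : Tst W fun x => Lap G a x * ψ x := hψ.mul hW (contDiffOn_Lap G hW ha)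
  have off : ∀ {u : H × V → ℝ}, Tst W u → ∀ x, x ∉ W → u x = 0 := fun hu x hx =>
    image_eq_zero_of_notMem_tsupport fun h => hx (hu.2.2 h)
  have e1 : ∀ x, a x ^ 2 * ∑ i, g i x * XL G (G.e i) (fun x => (a x)⁻¹ * ψ x) x =
      ∑ i, (g i x * (a x * XL G (G.e i) ψ x) - g i x * (XL G (G.e i) a x * ψ x)) := by
    intro x
    rw [Finset.mul_sum]
    refine Finset.sum_congr rfl fun i _ => ?_
    by_cases hx : x ∈ W
    · have h1 : ψ =ᶠ[𝓝 x] fun y => a y * ((a y)⁻¹ * ψ y) := by
        filter_upwards [hW.mem_nhds hx] with y hy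
        rw [mul_inv_cancel_left₀ (hne y hy)]
      rw [XL_congr G h1, XL_mul G (dif ha x hx) (dif tφ.1.contDiffOn x hx)]
      have h2 := hne x hx
      field_simp
      ring
    · rw [off (tφ.xl G _) x hx, off (hψ.xl G _) x hx, off hψ x hx]
      ring
  have e2 : ∀ x, a x * F x * Lap G ψ x = F x * (Lap G a x * ψ x) +
      ∑ i, (F x * XL G (G.e i) (fun x => a x * XL G (G.e i) ψ x) x -
        F x * XL G (G.e i) (fun x => XL G (G.e i) a x * ψ x) x) := by
    intro x
    rw [Lap, Lap, Finset.sum_mul, Finset.mul_sum, Finset.mul_sum, ← Finset.sum_add_distrib]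
    refine Finset.sum_congr rfl fun i _ => ?_
    by_cases hx : x ∈ W
    · rw [XL_mul G (dif ha x hx) (dif (hψ.xl G _).1.contDiffOn x hx),
        XL_mul G (dif (hXa i) x hx) (dif hψ.1.contDiffOn x hx)]
      ring
    · rw [off ((hψ.xl G _).xl G _) x hx, off ((tA i).xl G _) x hx, off ((tB i).xl G _) x hx,
        off hψ x hx]
      ring
  have j1 : ∀ i, Integrable fun x =>
      g i x * (a x * XL G (G.e i) ψ x) - g i x * (XL G (G.e i) a x * ψ x) := fun i =>
    ((tA i).integrable (hg i)).sub ((tB i).integrable (hg i))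
  have j2 : ∀ i, Integrable fun x => F x * XL G (G.e i) (fun x => a x * XL G (G.e i) ψ x) x -
      F x * XL G (G.e i) (fun x => XL G (G.e i) a x * ψ x) x := fun i =>
    (((tA i).xl G _).integrable hF).sub (((tB i).xl G _).integrable hF)
  have i1 := heq _ tφ
  simp only [e1] at i1
  rw [integral_finsetSum _ fun i _ => j1 i] at i1
  simp only [e2]
  rw [integral_add (tL.integrable hF) (integrable_finsetSum _ fun i _ => j2 i),
    integral_finsetSum _ fun i _ => j2 i]
  have i2 : ∑ i, ∫ x, (F x * XL G (G.e i) (fun x => a x * XL G (G.e i) ψ x) x -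
      F x * XL G (G.e i) (fun x => XL G (G.e i) a x * ψ x) x) = 0 := by
    rw [← neg_eq_zero, ← i1, ← Finset.sum_neg_distrib]
    refine Finset.sum_congr rfl fun i _ => ?_
    rw [integral_sub (((tA i).xl G _).integrable hF) (((tB i).xl G _).integrable hF),
      integral_sub ((tA i).integrable (hg i)) ((tB i).integrable (hg i)), hWD i _ (tA i),
      hWD i _ (tB i)]
    ring
  rw [i2, add_zero]
  refine integral_congr_ae (Eventually.of_forall fun x => ?_)
  simp only
  ring

end Pool.Agent.MP_1048c2_an.Cl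

end

section
/-!
Regularity of weak solutions: a lower bound for the mass.
-/

set_option linter.unusedSectionVars false

namespace Pool.Agent.MP_1048c2_an.Cl

open Filter Topology Set Module MeasureTheory Metric
open scoped InnerProductSpace ContDiff

variable {m k : ℕ} {H V : Type} [NormedAddCommGroup H] [InnerProductSpace ℝ H]
  [NormedAddCommGroup V] [InnerProductSpace ℝ V] [FiniteDimensional ℝ H] [FiniteDimensional ℝ V]
  [MeasurableSpace H] [BorelSpace H] [MeasurableSpace V] [BorelSpace V]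

theorem pow_RLow {t : ℝ} (ht : 0 < t) :
    (t ^ 4) ^ (-((homDim m k + 6) / 4)) = (t ^ m * (t ^ 2) ^ k * t ^ 6)⁻¹ := by
  rw [← Real.rpow_natCast t 4, ← Real.rpow_mul ht.le, ← pow_mul, ← pow_add, ← pow_add,
    ← Real.rpow_natCast, ← Real.rpow_neg ht.le]
  congr 1
  simp only [homDim]
  push_cast
  ring

theorem low_st : LowSt m k H V := by
  intro hm hk h0
  have : Nontrivial H := Module.nontrivial_of_finrank_pos (R := ℝ) (hm ▸ h0)
  obtain ⟨e, he⟩ := exists_norm_eq H zero_le_one
  have hs : -((homDim m k + 6) / 4) ≤ 0 := by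
    simp only [homDim]
    exact neg_nonpos.2 (by positivity)
  generalize hs' : -((homDim m k + 6) / 4) = s at hs
  have a0 : 0 < (volume : Measure H).real (ball 0 1) :=
    ENNReal.toReal_pos (measure_ball_pos _ _ one_pos).ne' measure_ball_lt_top.ne
  have b0 : 0 < (volume : Measure V).real (ball 0 1) :=
    ENNReal.toReal_pos (measure_ball_pos _ _ one_pos).ne' measure_ball_lt_top.ne
  refine ⟨1 / 4 * 23 ^ s * ((1 / 2) ^ m * (volume : Measure H).real (ball 0 1) *
    (volume : Measure V).real (ball 0 1)), by positivity, fun t ht ht1 => ?_⟩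
  have hN : ∀ y : H × V, 0 < Nn y + t ^ 4 := fun y => by
    simp only [Nn]
    positivity
  have hc : Continuous fun y : H × V => t ^ 4 * ‖y.1‖ ^ 2 * (Nn y + t ^ 4) ^ s := by
    refine Continuous.mul (by fun_prop) (Continuous.rpow_const ?_ fun y => Or.inl (hN y).ne')
    unfold Nn
    fun_prop
  have hi : IntegrableOn (fun y : H × V => t ^ 4 * ‖y.1‖ ^ 2 * (Nn y + t ^ 4) ^ s)
      (ball 0 (2 * t)) :=
    (hc.continuousOn.integrableOn_compact (isCompact_closedBall 0 (2 * t))).mono_set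
      ball_subset_closedBall
  have hb : ∀ y ∈ ball (t • e) (t / 2), t / 2 ≤ ‖y‖ ∧ ‖y‖ ≤ 3 / 2 * t := fun y hy => by
    have h1 := abs_norm_sub_norm_le y (t • e)
    rw [mem_ball, dist_eq_norm] at hy
    rw [norm_smul, he, mul_one, Real.norm_of_nonneg ht.le, abs_le] at h1
    constructor <;> linarith [h1.1, h1.2]
  have hS : ball (t • e) (t / 2) ×ˢ ball (0 : V) (t ^ 2) ⊆ ball (0 : H × V) (2 * t) := by
    rintro ⟨y, z⟩ ⟨hy, hz⟩
    rw [mem_ball_zero_iff] at hz ⊢
    rw [Prod.norm_def, max_lt_iff]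
    exact ⟨by linarith [(hb y hy).2], by nlinarith⟩
  have hv : (volume : Measure (H × V)).real (ball (t • e) (t / 2) ×ˢ ball (0 : V) (t ^ 2)) =
      (t / 2) ^ m * (volume : Measure H).real (ball 0 1) *
        ((t ^ 2) ^ k * (volume : Measure V).real (ball 0 1)) := by
    rw [Measure.volume_eq_prod, measureReal_prod_prod, Measure.real, Measure.real,
      Measure.addHaar_ball_of_pos _ _ (half_pos ht), Measure.addHaar_ball_of_pos _ _ (pow_pos ht 2),
      ENNReal.toReal_mul, ENNReal.toReal_mul, ENNReal.toReal_ofReal (by positivity),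
      ENNReal.toReal_ofReal (by positivity), hm, hk]
    rfl
  refine le_trans ?_ (setIntegral_mono_set hi (Eventually.of_forall fun y =>
    mul_nonneg (by positivity) (Real.rpow_nonneg (hN y).le _)) hS.eventuallyLE)
  refine le_trans (le_of_eq ?_) (setIntegral_ge_of_const_le_real
    (c := t ^ 4 * (t / 2) ^ 2 * (23 * t ^ 4) ^ s) (measurableSet_ball.prod measurableSet_ball)
    ((measure_mono hS).trans_lt measure_ball_lt_top).ne (fun y hy => ?_) (hi.mono_set hS))
  · rw [hv, Real.mul_rpow (by norm_num) (by positivity), ← hs', pow_RLow ht, hs', div_pow,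
      div_pow t 2 m, one_pow]
    field_simp
    ring
  · obtain ⟨h1, h2⟩ := hb _ hy.1
    have h3 : ‖y.2‖ ≤ t ^ 2 := (mem_ball_zero_iff.1 hy.2).le
    have h4 : ‖y.1‖ ^ 4 ≤ (3 / 2 * t) ^ 4 := by gcongr
    have h5 : ‖y.2‖ ^ 2 ≤ (t ^ 2) ^ 2 := by gcongr
    have h6 : Nn y + t ^ 4 ≤ 23 * t ^ 4 := by
      simp only [Nn]
      nlinarith [pow_pos ht 4]
    have h7 := Real.rpow_le_rpow_of_nonpos (hN y) h6 hs
    gcongr

end Pool.Agent.MP_1048c2_an.Cl

end

section
/-!
Regularity of weak solutions: mollification on the group.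
-/

set_option linter.unusedSectionVars false

namespace Pool.Agent.MP_1048c2_an.Cl

open Filter Topology Set Module MeasureTheory Metric
open scoped InnerProductSpace ContDiff

variable {m k : ℕ} {H V : Type} [NormedAddCommGroup H] [InnerProductSpace ℝ H]
  [NormedAddCommGroup V] [InnerProductSpace ℝ V] [FiniteDimensional ℝ H] [FiniteDimensional ℝ V]
  [MeasurableSpace H] [BorelSpace H] [MeasurableSpace V] [BorelSpace V]

theorem der_RMol (G : HeisenbergType m k H V) {κ : H × V → ℝ} (hκ : Differentiable ℝ κ) (h : H)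
    (x w : H × V) : fderiv ℝ (fun q : (H × V) × H × V => κ (gm G q.2 (-q.1))) (x, w)
      ((h, (1 / 2 : ℝ) • BL G x.1 h), 0) = -XL G h (fun w => κ (gm G w (-x))) w := by
  obtain ⟨L, h1, h2⟩ := hasFDerivAt_gm G (hasFDerivAt_snd (𝕜 := ℝ) (p := (x, w)))
    (hasFDerivAt_fst (𝕜 := ℝ) (p := (x, w))).neg
  obtain ⟨L', h3, h4⟩ := hasFDerivAt_gm G (hasFDerivAt_id w) (hasFDerivAt_const (-x) w)
  have h5 := ((hκ _).hasFDerivAt.comp (x, w) h1).fderiv
  have h6 := ((hκ _).hasFDerivAt.comp w h3).fderiv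
  refine (congrArg (fun T : (H × V) × H × V →L[ℝ] ℝ => T _) h5).trans ?_
  refine Eq.trans ?_ (congrArg (fun T : H × V →L[ℝ] ℝ => -T (h, (1 / 2 : ℝ) • BL G w.1 h)) h6).symm
  simp only [ContinuousLinearMap.comp_apply, h2, h4, ← map_neg]
  refine congrArg (fderiv ℝ κ (gm G w (-x))) ?_
  simp [BL_swap G h x.1]

theorem tst_RMol (G : HeisenbergType m k H V) {W : Set (H × V)} {κ : H × V → ℝ} {δ : ℝ}
    {x : H × V} (h1 : ContDiff ℝ ∞ κ) (h2 : tsupport κ ⊆ closedBall 0 δ)
    (h3 : ∀ y ∈ closedBall (0 : H × V) δ, gm G y x ∈ W) : Tst W fun w => κ (gm G w (-x)) := by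
  have h4 : tsupport (fun w => κ (gm G w (-x))) ⊆ (fun y => gm G y x) '' closedBall 0 δ :=
    closure_minimal (fun y hy => ⟨_, h2 (subset_tsupport _ hy), gm_neg_right G x y⟩)
      ((isCompact_closedBall _ _).image (gmR G x).continuous).isClosed
  refine ⟨h1.comp (contDiff_gm G contDiff_id contDiff_const),
    ((isCompact_closedBall _ _).image (gmR G x).continuous).of_isClosed_subset
      (isClosed_tsupport _) h4, h4.trans ?_⟩
  rintro _ ⟨y, hy, rfl⟩
  exact h3 y hy

theorem far_RMol (G : HeisenbergType m k H V) {κ : H × V → ℝ} {δ : ℝ}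
    (h2 : tsupport κ ⊆ closedBall 0 δ) (r : ℝ) :
    ∃ R : ℝ, ∀ x y : H × V, ‖x‖ ≤ r → R ≤ ‖y‖ → κ (gm G y (-x)) = 0 := by
  obtain ⟨C, hC⟩ := ((isCompact_closedBall (0 : H × V) δ).prod
    (isCompact_closedBall (0 : H × V) r)).exists_bound_of_continuousOn
    (continuous_gm G continuous_fst continuous_snd).continuousOn
  refine ⟨C + 1, fun x y hx hy => by_contra fun e => ?_⟩
  have := hC (gm G y (-x), x) ⟨h2 (subset_tsupport _ e), mem_closedBall_zero_iff.2 hx⟩
  rw [gm_neg_right] at this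
  linarith

theorem avg_RMol (G : HeisenbergType m k H V) (ρ : ContDiffBump (0 : H × V)) {u : H × V → ℝ}
    {a b : ℝ} (hu : AEStronglyMeasurable u volume) (h : ∀ᵐ y, u y ∈ Icc a b) (x : H × V) :
    ∫ w, u w * ρ.normed volume (gm G w (-x)) ∈ Icc a b := by
  have h1 : Integrable fun w => ρ.normed volume (gm G w (-x)) :=
    (mp_right G (-x)).integrable_comp_of_integrable ρ.integrable_normed
  have h2 : ∀ c : ℝ, ∫ w, c * ρ.normed volume (gm G w (-x)) = c := fun c => by
    rw [integral_const_mul, integral_right, ρ.integral_normed, mul_one]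
  have h3 : Integrable fun w => u w * ρ.normed volume (gm G w (-x)) :=
    h1.bdd_mul (c := max |a| |b|) hu (h.mono fun y hy => abs_le_max_abs_abs hy.1 hy.2)
  exact ⟨(h2 a).ge.trans (integral_mono_ae (h1.const_mul a) h3 (h.mono fun y hy =>
      mul_le_mul_of_nonneg_right hy.1 (ρ.nonneg_normed _))),
    (integral_mono_ae h3 (h1.const_mul b) (h.mono fun y hy =>
      mul_le_mul_of_nonneg_right hy.2 (ρ.nonneg_normed _))).trans_eq (h2 b)⟩

theorem mol_st (G : HeisenbergType m k H V) (hD : DiffSt H V) (hA : AISt H V) (hF : FubSt G) :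
    MolSt G := by
  intro W K h f g a b M hW hK hKW hc hfm hgm hab hM hd
  obtain ⟨δ, δ0, hδ⟩ : ∃ δ, 0 < δ ∧ ∀ x ∈ K, ∀ y ∈ closedBall (0 : H × V) δ, gm G y x ∈ W := by
    obtain ⟨u, v, hu, -, h1, h2, h3⟩ := generalized_tube_lemma
      (isCompact_singleton (x := (0 : H × V))) hK
      (hW.preimage (continuous_gm G continuous_fst continuous_snd)) (by
        rintro ⟨y, x⟩ ⟨rfl, hx⟩
        simpa [zero_gm] using hKW hx)
    obtain ⟨δ, h4, h5⟩ := nhds_basis_closedBall.mem_iff.1 (hu.mem_nhds (h1 rfl))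
    exact ⟨δ, h4, fun x hx y hy => h3 (mk_mem_prod (h5 hy) (h2 hx))⟩
  let ρ : ℕ → ContDiffBump (0 : H × V) := fun n =>
    ⟨δ / (n + 1) / 2, δ / (n + 1), by positivity, half_lt_self (by positivity)⟩
  have r0 : Tendsto (fun n => (ρ n).rOut) atTop (𝓝 0) :=
    tendsto_const_nhds.div_atTop (tendsto_atTop_add_const_right _ 1 tendsto_natCast_atTop_atTop)
  have hs : ∀ n, tsupport ((ρ n).normed volume) ⊆ closedBall 0 δ := fun n => by
    rw [(ρ n).tsupport_normed_eq]
    exact closedBall_subset_closedBall (div_le_self δ0.le (by simp))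
  have hf : MemLp f ⊤ volume := memLp_top_of_bound hfm (max |a| |b|)
    (Eventually.of_forall fun y => abs_le_max_abs_abs (hab y).1 (hab y).2)
  have h1 := fun n => hD f (fun q => (ρ n).normed volume (gm G q.2 (-q.1)))
    (hf.locallyIntegrable le_top)
    ((ρ n).contDiff_normed.comp (contDiff_gm G contDiff_snd contDiff_fst.neg)) (far_RMol G (hs n))
  have h2 : ∀ n, ∀ x ∈ K, XL G h (fun x => ∫ w, f w * (ρ n).normed volume (gm G w (-x))) x =
      ∫ w, g w * (ρ n).normed volume (gm G w (-x)) := fun n x hx => by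
    refine ((h1 n).2 x _).trans ?_
    simp only [der_RMol G (((ρ n).contDiff_normed (μ := volume) (n := 1)).differentiable
      one_ne_zero), mul_neg, integral_neg]
    rw [hd _ (tst_RMol G (ρ n).contDiff_normed (hs n) (hδ x hx)), neg_neg]
  refine ⟨fun n x => ∫ w, f w * (ρ n).normed volume (gm G w (-x)), fun n => (h1 n).1,
    fun n => avg_RMol G _ hfm (Eventually.of_forall hab), fun x hx => ?_, fun n x hx => ?_,
    fun ψ hψ h0 => ?_⟩
  · have h3 := hA (fun n => (ρ n).normed volume) 1 (fun y => f (gm G y x))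
      (fun n => (ρ n).integrable_normed) (fun n => (ρ n).nonneg_normed)
      (by simp only [ContDiffBump.integral_normed]; exact tendsto_const_nhds)
      (fun r hr => tendsto_const_nhds.congr' ((r0.eventually (gt_mem_nhds hr)).mono fun n hn =>
        (setIntegral_eq_zero_of_forall_eq_zero fun y (hy : y ∈ (ball 0 r)ᶜ) => by_contra fun e =>
          hy (ball_subset_ball hn.le (((ρ n).support_normed_eq (μ := volume)).le e))).symm))
      (hf.comp_measurePreserving (mp_right G x))
      (ContinuousAt.comp_of_eq (hc.continuousAt (hW.mem_nhds (hKW hx)))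
        (gmR G x).continuous.continuousAt (zero_gm G x))
    rw [one_mul, zero_gm] at h3
    refine h3.congr fun n => ?_
    refine Eq.trans ?_ (integral_right G x fun w => f w * (ρ n).normed volume (gm G w (-x)))
    simp only [gm_gm_neg]
  · rw [h2 n x hx]
    exact abs_le.2 (avg_RMol G _ hgm (hM.mono fun y hy => abs_le.1 hy) x)
  · refine (hF g ψ ρ (memLp_top_of_bound hgm M hM) hψ (HasCompactSupport.intro hK h0) r0).congr
      fun n => integral_congr_ae (Eventually.of_forall fun x => ?_)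
    by_cases hx : x ∈ K
    · simp only [h2 n x hx]
    · simp only [h0 x hx, mul_zero]

end Pool.Agent.MP_1048c2_an.Cl

end

section
set_option linter.unusedSectionVars false
namespace Pool.Agent.MP_1048c2_an.Cl
open Filter Topology Set Module MeasureTheory Metric
open scoped InnerProductSpace ContDiff
variable {m k : ℕ} {H V : Type} [NormedAddCommGroup H] [InnerProductSpace ℝ H] [NormedAddCommGroup V] [InnerProductSpace ℝ V] [FiniteDimensional ℝ H] [FiniteDimensional ℝ V] [MeasurableSpace H] [BorelSpace H] [MeasurableSpace V] [BorelSpace V]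

theorem prod_st (G : HeisenbergType m k H V) : ProdSt G := by
  intro W h u g a hW ha hu hg hw φ hφ
  have h1 := hw _ (hφ.mul hW ha)
  have h2 : ∀ x, XL G h (fun y => a y * φ y) x = a x * XL G h φ x + XL G h a x * φ x := by
    intro x
    by_cases hx : x ∈ tsupport φ
    · exact XL_mul G ((ha.contDiffAt (hW.mem_nhds (hφ.2.2 hx))).differentiableAt (by simp))
        (hφ.1.differentiable (by simp) x)
    · rw [XL_of_notMem G hx, XL_of_notMem G fun h' => hx (tsupport_mul_subset_right h'),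
        image_eq_zero_of_notMem_tsupport hx]
      simp
  have i1 := ((hφ.xl G h).mul hW ha).integrable hu
  have i2 := (hφ.mul hW (contDiffOn_XL G h hW ha (n := ∞) (by simp))).integrable hu
  have i3 := (hφ.mul hW ha).integrable hg
  simp only [h2, mul_add] at h1
  rw [integral_add i1 i2] at h1
  have e1 : ∀ x, a x * u x * XL G h φ x = u x * (a x * XL G h φ x) := fun x => by ring
  have e2 : ∀ x, (a x * g x + XL G h a x * u x) * φ x =
      g x * (a x * φ x) + u x * (XL G h a x * φ x) := fun x => by ring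
  simp only [e1, e2]
  rw [integral_add i3 i2]
  linarith

end Pool.Agent.MP_1048c2_an.Cl

end

section
set_option linter.unusedSectionVars false

namespace Pool.Agent.MP_1048c2_an.Cl

open Filter Topology Set Module MeasureTheory Metric
open scoped InnerProductSpace ContDiff

variable {m k : ℕ} {H V : Type} [NormedAddCommGroup H] [InnerProductSpace ℝ H]
  [NormedAddCommGroup V] [InnerProductSpace ℝ V] [FiniteDimensional ℝ H] [FiniteDimensional ℝ V]
  [MeasurableSpace H] [BorelSpace H] [MeasurableSpace V] [BorelSpace V]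

theorem reg1_st (G : HeisenbergType m k H V) (hB : BootSt G) (hC : ChainSt G) (hP : ProdSt G)
    (hL : LinSt G) : Reg1St G := by
  intro p R Ω f g hk hp hQ hR hf hI
  obtain ⟨hg, hw, hc, hpos, -, -⟩ := hf
  set Q := homDim m k with hQd
  have hQ4 : 4 ≤ Q := by
    obtain ⟨j, hj⟩ := m_even G hk
    have h1 := m_pos G hk
    have h2 : 4 ≤ m + 2 * k := by omega
    rw [hQd, homDim]
    exact_mod_cast h2
  have hQp : 0 < Q - p := sub_pos.2 hQ
  have hp1 : 0 < p - 1 := sub_pos.2 hp
  have hc0 : 0 < cConst m k p R := by unfold cConst; positivity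
  set c := cConst m k p R
  set ν : ℝ := (Q + p - 2) / (Q - p) with hν
  set b : ℝ := ν * (p - 2) + 1 with hb
  have hb0 : 0 < b := by
    have h1 : b = (p - 1) * (Q + p - 4) / (Q - p) := by rw [hb, hν]; field_simp; ring
    have h2 : 0 < Q + p - 4 := by linarith
    rw [h1]
    positivity
  have hW := U0_open (H := H) (V := V) Ω
  have hsub : U0 Ω ⊆ (closure Ω)ᶜ := inter_subset_left
  have hf0 : ∀ x ∈ U0 Ω, 0 < f x := fun x hx => hpos x fun h => hx.1 (subset_closure h)
  have hz : ∀ x ∈ U0 Ω, 0 < ‖x.1‖ := fun x hx => norm_pos_iff.2 hx.2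
  have hfc : ContinuousOn f (U0 Ω) := hc.mono fun x hx h => hx.1 (subset_closure h)
  have hpow : ∀ s : ℝ, ContinuousOn (fun x => f x ^ s) (U0 Ω) := fun s =>
    hfc.rpow_const fun x hx => Or.inl (hf0 x hx).ne'
  have hN : ∀ᵐ x, x ∈ U0 Ω → √(∑ i, g i x ^ 2) = c * ‖x.1‖ * f x ^ ν := by
    filter_upwards [hI] with x h0 hx
    have h1 := h0 hx.1
    have h2 := hf0 x hx
    have h3 := hz x hx
    rw [weakP, div_eq_iff (Real.rpow_pos_of_pos h2 _).ne', mul_div_assoc, ← hQd, ← hν,
      mul_comm p, Real.rpow_mul h2.le, ← Real.mul_rpow hc0.le h3.le,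
      ← Real.mul_rpow (by positivity) (by positivity)] at h1
    exact (Real.rpow_left_inj (Real.sqrt_nonneg _) (by positivity) (by linarith)).1 h1
  have hLB : ∀ i, LB (U0 Ω) (g i) := fun i => by
    refine ⟨((hg i).1.mono_set hsub).aestronglyMeasurable, fun x => c * ‖x.1‖ * f x ^ ν,
      (continuousOn_const.mul continuous_fst.norm.continuousOn).mul (hpow ν), ?_⟩
    filter_upwards [hN] with x h0 hx
    rw [← h0 hx]
    exact Real.abs_le_sqrt (Finset.single_le_sum (f := fun i => g i x ^ 2)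
      (fun i _ => sq_nonneg _) (Finset.mem_univ i))
  have hWD : ∀ i, WD G (U0 Ω) (G.e i) f (g i) := fun i φ hφ => by
    rw [← X_eq]
    exact (hw φ (tst_iff.1 (hφ.mono hsub))).1 i
  have hWD1 := fun i => hC (U0 Ω) (G.e i) f (g i) b hW hfc hf0 (hLB i) (hWD i)
  have hLB1 : ∀ i, LB (U0 Ω) fun x => b * f x ^ (b - 1) * g i x := fun i =>
    (LB.of_cont hW (continuousOn_const.mul (hpow _))).mul (hLB i)
  have hF : LB (U0 Ω) fun x => f x ^ b := LB.of_cont hW (hpow b)
  set a : H × V → ℝ := fun x => (‖x.1‖ ^ 2) ^ ((p - 2) / 4) with ha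
  have ha0 : ∀ x ∈ U0 Ω, 0 < a x := fun x hx => Real.rpow_pos_of_pos (pow_pos (hz x hx) 2) _
  have has : ContDiffOn ℝ ∞ a (U0 Ω) :=
    (contDiffOn_fst.norm_sq ℝ).rpow_const_of_ne fun x hx => (pow_pos (hz x hx) 2).ne'
  have ha2 : ∀ x, a x ^ 2 = ‖x.1‖ ^ (p - 2) := fun x => by
    simp only [ha]
    rw [← Real.rpow_natCast, ← Real.rpow_natCast, ← Real.rpow_mul (norm_nonneg _),
      ← Real.rpow_mul (norm_nonneg _)]
    congr 1
    push_cast
    ring
  have hE : ∀ φ, Tst (U0 Ω) φ →
      ∫ x, a x ^ 2 * ∑ i, b * f x ^ (b - 1) * g i x * XL G (G.e i) φ x = 0 := by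
    intro φ hφ
    have h4 := (hw φ (tst_iff.1 (hφ.mono hsub))).2
    rw [← mul_zero (b / c ^ (p - 2)), ← h4, ← integral_const_mul]
    refine integral_congr_ae ?_
    filter_upwards [hN] with x h0
    simp only [X_eq]
    by_cases hx : x ∈ tsupport φ
    · have hx' := hφ.2.2 hx
      have h2 := hf0 x hx'
      have h3 := hz x hx'
      have h5 := (Real.rpow_pos_of_pos hc0 (p - 2)).ne'
      rw [h0 hx', ha2, Real.mul_rpow (by positivity) (by positivity), Real.mul_rpow hc0.le h3.le,
        ← Real.rpow_mul h2.le, show b - 1 = ν * (p - 2) by rw [hb]; ring]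
      simp only [mul_assoc, ← Finset.mul_sum]
      field_simp
    · simp [XL_of_notMem G hx]
  have h1 := hL (U0 Ω) (fun x => f x ^ b) a (fun i x => b * f x ^ (b - 1) * g i x) hW has
    (fun x hx => (ha0 x hx).ne') (hF.loc hW) (fun i => (hLB1 i).loc hW) hWD1 hE
  have h2 := hB (U0 Ω) (fun x => a x * f x ^ b) (fun x => Lap G a x / a x)
    (fun i x => a x * (b * f x ^ (b - 1) * g i x) + XL G (G.e i) a x * f x ^ b) hk hW
    ((contDiffOn_Lap G hW has).div has fun x hx => (ha0 x hx).ne')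
    (has.continuousOn.mul (hpow b))
    (fun i => ((LB.of_cont hW has.continuousOn).mul (hLB1 i)).add
      ((LB.of_cont hW (contDiffOn_XL G _ hW has (n := ∞) (by simp)).continuousOn).mul hF))
    (fun i => hP (U0 Ω) (G.e i) _ _ a hW has (hF.loc hW) ((hLB1 i).loc hW) (hWD1 i))
    (fun ψ hψ => (h1 ψ hψ).trans (integral_congr_tst hψ.2.2 fun x hx => by
      have := (ha0 x hx).ne'
      field_simp)) 3
  have h3 : ContDiffOn ℝ 3 (fun x => (a x * f x ^ b / a x) ^ b⁻¹) (U0 Ω) :=
    (ContDiffOn.div (by exact_mod_cast h2) (contDiffOn_infty.1 has 3)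
      fun x hx => (ha0 x hx).ne').rpow_const_of_ne fun x hx =>
        (div_pos (mul_pos (ha0 x hx) (Real.rpow_pos_of_pos (hf0 x hx) b)) (ha0 x hx)).ne'
  refine h3.congr fun x hx => ?_
  rw [mul_div_cancel_left₀ _ (ha0 x hx).ne', Real.rpow_rpow_inv (hf0 x hx).le hb0.ne']

end Pool.Agent.MP_1048c2_an.Cl

end

section
/-!
Regularity of weak solutions: the identities hold for the classical derivatives.
-/

set_option linter.unusedSectionVars false

namespace Pool.Agent.MP_1048c2_an.Cl

open Filter Topology Set Module MeasureTheory Metric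
open scoped InnerProductSpace ContDiff

variable {m k : ℕ} {H V : Type} [NormedAddCommGroup H] [InnerProductSpace ℝ H]
  [NormedAddCommGroup V] [InnerProductSpace ℝ V] [FiniteDimensional ℝ H] [FiniteDimensional ℝ V]
  [MeasurableSpace H] [BorelSpace H] [MeasurableSpace V] [BorelSpace V]

theorem reg2_st (G : HeisenbergType m k H V) (hU : UniqSt G) : Reg2St G := by
  intro p R Ω f g hp hS hP hf
  obtain ⟨h1, h2, -, hpos, -, -⟩ := hS
  have hW := U0_open Ω
  have hsub : U0 Ω ⊆ (closure Ω)ᶜ := inter_subset_left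
  have hf1 : ContDiffOn ℝ 1 f (U0 Ω) := hf.of_le (by norm_num)
  have hae : ∀ᵐ x, ∀ i, x ∈ U0 Ω → g i x = X G i f x := by
    refine ae_all_iff.2 fun i => ?_
    rw [X_eq]
    refine hU _ _ _ _ hW hf1 ((h1 i).1.mono_set hsub) fun φ hφ => ?_
    rw [← X_eq]
    exact (h2 φ (tst_iff.1 (hφ.mono hsub))).1 i
  refine ⟨?_, fun φ hφ => ?_⟩
  · have hX : ∀ i, ContinuousOn (X G i f) (U0 Ω) := fun i => by
      rw [X_eq]
      exact (contDiffOn_XL G _ hW hf1 (n := 0) (by norm_num)).continuousOn
    have hf0 : ∀ x ∈ U0 Ω, 0 < f x := fun x hx => hpos x fun h => hx.1 (subset_closure h)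
    have c1 : ContinuousOn (pFunction G p f) (U0 Ω) := by
      refine ContinuousOn.div (ContinuousOn.rpow_const ?_ fun x _ => Or.inr (by linarith))
        (hf.continuousOn.rpow_const fun x hx => Or.inl (hf0 x hx).ne')
        fun x hx => (Real.rpow_pos_of_pos (hf0 x hx) _).ne'
      exact (continuousOn_finsetSum _ fun i _ => (hX i).pow 2).sqrt
    have c2 : ContinuousOn (fun x : H × V => cConst m k p R ^ p * ‖x.1‖ ^ p) (U0 Ω) :=
      continuousOn_const.mul (continuous_fst.norm.continuousOn.rpow_const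
        fun x _ => Or.inr (by linarith))
    refine Measure.eqOn_open_of_ae_eq (μ := volume) ?_ hW c1 c2
    refine (ae_restrict_iff' hW.measurableSet).2 ?_
    filter_upwards [hae, hP] with x a1 a2 hx
    rw [← a2 hx.1, pFunction, weakP, horGradNorm]
    simp only [fun i => a1 i hx]
  · rw [← (h2 φ (tst_iff.1 (hφ.mono hsub))).2]
    refine integral_congr_ae ?_
    filter_upwards [hae] with x a1
    by_cases hx : x ∈ U0 Ω
    · simp only [horGradNorm, fun i => a1 i hx]
    · have h0 : ∀ i, X G i φ x = 0 := fun i => by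
        rw [X_eq]
        exact XL_of_notMem G fun h => hx (hφ.2.2 h)
      simp only [h0, mul_zero, Finset.sum_const_zero]

end Pool.Agent.MP_1048c2_an.Cl

end

section
set_option linter.unusedSectionVars false
namespace Pool.Agent.MP_1048c2_an.Cl
open Filter Topology Set Module MeasureTheory Metric
open scoped InnerProductSpace ContDiff
variable {m k : ℕ} {H V : Type} [NormedAddCommGroup H] [InnerProductSpace ℝ H] [NormedAddCommGroup V] [InnerProductSpace ℝ V] [FiniteDimensional ℝ H] [FiniteDimensional ℝ V] [MeasurableSpace H] [BorelSpace H] [MeasurableSpace V] [BorelSpace V]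

theorem sub_RRep (G : HeisenbergType m k H V) {w κ P L : H × V → ℝ} (hw : MemLp w ⊤ volume)
    (hκ : Integrable κ) (hP : Integrable P) (h : ∀ y, P y = κ y - L y) (x : H × V) :
    cv G w κ x - cv G w L x = ∫ y, w (gm G x y) * P y := by
  have h1 : MemLp (fun y => w (gm G x y)) ⊤ volume := hw.comp_measurePreserving (mp_left G x)
  have h2 : L = fun y => κ y - P y := funext fun y => by rw [h y]; ring
  have h3 : Integrable L := h2 ▸ hκ.sub hP
  rw [cv_eq, cv_eq]
  refine (integral_sub (hκ.mul_of_top_right h1) (h3.mul_of_top_right h1)).symm.trans ?_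
  exact integral_congr_ae (Eventually.of_forall fun y => by simp only [h y, Pi.mul_apply]; ring)

theorem rep_st (G : HeisenbergType m k H V) (hK : KerSt G) (hC : CvSt G) (hA : AISt H V)
    (hU : UnifSt G) (hL : LimSt G) : RepSt G := by
  intro W w u γ γ' x₀ hk hW hx₀ hw hu hγ hγ' hwc hwd hud hlap
  obtain ⟨δ, hδ, hT⟩ := tube G hW hx₀
  obtain ⟨K, κ, P, c, hc, k1, k2, k3, k4⟩ := hK hk δ hδ
  choose b' hb' lb' using fun i => (k4 (G.e i)).1
  choose a' ha' la' using fun i => (k4 (G.e i)).2.1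
  choose b hb lb using fun i => (k4 (G.e i)).2.2.1
  choose a ha la using fun i => (k4 (G.e i)).2.2.2
  have c1 := fun n => hC w (κ n) δ hw (k1 n).2.1 (k1 n).2.2.2.1
  have c2 := fun n => hC u (K n) δ hu (k1 n).1 (k1 n).2.2.1
  have hWx : ∀ x ∈ ball x₀ δ, x ∈ W := fun x hx => by
    simpa only [gm_zero] using hT x hx 0 (mem_closedBall_self hδ.le)
  have hd : ∀ n x, fderiv ℝ (fun x => cv G w (κ n) x - cv G u (K n) x) x =
      fderiv ℝ (cv G w (κ n)) x - fderiv ℝ (cv G u (K n)) x := fun n x =>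
    fderiv_fun_sub ((c1 n).1.differentiable one_ne_zero x) ((c2 n).1.differentiable one_ne_zero x)
  obtain ⟨l1, l2⟩ := hL (ball x₀ δ) (fun n x => cv G w (κ n) x - cv G u (K n) x)
    (fun x => c * w x) (fun i x => cv G u (a' i) x - cv G w (a i) x)
    (fun i j x => cv G (γ i) (b j) x - cv G (γ j) (b i) x - cv G (γ' i) (b' j) x +
      cv G (γ' j) (b' i) x) hk isOpen_ball isBounded_ball (fun n => (c1 n).1.sub (c2 n).1)
    (fun x hx => by
      have h1 : ContinuousAt (fun y => w (gm G x y)) 0 :=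
        ContinuousAt.comp (by rw [gm_zero]; exact hwc.continuousAt (hW.mem_nhds (hWx x hx)))
          (continuous_gm G continuous_const continuous_id).continuousAt
      have h2 := hA P c _ (fun n => (k1 n).2.2.2.2.1) (fun n y => ((k1 n).2.2.2.2.2 y).1) k2 k3
        (hw.comp_measurePreserving (mp_left G x)) h1
      simp only [Function.comp_apply, gm_zero] at h2
      refine h2.congr fun n => ?_
      rw [← lap_cv hlap (k1 n).1 (k1 n).2.2.1 (hT x hx)]
      exact (sub_RRep G hw ((k1 n).2.1.continuous.integrable_of_hasCompactSupport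
        ((isCompact_closedBall _ _).of_isClosed_subset (isClosed_tsupport _) (k1 n).2.2.2.1))
        (k1 n).2.2.2.2.1 (fun y => ((k1 n).2.2.2.2.2 y).2) x).symm)
    (fun i => by
      refine (((hU u _ _ hu (la' i)).sub (hU w _ _ hw (la i))).tendstoUniformlyOn).congr
        (Eventually.of_forall fun n x _ => ?_)
      have h1 := ((c1 n).2 x).1 (G.e i)
      have h2 := ((c2 n).2 x).1 (G.e i)
      rw [XL] at h1 h2
      simp only [XL, hd, sub_apply, h1, h2, Pi.sub_apply]
      ring)
    (fun i j => by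
      refine (((((hU _ _ _ (hγ i) (lb j)).sub (hU _ _ _ (hγ j) (lb i))).sub
        (hU _ _ _ (hγ' i) (lb' j))).add (hU _ _ _ (hγ' j) (lb' i))).tendstoUniformlyOn).congr
        (Eventually.of_forall fun n x hx => ?_)
      have h1 := fun i j => (hwd i).cv (contDiff_XL G (G.e j) (k1 n).2.1)
        ((tsupport_XL G _ _).trans (k1 n).2.2.2.1) (hT x hx)
      have h2 := fun i j => (hud i).cv (contDiff_XL G (G.e j) (k1 n).1)
        ((tsupport_XL G _ _).trans (k1 n).2.2.1) (hT x hx)
      simp only [hd, sub_apply, ((c1 n).2 x).2, ((c2 n).2 x).2, h1, h2,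
        Pi.sub_apply, Pi.add_apply]
      ring)
  have l3 : ContDiffOn ℝ 1 w (ball x₀ δ) :=
    (contDiffOn_const.mul l1 : ContDiffOn ℝ 1 (fun x => c⁻¹ * (c * w x)) _).congr fun x _ => by
      rw [inv_mul_cancel_left₀ hc.ne']
  refine ⟨δ, c, a, a', b, b', hδ, hc.ne', fun i => ⟨ha i, ha' i, hb i, hb' i⟩, hT, l3,
    fun x hx => ?_⟩
  have l4 : fderiv ℝ (fun x => c * w x) x = c • fderiv ℝ w x :=
    fderiv_const_mul ((l3.contDiffAt (isOpen_ball.mem_nhds hx)).differentiableAt one_ne_zero) c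
  have l5 := l2 x hx
  simp only [XL, l4, smul_apply, smul_eq_mul] at l5
  exact l5

end Pool.Agent.MP_1048c2_an.Cl

end

section
set_option linter.unusedSectionVars false
namespace Pool.Agent.MP_1048c2_an.Cl
open Filter Topology Set Module MeasureTheory Metric
open scoped InnerProductSpace ContDiff
variable {m k : ℕ} {H V : Type} [NormedAddCommGroup H] [InnerProductSpace ℝ H] [NormedAddCommGroup V] [InnerProductSpace ℝ V] [FiniteDimensional ℝ H] [FiniteDimensional ℝ V] [MeasurableSpace H] [BorelSpace H] [MeasurableSpace V] [BorelSpace V]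

theorem smo_st (G : HeisenbergType m k H V) : SmoSt G := by
  intro W u κ j δ x hW hu hκ hx
  rcases lt_or_ge δ 0 with hδ | hδ
  · have h0 : cv G u κ = fun _ => 0 := by
      funext p
      have h1 : ∀ y, κ y = 0 := fun y =>
        hκ.2 y (by rw [closedBall_eq_empty.2 hδ]; exact notMem_empty _)
      rw [cv_eq]
      simp [h1]
    rw [h0]
    exact contDiffAt_const
  have hc : Continuous fun z : (H × V) × H × V => gm G z.1 z.2 :=
    continuous_gm G continuous_fst continuous_snd
  obtain ⟨s, t, hs, ht, hxs, hbt, hst⟩ := generalized_tube_lemma isCompact_singleton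
    (isCompact_closedBall (0 : H × V) δ) (hW.preimage hc) (by
      rintro ⟨p, y⟩ ⟨hp, hy⟩
      obtain rfl : p = x := hp
      exact hx y hy)
  obtain ⟨ε, hε, hεt⟩ := (isCompact_closedBall (0 : H × V) δ).exists_cthickening_subset_open ht hbt
  rw [cthickening_closedBall hε.le hδ] at hεt
  let χ : ContDiffBump (0 : H × V) := ⟨ε / 2 + δ, ε + δ, by linarith, by linarith⟩
  have hχ : ∀ y ∉ closedBall (0 : H × V) (ε + δ), (fun y => χ y) =ᶠ[𝓝 y] 0 := fun y hy =>
    notMem_tsupport_iff_eventuallyEq.1 (by rwa [χ.tsupport_eq])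
  have hg : ContDiffOn ℝ (j : ℕ∞) (↿fun p y : H × V => χ (-y) * u (gm G p (-y))) (s ×ˢ univ) := by
    rintro ⟨p, y⟩ ⟨hp, -⟩
    refine ContDiffAt.contDiffWithinAt ?_
    change ContDiffAt ℝ j (fun z : (H × V) × H × V => χ (-z.2) * u (gm G z.1 (-z.2))) (p, y)
    by_cases hy : -y ∈ closedBall (0 : H × V) (ε + δ)
    · have h1 : gm G p (-y) ∈ W := hst (mk_mem_prod hp (hεt hy))
      have h2 : ContDiff ℝ j fun z : (H × V) × H × V => gm G z.1 (-z.2) :=
        contDiff_gm G contDiff_fst contDiff_snd.neg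
      exact (χ.contDiff.comp contDiff_snd.neg).contDiffAt.mul
        ((hu.contDiffAt (hW.mem_nhds h1)).comp (p, y) h2.contDiffAt)
    · have h3 : Tendsto (fun z : (H × V) × H × V => -z.2) (𝓝 (p, y)) (𝓝 (-y)) :=
        continuous_snd.neg.tendsto (p, y)
      refine (contDiffAt_const (c := (0 : ℝ))).congr_of_eventuallyEq ?_
      filter_upwards [h3.eventually (hχ _ hy)] with z hz
      rw [hz, Pi.zero_apply, zero_mul]
  have h := contDiffOn_convolution_right_with_param_comp (ContinuousLinearMap.mul ℝ ℝ)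
    (μ := volume) (v := fun _ : H × V => (0 : H × V)) contDiffOn_const hs
    (isCompact_closedBall (0 : H × V) (ε + δ))
    (fun p y _ hy => by
      have : -y ∉ closedBall (0 : H × V) (ε + δ) := by
        rwa [mem_closedBall_zero_iff, norm_neg, ← mem_closedBall_zero_iff]
      rw [show χ (-y) = 0 from (hχ _ this).self_of_nhds, zero_mul]) hκ.1.locallyIntegrable hg
  have h4 : ContDiffOn ℝ j (cv G u κ) s := by
    refine h.congr fun p _ => ?_
    rw [cv_eq, MeasureTheory.convolution_def]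
    refine integral_congr_ae (Eventually.of_forall fun y => ?_)
    simp only [ContinuousLinearMap.mul_apply', zero_sub, neg_neg]
    by_cases hy : y ∈ closedBall (0 : H × V) δ
    · rw [χ.one_of_mem_closedBall (closedBall_subset_closedBall
        (show δ ≤ ε / 2 + δ by linarith) hy)]
      ring
    · rw [hκ.2 y hy]
      ring
  exact h4.contDiffAt (hs.mem_nhds (hxs rfl))

end Pool.Agent.MP_1048c2_an.Cl

end

section
/-!
Regularity of weak solutions: uniform convergence of convolutions.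
-/

set_option linter.unusedSectionVars false

namespace Pool.Agent.MP_1048c2_an.Cl

open Filter Topology Set Module MeasureTheory Metric
open scoped InnerProductSpace ContDiff

variable {m k : ℕ} {H V : Type} [NormedAddCommGroup H] [InnerProductSpace ℝ H]
  [NormedAddCommGroup V] [InnerProductSpace ℝ V] [FiniteDimensional ℝ H] [FiniteDimensional ℝ V]
  [MeasurableSpace H] [BorelSpace H] [MeasurableSpace V] [BorelSpace V]

theorem unif_st (G : HeisenbergType m k H V) : UnifSt G := by
  intro u κ' κ hu ⟨h1, h2, h3⟩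
  obtain ⟨M, hM, hb⟩ := bound_of_memLp hu
  have key : ∀ n x, |cv G u κ' x - cv G u (κ n) x| ≤ M * ∫ y, |κ n y - κ' y| := by
    intro n x
    have b1 : ∀ᵐ y, |u (gm G x y)| ≤ M := (mp_left G x).quasiMeasurePreserving.ae hb
    have b2 : AEStronglyMeasurable (fun y => u (gm G x y)) volume :=
      hu.1.comp_quasiMeasurePreserving (mp_left G x).quasiMeasurePreserving
    rw [cv_eq, cv_eq, ← integral_sub (h2.bdd_mul b2 b1) ((h1 n).bdd_mul b2 b1),
      ← integral_const_mul]
    rw [← Real.norm_eq_abs]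
    refine norm_integral_le_of_norm_le (((h1 n).sub h2).abs.const_mul M) ?_
    filter_upwards [b1] with y hy
    rw [← mul_sub, Real.norm_eq_abs, abs_mul, abs_sub_comm]
    exact mul_le_mul_of_nonneg_right hy (abs_nonneg _)
  refine Metric.tendstoUniformly_iff.2 fun ε hε => ?_
  have h4 := h3.const_mul M
  rw [mul_zero] at h4
  filter_upwards [h4.eventually (gt_mem_nhds hε)] with n hn x
  exact (key n x).trans_lt hn

end Pool.Agent.MP_1048c2_an.Cl

end

section
set_option linter.unusedSectionVars false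
namespace Pool.Agent.MP_1048c2_an.Cl
open Filter Topology Set Module MeasureTheory Metric
open scoped InnerProductSpace ContDiff
variable {m k : ℕ} {H V : Type} [NormedAddCommGroup H] [InnerProductSpace ℝ H]
  [NormedAddCommGroup V] [InnerProductSpace ℝ V] [FiniteDimensional ℝ H] [FiniteDimensional ℝ V]
  [MeasurableSpace H] [BorelSpace H] [MeasurableSpace V] [BorelSpace V]

theorem uniq_st (G : HeisenbergType m k H V) (hI : IbpSt G) : UniqSt G := by
  intro W h u g hW hu hg hwd
  have h1 : LocallyIntegrableOn (XL G h u) W :=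
    (contDiffOn_XL G h hW hu (n := 0) (by simp)).continuousOn.locallyIntegrableOn hW.measurableSet
  have h2 := hW.ae_eq_zero_of_integral_contDiff_smul_eq_zero (hg.sub h1) fun φ a b c => by
    have hφ : Tst W φ := ⟨a, b, c⟩
    have e1 := hwd φ hφ
    have e2 := hI W h u hW hu φ hφ
    have e3 := integral_sub (hφ.integrable hg) (hφ.integrable h1)
    have e4 : ∫ x, φ x • (g - XL G h u) x = ∫ x, (g x * φ x - XL G h u x * φ x) := by
      congr 1
      funext x
      simp only [Pi.sub_apply, smul_eq_mul]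
      ring
    rw [e4, e3]
    linarith
  exact h2.mono fun x hx hx' => sub_eq_zero.1 (hx hx')

end Pool.Agent.MP_1048c2_an.Cl

end
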