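import Pool.Agent.MP_1048c2_an.Mg.B
import Pool.Agent.MP_1048c2_an.Mg.C
import Pool.Agent.MP_1048c2_an.Mg.D
import Pool.Agent.MP_1048c2_an.Mg.E
import Pool.Agent.MP_1048c2_an.Mg.F

section
/-! The classification. -/

set_option linter.unusedSectionVars false

namespace Pool.Agent.MP_1048c2_an.Cl

open Filter Topology Set Module MeasureTheory

variable {m k : ℕ} {H V : Type} [NormedAddCommGroup H] [InnerProductSpace ℝ H]
  [NormedAddCommGroup V] [InnerProductSpace ℝ V] [FiniteDimensional ℝ H] [FiniteDimensional ℝ V]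
  [MeasurableSpace H] [BorelSpace H] [MeasurableSpace V] [BorelSpace V]
  (G : HeisenbergType m k H V)

theorem loc_all : LocSt G :=
  have hCh := ch_st G (ch1_st G) ch2_st sep_st
  loc_st G hCh (ode1_st G) (ode0_st G) zero_st (p2a_st G hCh cont_st sep_st poly_st) (p2b_st G)
    (p2z_st G) (p2c_st G spec_st) (trans_st G (nsys_st G)) (third_st G)
    (rad_st G (nsys_st G) boch_st)

theorem boot_all : BootSt G :=
  boot_st G (rep_st G (ker_st G (gam_st G) low_st cnv_st (der_st G (gam_st G) int_st cnv_st)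
    (ibp_st G)) (cv_st G diff_st) ai_st (unif_st G) (lim_st G)) (smo_st G) (prod_st G) (ibp_st G)

theorem reg_all : Reg1St G :=
  reg1_st G (boot_all G) (chain_st G (ibp_st G) (mol_st G diff_st ai_st (fub_st G ai_st)))
    (prod_st G) (lin_st G)

theorem rigid (hk : 0 < k) {p : ℝ} (hp : 1 < p) (hQ : p < homDim m k)
    (hne : ¬(p = 2 ∧ ∃ K : Submodule ℝ H, (∀ σ, ∀ z ∈ K, G.J σ z ∈ K) ∧ 2 * finrank ℝ K = m))
    {Ω : Set (H × V)} {f : H × V → ℝ} {g : Fin m → H × V → ℝ} {R : ℝ} (op : IsOpen Ω)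
    (bd : Bornology.IsBounded Ω) (hf : IsSobolevPotential G p Ω f g) (hR : 0 < R)
    (hP : ∀ᵐ x, x ∉ closure Ω → weakP k p f g x = cConst m k p R ^ p * ‖x.1‖ ^ p) :
    ∃ σ₀ : V, interior (closure Ω) = gaugeBall R σ₀ := by
  have h1 := reg_all G p R Ω f g hk hp hQ hR hf hP
  obtain ⟨h2, h3⟩ := reg2_st G (uniq_st G (ibp_st G)) p R Ω f g hp hf hP h1
  obtain ⟨-, -, c0, pos, fr, inf⟩ := hf
  have h4 := weak2_st G p R Ω f hp hQ hR pos h1 h2 h3
  refine glob2_st G p R Ω f hk hp hQ hR op bd (h1.of_le (by norm_num)) c0 pos fr inf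
    (fun x hx h0 => ?_) (loc_all G p _ _ hk hp (fun h => hne ⟨h.1, (split_st G).2 h.2⟩) h4)
  have h5 := h4.du_vf hx
  have h6 := pow_pos (norm_pos_iff.2 (h4.nz x hx)) 2
  rw [h0, ContinuousLinearMap.zero_apply] at h5
  linarith

theorem counter (hk : 0 < k)
    (h : ∃ K : Submodule ℝ H, (∀ σ, ∀ z ∈ K, G.J σ z ∈ K) ∧ 2 * finrank ℝ K = m) :
    ∃ (Ω : Set (H × V)) (f : H × V → ℝ) (R : ℝ), IsSmoothBoundedDomain Ω ∧
      (∀ n : ℕ, ContDiffOn ℝ n f (closure Ω)ᶜ) ∧ IsSobolevPotential G 2 Ω f (fun i => X G i f) ∧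
      0 < R ∧ (∀ x ∉ closure Ω,
        weakP k 2 f (fun i => X G i f) x = cConst m k 2 R ^ (2 : ℝ) * ‖x.1‖ ^ (2 : ℝ)) ∧
      ∀ (R' : ℝ) (σ₀ : V), interior (closure Ω) ≠ gaugeBall R' σ₀ := by
  obtain ⟨A, hA⟩ := (split_st G).1 h
  obtain ⟨h1, h2, h3⟩ := coua_st G A hk hA
  obtain ⟨h4, h5⟩ := coub_st G A hk hA
  refine ⟨_, _, 2, h4, h3, bridge_st G (ibp_st G) 2 _ _ (by norm_num) h1, two_pos, h2,
    fun R' σ₀ h6 => h5 R' σ₀ ?_⟩
  rw [← h6]
  exact Subset.antisymm (closure_mono (interior_maximal subset_closure h4.1))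
    (closure_minimal interior_subset isClosed_closure)

end Pool.Agent.MP_1048c2_an.Cl

end
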