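import Pool.Agent.MP_1048c2_an.Mg.A

section
/-!
Solutions of the Hamilton equations stay on the graph of the gradient.
-/

set_option linter.unusedSectionVars false

namespace Pool.Agent.MP_1048c2_an.Cl

open Filter Topology Set Module
open scoped InnerProductSpace

variable {m k : ℕ} {H V : Type} [NormedAddCommGroup H] [InnerProductSpace ℝ H]
  [NormedAddCommGroup V] [InnerProductSpace ℝ V] [FiniteDimensional ℝ H] [FiniteDimensional ℝ V]

/-- a solution of a linear equation that vanishes at zero vanishes -/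
theorem lin_Ch1 {E : Type} [NormedAddCommGroup E] [NormedSpace ℝ E] (A : ℝ → E →L[ℝ] E)
    (D : ℝ → E) (ε : ℝ) (hA : ContinuousOn A (Ioo (-ε) ε)) (h0 : D 0 = 0)
    (hD : ∀ τ ∈ Ioo (-ε) ε, HasDerivAt D (A τ (D τ)) τ) : ∀ τ ∈ Ioo (-ε) ε, D τ = 0 := by
  intro τ hτ
  obtain ⟨δ, h1, h2⟩ := exists_between (abs_lt.2 hτ)
  have hs : Icc (-δ) δ ⊆ Ioo (-ε) ε := fun t ht => ⟨by linarith [ht.1], by linarith [ht.2]⟩
  obtain ⟨C, hC⟩ := isCompact_Icc.exists_bound_of_continuousOn (hA.mono hs)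
  have hδ : 0 < δ := (abs_nonneg τ).trans_lt h1
  have h3 := ODE_solution_unique_of_mem_Ioo (v := fun t y => A t y) (s := fun _ => univ)
    (K := ⟨max C 0, le_max_right _ _⟩) (f := D) (g := fun _ => 0) (a := -δ) (b := δ) (t₀ := 0)
    (fun t ht => ((A t).lipschitzWith_of_opNorm_le
      ((hC t (Ioo_subset_Icc_self ht)).trans (le_max_left _ _))).lipschitzOnWith)
    ⟨by linarith, hδ⟩ (fun t ht => ⟨hD t (hs (Ioo_subset_Icc_self ht)), mem_univ _⟩)
    (fun t _ => ⟨by simpa using hasDerivAt_const t (0 : E), mem_univ _⟩) h0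
  exact h3 (abs_lt.1 h1)

/-- the defect of the velocity -/
noncomputable def P_Ch1 (G : HeisenbergType m k H V) (z : H) : H × V →L[ℝ] H × V :=
  (-ContinuousLinearMap.fst ℝ H V -
      (1 / 2 : ℝ) • ((JL G).flip z).comp (ContinuousLinearMap.snd ℝ H V)).prod
    (-(1 / 2 : ℝ) • (BL G z).comp (ContinuousLinearMap.fst ℝ H V) -
      (‖z‖ ^ 2 / 4) • ContinuousLinearMap.snd ℝ H V)

/-- the defect of the force -/
noncomputable def Q_Ch1 (G : HeisenbergType m k H V) (z ξ : H) (μ ν : V) : H × V →L[ℝ] H :=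
  (1 / 2 : ℝ) • ((JL G).flip ξ).comp (ContinuousLinearMap.snd ℝ H V) +
    (1 / 2 : ℝ) • (JL G μ).comp (ContinuousLinearMap.fst ℝ H V) -
    (1 / 4 : ℝ) • ((innerSL ℝ (ν + μ)).comp (ContinuousLinearMap.snd ℝ H V)).smulRight z

theorem ch1_st (G : HeisenbergType m k H V) : Ch1St G := by
  intro p W u x Z Ξ S ε h hZ hS hΞ hH hW
  have cZ : Continuous Z := continuous_iff_continuousAt.2 fun τ => (hH τ).1.continuousAt
  have cS : Continuous S := continuous_iff_continuousAt.2 fun τ => (hH τ).2.1.continuousAt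
  have cγ : ContinuousOn (fun τ => (Z τ, S τ)) (Ioo (-ε) ε) := (cZ.prodMk cS).continuousOn
  have c1 : ContinuousOn (fun τ => xi G u (Z τ, S τ)) (Ioo (-ε) ε) :=
    h.sm_xi.continuousOn.comp cγ hW
  have c2 : ContinuousOn (fun τ => la G u (Z τ, S τ)) (Ioo (-ε) ε) :=
    h.sm_la.continuousOn.comp cγ hW
  have c3 : ContinuousOn (fun τ => fderiv ℝ (xi G u) (Z τ, S τ)) (Ioo (-ε) ε) :=
    (h.sm_xi.continuousOn_fderiv_of_isOpen h.op (by norm_num)).comp cγ hW
  have c4 : ContinuousOn (fun τ => fderiv ℝ (la G u) (Z τ, S τ)) (Ioo (-ε) ε) :=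
    (h.sm_la.continuousOn_fderiv_of_isOpen h.op (by norm_num)).comp cγ hW
  have cz : ContinuousOn Z (Ioo (-ε) ε) := cZ.continuousOn
  have c5 : ContinuousOn (fun τ => P_Ch1 G (Z τ)) (Ioo (-ε) ε) := by
    refine continuousOn_clm_apply.2 fun y => ?_
    simp only [P_Ch1, ContinuousLinearMap.prod_apply, _root_.sub_apply, _root_.neg_apply,
      _root_.smul_apply, ContinuousLinearMap.comp_apply, ContinuousLinearMap.flip_apply]
    fun_prop
  have c6 : ContinuousOn (fun τ => Q_Ch1 G (Z τ) (xi G u (Z τ, S τ)) (la G u x)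
      (la G u (Z τ, S τ))) (Ioo (-ε) ε) := by
    refine continuousOn_clm_apply.2 fun y => ?_
    simp only [Q_Ch1, _root_.sub_apply, _root_.add_apply, ContinuousLinearMap.smulRight_apply,
      _root_.smul_apply, ContinuousLinearMap.comp_apply, ContinuousLinearMap.flip_apply,
      innerSL_apply_apply]
    fun_prop
  have key := lin_Ch1 (fun τ => ((fderiv ℝ (xi G u) (Z τ, S τ)).comp (P_Ch1 G (Z τ)) +
      Q_Ch1 G (Z τ) (xi G u (Z τ, S τ)) (la G u x) (la G u (Z τ, S τ))).prod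
      ((fderiv ℝ (la G u) (Z τ, S τ)).comp (P_Ch1 G (Z τ))))
    (fun τ => (xi G u (Z τ, S τ) - Ξ τ, la G u (Z τ, S τ) - la G u x)) ε
    (continuousOn_clm_apply.2 fun y =>
      ((continuousOn_clm_apply.1 ((c3.clm_comp c5).add c6)) y).prodMk
        ((continuousOn_clm_apply.1 (c4.clm_comp c5)) y))
    (by simp [hZ, hS, hΞ]) ?_
  · intro τ hτ
    have := key τ hτ
    simp only [Prod.mk_eq_zero, sub_eq_zero] at this
    exact this
  intro τ hτ
  obtain ⟨h1, h2, h3⟩ := hH τ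
  have hγ := h1.prodMk h2
  have hx := hW τ hτ
  obtain ⟨h4, h5⟩ := h.ham hx
  have h6 : (Ξ τ + (1 / 2 : ℝ) • JL G (la G u x) (Z τ),
      (1 / 2 : ℝ) • BL G (Z τ) (Ξ τ) + (‖Z τ‖ ^ 2 / 4) • la G u x) = vf G u (Z τ, S τ) +
      P_Ch1 G (Z τ) (xi G u (Z τ, S τ) - Ξ τ, la G u (Z τ, S τ) - la G u x) := by
    ext
    · simp [P_Ch1, vf]; module
    · simp [P_Ch1, vf]; module
  rw [h6] at hγ
  have h7 := ((h.d_xi hx).comp_hasDerivAt τ hγ).sub h3
  have h8 := ((h.d_la hx).comp_hasDerivAt τ hγ).sub_const (la G u x)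
  refine (h7.prodMk h8).congr_deriv ?_
  rw [map_add, map_add, h4, h5]
  ext
  · simp only [ContinuousLinearMap.prod_apply, _root_.add_apply, ContinuousLinearMap.comp_apply,
      Q_Ch1, _root_.sub_apply, _root_.smul_apply, ContinuousLinearMap.flip_apply,
      ContinuousLinearMap.smulRight_apply, innerSL_apply_apply, ContinuousLinearMap.coe_fst',
      ContinuousLinearMap.coe_snd', map_sub, inner_add_left,
      real_inner_self_eq_norm_sq, real_inner_comm (la G u x) (la G u (Z τ, S τ))]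
    module
  · simp

end Pool.Agent.MP_1048c2_an.Cl

end

section
/-!
The formula of Liouville for the Jacobian of a flow.
-/

set_option linter.unusedSectionVars false

namespace Pool.Agent.MP_1048c2_an.Cl

open Filter Topology Set Module
open scoped InnerProductSpace

variable {m k : ℕ} {H V : Type} [NormedAddCommGroup H] [InnerProductSpace ℝ H]
  [NormedAddCommGroup V] [InnerProductSpace ℝ V] [FiniteDimensional ℝ H] [FiniteDimensional ℝ V]

theorem det_row_Ch2 {n : Type} [Fintype n] [DecidableEq n] (M : Matrix n n ℝ) :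
    M.det = ∑ σ : Equiv.Perm n, ((Equiv.Perm.sign σ : ℤ) : ℝ) * ∏ i, M i (σ i) := by
  rw [← Matrix.det_transpose, Matrix.det_apply']
  simp only [Matrix.transpose_apply]

theorem mat_Ch2 {n : Type} [Fintype n] [DecidableEq n] (M : ℝ → Matrix n n ℝ) (A : Matrix n n ℝ)
    (τ : ℝ) (h : ∀ i j, HasDerivAt (fun t => M t i j) ((A * M τ) i j) τ) :
    HasDerivAt (fun t => (M t).det) ((M τ).det * A.trace) τ := by
  have h1 : HasDerivAt
      (fun t => ∑ σ : Equiv.Perm n, ((Equiv.Perm.sign σ : ℤ) : ℝ) * ∏ i, M t i (σ i))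
      (∑ σ : Equiv.Perm n, ((Equiv.Perm.sign σ : ℤ) : ℝ) *
        ∑ i, (∏ j ∈ Finset.univ.erase i, M τ j (σ j)) • (A * M τ) i (σ i)) τ :=
    HasDerivAt.fun_sum fun σ _ =>
      (HasDerivAt.fun_finsetProd (f := fun i t => M t i (σ i)) fun i _ => h i (σ i)).const_mul _
  have h2 : (fun t => (M t).det) =
      fun t => ∑ σ : Equiv.Perm n, ((Equiv.Perm.sign σ : ℤ) : ℝ) * ∏ i, M t i (σ i) :=
    funext fun t => det_row_Ch2 _
  have h3 : ∀ i, ((M τ).updateRow i ((A * M τ) i)).det = A i i * (M τ).det := by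
    intro i
    have : (A * M τ) i = ∑ l, A i l • M τ l := by
      funext j; simp [Matrix.mul_apply, Finset.sum_apply]
    rw [this, Matrix.det_updateRow_sum, smul_eq_mul]
  have h4 : ∀ i, ((M τ).updateRow i ((A * M τ) i)).det =
      ∑ σ : Equiv.Perm n, ((Equiv.Perm.sign σ : ℤ) : ℝ) *
        ((∏ j ∈ Finset.univ.erase i, M τ j (σ j)) • (A * M τ) i (σ i)) := by
    intro i
    rw [det_row_Ch2]
    refine Finset.sum_congr rfl fun σ _ => ?_
    rw [← Finset.prod_erase_mul _ _ (Finset.mem_univ i), Matrix.updateRow_self, smul_eq_mul]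
    congr 2
    refine Finset.prod_congr rfl fun j hj => ?_
    rw [Matrix.updateRow_ne (Finset.ne_of_mem_erase hj)]
  have h5 : (M τ).det * A.trace = ∑ σ : Equiv.Perm n, ((Equiv.Perm.sign σ : ℤ) : ℝ) *
        ∑ i, (∏ j ∈ Finset.univ.erase i, M τ j (σ j)) • (A * M τ) i (σ i) := by
    simp only [Finset.mul_sum]
    rw [Finset.sum_comm]
    simp only [← h4, h3, Matrix.trace, Matrix.diag, Finset.mul_sum]
    exact Finset.sum_congr rfl fun i _ => mul_comm _ _
  rw [h2, h5]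
  exact h1

theorem lin_Ch2 {F : Type} [NormedAddCommGroup F] [NormedSpace ℝ F] [FiniteDimensional ℝ F]
    (Y : ℝ → F →L[ℝ] F) (A : F →L[ℝ] F) (τ : ℝ)
    (h : ∀ w, HasDerivAt (fun t => Y t w) (A (Y τ w)) τ) :
    HasDerivAt (fun t => (Y t).det) ((Y τ).det * LinearMap.trace ℝ F A) τ := by
  classical
  let b := Module.finBasis ℝ F
  have h1 : ∀ t, (Y t).det = (LinearMap.toMatrix b b (Y t : F →ₗ[ℝ] F)).det := fun t =>
    (LinearMap.det_toMatrix b _).symm
  simp only [h1]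
  rw [LinearMap.trace_eq_matrix_trace ℝ b]
  refine mat_Ch2 (fun t => LinearMap.toMatrix b b (Y t : F →ₗ[ℝ] F)) _ τ fun i j => ?_
  rw [← LinearMap.toMatrix_comp b b b]
  simp only [LinearMap.toMatrix_apply, LinearMap.comp_apply, ContinuousLinearMap.coe_coe]
  exact (LinearMap.toContinuousLinearMap (b.coord i)).hasFDerivAt.comp_hasDerivAt τ (h (b j))

theorem ch2_st : Ch2St := by
  intro F _ _ _ Φ v W x ε hW hx hΦ hv hd τ hτ
  have hO : IsOpen ((univ : Set ℝ) ×ˢ W) := isOpen_univ.prod hW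
  have hc : ∀ t, ∀ y ∈ W, ContDiffAt ℝ 2 Φ (t, y) := fun t y hy =>
    hΦ.contDiffAt (hO.mem_nhds ⟨mem_univ _, hy⟩)
  have hdiff : ∀ t, ∀ y ∈ W, DifferentiableAt ℝ Φ (t, y) := fun t y hy =>
    (hc t y hy).differentiableAt (by norm_num)
  have hY : ∀ t, HasFDerivAt (fun y => Φ (t, y))
      ((fderiv ℝ Φ (t, x)).comp (ContinuousLinearMap.inr ℝ ℝ F)) x := fun t =>
    (hdiff t x hx).hasFDerivAt.comp x (hasFDerivAt_prodMk_right t x)
  have hD2 : HasFDerivAt (fderiv ℝ Φ) (fderiv ℝ (fderiv ℝ Φ) (τ, x)) (τ, x) :=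
    (((hc τ x hx).fderiv_right (m := 1) (by norm_num)).differentiableAt (by norm_num)).hasFDerivAt
  have hsym : IsSymmSndFDerivAt ℝ Φ (τ, x) := (hc τ x hx).isSymmSndFDerivAt (by simp)
  have ht : ∀ y ∈ W, fderiv ℝ Φ (τ, y) (1, 0) = v (Φ (τ, y)) := by
    intro y hy
    have h1 : HasDerivAt (fun t : ℝ => (t, y)) ((1 : ℝ), (0 : F)) τ :=
      (hasDerivAt_id τ).prodMk (hasDerivAt_const τ y)
    exact ((hdiff τ y hy).hasFDerivAt.comp_hasDerivAt τ h1).unique (hv y hy τ hτ)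
  refine lin_Ch2 (fun t => fderiv ℝ (fun y => Φ (t, y)) x) _ τ fun w => ?_
  simp only [fun t => (hY t).fderiv, ContinuousLinearMap.comp_apply, ContinuousLinearMap.inr_apply]
  have h1 : HasDerivAt (fun t : ℝ => (t, x)) ((1 : ℝ), (0 : F)) τ :=
    (hasDerivAt_id τ).prodMk (hasDerivAt_const τ x)
  have h2 : HasDerivAt (fun t : ℝ => fderiv ℝ Φ (t, x))
      (fderiv ℝ (fderiv ℝ Φ) (τ, x) (1, 0)) τ := hD2.comp_hasDerivAt τ h1
  have h3 : HasDerivAt (fun t : ℝ => fderiv ℝ Φ (t, x) (0, w))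
      (fderiv ℝ (fderiv ℝ Φ) (τ, x) (1, 0) (0, w)) τ :=
    (ContinuousLinearMap.apply ℝ F ((0 : ℝ), w)).hasFDerivAt.comp_hasDerivAt τ h2
  have h4 : HasFDerivAt (fun y => fderiv ℝ Φ (τ, y) (1, 0))
      ((ContinuousLinearMap.apply ℝ F ((1 : ℝ), (0 : F))).comp
        ((fderiv ℝ (fderiv ℝ Φ) (τ, x)).comp (ContinuousLinearMap.inr ℝ ℝ F))) x :=
    (ContinuousLinearMap.apply ℝ F ((1 : ℝ), (0 : F))).hasFDerivAt.comp x
      (hD2.comp x (hasFDerivAt_prodMk_right τ x))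
  have h5 : HasFDerivAt (fun y => v (Φ (τ, y)))
      ((fderiv ℝ v (Φ (τ, x))).comp
        ((fderiv ℝ Φ (τ, x)).comp (ContinuousLinearMap.inr ℝ ℝ F))) x :=
    (hd τ hτ).hasFDerivAt.comp x (hY τ)
  have h6 : (fun y => fderiv ℝ Φ (τ, y) (1, 0)) =ᶠ[𝓝 x] fun y => v (Φ (τ, y)) :=
    Filter.eventually_of_mem (hW.mem_nhds hx) ht
  have h7 := congrArg (fun L : F →L[ℝ] F => L w) ((h5.congr_of_eventuallyEq h6).unique h4)
  simp only [ContinuousLinearMap.comp_apply, ContinuousLinearMap.inr_apply,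
    ContinuousLinearMap.apply_apply] at h7
  rw [h7, ← hsym.eq]
  exact h3

end Pool.Agent.MP_1048c2_an.Cl

end

section
/-!
Smoothness, entire Jacobian and the differential of the separated curves.
-/

set_option linter.unusedSectionVars false

namespace Pool.Agent.MP_1048c2_an.Cl

open Filter Topology Set Module
open scoped InnerProductSpace

variable {m k : ℕ} {H V : Type} [NormedAddCommGroup H] [InnerProductSpace ℝ H] [NormedAddCommGroup V] [InnerProductSpace ℝ V] [FiniteDimensional ℝ H] [FiniteDimensional ℝ V]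

theorem snd_Sep {F : Type} [NormedAddCommGroup F] [NormedSpace ℝ F] {g : H × V → F}
    {W : Set (H × V)} (hg : ContDiffOn ℝ 2 g W) :
    ContDiffOn ℝ 2 (fun y : ℝ × H × V => g y.2) (univ ×ˢ W) :=
  hg.comp contDiffOn_snd fun _ hy => hy.2

theorem smooth_Sep (d : Sd H V) (W : Set (H × V)) (h : d.Sm W) :
    ContDiffOn ℝ 2 (fun y : ℝ × H × V => (d.Z y.1 y.2, d.S y.1 y.2)) (univ ×ˢ W) := by
  have ht : ContDiffOn ℝ 2 (fun y : ℝ × H × V => y.1) (univ ×ˢ W) := contDiffOn_fst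
  have hk : ContDiffOn ℝ 2 (fun y : ℝ × H × V => d.κ y.2 * y.1) (univ ×ˢ W) :=
    (snd_Sep h.κ).mul ht
  have hl : ContDiffOn ℝ 2 (fun y : ℝ × H × V => d.ℓ y.2 * y.1 / 2) (univ ×ˢ W) :=
    ((snd_Sep h.ℓ).mul ht).div_const 2
  have he := hk.exp
  have he' := hk.neg.exp
  have hc := hl.cos
  have hs := hl.sin
  refine ContDiffOn.prodMk ?_ ?_
  · exact (he.smul ((hc.smul (snd_Sep h.a)).add (hs.smul (snd_Sep h.a')))).add
      (he'.smul ((hc.smul (snd_Sep h.b)).add (hs.smul (snd_Sep h.b'))))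
  · exact (((((snd_Sep h.s).add ((hc.mul hs).smul (snd_Sep h.g1))).add
      ((hs.pow 2).smul (snd_Sep h.g2))).add (ht.smul (snd_Sep h.g3))).add
      ((he.pow 2).smul (snd_Sep h.g4))).sub ((he'.pow 2).smul (snd_Sep h.g5))

theorem hfd_Sep {F : Type} [NormedAddCommGroup F] [NormedSpace ℝ F] {g : H × V → F}
    {W : Set (H × V)} (hW : IsOpen W) (hg : ContDiffOn ℝ 2 g W) {x : H × V} (hx : x ∈ W) :
    HasFDerivAt g (fderiv ℝ g x) x :=
  ((hg.contDiffAt (hW.mem_nhds hx)).differentiableAt (by norm_num)).hasFDerivAt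

/-- the explicit differential, first coordinate -/
noncomputable def DZ_Sep (d : Sd H V) (x v : H × V) (τ e e' C S : ℝ) : H :=
  e • (C • fderiv ℝ d.a x v + (-(S * τ * (fderiv ℝ d.ℓ x v / 2))) • d.a x +
      (S • fderiv ℝ d.a' x v + (C * τ * (fderiv ℝ d.ℓ x v / 2)) • d.a' x)) +
    (e * τ * fderiv ℝ d.κ x v) • (C • d.a x + S • d.a' x) +
  (e' • (C • fderiv ℝ d.b x v + (-(S * τ * (fderiv ℝ d.ℓ x v / 2))) • d.b x +
      (S • fderiv ℝ d.b' x v + (C * τ * (fderiv ℝ d.ℓ x v / 2)) • d.b' x)) +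
    (-(e' * τ * fderiv ℝ d.κ x v)) • (C • d.b x + S • d.b' x))

/-- the explicit differential, second coordinate -/
noncomputable def DS_Sep (d : Sd H V) (x v : H × V) (τ e e' C S : ℝ) : V :=
  fderiv ℝ d.s x v + ((C * S) • fderiv ℝ d.g1 x v +
      ((C * C - S * S) * τ * (fderiv ℝ d.ℓ x v / 2)) • d.g1 x) +
    ((S * S) • fderiv ℝ d.g2 x v + (S * C * τ * fderiv ℝ d.ℓ x v) • d.g2 x) +
    τ • fderiv ℝ d.g3 x v +
    ((e * e) • fderiv ℝ d.g4 x v + (e * e * τ * (2 * fderiv ℝ d.κ x v)) • d.g4 x) -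
    ((e' * e') • fderiv ℝ d.g5 x v - (e' * e' * τ * (2 * fderiv ℝ d.κ x v)) • d.g5 x)

theorem fd_Sep (d : Sd H V) {W : Set (H × V)} (hW : IsOpen W) (h : d.Sm W) {x : H × V}
    (hx : x ∈ W) (τ : ℝ) (v : H × V) :
    fderiv ℝ (fun y => (d.Z τ y, d.S τ y)) x v =
      (DZ_Sep d x v τ (Real.exp (d.κ x * τ)) (Real.exp (-(d.κ x * τ)))
        (Real.cos (d.ℓ x * τ / 2)) (Real.sin (d.ℓ x * τ / 2)),
      DS_Sep d x v τ (Real.exp (d.κ x * τ)) (Real.exp (-(d.κ x * τ)))
        (Real.cos (d.ℓ x * τ / 2)) (Real.sin (d.ℓ x * τ / 2))) := by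
  have hk := (hfd_Sep hW h.κ hx).mul_const τ
  have hl : HasFDerivAt (fun y => d.ℓ y * τ / 2) ((τ / 2) • fderiv ℝ d.ℓ x) x := by
    have := (hfd_Sep hW h.ℓ hx).mul_const (τ / 2)
    simpa only [mul_div_assoc] using this
  have he := hk.exp
  have he' := hk.fun_neg.exp
  have hc := hl.cos
  have hs := hl.sin
  have hZ := (he.fun_smul ((hc.fun_smul (hfd_Sep hW h.a hx)).fun_add
    (hs.fun_smul (hfd_Sep hW h.a' hx)))).fun_add
    (he'.fun_smul ((hc.fun_smul (hfd_Sep hW h.b hx)).fun_add (hs.fun_smul (hfd_Sep hW h.b' hx))))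
  have hS := (((((hfd_Sep hW h.s hx).fun_add ((hc.fun_mul hs).fun_smul
    (hfd_Sep hW h.g1 hx))).fun_add ((hs.pow 2).fun_smul (hfd_Sep hW h.g2 hx))).fun_add
    ((hfd_Sep hW h.g3 hx).fun_const_smul τ)).fun_add
    ((he.pow 2).fun_smul (hfd_Sep hW h.g4 hx))).fun_sub
    ((he'.pow 2).fun_smul (hfd_Sep hW h.g5 hx))
  have hP : HasFDerivAt (fun y => (d.Z τ y, d.S τ y)) _ x := hZ.prodMk hS
  rw [hP.fderiv]
  simp only [DZ_Sep, DS_Sep, ContinuousLinearMap.prod_apply, add_apply,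
    sub_apply, smul_apply,
    ContinuousLinearMap.smulRight_apply, neg_apply, smul_eq_mul,
    nsmul_eq_mul, Prod.mk.injEq]
  constructor <;> module

theorem mulE_Sep {f g : ℝ → ℝ} (hf : f ∈ Ent) (hg : g ∈ Ent) : (fun x => f x * g x) ∈ Ent :=
  Ent.mul_mem hf hg

theorem subE_Sep {f g : ℝ → ℝ} (hf : f ∈ Ent) (hg : g ∈ Ent) : (fun x => f x - g x) ∈ Ent :=
  Ent.sub_mem hf hg

theorem negE_Sep {f : ℝ → ℝ} (hf : f ∈ Ent) : (fun x => -f x) ∈ Ent :=
  Ent.neg_mem hf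

theorem constE_Sep (c : ℝ) : (fun _ : ℝ => c) ∈ Ent := Ent.algebraMap_mem c

theorem idE_Sep : (fun τ : ℝ => τ) ∈ Ent := ⟨fun z => z, differentiable_id, fun _ => rfl⟩

theorem expE_Sep (c : ℝ) : (fun τ : ℝ => Real.exp (c * τ)) ∈ Ent :=
  ⟨fun z => Complex.exp (c * z), by fun_prop, fun t => by push_cast; rfl⟩

theorem expE'_Sep (c : ℝ) : (fun τ : ℝ => Real.exp (-(c * τ))) ∈ Ent :=
  ⟨fun z => Complex.exp (-(c * z)), by fun_prop, fun t => by push_cast; rfl⟩

theorem cosE_Sep (c : ℝ) : (fun τ : ℝ => Real.cos (c * τ / 2)) ∈ Ent :=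
  ⟨fun z => Complex.cos (c * z / 2), by fun_prop, fun t => by push_cast; rfl⟩

theorem sinE_Sep (c : ℝ) : (fun τ : ℝ => Real.sin (c * τ / 2)) ∈ Ent :=
  ⟨fun z => Complex.sin (c * z / 2), by fun_prop, fun t => by push_cast; rfl⟩

theorem DZ_mem_Sep (d : Sd H V) (x v : H × V) {e e' C S : ℝ → ℝ} (he : e ∈ Ent) (he' : e' ∈ Ent)
    (hC : C ∈ Ent) (hS : S ∈ Ent) :
    Vm Ent fun τ => DZ_Sep d x v τ (e τ) (e' τ) (C τ) (S τ) := by
  have ht := idE_Sep
  have h1 := negE_Sep (mulE_Sep (mulE_Sep hS ht) (constE_Sep (fderiv ℝ d.ℓ x v / 2)))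
  have h2 := mulE_Sep (mulE_Sep hC ht) (constE_Sep (fderiv ℝ d.ℓ x v / 2))
  exact (((Vm.smul he (((Vm.smul hC (Vm.const _)).add (Vm.smul h1 (Vm.const _))).add
    ((Vm.smul hS (Vm.const _)).add (Vm.smul h2 (Vm.const _))))).add
    (Vm.smul (mulE_Sep (mulE_Sep he ht) (constE_Sep _))
      ((Vm.smul hC (Vm.const _)).add (Vm.smul hS (Vm.const _))))).add
    ((Vm.smul he' (((Vm.smul hC (Vm.const _)).add (Vm.smul h1 (Vm.const _))).add
    ((Vm.smul hS (Vm.const _)).add (Vm.smul h2 (Vm.const _))))).add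
    (Vm.smul (negE_Sep (mulE_Sep (mulE_Sep he' ht) (constE_Sep _)))
      ((Vm.smul hC (Vm.const _)).add (Vm.smul hS (Vm.const _))))))

theorem DS_mem_Sep (d : Sd H V) (x v : H × V) {e e' C S : ℝ → ℝ} (he : e ∈ Ent) (he' : e' ∈ Ent)
    (hC : C ∈ Ent) (hS : S ∈ Ent) :
    Vm Ent fun τ => DS_Sep d x v τ (e τ) (e' τ) (C τ) (S τ) := by
  have ht := idE_Sep
  exact (((((Vm.const _).add ((Vm.smul (mulE_Sep hC hS) (Vm.const _)).add
    (Vm.smul (mulE_Sep (mulE_Sep (subE_Sep (mulE_Sep hC hC) (mulE_Sep hS hS)) ht)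
      (constE_Sep _)) (Vm.const _)))).add
    ((Vm.smul (mulE_Sep hS hS) (Vm.const _)).add
      (Vm.smul (mulE_Sep (mulE_Sep (mulE_Sep hS hC) ht) (constE_Sep _)) (Vm.const _)))).add
    (Vm.smul ht (Vm.const _))).add
    ((Vm.smul (mulE_Sep he he) (Vm.const _)).add
      (Vm.smul (mulE_Sep (mulE_Sep (mulE_Sep he he) ht) (constE_Sep _)) (Vm.const _)))).sub
    ((Vm.smul (mulE_Sep he' he') (Vm.const _)).sub
      (Vm.smul (mulE_Sep (mulE_Sep (mulE_Sep he' he') ht) (constE_Sep _)) (Vm.const _)))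

theorem sep_st : SepSt H V := by
  intro d W hW h
  refine ⟨smooth_Sep d W h, fun x hx => ⟨?_, fun τ hc hs => ?_⟩⟩
  · refine det_mem (Y := fun τ => fderiv ℝ (fun y => (d.Z τ y, d.S τ y)) x) fun v => ?_
    simp only [fd_Sep d hW h hx]
    exact (DZ_mem_Sep d x v (expE_Sep _) (expE'_Sep _) (cosE_Sep _) (sinE_Sep _)).prod
      (DS_mem_Sep d x v (expE_Sep _) (expE'_Sep _) (cosE_Sep _) (sinE_Sep _))
  · refine ContinuousLinearMap.ext fun v => ?_
    rw [fd_Sep d hW h hx, hc, hs, Real.exp_neg]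
    simp only [DZ_Sep, DS_Sep, Sd.Pm, ContinuousLinearMap.prod_apply, add_apply,
      sub_apply, smul_apply,
      ContinuousLinearMap.smulRight_apply, Prod.mk.injEq]
    constructor <;> module

end Pool.Agent.MP_1048c2_an.Cl

end

section
/-!
The explicit characteristics when the vertical momentum vanishes.
-/

set_option linter.unusedSectionVars false

namespace Pool.Agent.MP_1048c2_an.Cl

open Filter Topology Set Module
open scoped InnerProductSpace

variable {m k : ℕ} {H V : Type} [NormedAddCommGroup H] [InnerProductSpace ℝ H]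
  [NormedAddCommGroup V] [InnerProductSpace ℝ V] [FiniteDimensional ℝ H] [FiniteDimensional ℝ V]

theorem Z_Ode0 (G : HeisenbergType m k H V) (u : H × V → ℝ) (x : H × V) (τ : ℝ) :
    (d0 G u).Z τ x = Real.exp (2 * τ) • fa G u x + Real.exp (-(2 * τ)) • fb G u x := by
  simp [Sd.Z, Sd.za, Sd.zb, d0]

theorem Xi_Ode0 (G : HeisenbergType m k H V) (u : H × V → ℝ) (x : H × V) (τ : ℝ) :
    (d0 G u).Xi τ x = (2 : ℝ) • (Real.exp (2 * τ) • fa G u x - Real.exp (-(2 * τ)) • fb G u x) := by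
  simp [Sd.Xi, Sd.za, Sd.zb, d0]

theorem S_Ode0 (G : HeisenbergType m k H V) (u : H × V → ℝ) (x : H × V) (τ : ℝ) :
    (d0 G u).S τ x = x.2 + τ • ((-2 : ℝ) • BL G (fa G u x) (fb G u x)) := by
  simp [Sd.S, d0]

theorem dexp_Ode0 (τ : ℝ) :
    HasDerivAt (fun t : ℝ => Real.exp (2 * t)) (Real.exp (2 * τ) * 2) τ := by
  simpa using ((hasDerivAt_id τ).const_mul (2 : ℝ)).exp

theorem dexpn_Ode0 (τ : ℝ) :
    HasDerivAt (fun t : ℝ => Real.exp (-(2 * t))) (Real.exp (-(2 * τ)) * (-2)) τ := by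
  simpa using ((hasDerivAt_id τ).const_mul (2 : ℝ)).neg.exp

theorem ode0_st (G : HeisenbergType m k H V) : Ode0St G := by
  intro p W u h h0
  have hlt : ∀ x ∈ W, ‖la G u x‖ < 4 := fun x hx => by rw [h0 x hx]; norm_num
  have hsub : W ⊆ Ws G u W := fun x hx => ⟨hx, hlt x hx⟩
  have ha : ContDiffOn ℝ 2 (fa G u) W := h.sm_fa.mono hsub
  have hb : ContDiffOn ℝ 2 (fb G u) W := h.sm_fb.mono hsub
  refine ⟨⟨contDiffOn_const, contDiffOn_const, ha, contDiffOn_const, hb, contDiffOn_const,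
    contDiffOn_snd, contDiffOn_const, contDiffOn_const, (contDiffOn_B G ha hb).const_smul _,
    contDiffOn_const, contDiffOn_const⟩, fun x hx => ?_⟩
  have hk : kap G u x = 2 := by
    rw [kap, h0 x hx, norm_zero, show (4 : ℝ) - 0 ^ 2 / 4 = 2 ^ 2 by norm_num]
    exact Real.sqrt_sq (by norm_num)
  have he : ∀ τ : ℝ, Real.exp (2 * τ) * Real.exp (-(2 * τ)) = 1 := fun τ => by
    rw [← Real.exp_add]; simp
  have he1 : ∀ τ : ℝ, Real.exp (2 * 2 * τ) = Real.exp (2 * τ) ^ 2 := fun τ => by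
    rw [sq, ← Real.exp_add]; congr 1; ring
  have he2 : ∀ τ : ℝ, Real.exp (-(2 * 2 * τ)) = Real.exp (-(2 * τ)) ^ 2 := fun τ => by
    rw [sq, ← Real.exp_add]; congr 1; ring
  refine ⟨by norm_num [d0], ?_, ?_, ?_, fun τ => ⟨?_, ?_, ?_⟩, fun τ => ⟨?_, ?_⟩⟩
  · rw [Z_Ode0]; simpa using fa_add_fb (G := G) u x
  · rw [S_Ode0]; simp
  · rw [Xi_Ode0, ← fa_sub_fb (hlt x hx), hk]; simp
  · simp only [Z_Ode0, Xi_Ode0, h0 x hx]
    refine (((dexp_Ode0 τ).smul_const (fa G u x)).add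
      ((dexpn_Ode0 τ).smul_const (fb G u x))).congr_deriv ?_
    simp only [map_zero, _root_.zero_apply, smul_zero, add_zero]
    module
  · simp only [Z_Ode0, Xi_Ode0, S_Ode0, h0 x hx]
    refine (((hasDerivAt_id τ).smul_const ((-2 : ℝ) • BL G (fa G u x) (fb G u x))).const_add
      x.2).congr_deriv ?_
    simp only [map_add, map_sub, map_smul, _root_.add_apply,
      _root_.smul_apply, BL_self, smul_zero, add_zero,
      BL_swap G (fb G u x) (fa G u x)]
    have := he τ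
    match_scalars
    linear_combination (2 : ℝ) * this
  · simp only [Z_Ode0, Xi_Ode0, h0 x hx]
    refine ((((dexp_Ode0 τ).smul_const (fa G u x)).sub
      ((dexpn_Ode0 τ).smul_const (fb G u x))).const_smul (2 : ℝ)).congr_deriv ?_
    simp only [map_zero, _root_.zero_apply, smul_zero, zero_add, norm_zero]
    module
  · rw [Z_Ode0]
    change _ = rr (‖fa G u x‖ ^ 2) (‖fb G u x‖ ^ 2) ⟪fa G u x, fb G u x⟫_ℝ 2 τ
    rw [rr, he1, he2, norm_add_sq_real, norm_smul, norm_smul, real_inner_smul_left,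
      real_inner_smul_right, mul_pow, mul_pow, Real.norm_eq_abs, Real.norm_eq_abs, sq_abs, sq_abs]
    linear_combination (2 * ⟪fa G u x, fb G u x⟫_ℝ) * he τ
  · rw [Z_Ode0, Xi_Ode0]
    change _ = 2 * dd (‖fa G u x‖ ^ 2) (‖fb G u x‖ ^ 2) 2 τ
    rw [dd, he1, he2]
    simp only [real_inner_smul_right, inner_add_left, inner_sub_right, real_inner_smul_left,
      real_inner_self_eq_norm_sq, real_inner_comm (fa G u x) (fb G u x), norm_smul, mul_pow,
      Real.norm_eq_abs, sq_abs]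
    ring

end Pool.Agent.MP_1048c2_an.Cl

end

section
set_option linter.unusedSectionVars false
namespace Pool.Agent.MP_1048c2_an.Cl
open Filter Topology Set Module
open scoped InnerProductSpace
variable {m k : ℕ} {H V : Type} [NormedAddCommGroup H] [InnerProductSpace ℝ H] [NormedAddCommGroup V] [InnerProductSpace ℝ V] [FiniteDimensional ℝ H] [FiniteDimensional ℝ V]

theorem BJJ_Ode1 (G : HeisenbergType m k H V) (μ : V) (a b : H) :
    BL G (JL G μ a) (JL G μ b) = -(‖μ‖ ^ 2) • BL G a b + (2 * ⟪JL G μ a, b⟫_ℝ) • μ := by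
  refine ext_inner_left ℝ fun ν => ?_
  have h := congrArg (fun y => ⟪y, JL G μ b⟫_ℝ) (cliff G ν μ a)
  simp only [inner_add_left, real_inner_smul_left] at h
  have h1 := inner_JJ G μ (JL G ν a) b
  have h2 := J_skew G μ a b
  rw [← inner_JL, inner_add_right, real_inner_smul_right, real_inner_smul_right, ← inner_JL]
  linear_combination h - h1 - 2 * ⟪ν, μ⟫_ℝ * h2

theorem BJ_Ode1 (G : HeisenbergType m k H V) (μ : V) (a b : H) :
    BL G a (JL G μ b) = BL G (JL G μ a) b + (2 * ⟪a, b⟫_ℝ) • μ := by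
  refine ext_inner_left ℝ fun ν => ?_
  have h := congrArg (fun y => ⟪y, b⟫_ℝ) (cliff G ν μ a)
  simp only [inner_add_left, real_inner_smul_left] at h
  have h1 := J_skew G μ (JL G ν a) b
  rw [← inner_JL, inner_add_right, real_inner_smul_right, ← inner_JL]
  linear_combination h1 - h

theorem BZ_Ode1 (G : HeisenbergType m k H V) (P Q : H) (w w' κ : ℝ) :
    BL G (w • P + w' • Q) (κ • (w • P - w' • Q)) = (-2 * κ * w * w') • BL G P Q := by
  simp only [map_add, map_sub, map_smul, _root_.add_apply, _root_.smul_apply, BL_self,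
    BL_swap G Q P]
  module

theorem BPQ_Ode1 (G : HeisenbergType m k H V) (μ : V) (a b : H) (C S l : ℝ) :
    BL G (C • a + S • l • JL G μ a) (C • b + S • l • JL G μ b) =
      (C ^ 2 - S ^ 2 * l ^ 2 * ‖μ‖ ^ 2) • BL G a b + (2 * C * S * l) • BL G (JL G μ a) b +
        (2 * C * S * l * ⟪a, b⟫_ℝ + 2 * S ^ 2 * l ^ 2 * ⟪JL G μ a, b⟫_ℝ) • μ := by
  have h1 := BJJ_Ode1 G μ a b
  have h2 := BJ_Ode1 G μ a b
  simp only [map_add, map_smul, _root_.add_apply, _root_.smul_apply]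
  rw [h1, h2]
  module

theorem rot_Ode1 (G : HeisenbergType m k H V) (μ : V) (hμ : μ ≠ 0) (a b : H) (C S : ℝ)
    (hCS : C ^ 2 + S ^ 2 = 1) :
    ⟪C • a + S • ‖μ‖⁻¹ • JL G μ a, C • b + S • ‖μ‖⁻¹ • JL G μ b⟫_ℝ = ⟪a, b⟫_ℝ := by
  have hl : ‖μ‖ ≠ 0 := norm_ne_zero_iff.2 hμ
  have h1 := inner_JJ G μ a b
  have h2 := J_skew G μ a b
  simp only [inner_add_left, inner_add_right, real_inner_smul_left, real_inner_smul_right, h1, h2]
  field_simp
  linear_combination ‖μ‖ * ⟪a, b⟫_ℝ * hCS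

theorem drot_Ode1 (G : HeisenbergType m k H V) (μ : V) (hμ : μ ≠ 0) (a : H) (κ τ : ℝ) :
    HasDerivAt (fun t => Real.exp (κ * t) •
        (Real.cos (‖μ‖ * t / 2) • a + Real.sin (‖μ‖ * t / 2) • ‖μ‖⁻¹ • JL G μ a))
      (κ • Real.exp (κ * τ) •
        (Real.cos (‖μ‖ * τ / 2) • a + Real.sin (‖μ‖ * τ / 2) • ‖μ‖⁻¹ • JL G μ a) +
      (1 / 2 : ℝ) • JL G μ (Real.exp (κ * τ) •
        (Real.cos (‖μ‖ * τ / 2) • a + Real.sin (‖μ‖ * τ / 2) • ‖μ‖⁻¹ • JL G μ a))) τ := by
  have hl : ‖μ‖ ≠ 0 := norm_ne_zero_iff.2 hμ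
  have h0 : HasDerivAt (fun t : ℝ => ‖μ‖ * t / 2) (‖μ‖ * 1 / 2) τ :=
    ((hasDerivAt_id τ).const_mul ‖μ‖).div_const 2
  have h1 : HasDerivAt (fun t : ℝ => κ * t) (κ * 1) τ := (hasDerivAt_id τ).const_mul κ
  have h2 := h1.exp.smul ((h0.cos.smul_const a).add (h0.sin.smul_const (‖μ‖⁻¹ • JL G μ a)))
  refine h2.congr_deriv ?_
  simp only [map_smul, map_add, JJ, Pi.add_apply]
  match_scalars <;> field_simp <;> ring

theorem ode1_st (G : HeisenbergType m k H V) : Ode1St G := by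
  intro p W u h
  borelize H V
  have hla : ContDiffOn ℝ 2 (la G u) (W1 G u W) := h.sm_la.mono fun _ hx => hx.1
  have hl : ContDiffOn ℝ 2 (fun x => ‖la G u x‖) (W1 G u W) := hla.norm ℝ fun _ hx => hx.2.2
  have hl0 : ∀ x ∈ W1 G u W, ‖la G u x‖ ≠ 0 := fun _ hx => norm_ne_zero_iff.2 hx.2.2
  have hk := h.sm_kap.mono (W1_subset (G := G) (u := u) (W := W))
  have ha := h.sm_fa.mono (W1_subset (G := G) (u := u) (W := W))
  have hb := h.sm_fb.mono (W1_subset (G := G) (u := u) (W := W))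
  have hc : ContDiffOn ℝ 2 (fun x => ⟪fa G u x, fb G u x⟫_ℝ) (W1 G u W) := ha.inner ℝ hb
  refine ⟨⟨hk, hl, ha, (hl.inv hl0).smul (contDiffOn_J G hla ha), hb,
    (hl.inv hl0).smul (contDiffOn_J G hla hb), h.sm_fs.mono W1_subset, ?_, ?_, ?_,
    h.sm_g4.mono W1_subset, h.sm_g5.mono W1_subset⟩, ?_⟩
  · exact (((contDiffOn_const.mul hk).div hl hl0).neg.smul (contDiffOn_B G ha hb)).sub
      ((((contDiffOn_const.mul (hk.pow 2)).mul hc).div (hl.pow 3)
        fun x hx => pow_ne_zero _ (hl0 x hx)).smul hla)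
  · exact ((contDiffOn_const.mul hk).div (hl.pow 2) fun x hx => pow_ne_zero _ (hl0 x hx)).neg.smul
      ((contDiffOn_B G (contDiffOn_J G hla ha) hb).add (hc.smul hla))
  · exact ((contDiffOn_const.mul hc).div (hl.pow 2) fun x hx => pow_ne_zero _ (hl0 x hx)).smul hla
  intro x hx
  have hκ := kap_pos hx.2.1
  have hκ2 := kap_sq hx.2.1
  have hcon := h.constraint (W1_subset hx)
  have hμ := hx.2.2
  have hn := hl0 x hx
  have hnorm : ∀ τ, ‖(d1 G u).Z τ x‖ ^ 2 =
      rr (‖fa G u x‖ ^ 2) (‖fb G u x‖ ^ 2) ⟪fa G u x, fb G u x⟫_ℝ (kap G u x) τ ∧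
      ⟪(d1 G u).Z τ x, (d1 G u).Xi τ x⟫_ℝ =
        kap G u x * dd (‖fa G u x‖ ^ 2) (‖fb G u x‖ ^ 2) (kap G u x) τ := by
    intro τ
    have hCS := Real.cos_sq_add_sin_sq (‖la G u x‖ * τ / 2)
    have e1 := rot_Ode1 G _ hμ (fa G u x) (fa G u x) _ _ hCS
    have e2 := rot_Ode1 G _ hμ (fa G u x) (fb G u x) _ _ hCS
    have e3 := rot_Ode1 G _ hμ (fb G u x) (fa G u x) _ _ hCS
    have e4 := rot_Ode1 G _ hμ (fb G u x) (fb G u x) _ _ hCS
    have w1 : Real.exp (2 * kap G u x * τ) = Real.exp (kap G u x * τ) * Real.exp (kap G u x * τ) := by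
      rw [← Real.exp_add]; congr 1; ring
    have w2 : Real.exp (-(2 * kap G u x * τ)) =
        Real.exp (-(kap G u x * τ)) * Real.exp (-(kap G u x * τ)) := by
      rw [← Real.exp_add]; congr 1; ring
    have w3 : Real.exp (kap G u x * τ) * Real.exp (-(kap G u x * τ)) = 1 := by
      rw [← Real.exp_add]; simp
    rw [real_inner_comm (fa G u x) (fb G u x)] at e3
    rw [real_inner_self_eq_norm_sq (fa G u x)] at e1
    rw [real_inner_self_eq_norm_sq (fb G u x)] at e4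
    rw [← real_inner_self_eq_norm_sq ((d1 G u).Z τ x)]
    simp only [Sd.Z, Sd.Xi, Sd.za, Sd.zb, d1, rr, dd, w1, w2]
    generalize Real.cos (‖la G u x‖ * τ / 2) • fa G u x +
      Real.sin (‖la G u x‖ * τ / 2) • ‖la G u x‖⁻¹ • JL G (la G u x) (fa G u x) = P at *
    generalize Real.cos (‖la G u x‖ * τ / 2) • fb G u x +
      Real.sin (‖la G u x‖ * τ / 2) • ‖la G u x‖⁻¹ • JL G (la G u x) (fb G u x) = Q at *
    simp only [inner_add_left, inner_add_right, inner_sub_right, real_inner_smul_left,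
      real_inner_smul_right, e1, e2, e3, e4]
    constructor
    · linear_combination 2 * ⟪fa G u x, fb G u x⟫_ℝ * w3
    · ring
  refine ⟨hκ, ?_, ?_, ?_, fun τ => ?_, hnorm⟩
  · simp [Sd.Z, Sd.za, Sd.zb, d1, fa_add_fb]
  · simp [Sd.S, d1, fs]
    abel
  · simp [Sd.Xi, Sd.za, Sd.zb, d1, fa_sub_fb hx.2.1]
  have da := drot_Ode1 G _ hμ (fa G u x) (kap G u x) τ
  have db := drot_Ode1 G _ hμ (fb G u x) (-kap G u x) τ
  simp only [neg_mul] at db
  refine ⟨?_, ?_, ?_⟩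
  · refine (da.add db).congr_deriv ?_
    simp only [Sd.Z, Sd.Xi, Sd.za, Sd.zb, d1, map_add]
    module
  · have h0 : HasDerivAt (fun t : ℝ => ‖la G u x‖ * t / 2) (‖la G u x‖ * 1 / 2) τ :=
      ((hasDerivAt_id τ).const_mul _).div_const 2
    have h1 : HasDerivAt (fun t : ℝ => kap G u x * t) (kap G u x * 1) τ :=
      (hasDerivAt_id τ).const_mul _
    have h2 := (((((hasDerivAt_const τ (fs G u x)).add
      ((h0.cos.mul h0.sin).smul_const ((d1 G u).g1 x))).add
      ((h0.sin.pow 2).smul_const ((d1 G u).g2 x))).add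
      ((hasDerivAt_id τ).smul_const ((d1 G u).g3 x))).add
      ((h1.exp.pow 2).smul_const (g4 G u x))).sub ((h1.neg.exp.pow 2).smul_const (g5 G u x))
    refine h2.congr_deriv ?_
    have hCS := Real.cos_sq_add_sin_sq (‖la G u x‖ * τ / 2)
    have w1 : Real.exp (2 * kap G u x * τ) = Real.exp (kap G u x * τ) * Real.exp (kap G u x * τ) := by
      rw [← Real.exp_add]; congr 1; ring
    have w2 : Real.exp (-(2 * kap G u x * τ)) =
        Real.exp (-(kap G u x * τ)) * Real.exp (-(kap G u x * τ)) := by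
      rw [← Real.exp_add]; congr 1; ring
    have w3 : Real.exp (-(kap G u x * τ)) = (Real.exp (kap G u x * τ))⁻¹ := Real.exp_neg _
    have w4 := (Real.exp_pos (kap G u x * τ)).ne'
    simp only []
    rw [(hnorm τ).1]
    simp only [Sd.Z, Sd.Xi, Sd.za, Sd.zb, d1, rr, w1, w2, g4, g5, BZ_Ode1, BPQ_Ode1, hcon,
      Pi.neg_apply, w3]
    generalize Real.cos (‖la G u x‖ * τ / 2) = C at *
    generalize Real.sin (‖la G u x‖ * τ / 2) = S at *
    generalize Real.exp (kap G u x * τ) = w at *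
    have hk0 := hκ.ne'
    simp only [Nat.add_one_sub_one, pow_one, Nat.cast_ofNat]
    match_scalars
    · field_simp
      ring
    · linear_combination (norm := (field_simp; ring))
        (-2 * kap G u x ^ 2 * ⟪fa G u x, fb G u x⟫_ℝ / ‖la G u x‖ ^ 2) * hCS +
        (-2 * ⟪fa G u x, fb G u x⟫_ℝ / ‖la G u x‖ ^ 2) * hκ2
    · field_simp
  · refine ((da.sub db).const_smul (kap G u x)).congr_deriv ?_
    simp only [Sd.Z, Sd.Xi, Sd.za, Sd.zb, d1, map_add, map_sub, map_smul, ← hκ2]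
    module

end Pool.Agent.MP_1048c2_an.Cl

end

section
/-!
Complex zeros of the squared length along a characteristic exclude `p ≠ 2`.
-/

set_option linter.unusedSectionVars false

namespace Pool.Agent.MP_1048c2_an.Cl

open Filter Topology Set Module
open scoped InnerProductSpace

variable {m k : ℕ} {H V : Type} [NormedAddCommGroup H] [InnerProductSpace ℝ H]
  [NormedAddCommGroup V] [InnerProductSpace ℝ V] [FiniteDimensional ℝ H] [FiniteDimensional ℝ V]

/-- the residue of the logarithmic derivative -/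
theorem res_Zero {f : ℂ → ℂ} {z₀ : ℂ} (hf : AnalyticAt ℂ f z₀) {n : ℕ}
    (hn : analyticOrderAt f z₀ = n) :
    (∀ᶠ z in 𝓝[≠] z₀, f z ≠ 0) ∧
      Tendsto (fun z => (z - z₀) * (deriv f z / f z)) (𝓝[≠] z₀) (𝓝 n) := by
  obtain ⟨g, hg, hg0, h⟩ := hf.analyticOrderAt_eq_natCast.1 hn
  have h1 : f =ᶠ[𝓝 z₀] fun z => (z - z₀) ^ n * g z := h
  have h2 := h1.deriv
  have h3 : ∀ᶠ z in 𝓝 z₀, g z ≠ 0 := hg.continuousAt.eventually_ne hg0
  have h4 : ∀ᶠ z in 𝓝 z₀, AnalyticAt ℂ g z := hg.eventually_analyticAt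
  have h5 : ∀ᶠ z in 𝓝[≠] z₀, z - z₀ ≠ 0 :=
    mem_of_superset self_mem_nhdsWithin fun z hz => sub_ne_zero.2 hz
  refine ⟨?_, ?_⟩
  · filter_upwards [h5, nhdsWithin_le_nhds h1, nhdsWithin_le_nhds h3] with z a b c
    rw [b]
    exact mul_ne_zero (pow_ne_zero _ a) c
  · have h6 : ContinuousAt (fun z => (n : ℂ) + (z - z₀) * (deriv g z / g z)) z₀ :=
      continuousAt_const.add ((continuousAt_id.sub continuousAt_const).mul
        (hg.deriv.continuousAt.div hg.continuousAt hg0))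
    have h7 := h6.tendsto.mono_left (nhdsWithin_le_nhds (s := {z₀}ᶜ))
    simp only [sub_self, zero_mul, add_zero] at h7
    refine h7.congr' ?_
    filter_upwards [h5, nhdsWithin_le_nhds h1, nhdsWithin_le_nhds h2, nhdsWithin_le_nhds h3,
      nhdsWithin_le_nhds h4] with z a b c d e
    have h8 := (((hasDerivAt_id z).sub_const z₀).pow n).mul e.differentiableAt.hasDerivAt
    have h9 : deriv (fun z => (z - z₀) ^ n * g z) z = _ := h8.deriv
    rw [c, b, h9]
    rcases n with _ | n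
    · simp
    · simp only [id, Pi.pow_apply, Nat.add_sub_cancel, pow_succ]
      field_simp

/-- comparison of the orders -/
theorem ord_Zero {J r u : ℂ → ℂ} {z₀ α β : ℂ} (hJ : AnalyticAt ℂ J z₀) (hr : AnalyticAt ℂ r z₀)
    (hu : ContinuousAt u z₀) (hu0 : u z₀ ≠ 0) {n e : ℕ} (hn : analyticOrderAt J z₀ = n)
    (he : analyticOrderAt r z₀ = e)
    (h : ∀ z, deriv J z * u z * r z = J z * (α * r z ^ 2 - β * deriv r z * u z)) :
    (n : ℂ) = -(β * e) := by
  obtain ⟨a1, a2⟩ := res_Zero hJ hn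
  obtain ⟨b1, b2⟩ := res_Zero hr he
  have h1 : ContinuousAt (fun z => (z - z₀) * (α * r z / u z)) z₀ :=
    (continuousAt_id.sub continuousAt_const).mul
      ((continuousAt_const.mul hr.continuousAt).div hu hu0)
  have h2 := (h1.tendsto.mono_left (nhdsWithin_le_nhds (s := {z₀}ᶜ))).sub (b2.const_mul β)
  simp only [sub_self, zero_mul, zero_sub] at h2
  refine tendsto_nhds_unique a2 (h2.congr' ?_)
  filter_upwards [a1, b1, nhdsWithin_le_nhds (hu.eventually_ne hu0)] with z a b c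
  have h3 := h z
  field_simp
  linear_combination (-(z - z₀)) * h3

/-- a zero of `r` that is not a zero of `u` -/
theorem pt_Zero {U A B c κ : ℝ} (hκ : 0 < κ) (hA : 0 < A) (hB : 0 < B) :
    ∃ z : ℂ, A * Complex.exp (2 * κ * z) + 2 * c + B * Complex.exp (-(2 * κ * z)) = 0 ∧
      U + 8 * c * z + 2 / κ * (A * Complex.exp (2 * κ * z) - B * Complex.exp (-(2 * κ * z)) -
        (A - B)) ≠ 0 := by
  have hκ' : (κ : ℂ) ≠ 0 := by exact_mod_cast hκ.ne'
  have hA' : (A : ℂ) ≠ 0 := by exact_mod_cast hA.ne'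
  have hB' : (B : ℂ) ≠ 0 := by exact_mod_cast hB.ne'
  have key : ∀ ω : ℂ, ω ≠ 0 → Complex.exp (2 * κ * (Complex.log ω / (2 * κ))) = ω := fun ω h => by
    rw [mul_div_cancel₀ _ (mul_ne_zero two_ne_zero hκ'), Complex.exp_log h]
  by_cases hc : c = 0
  · obtain ⟨t, ht, ht2⟩ : ∃ t : ℝ, 0 < t ∧ A * t ^ 2 = B :=
      ⟨√(B / A), Real.sqrt_pos.2 (div_pos hB hA), by
        rw [Real.sq_sqrt (div_pos hB hA).le]; field_simp⟩
    have ht' : (t : ℂ) ≠ 0 := by exact_mod_cast ht.ne'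
    have ht3 : (B : ℂ) = A * t ^ 2 := by exact_mod_cast ht2.symm
    have h1 : (t * Complex.I)⁻¹ = -(Complex.I / t) := by
      rw [mul_inv, Complex.inv_I]; ring
    refine ⟨Complex.log (t * Complex.I) / (2 * κ), ?_, fun h => ?_⟩
    · rw [Complex.exp_neg, key _ (mul_ne_zero ht' Complex.I_ne_zero), h1, hc, ht3]
      field_simp
      simp
    · rw [Complex.exp_neg, key _ (mul_ne_zero ht' Complex.I_ne_zero), h1, hc] at h
      have h2 : ((U - 2 / κ * (A - B) : ℝ) : ℂ) + ((4 / κ * (A * t) : ℝ) : ℂ) * Complex.I = 0 := by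
        rw [← h, ht3]
        push_cast
        rw [ht3]
        field_simp
        ring
      have h3 := congrArg Complex.im h2
      simp only [Complex.add_im, Complex.ofReal_im, Complex.mul_im, Complex.ofReal_re,
        Complex.I_im, Complex.I_re, Complex.zero_im, mul_one, mul_zero, zero_add, add_zero] at h3
      have : 0 < 4 / κ * (A * t) := by positivity
      linarith
  · obtain ⟨s, hs⟩ := IsAlgClosed.exists_pow_nat_eq ((c : ℂ) ^ 2 - A * B) two_pos
    have h1 : A * ((s - c) / A) ^ 2 + 2 * c * ((s - c) / A) + B = 0 := by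
      field_simp
      linear_combination hs
    generalize (s - c) / A = ω at h1
    have h2 : ω ≠ 0 := fun h => hB' (by simpa [h] using h1)
    have h3 : A * ω + 2 * c + B * ω⁻¹ = 0 := by
      field_simp
      linear_combination h1
    have h4 := key ω h2
    generalize Complex.log ω / (2 * κ) = z at h4
    have h5 : Complex.exp (2 * κ * (z + Real.pi * Complex.I / κ)) = ω := by
      rw [show 2 * κ * (z + Real.pi * Complex.I / κ) = 2 * κ * z + 2 * Real.pi * Complex.I by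
        field_simp, Complex.exp_add, h4, Complex.exp_two_pi_mul_I, mul_one]
    by_contra hcon
    push Not at hcon
    have h6 := hcon z (by rw [Complex.exp_neg, h4, h3])
    have h7 := hcon (z + Real.pi * Complex.I / κ) (by rw [Complex.exp_neg, h5, h3])
    rw [Complex.exp_neg, h4] at h6
    rw [Complex.exp_neg, h5] at h7
    have h8 : 8 * c * (Real.pi * Complex.I / κ) = 0 := by linear_combination h7 - h6
    have hc' : (c : ℂ) ≠ 0 := by exact_mod_cast hc
    have hp : (Real.pi : ℂ) ≠ 0 := by exact_mod_cast Real.pi_ne_zero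
    exact mul_ne_zero (mul_ne_zero (by norm_num) hc')
      (div_ne_zero (mul_ne_zero hp Complex.I_ne_zero) hκ') h8

theorem zero_st : ZeroSt := by
  rintro Q p U A B c κ j hp hp2 hκ hA hB ⟨⟨J, hJ, hJj⟩, hj0, ε, hε, h⟩
  have hκ' : (κ : ℂ) ≠ 0 := by exact_mod_cast hκ.ne'
  have hA' : (A : ℂ) ≠ 0 := by exact_mod_cast hA.ne'
  let r : ℂ → ℂ := fun z => A * Complex.exp (2 * κ * z) + 2 * c + B * Complex.exp (-(2 * κ * z))
  let d : ℂ → ℂ := fun z => A * Complex.exp (2 * κ * z) - B * Complex.exp (-(2 * κ * z))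
  let u : ℂ → ℂ := fun z => U + 8 * c * z + 2 / κ * (d z - (A - B))
  have e1 : ∀ z : ℂ, HasDerivAt (fun z : ℂ => Complex.exp (2 * κ * z))
      (Complex.exp (2 * κ * z) * (2 * κ)) z := fun z => by
    simpa using ((hasDerivAt_id z).const_mul (2 * κ : ℂ)).cexp
  have e2 : ∀ z : ℂ, HasDerivAt (fun z : ℂ => Complex.exp (-(2 * κ * z)))
      (Complex.exp (-(2 * κ * z)) * (-(2 * κ))) z := fun z => by
    simpa using ((hasDerivAt_id z).const_mul (2 * κ : ℂ)).neg.cexp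
  have r1 : deriv r = fun z => 2 * κ * d z := funext fun z => by
    have := ((((e1 z).const_mul (A : ℂ)).add_const (2 * c : ℂ)).add
      ((e2 z).const_mul (B : ℂ))).deriv
    refine Eq.trans this ?_
    simp only [d]; ring
  have r2 : ∀ z, deriv (deriv r) z = 4 * κ ^ 2 * (r z - 2 * c) := fun z => by
    have := ((((e1 z).const_mul (A : ℂ)).sub ((e2 z).const_mul (B : ℂ))).const_mul
      (2 * κ : ℂ)).deriv
    rw [r1]
    refine Eq.trans this ?_
    simp only [r]; ring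
  have ar : ∀ z, AnalyticAt ℂ r z := fun z => by simp only [r]; fun_prop
  have ad : ∀ z, AnalyticAt ℂ d z := fun z => by simp only [d]; fun_prop
  have au : ∀ z, AnalyticAt ℂ u z := fun z => by simp only [u]; fun_prop
  have aJ : ∀ z, AnalyticAt ℂ J z := hJ.analyticAt
  have key : (fun z => deriv J z * u z * r z) = fun z =>
      J z * (((2 * (Q + p - 2) : ℝ) : ℂ) * r z ^ 2 - (((p - 2) / 2 : ℝ) : ℂ) * deriv r z * u z) := by
    refine AnalyticOnNhd.eq_of_frequently_eq (z₀ := 0) (fun z _ => ?_) (fun z _ => ?_) ?_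
    · exact ((aJ z).deriv.mul (au z)).mul (ar z)
    · exact (aJ z).mul ((analyticAt_const.mul ((ar z).pow 2)).sub
        ((analyticAt_const.mul (ar z).deriv).mul (au z)))
    · have t1 : Tendsto (fun t : ℝ => (t : ℂ)) (𝓝[≠] 0) (𝓝[≠] 0) :=
        tendsto_nhdsWithin_of_tendsto_nhds_of_eventually_within _
          ((Complex.continuous_ofReal.tendsto' 0 0 (by simp)).mono_left nhdsWithin_le_nhds)
          (mem_of_superset self_mem_nhdsWithin fun t ht => by simpa using ht)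
      refine t1.frequently (Eventually.frequently ?_)
      filter_upwards [nhdsWithin_le_nhds (Ioo_mem_nhds (neg_lt_zero.2 hε) hε)] with t ht
      obtain ⟨h1, h2, h3⟩ := h t ht
      have h4 := (hJ t).hasDerivAt.comp_ofReal
      rw [funext hJj] at h4
      have h5 := h4.unique h3.ofReal_comp
      have h6 : r t = rr A B c κ t := by simp [r, rr]
      have h7 : d t = dd A B κ t := by simp [d, dd]
      have h8 : u t = uu U A B c κ t := by simp [u, uu, h7]
      have h1' : (uu U A B c κ t : ℂ) ≠ 0 := by exact_mod_cast h1.ne'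
      have h2' : (rr A B c κ t : ℂ) ≠ 0 := by exact_mod_cast h2
      rw [h5, r1, hJj]
      simp only [h6, h7, h8]
      push_cast
      field_simp
  obtain ⟨z, hz, hz'⟩ := pt_Zero (U := U) (c := c) hκ hA hB
  have hJ0 : analyticOrderAt J z ≠ ⊤ := fun h0 => by
    have h1 := congrFun ((AnalyticOnNhd.analyticOrderAt_eq_top_iff_eq_zero z aJ).1 h0) ((0 : ℝ) : ℂ)
    rw [hJj, hj0] at h1
    simp at h1
  have hr3 : ¬((3 : ℕ) : ℕ∞) ≤ analyticOrderAt r z := fun h0 => by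
    have h1 := (natCast_le_analyticOrderAt_iff_iteratedDeriv_eq_zero (ar z)).1 h0
    have h2 := h1 1 (by norm_num)
    have h3 := h1 2 (by norm_num)
    rw [iteratedDeriv_one, r1] at h2
    rw [iteratedDeriv_succ, iteratedDeriv_one, r2] at h3
    have h4 := (mul_eq_zero.1 h2).resolve_left (mul_ne_zero two_ne_zero hκ')
    have h5 := (mul_eq_zero.1 h3).resolve_left (mul_ne_zero (by norm_num) (pow_ne_zero 2 hκ'))
    simp only [r, d] at h4 h5
    refine mul_ne_zero hA' (Complex.exp_ne_zero (2 * κ * z)) ?_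
    linear_combination (h4 + h5) / 2
  have hr0 : analyticOrderAt r z ≠ 0 := (ar z).analyticOrderAt_ne_zero.2 hz
  obtain ⟨n, hn⟩ := ENat.ne_top_iff_exists.1 hJ0
  obtain ⟨e, he⟩ := ENat.ne_top_iff_exists.1 (fun h0 : analyticOrderAt r z = ⊤ => hr3 (h0 ▸ le_top))
  have h1 := ord_Zero (aJ z) (ar z) (au z).continuousAt hz' hn.symm he.symm (congrFun key)
  rw [← he] at hr3 hr0
  have h2 : (n : ℝ) = -((p - 2) / 2 * e) := by exact_mod_cast h1
  have h3 : e < 3 := by exact_mod_cast not_le.1 hr3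
  have h4 : 0 < e := Nat.pos_of_ne_zero (by exact_mod_cast hr0)
  have h5 : (e : ℝ) ≤ 2 := by exact_mod_cast Nat.le_of_lt_succ h3
  have h6 : (0 : ℝ) < e := by exact_mod_cast h4
  have h7 : (n : ℝ) < 1 := by nlinarith
  have h8 : n = 0 := by exact_mod_cast Nat.lt_one_iff.1 (by exact_mod_cast h7)
  rw [h8, Nat.cast_zero, eq_comm, neg_eq_zero, mul_eq_zero] at h2
  rcases h2 with h2 | h2
  · exact hp2 (by linarith)
  · exact h6.ne' h2

end Pool.Agent.MP_1048c2_an.Cl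

end

section
set_option linter.unusedSectionVars false

namespace Pool.Agent.MP_1048c2_an.Cl

open Filter Topology Set Module
open scoped InnerProductSpace

variable {m k : ℕ} {H V : Type} [NormedAddCommGroup H] [InnerProductSpace ℝ H]
  [NormedAddCommGroup V] [InnerProductSpace ℝ V] [FiniteDimensional ℝ H] [FiniteDimensional ℝ V]

theorem ent_zero_Cont {g : ℝ → ℝ} (hg : g ∈ Ent) {ε : ℝ} (hε : 0 < ε)
    (h : ∀ τ ∈ Ioo (-ε) ε, g τ = 0) (τ : ℝ) : g τ = 0 := by
  obtain ⟨F, hF, hFg⟩ := hg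
  have hA : AnalyticOnNhd ℂ F univ := hF.differentiableOn.analyticOnNhd isOpen_univ
  have hfr : ∃ᶠ z in 𝓝[≠] (0 : ℂ), F z = 0 := by
    have ht : Tendsto (fun t : ℝ => (t : ℂ)) (𝓝[≠] 0) (𝓝[≠] 0) := by
      apply tendsto_nhdsWithin_iff.2
      refine ⟨?_, ?_⟩
      · have := (Complex.continuous_ofReal.tendsto 0).mono_left
          (nhdsWithin_le_nhds (s := ({0}ᶜ : Set ℝ)))
        simpa using this
      · filter_upwards [self_mem_nhdsWithin] with t ht
        simpa using ht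
    apply ht.frequently
    apply Eventually.frequently
    have : Ioo (-ε) ε ∈ 𝓝[≠] (0 : ℝ) :=
      mem_nhdsWithin_of_mem_nhds (Ioo_mem_nhds (by linarith) hε)
    filter_upwards [this] with t ht
    rw [hFg, h t ht]; simp
  have := hA.eqOn_zero_of_preconnected_of_frequently_eq_zero isPreconnected_univ (mem_univ 0) hfr
    (mem_univ (τ : ℂ))
  rw [hFg] at this
  simpa using this

theorem uu_ent_Cont (U A B c κ : ℝ) : uu U A B c κ ∈ Ent := by
  refine ⟨fun z => U + 8 * c * z + 2 / κ * (A * Complex.exp (2 * κ * z) -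
    B * Complex.exp (-(2 * κ * z)) - (A - B)), by fun_prop, fun t => ?_⟩
  simp [uu, dd]

theorem uu_deriv_Cont (U A B c κ τ : ℝ) (hκ : 0 < κ) :
    HasDerivAt (uu U A B c κ) (4 * rr A B c κ τ) τ := by
  have h1 : HasDerivAt (fun τ => 2 * κ * τ) (2 * κ) τ := by
    simpa using (hasDerivAt_id τ).const_mul (2 * κ)
  have h2 : HasDerivAt (fun τ => 8 * c * τ) (8 * c) τ := by
    simpa using (hasDerivAt_id τ).const_mul (8 * c)
  have h3 := (((h1.exp.const_mul A).sub (h1.neg.exp.const_mul B)).sub_const (A - B)).const_mul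
    (2 / κ)
  have h4 := (h2.const_add U).add h3
  refine HasDerivAt.congr_deriv (f := uu U A B c κ) h4 ?_
  simp only [rr, Pi.neg_apply]
  field_simp
  ring

theorem cont_st : ContSt := by
  intro U A B c κ n j hκ ⟨hj, hj0, ε, hε, hd⟩
  have hu0 : uu U A B c κ 0 = U := by simp [uu, dd]
  have hder : ∀ τ ∈ Ioo (-ε) ε, HasDerivAt (fun τ => j τ / uu U A B c κ τ ^ n) 0 τ := by
    intro τ hτ
    obtain ⟨hp, -, hjd⟩ := hd τ hτ
    have := hjd.div ((uu_deriv_Cont U A B c κ τ hκ).pow n) (pow_pos hp n).ne'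
    refine HasDerivAt.congr_deriv (f := fun τ => j τ / uu U A B c κ τ ^ n) this ?_
    rw [div_eq_zero_iff]
    left
    simp only [Pi.pow_apply]
    rcases n with _ | n
    · simp
    · simp only [Nat.add_sub_cancel]
      push_cast
      field_simp
      ring
  have hconst : ∀ τ ∈ Ioo (-ε) ε, j τ / uu U A B c κ τ ^ n = j 0 / uu U A B c κ 0 ^ n := by
    intro τ hτ
    exact isOpen_Ioo.is_const_of_deriv_eq_zero isPreconnected_Ioo
      (fun x hx => (hder x hx).differentiableAt.differentiableWithinAt)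
      (fun x hx => (hder x hx).deriv) hτ ⟨by linarith, hε⟩
  have hU : 0 < U := hu0 ▸ (hd 0 ⟨by linarith, hε⟩).1
  have hg : (fun τ => j τ * U ^ n - uu U A B c κ τ ^ n) ∈ Ent :=
    Ent.sub_mem (Ent.mul_mem hj (Ent.algebraMap_mem (U ^ n)))
      (Ent.pow_mem (uu_ent_Cont U A B c κ) n)
  intro τ
  refine sub_eq_zero.1 (ent_zero_Cont hg hε (fun τ hτ => ?_) τ)
  have h1 := hconst τ hτ
  have hp := (hd τ hτ).1
  rw [hj0, hu0, div_eq_div_iff (pow_pos hp n).ne' (pow_pos hU n).ne'] at h1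
  simp only [h1]
  ring

end Pool.Agent.MP_1048c2_an.Cl

end

section
/-!
Independence of time and exponential.
-/

set_option linter.unusedSectionVars false

namespace Pool.Agent.MP_1048c2_an.Cl

open Filter Topology Set Module
open scoped InnerProductSpace

theorem rep_Poly {F : ℝ × ℝ → ℝ} (hF : F ∈ LP) :
    ∃ (P : Polynomial (Polynomial ℝ)) (d : ℕ), ∀ t w, w ≠ 0 →
      F (t, w) * w ^ d = P.evalEval t w := by
  induction hF using Algebra.adjoin_induction with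
  | mem f hf =>
    rcases hf with rfl | rfl | rfl
    · exact ⟨Polynomial.C Polynomial.X, 0, fun t w _ => by simp [Polynomial.evalEval_C]⟩
    · exact ⟨Polynomial.X, 0, fun t w _ => by simp⟩
    · exact ⟨1, 1, fun t w hw => by simp [hw]⟩
  | algebraMap c => exact ⟨Polynomial.C (Polynomial.C c), 0, fun t w _ => by simp⟩
  | add f g _ _ hf hg =>
    obtain ⟨P, d, h1⟩ := hf
    obtain ⟨Q, e, h2⟩ := hg
    refine ⟨P * Polynomial.X ^ e + Q * Polynomial.X ^ d, d + e, fun t w hw => ?_⟩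
    simp only [Polynomial.evalEval_add, Polynomial.evalEval_mul, Polynomial.evalEval_pow,
      Polynomial.evalEval_X, ← h1 t w hw, ← h2 t w hw, Pi.add_apply]
    ring
  | mul f g _ _ hf hg =>
    obtain ⟨P, d, h1⟩ := hf
    obtain ⟨Q, e, h2⟩ := hg
    refine ⟨P * Q, d + e, fun t w hw => ?_⟩
    simp only [Polynomial.evalEval_mul, ← h1 t w hw, ← h2 t w hw, Pi.mul_apply]
    ring

theorem geo_Poly (a : Polynomial ℝ) (h r : ℝ) (hr : |r| < 1) :
    Tendsto (fun n : ℕ => a.eval (n * h) * r ^ n) atTop (𝓝 0) := by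
  induction a using Polynomial.induction_on' with
  | add a b ha hb => simpa [add_mul] using ha.add hb
  | monomial j c =>
    have := (tendsto_pow_const_mul_const_pow_of_abs_lt_one j hr).const_mul (c * h ^ j)
    rw [mul_zero] at this
    refine this.congr fun n => ?_
    simp only [Polynomial.eval_monomial, mul_pow]
    ring

theorem zero_Poly (a : Polynomial ℝ) (h : ℝ) (hh : 0 < h)
    (ha : Tendsto (fun n : ℕ => a.eval (n * h)) atTop (𝓝 0)) : a = 0 := by
  rcases lt_or_ge 0 a.degree with h1 | h1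
  · have h2 := (Polynomial.abs_tendsto_atTop a h1).comp
      ((tendsto_natCast_atTop_atTop (R := ℝ)).atTop_mul_const hh)
    exact absurd ha.abs (not_tendsto_nhds_of_tendsto_atTop h2 _)
  · rw [Polynomial.eq_C_of_degree_le_zero h1] at ha ⊢
    simp only [Polynomial.eval_C, tendsto_const_nhds_iff] at ha
    rw [ha, map_zero]

theorem poly_st : PolySt := by
  intro F h q hF hh hq h0 t w hw
  obtain ⟨P, d, hP⟩ := rep_Poly hF
  have hq0 : 0 < q := by linarith
  have h1 : P = 0 := by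
    rw [← Polynomial.leadingCoeff_eq_zero]
    refine zero_Poly _ h hh ?_
    have h2 : Tendsto (fun n : ℕ => -∑ i ∈ Finset.range P.natDegree,
        (P.coeff i).eval (n * h) * (q⁻¹ ^ (P.natDegree - i)) ^ n) atTop (𝓝 (-0)) := by
      refine Tendsto.neg ?_
      have := tendsto_finsetSum (Finset.range P.natDegree) fun i hi =>
        geo_Poly (P.coeff i) h (q⁻¹ ^ (P.natDegree - i)) (by
          rw [abs_of_pos (by positivity)]
          exact pow_lt_one₀ (by positivity) (inv_lt_one_of_one_lt₀ hq)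
            (by have := Finset.mem_range.1 hi; omega))
      simpa using this
    rw [neg_zero] at h2
    refine h2.congr fun n => ?_
    have h3 := hP (n * h) (q ^ n) (by positivity)
    rw [h0 n, zero_mul, Polynomial.evalEval,
      Polynomial.eval_eq_sum_range (p := P), Finset.sum_range_succ,
      Polynomial.eval_add, Polynomial.eval_finsetSum] at h3
    simp only [Polynomial.eval_mul, Polynomial.eval_pow, Polynomial.eval_C] at h3
    have h4 : (0 : ℝ) < (q ^ n) ^ P.natDegree := by positivity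
    refine mul_right_cancel₀ h4.ne' ?_
    rw [Polynomial.leadingCoeff, ← neg_eq_of_add_eq_zero_right h3.symm, neg_mul, Finset.sum_mul]
    congr 1
    refine Finset.sum_congr rfl fun i hi => ?_
    obtain ⟨j, hj⟩ := Nat.exists_eq_add_of_le (Finset.mem_range.1 hi).le
    rw [hj, Nat.add_sub_cancel_left, pow_add, ← pow_mul q⁻¹, mul_comm j n, pow_mul, inv_pow,
      inv_pow]
    field_simp
  have h2 := hP t w hw
  rw [h1, Polynomial.evalEval_zero] at h2
  exact (mul_eq_zero.1 h2).resolve_right (pow_ne_zero _ hw)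

end Pool.Agent.MP_1048c2_an.Cl

end

section
/-!
The equation of the Jacobian, the determinant identity and the local classification.
-/

set_option linter.unusedSectionVars false

namespace Pool.Agent.MP_1048c2_an.Cl

open Filter Topology Set Module
open scoped InnerProductSpace

variable {m k : ℕ} {H V : Type} [NormedAddCommGroup H] [InnerProductSpace ℝ H]
  [NormedAddCommGroup V] [InnerProductSpace ℝ V] [FiniteDimensional ℝ H] [FiniteDimensional ℝ V]

theorem hasDerivAt_uu (U A B c : ℝ) {κ : ℝ} (hκ : κ ≠ 0) (τ : ℝ) :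
    HasDerivAt (uu U A B c κ) (4 * rr A B c κ τ) τ := by
  have h1 := ((hasDerivAt_id τ).const_mul (2 * κ)).exp.const_mul A
  have h2 := ((hasDerivAt_id τ).const_mul (2 * κ)).neg.exp.const_mul B
  have h3 := (((hasDerivAt_id τ).const_mul (8 * c)).const_add U).add
    (((h1.sub h2).sub_const (A - B)).const_mul (2 / κ))
  refine h3.congr_deriv ?_
  simp only [rr, id, Pi.neg_apply]
  field_simp
  ring

theorem ch_st (G : HeisenbergType m k H V) (h1 : Ch1St G) (h2 : Ch2St) (h3 : SepSt H V) :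
    ChSt G := by
  intro p W u d hs hd hf x hx
  obtain ⟨hsm, hj⟩ := h3 d W hs.op hd
  set Φ : ℝ × H × V → H × V := fun y => (d.Z y.1 y.2, d.S y.1 y.2) with hΦ
  have hΦ0 : ∀ y ∈ W, Φ (0, y) = y := fun y hy => Prod.ext (hf y hy).2.1 (hf y hy).2.2.1
  have hc : ContinuousAt Φ (0, x) := hsm.continuousOn.continuousAt
    ((isOpen_univ.prod hs.op).mem_nhds ⟨mem_univ _, hx⟩)
  have hev : Φ ⁻¹' W ∈ 𝓝 ((0 : ℝ), x) := hc (by rw [hΦ0 x hx]; exact hs.op.mem_nhds hx)
  obtain ⟨I, hI, W0, hW0, hIW⟩ := mem_nhds_prod_iff.1 hev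
  obtain ⟨ε, hε, hI'⟩ := Metric.mem_nhds_iff.1 hI
  rw [Real.ball_eq_Ioo, zero_sub, zero_add] at hI'
  obtain ⟨W', hW1, hW2, hW3⟩ := mem_nhds_iff.1 (inter_mem hW0 (hs.op.mem_nhds hx))
  have hin : ∀ y ∈ W', ∀ τ ∈ Ioo (-ε) ε, Φ (τ, y) ∈ W := fun y hy τ hτ =>
    hIW (mk_mem_prod (hI' hτ) (hW1 hy).1)
  have hch : ∀ y ∈ W', ∀ τ ∈ Ioo (-ε) ε,
      xi G u (Φ (τ, y)) = d.Xi τ y ∧ la G u (Φ (τ, y)) = la G u y := fun y hy =>
    have h := hf y (hW1 hy).2
    h1 p W u y _ _ _ ε hs h.2.1 h.2.2.1 h.2.2.2.1 h.2.2.2.2.1 (hin y hy)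
  have hder : ∀ y ∈ W', ∀ τ ∈ Ioo (-ε) ε,
      HasDerivAt (fun t => Φ (t, y)) (vf G u (Φ (τ, y))) τ := fun y hy τ hτ => by
    have h := (hf y (hW1 hy).2).2.2.2.2.1 τ
    have h4 := h.1.prodMk h.2.1
    simp only [vf, hch y hy τ hτ]
    exact h4
  have hL := h2 (H × V) Φ (vf G u) W' x ε hW2 hW3
    (hsm.mono (prod_mono_right fun y hy => (hW1 hy).2)) hder fun τ hτ =>
      (hs.sm_vf.contDiffAt (hs.op.mem_nhds (hin x hW3 τ hτ))).differentiableAt (by norm_num)
  obtain ⟨hκ, -, -, -, -, hr⟩ := hf x hx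
  have hu : ∀ τ ∈ Ioo (-ε) ε, u (Φ (τ, x)) =
      uu (u x) (‖d.a x‖ ^ 2) (‖d.b x‖ ^ 2) ⟪d.a x, d.b x⟫_ℝ (d.κ x) τ := by
    have h0 : (0 : ℝ) ∈ Ioo (-ε) ε := ⟨by linarith, hε⟩
    have h5 : ∀ τ ∈ Ioo (-ε) ε, HasDerivAt (fun t => u (Φ (t, x)) -
        uu (u x) (‖d.a x‖ ^ 2) (‖d.b x‖ ^ 2) ⟪d.a x, d.b x⟫_ℝ (d.κ x) t) 0 τ := fun τ hτ => by
      have h6 := ((hs.d_u (hin x hW3 τ hτ)).comp_hasDerivAt τ (hder x hW3 τ hτ)).sub
        (hasDerivAt_uu (u x) (‖d.a x‖ ^ 2) (‖d.b x‖ ^ 2) ⟪d.a x, d.b x⟫_ℝ hκ.ne' τ)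
      rw [hs.du_vf (hin x hW3 τ hτ), ← (hr τ).1, sub_self] at h6
      exact h6
    intro τ hτ
    have h7 := isOpen_Ioo.is_const_of_deriv_eq_zero isPreconnected_Ioo
      (fun t ht => (h5 t ht).differentiableAt.differentiableWithinAt)
      (fun t ht => (h5 t ht).deriv) hτ h0
    simp only [hΦ0 x hx, uu, dd, mul_zero, neg_zero, Real.exp_zero, mul_one, sub_self,
      add_zero] at h7
    exact sub_eq_zero.1 h7
  refine ⟨(hj x hx).1, ?_, ε, hε, fun τ hτ => ⟨?_, ?_, ?_⟩⟩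
  · have : (fun y => (d.Z 0 y, d.S 0 y)) =ᶠ[𝓝 x] id :=
      mem_of_superset (hs.op.mem_nhds hx) hΦ0
    simp only [Sd.jac, this.fderiv_eq, fderiv_id]
    exact LinearMap.det_id
  · rw [← hu τ hτ]; exact hs.pos _ (hin x hW3 τ hτ)
  · rw [← (hr τ).1]; exact pow_ne_zero 2 (norm_ne_zero_iff.2 (hs.nz _ (hin x hW3 τ hτ)))
  · have h8 := hL τ hτ
    rw [hs.dv _ (hin x hW3 τ hτ), hu τ hτ, (hch x hW3 τ hτ).1] at h8
    rw [← (hr τ).1, ← (hr τ).2]
    exact h8

theorem lp_t : (fun y : ℝ × ℝ => y.1) ∈ LP := Algebra.subset_adjoin (by simp)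

theorem lp_w : (fun y : ℝ × ℝ => y.2) ∈ LP := Algebra.subset_adjoin (by simp)

theorem lp_i : (fun y : ℝ × ℝ => y.2⁻¹) ∈ LP := Algebra.subset_adjoin (by simp)

theorem lp_c (c : ℝ) : (fun _ : ℝ × ℝ => c) ∈ LP := LP.algebraMap_mem c

theorem p2a_st (G : HeisenbergType m k H V) (h1 : ChSt G) (h2 : ContSt) (h3 : SepSt H V)
    (h4 : PolySt) : P2aSt G := by
  intro W u d n hs hd hf hn x hx t w hw
  have hj := h1 2 W u d hs hd hf x hx
  have hQ : homDim m k = 2 * n := by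
    rw [homDim]; exact_mod_cast hn.symm
  have hκ := (hf x hx).1
  rw [hQ] at hj
  have h5 := h2 _ _ _ _ _ n _ hκ hj
  obtain ⟨h, hh, hcs⟩ : ∃ h : ℝ, 0 < h ∧ ∀ j : ℕ, Real.cos (d.ℓ x * (j * h) / 2) = 1 ∧
      Real.sin (d.ℓ x * (j * h) / 2) = 0 := by
    rcases lt_trichotomy (d.ℓ x) 0 with h | h | h
    · refine ⟨4 * Real.pi / -d.ℓ x, div_pos (by positivity) (by linarith), fun j => ?_⟩
      have : d.ℓ x * (j * (4 * Real.pi / -d.ℓ x)) / 2 = -(j * (2 * Real.pi)) := by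
        have := h.ne
        field_simp; ring
      rw [this, Real.cos_neg, Real.sin_neg, Real.cos_nat_mul_two_pi, ← zero_add (j * _ : ℝ),
        Real.sin_add_nat_mul_two_pi]
      simp
    · exact ⟨1, one_pos, fun j => by simp [h]⟩
    · refine ⟨4 * Real.pi / d.ℓ x, by positivity, fun j => ?_⟩
      have : d.ℓ x * (j * (4 * Real.pi / d.ℓ x)) / 2 = j * (2 * Real.pi) := by
        field_simp; ring
      rw [this, Real.cos_nat_mul_two_pi, ← zero_add (j * _ : ℝ), Real.sin_add_nat_mul_two_pi]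
      simp
  have hm1 : (fun y : ℝ × ℝ => (d.Pm x y.1 y.2).det) ∈ LP := by
    refine det_mem fun v => ?_
    simp only [Sd.Pm, ContinuousLinearMap.prod_apply, _root_.add_apply, _root_.sub_apply,
      _root_.smul_apply, ContinuousLinearMap.smulRight_apply]
    have c2 := LP.mul_mem (lp_c 2) lp_t
    exact ((((Vm.const _).smul lp_w).add ((Vm.const _).smul lp_i)).add
      ((((((Vm.const _).smul lp_w).sub ((Vm.const _).smul lp_i)).smul (lp_c _)).add
        (((((Vm.const _).smul lp_w).add ((Vm.const _).smul lp_i)).smul (lp_c _)).smul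
          (lp_c _))).smul lp_t)).prod
      ((((Vm.const _).add ((Vm.const _).smul lp_t)).add
        (((Vm.const _).add ((Vm.const _).smul c2)).smul (LP.pow_mem lp_w 2))).sub
        (((Vm.const _).sub ((Vm.const _).smul c2)).smul (LP.pow_mem lp_i 2)))
  have hm2 : (fun y : ℝ × ℝ => u x + 8 * ⟪d.a x, d.b x⟫_ℝ * y.1 + 2 / d.κ x *
      (‖d.a x‖ ^ 2 * y.2 ^ 2 - ‖d.b x‖ ^ 2 * y.2⁻¹ ^ 2 - (‖d.a x‖ ^ 2 - ‖d.b x‖ ^ 2))) ∈ LP :=
    LP.add_mem (LP.add_mem (lp_c _) (LP.mul_mem (lp_c _) lp_t)) (LP.mul_mem (lp_c _)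
      (LP.sub_mem (LP.sub_mem (LP.mul_mem (lp_c _) (LP.pow_mem lp_w 2))
        (LP.mul_mem (lp_c _) (LP.pow_mem lp_i 2))) (lp_c _)))
  have h6 := h4 _ h (Real.exp (d.κ x * h)) (LP.sub_mem (LP.mul_mem hm1 (lp_c (u x ^ n)))
    (LP.pow_mem hm2 n)) hh (Real.one_lt_exp_iff.2 (mul_pos hκ hh)) (fun j => by
      have h7 := h5 (j * h)
      have h8 : Real.exp (d.κ x * h) ^ j = Real.exp (d.κ x * (j * h)) := by
        rw [← Real.exp_nat_mul]; congr 1; ring
      have h9 : Real.exp (2 * d.κ x * (j * h)) = Real.exp (d.κ x * (j * h)) ^ 2 := by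
        rw [← Real.exp_nat_mul]; congr 1; push_cast; ring
      rw [Sd.jac, ((h3 d W hs.op hd).2 x hx).2 _ (hcs j).1 (hcs j).2, uu, dd, Real.exp_neg, h9,
        ← inv_pow] at h7
      simp only [Pi.sub_apply, Pi.mul_apply, Pi.pow_apply, h8]
      exact sub_eq_zero.2 h7) t w hw.ne'
  exact sub_eq_zero.1 h6

theorem loc_st (G : HeisenbergType m k H V) (hCh : ChSt G) (hO1 : Ode1St G) (hO0 : Ode0St G)
    (hZ : ZeroSt) (hA : P2aSt G) (hB : P2bSt G) (hz : P2zSt G) (hC : P2cSt G) (hT : TransSt G)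
    (hTh : ThirdSt G) (hR : RadSt G) : LocSt G := by
  intro p W u hk hp hne hs
  obtain ⟨n', hn'⟩ := m_even G hk
  have hn : 2 * (n' + k) = m + 2 * k := by omega
  have hs1 := hs.mono hs.op_W1 fun _ hx => hx.1
  have hca := hs.sm_fa.continuousOn
  have hcb := hs.sm_fb.continuousOn
  have case1 : ∀ x ∈ W1 G u W, fa G u x = 0 ∨ fb G u x = 0 := by
    intro x hx
    by_contra h
    push Not at h
    obtain ⟨hsm, hfl⟩ := hO1 p W u hs
    by_cases hp2 : p = 2
    · subst hp2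
      have hop : IsOpen {y ∈ W1 G u W | fa G u y ≠ 0 ∧ fb G u y ≠ 0} :=
        ((hca.prodMk hcb).mono W1_subset).isOpen_inter_preimage hs.op_W1
          (isOpen_ne.prod isOpen_ne)
      refine hne ⟨rfl, hTh _ _ (hT _ u (hs.mono hop fun _ hy => hy.1.1) fun y hy => ?_) ⟨x, hx, h⟩⟩
      have h1 := hA _ u _ _ hs1 hsm hfl hn y hy.1
      exact ⟨hy.1.2.1, hy.2.1, hy.2.2, hB W u _ hk hs hn y hy.1 hy.2.1 hy.2.2 h1,
        hC W u _ hs hn y hy.1 hy.2.1 hy.2.2 (h1 0)⟩
    · exact hZ _ p _ _ _ _ _ _ hp hp2 (hfl x hx).1 (pow_pos (norm_pos_iff.2 h.1) 2)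
        (pow_pos (norm_pos_iff.2 h.2) 2) (hCh p _ u _ hs1 hsm hfl x hx)
  have case0 : ∀ x ∈ W, (∀ᶠ y in 𝓝 x, la G u y = 0) → fa G u x = 0 ∨ fb G u x = 0 := by
    intro x hx h0
    obtain ⟨W', h1, h2, h3⟩ := mem_nhds_iff.1 (inter_mem h0 (hs.op.mem_nhds hx))
    have hs0 := hs.mono h2 fun _ hy => (h1 hy).2
    obtain ⟨hsm, hfl⟩ := hO0 p W' u hs0 fun y hy => (h1 hy).1
    by_contra h
    push Not at h
    by_cases hp2 : p = 2
    · subst hp2
      exact h.1 (hz W' u _ hk hn x h3 (hs.pos x hx) (hA _ u _ _ hs0 hsm hfl hn x h3 0))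
    · exact hZ _ p _ _ _ _ _ _ hp hp2 (hfl x h3).1 (pow_pos (norm_pos_iff.2 h.1) 2)
        (pow_pos (norm_pos_iff.2 h.2) 2) (hCh p _ u _ hs0 hsm hfl x h3)
  refine hR p _ u hp (hs.mono hs.op_Ws (sep_subset _ _)) fun x hx => ?_
  have key : fa G u x = 0 ∨ fb G u x = 0 := by
    by_cases h0 : ∀ᶠ y in 𝓝 x, la G u y = 0
    · exact case0 x hx.1 h0
    · by_contra h
      push Not at h
      have hn1 := hs.op_Ws.mem_nhds hx
      refine h0 ?_
      filter_upwards [hn1, (hca.continuousAt hn1).eventually_ne h.1,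
        (hcb.continuousAt hn1).eventually_ne h.2] with y h1 h2 h3
      by_contra h4
      exact (case1 y ⟨h1.1, h1.2, h4⟩).elim h2 h3
  rw [← fa_sub_fb hx.2, ← fa_add_fb (G := G) u x]
  rcases key with h | h
  · exact ⟨-kap G u x, by rw [h]; module⟩
  · exact ⟨kap G u x, by rw [h]; module⟩

end Pool.Agent.MP_1048c2_an.Cl

end
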